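import Pool.Agent.MST.LP
import Pool.Agent.MST.CH
import Pool.Agent.MST.KF
import Pool.Agent.AEL.Defs

/-!
Definitions for the exceptional set theorem for diagonal dilations of densities on the hemisphere.
-/

namespace Pool.Agent.AXD

open MeasureTheory Set Pool.Agent.MP_6cbfb8_an Pool.Agent.MST
open scoped ENNReal Real

/-- The diagonal quadratic form `∑ l_i w_i²`. -/
noncomputable def ql {m : ℕ} (l : Fin m → ℝ) (w : E m) : ℝ := ∑ i, l i * w i ^ 2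

/-- The complex number `1 + 2 i τ`. -/
noncomputable def zt (τ : ℝ) : ℂ := 1 + 2 * (τ : ℂ) * Complex.I

/-- The Fourier transform of `s ↦ exp (-π (1 + 2 i τ) s²)`. -/
noncomputable def gg (τ t : ℝ) : ℂ :=
  (zt τ) ^ (-(1 / 2) : ℂ) * Complex.exp (-(π * (t : ℂ) ^ 2 / zt τ))

/-- The amplitude: the Fourier transform in the height variable of a frequency-localised delta
function of the quadric `∑ l_i w_i² + s² = c`, for `w` in a cube. -/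
noncomputable def am {m : ℕ} (ρ : ℝ) (A : ℝ → ℂ) (a b : ℝ) (l : (Fin m → ℝ) × ℝ) (t : ℝ)
    (w : E m) : ℂ :=
  if ∀ i, |w i| ≤ ρ then
    ∫ τ in a..b, A τ * gg τ t * Complex.exp (-(π * zt τ * ((ql l.1 w - l.2 : ℝ) : ℂ))) else 0

/-- The operator. -/
noncomputable def op {m : ℕ} (ρ : ℝ) (A : ℝ → ℂ) (a b : ℝ) (l : (Fin m → ℝ) × ℝ) (t : ℝ)
    (G : E m → ℂ) (y : E m) : ℂ := ∫ w : E m, G w * am ρ A a b l t w * ex (inner ℝ w y)

/-- The constant weight. -/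
def one : ℝ → ℂ := fun _ => 1

/-- The sum of the absolute values of the dyadic pieces. -/
noncomputable def Phi {m : ℕ} (ρ : ℝ) (l : (Fin m → ℝ) × ℝ) (t : ℝ) (G : E m → ℂ) (y : E m) :
    ℝ≥0∞ :=
  ‖op ρ one (-1) 1 l t G y‖ₑ + ∑' k : ℕ, (‖op ρ one ((2:ℝ) ^ k) (2 * (2:ℝ) ^ k) l t G y‖ₑ +
    ‖op ρ one (-(2 * (2:ℝ) ^ k)) (-((2:ℝ) ^ k)) l t G y‖ₑ)

/-- Gaussian weight. -/
noncomputable def gw {m : ℕ} (l : (Fin m → ℝ) × ℝ) : ℝ :=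
  Real.exp (-(π * ((∑ i, l.1 i ^ 2) + l.2 ^ 2)))

/-- Gaussian measure on the parameters. -/
noncomputable def mu (m : ℕ) : Measure ((Fin m → ℝ) × ℝ) :=
  volume.withDensity fun l => ENNReal.ofReal (gw l)

/-- The fourth power of the piece with the weight `|t| ^ θ`. -/
noncomputable def L4 {m : ℕ} (ρ θ : ℝ) (A : ℝ → ℂ) (a b : ℝ) (G : E m → ℂ)
    (l : (Fin m → ℝ) × ℝ) : ℝ≥0∞ :=
  ∫⁻ t : ℝ, ENNReal.ofReal (|t| ^ θ) * ∫⁻ y : E m, ‖op ρ A a b l t G y‖ₑ ^ (4:ℝ)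

/-- The value `∑ ± τ_j w_j²` for the parallelogram `w, w - y - z` (sign `+`), `w - y, w - z`. -/
noncomputable def bb (τ : Fin 4 → ℝ) (w y z : ℝ) : ℝ :=
  τ 0 * w ^ 2 + τ 1 * (w - y - z) ^ 2 - τ 2 * (w - y) ^ 2 - τ 3 * (w - z) ^ 2

/-- The signed sum of the frequencies. -/
noncomputable def ss (τ : Fin 4 → ℝ) : ℝ := τ 0 + τ 1 - τ 2 - τ 3

/-- The signed sum of `2 τ / (1 + 4 τ²)`. -/
noncomputable def sg (τ : Fin 4 → ℝ) : ℝ :=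
  2 * τ 0 / (1 + 4 * τ 0 ^ 2) + 2 * τ 1 / (1 + 4 * τ 1 ^ 2) - 2 * τ 2 / (1 + 4 * τ 2 ^ 2) -
    2 * τ 3 / (1 + 4 * τ 3 ^ 2)

/-- The box `[R, 2R]^4`. -/
def Box (R : ℝ) : Set (Fin 4 → ℝ) := {t | ∀ i, R ≤ t i ∧ t i ≤ 2 * R}

/-- The four points of a parallelogram are in the cube. -/
def inC (ρ w y z : ℝ) : Prop := |w| ≤ ρ ∧ |w - y - z| ≤ ρ ∧ |w - y| ≤ ρ ∧ |w - z| ≤ ρ

/-- The factor of one coordinate in the kernel. -/
noncomputable def fc (ρ : ℝ) (τ : Fin 4 → ℝ) (x : ℝ × ℝ × ℝ) : ℝ≥0∞ :=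
  {x : ℝ × ℝ × ℝ | inC ρ x.1 x.2.1 x.2.2}.indicator
    (fun x => ENNReal.ofReal (Real.exp (-(π * bb τ x.1 x.2.1 x.2.2 ^ 2)))) x

/-- Weight of the frequencies in the bound of the kernel. -/
noncomputable def kw (R : ℝ) (τ : Fin 4 → ℝ) : ℝ :=
  (R ^ 2)⁻¹ * ((R ^ 2)⁻¹ + |sg τ|)⁻¹ * Real.exp (-(π * ss τ ^ 2))

/-- The measure on the parameters `(l, c, t)`. -/
noncomputable def nu (m : ℕ) (θ T : ℝ) : Measure (((Fin m → ℝ) × ℝ) × ℝ) :=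
  ((volume : Measure ((Fin m → ℝ) × ℝ)).withDensity fun l =>
    ENNReal.ofReal (Real.exp (-(π / 2 * ((∑ i, l.1 i ^ 2) + l.2 ^ 2))))).prod
  ((volume : Measure ℝ).withDensity fun t =>
    ENNReal.ofReal (|t| ^ θ * Real.exp (-(π * t ^ 2 / T ^ 2))))

/-- The amplitude with a Gaussian factor in the parameters. -/
noncomputable def amG {m : ℕ} (ρ : ℝ) (A : ℝ → ℂ) (a b : ℝ) (p : ((Fin m → ℝ) × ℝ) × ℝ)
    (w : E m) : ℂ :=
  ((Real.exp (-(π / 8 * ((∑ i, p.1.1 i ^ 2) + p.1.2 ^ 2))) : ℝ) : ℂ) * am ρ A a b p.1 p.2 w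

/-- The weight `((1 + 2 i τ) / (5R))^k`. -/
noncomputable def pw (R : ℝ) (k : ℕ) (τ : ℝ) : ℂ := (zt τ / ((5 * R : ℝ) : ℂ)) ^ k

/-- The function `G` times a monomial of degree `2k`, cut off to the cube. -/
noncomputable def Gs {m : ℕ} (ρ : ℝ) (G : E m → ℂ) (k : ℕ) (s : Fin k → Fin m) (w : E m) : ℂ :=
  if ∀ i, |w i| ≤ ρ then G w * ((∏ r, (w (s r) ^ 2 / ρ ^ 2) : ℝ) : ℂ) else 0

/-- The mean of `L4` over the ray through `(l, 1)`. -/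
noncomputable def HH {m : ℕ} (ρ θ : ℝ) (k : ℕ) (l : Fin m → ℝ) (G : E m → ℂ) : ℝ≥0∞ :=
  ∫⁻ κ in Icc (1:ℝ) 2, L4 ρ θ one ((2:ℝ) ^ k) (2 * (2:ℝ) ^ k) G (κ • l, κ)

/-- The complex conjugate of a function. -/
noncomputable def cj {m : ℕ} (G : E m → ℂ) (w : E m) : ℂ := (starRingEnd ℂ) (G w)

/-- The cube in the space of forms. -/
def cb (m : ℕ) (K : ℝ) : Set (Fin m → ℝ) := {l | ∀ i, |l i| ≤ K}

/-- The Fourier transform of the density `G` on the projected ellipsoid, both signs of the height. -/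
noncomputable def EE {m : ℕ} (l : Fin m → ℝ) (G : E m → ℂ) (y : E m) (t : ℝ) : ℂ :=
  ∫ w : E m, (if ql l w < 1 then G w * ((Real.cos (2 * π * t * √(1 - ql l w)) /
    √(1 - ql l w) : ℝ) : ℂ) else 0) * ex (inner ℝ w y)

/-- The partial integrals of the inverse Fourier transform of `gg`. -/
noncomputable def PP (T t V : ℝ) : ℂ :=
  ∫ τ in (-T)..T, gg τ t * Complex.exp (-(π * zt τ * (V : ℂ)))

/-- The density `x ↦ G (a_1 x_1, …, a_m x_m)` on `R^(m+1)`. -/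
noncomputable def dd {m : ℕ} (a : Fin m → ℝ) (G : E m → ℂ) (x : E (m + 1)) : ℂ :=
  G (WithLp.toLp 2 fun i => a i * x i.castSucc)

end Pool.Agent.AXD
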