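import Pool.Agent.AXD.Defs

namespace Pool.Agent.AXD

open MeasureTheory Set Pool.Agent.MP_6cbfb8_an Pool.Agent.MST
open scoped ENNReal Real

theorem hpdx_sq (φ : ℝ → ℝ≥0∞) (v : ℝ) :
    ∫⁻ r in Ioi (0:ℝ), ENNReal.ofReal r * φ (r ^ 2 + v) ≤ ∫⁻ s, φ s := by
  have h := lintegral_image_eq_lintegral_abs_deriv_mul (s := Ioi (0:ℝ))
    (f := fun r : ℝ => r ^ 2 + v) (f' := fun r => 2 * r) measurableSet_Ioi
    (fun x _ => by
      have h1 := ((hasDerivAt_pow 2 x).add_const v).hasDerivWithinAt (s := Ioi (0:ℝ))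
      simpa using h1)
    (fun x hx y hy hxy => by
      simp only [add_left_inj] at hxy
      have hx' : (0:ℝ) < x := hx
      have hy' : (0:ℝ) < y := hy
      exact (pow_left_inj₀ hx'.le hy'.le (by norm_num)).1 hxy) φ
  calc ∫⁻ r in Ioi (0:ℝ), ENNReal.ofReal r * φ (r ^ 2 + v)
      ≤ ∫⁻ r in Ioi (0:ℝ), ENNReal.ofReal |2 * r| * φ (r ^ 2 + v) := by
        refine setLIntegral_mono' measurableSet_Ioi fun r hr => ?_
        have hr' : (0:ℝ) < r := hr
        refine mul_le_mul_left (ENNReal.ofReal_le_ofReal ?_) _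
        rw [abs_of_pos (by positivity)]
        linarith
    _ = ∫⁻ x in (fun r : ℝ => r ^ 2 + v) '' Ioi 0, φ x := h.symm
    _ ≤ ∫⁻ s, φ s := setLIntegral_le_lintegral _ _

theorem hpdx_plane (φ : ℝ → ℝ≥0∞) (hφ : Measurable φ) (v : ℝ) :
    ∫⁻ p : ℝ × ℝ, φ (p.1 ^ 2 + p.2 ^ 2 + v) ≤ ENNReal.ofReal (2 * π) * ∫⁻ s, φ s := by
  rw [← lintegral_comp_polarCoord_symm fun p : ℝ × ℝ => φ (p.1 ^ 2 + p.2 ^ 2 + v)]
  have h1 : ∀ p : ℝ × ℝ, ENNReal.ofReal p.1 • φ ((polarCoord.symm p).1 ^ 2 +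
      (polarCoord.symm p).2 ^ 2 + v) = ENNReal.ofReal p.1 * φ (p.1 ^ 2 + v) := by
    intro p
    rw [polarCoord_symm_apply, smul_eq_mul]
    congr 2
    have := Real.sin_sq_add_cos_sq p.2
    simp only []
    nlinarith [this]
  simp only [h1]
  rw [polarCoord_target, Measure.volume_eq_prod, ← Measure.prod_restrict,
    lintegral_prod _ (by fun_prop)]
  simp only [lintegral_const, Measure.restrict_apply_univ, Real.volume_Ioo]
  rw [lintegral_mul_const _ (by fun_prop), mul_comm]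
  refine mul_le_mul' (ENNReal.ofReal_le_ofReal (by linarith)) (hpdx_sq φ v)

theorem hpdx_scale {a : ℝ} (ha : 0 < a) (f : ℝ → ℝ≥0∞) (hf : Measurable f) :
    ∫⁻ x : ℝ, f (a * x) = ENNReal.ofReal a⁻¹ * ∫⁻ x, f x := by
  have h1 := Real.map_volume_mul_left ha.ne'
  have h2 : ∫⁻ x : ℝ, f (a * x) = ∫⁻ y, f y ∂(Measure.map (a * ·) volume) := by
    rw [lintegral_map hf (by fun_prop)]
  rw [h2, h1, lintegral_smul_measure, abs_of_pos (by positivity), smul_eq_mul]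

theorem hpdx_two (φ : ℝ → ℝ≥0∞) (hφ : Measurable φ) (v : ℝ) {a b : ℝ} (ha : 0 < a) (hb : 0 < b) :
    ∫⁻ x : ℝ, ∫⁻ y : ℝ, φ (a * x ^ 2 + (b * y ^ 2 + v)) ≤
      ENNReal.ofReal ((√a)⁻¹ * (√b)⁻¹ * (2 * π)) * ∫⁻ s, φ s := by
  have h1 : ∀ x : ℝ, ∫⁻ y : ℝ, φ (a * x ^ 2 + (b * y ^ 2 + v)) =
      ENNReal.ofReal (√b)⁻¹ * ∫⁻ y : ℝ, φ ((√a * x) ^ 2 + y ^ 2 + v) := by
    intro x
    rw [← hpdx_scale (Real.sqrt_pos.2 hb) (fun y => φ ((√a * x) ^ 2 + y ^ 2 + v)) (by fun_prop)]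
    refine lintegral_congr fun y => ?_
    congr 1
    rw [mul_pow, mul_pow, Real.sq_sqrt ha.le, Real.sq_sqrt hb.le]
    ring
  simp only [h1]
  rw [lintegral_const_mul _ (by
    exact (Measurable.lintegral_prod_right' (f := fun p : ℝ × ℝ => φ ((√a * p.1) ^ 2 + p.2 ^ 2 + v)) (by fun_prop)))]
  rw [hpdx_scale (Real.sqrt_pos.2 ha) (fun x => ∫⁻ y : ℝ, φ (x ^ 2 + y ^ 2 + v))
    (Measurable.lintegral_prod_right' (f := fun p : ℝ × ℝ => φ (p.1 ^ 2 + p.2 ^ 2 + v))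
      (by fun_prop))]
  have h2 := hpdx_plane φ hφ v
  rw [Measure.volume_eq_prod, lintegral_prod _ (by fun_prop)] at h2
  rw [← mul_assoc, ← ENNReal.ofReal_mul (by positivity)]
  calc ENNReal.ofReal ((√b)⁻¹ * (√a)⁻¹) * ∫⁻ x : ℝ, ∫⁻ y : ℝ, φ (x ^ 2 + y ^ 2 + v)
      ≤ ENNReal.ofReal ((√b)⁻¹ * (√a)⁻¹) * (ENNReal.ofReal (2 * π) * ∫⁻ s, φ s) :=
        mul_le_mul_right h2 _
    _ = _ := by
        rw [← mul_assoc, ← ENNReal.ofReal_mul (by positivity)]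
        congr 2
        ring


theorem hpdx_cons {n : ℕ} (F : (Fin (n + 1) → ℝ) → ℝ≥0∞) (hF : Measurable F) :
    ∫⁻ u, F u = ∫⁻ p : ℝ × (Fin n → ℝ), F (Fin.cons p.1 p.2) := by
  have h1 := ((volume_preserving_piFinSuccAbove (fun _ : Fin (n + 1) => ℝ) 0).symm).lintegral_comp
    hF
  rw [← h1]
  refine lintegral_congr fun p => ?_
  have h2 : (MeasurableEquiv.piFinSuccAbove (fun _ : Fin (n + 1) => ℝ) 0).symm p =
      Fin.cons p.1 p.2 := by
    show Fin.insertNth (α := fun _ : Fin (n + 1) => ℝ) 0 p.1 p.2 = _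
    exact Fin.insertNth_zero' _ _
  rw [h2]

theorem hpdx_meas {n : ℕ} (l : Fin n → ℝ) : Measurable fun u : Fin n → ℝ => ∑ i, l i * u i ^ 2 :=
  Finset.measurable_sum _ fun i _ => ((measurable_pi_apply i).pow_const 2).const_mul _

theorem hpdx_cube {n : ℕ} (ρ : ℝ) : MeasurableSet {u : Fin n → ℝ | ∀ i, |u i| ≤ ρ} := by
  have h1 : {u : Fin n → ℝ | ∀ i, |u i| ≤ ρ} = ⋂ i, {u : Fin n → ℝ | |u i| ≤ ρ} := by
    ext l
    simp
  rw [h1]
  refine MeasurableSet.iInter fun i => ?_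
  have h2 : Measurable fun l : Fin n → ℝ => |l i| := (measurable_pi_apply i).abs
  exact h2 measurableSet_Iic

theorem hpdx_vol {n : ℕ} (ρ : ℝ) : volume {u : Fin n → ℝ | ∀ i, |u i| ≤ ρ} < ∞ := by
  have h1 : {u : Fin n → ℝ | ∀ i, |u i| ≤ ρ} = Set.pi univ fun _ => Icc (-ρ) ρ := by
    ext u
    simp only [Set.mem_ofPred_eq, Set.mem_pi, mem_univ, true_imp_iff, mem_Icc, abs_le]
  rw [h1, volume_pi_pi]
  exact ENNReal.prod_lt_top fun i _ => by
    rw [Real.volume_Icc]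
    exact ENNReal.ofReal_lt_top

theorem hpdx_transfer {m : ℕ} (ρ : ℝ) (l : Fin m → ℝ) (φ : ℝ → ℝ≥0∞) (hφ : Measurable φ) :
    ∫⁻ w in {w : E m | ∀ i, |w i| ≤ ρ}, φ (ql l w) =
      ∫⁻ u in {u : Fin m → ℝ | ∀ i, |u i| ≤ ρ}, φ (∑ i, l i * u i ^ 2) := by
  rw [← (PiLp.volume_preserving_ofLp (Fin m)).setLIntegral_comp_preimage (hpdx_cube ρ)
    (f := fun u : Fin m → ℝ => φ (∑ i, l i * u i ^ 2)) (hφ.comp (hpdx_meas l))]
  rfl

theorem hpdx_dens {n : ℕ} (ρ : ℝ) (l : Fin (n + 2) → ℝ) (hl : ∀ i, 0 < l i) :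
    ∃ C : ℝ, 0 < C ∧ ∀ φ : ℝ → ℝ≥0∞, Measurable φ →
      ∫⁻ u in {u : Fin (n + 2) → ℝ | ∀ i, |u i| ≤ ρ}, φ (∑ i, l i * u i ^ 2) ≤
        ENNReal.ofReal C * ∫⁻ v, φ v := by
  obtain ⟨V, hV⟩ : ∃ V : ℝ, volume {u : Fin n → ℝ | ∀ i, |u i| ≤ ρ} = ENNReal.ofReal V := by
    refine ⟨(volume {u : Fin n → ℝ | ∀ i, |u i| ≤ ρ}).toReal, ?_⟩
    rw [ENNReal.ofReal_toReal (hpdx_vol ρ).ne]
  set c : ℝ := (√(l 0))⁻¹ * (√(l 1))⁻¹ * (2 * π) with hc
  have h0 := hl 0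
  have h1 := hl 1
  have hc0 : 0 < c := by
    have := Real.sqrt_pos.2 h0
    have := Real.sqrt_pos.2 h1
    positivity
  refine ⟨c * (|V| + 1), by positivity, fun φ hφ => ?_⟩
  set S : Set (Fin n → ℝ) := {u : Fin n → ℝ | ∀ i, |u i| ≤ ρ} with hS
  have hSm : MeasurableSet S := hpdx_cube ρ
  set v : (Fin n → ℝ) → ℝ := fun u => ∑ i, l i.succ.succ * u i ^ 2 with hv
  have hvm : Measurable v := hpdx_meas fun i : Fin n => l i.succ.succ
  set I : (Fin n → ℝ) → ℝ≥0∞ := S.indicator 1 with hI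
  have hIm : Measurable I := measurable_one.indicator hSm
  have hG : Measurable fun q : ℝ × ℝ × (Fin n → ℝ) =>
      I q.2.2 * φ (l 0 * q.1 ^ 2 + (l 1 * q.2.1 ^ 2 + v q.2.2)) := by
    have h2 : Measurable fun q : ℝ × ℝ × (Fin n → ℝ) => I q.2.2 :=
      hIm.comp (measurable_snd.comp measurable_snd)
    have h3 : Measurable fun q : ℝ × ℝ × (Fin n → ℝ) => v q.2.2 :=
      hvm.comp (measurable_snd.comp measurable_snd)
    exact h2.mul (hφ.comp (by fun_prop))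
  have hm1 : Measurable fun u : Fin (n + 2) → ℝ => φ (∑ i, l i * u i ^ 2) :=
    hφ.comp (hpdx_meas l)
  calc ∫⁻ u in {u : Fin (n + 2) → ℝ | ∀ i, |u i| ≤ ρ}, φ (∑ i, l i * u i ^ 2)
      = ∫⁻ u, {u : Fin (n + 2) → ℝ | ∀ i, |u i| ≤ ρ}.indicator
          (fun u => φ (∑ i, l i * u i ^ 2)) u := (lintegral_indicator (hpdx_cube ρ) _).symm
    _ = ∫⁻ p : ℝ × (Fin (n + 1) → ℝ), {u : Fin (n + 2) → ℝ | ∀ i, |u i| ≤ ρ}.indicator
          (fun u => φ (∑ i, l i * u i ^ 2)) (Fin.cons p.1 p.2) :=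
        hpdx_cons _ (hm1.indicator (hpdx_cube ρ))
    _ ≤ ∫⁻ p : ℝ × (Fin (n + 1) → ℝ), I (Fin.tail p.2) *
          φ (l 0 * p.1 ^ 2 + (l 1 * p.2 0 ^ 2 + v (Fin.tail p.2))) := by
        refine lintegral_mono fun p => ?_
        by_cases hp : Fin.cons (α := fun _ => ℝ) p.1 p.2 ∈ {u : Fin (n + 2) → ℝ | ∀ i, |u i| ≤ ρ}
        · rw [indicator_of_mem hp]
          have h4 : Fin.tail p.2 ∈ S := by
            intro i
            have := hp i.succ.succ
            simpa [Fin.tail] using this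
          rw [hI, indicator_of_mem h4, Pi.one_apply, one_mul]
          apply le_of_eq
          congr 1
          rw [Fin.sum_univ_succ, Fin.sum_univ_succ]
          simp [Fin.tail, hv]
        · rw [indicator_of_notMem hp]
          exact zero_le
    _ = ∫⁻ x : ℝ, ∫⁻ u : Fin (n + 1) → ℝ, I (Fin.tail u) *
          φ (l 0 * x ^ 2 + (l 1 * u 0 ^ 2 + v (Fin.tail u))) := by
        have h5 : Measurable fun u : Fin (n + 1) → ℝ => (Fin.tail u : Fin n → ℝ) :=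
          measurable_pi_lambda _ fun i => measurable_pi_apply _
        rw [Measure.volume_eq_prod, lintegral_prod _ ?_]
        refine (Measurable.aemeasurable ?_)
        have h6 : Measurable fun p : ℝ × (Fin (n + 1) → ℝ) => (p.1, p.2 0, (Fin.tail p.2 : Fin n → ℝ)) :=
          measurable_fst.prodMk (((measurable_pi_apply 0).comp measurable_snd).prodMk
            (h5.comp measurable_snd))
        exact hG.comp h6
    _ = ∫⁻ x : ℝ, ∫⁻ p : ℝ × (Fin n → ℝ), I p.2 *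
          φ (l 0 * x ^ 2 + (l 1 * p.1 ^ 2 + v p.2)) := by
        refine lintegral_congr fun x => ?_
        have h5 : Measurable fun u : Fin (n + 1) → ℝ => (x, u 0, (Fin.tail u : Fin n → ℝ)) :=
          measurable_const.prodMk ((measurable_pi_apply 0).prodMk
            (measurable_pi_lambda _ fun i => measurable_pi_apply _))
        rw [hpdx_cons (fun u : Fin (n + 1) → ℝ => I (Fin.tail u) *
          φ (l 0 * x ^ 2 + (l 1 * u 0 ^ 2 + v (Fin.tail u)))) (hG.comp h5)]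
        refine lintegral_congr fun p => ?_
        simp only [Fin.cons_zero, Fin.tail_cons]
    _ = ∫⁻ x : ℝ, ∫⁻ y : ℝ, ∫⁻ w : Fin n → ℝ, I w *
          φ (l 0 * x ^ 2 + (l 1 * y ^ 2 + v w)) := by
        refine lintegral_congr fun x => ?_
        have h6 : Measurable fun p : ℝ × (Fin n → ℝ) => (x, p.1, p.2) :=
          measurable_const.prodMk (measurable_fst.prodMk measurable_snd)
        rw [Measure.volume_eq_prod]
        exact lintegral_prod _ (hG.comp h6).aemeasurable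
    _ = ∫⁻ x : ℝ, ∫⁻ w : Fin n → ℝ, ∫⁻ y : ℝ, I w *
          φ (l 0 * x ^ 2 + (l 1 * y ^ 2 + v w)) := by
        refine lintegral_congr fun x => ?_
        have h6 : Measurable fun p : ℝ × (Fin n → ℝ) => (x, p.1, p.2) :=
          measurable_const.prodMk (measurable_fst.prodMk measurable_snd)
        exact lintegral_lintegral_swap (hG.comp h6).aemeasurable
    _ = ∫⁻ w : Fin n → ℝ, ∫⁻ x : ℝ, ∫⁻ y : ℝ, I w *
          φ (l 0 * x ^ 2 + (l 1 * y ^ 2 + v w)) := by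
        have h6 : Measurable fun q : (ℝ × (Fin n → ℝ)) × ℝ => (q.1.1, q.2, q.1.2) :=
          (measurable_fst.comp measurable_fst).prodMk (measurable_snd.prodMk
            (measurable_snd.comp measurable_fst))
        exact lintegral_lintegral_swap
          (f := fun (x : ℝ) (w : Fin n → ℝ) => ∫⁻ y : ℝ, I w *
            φ (l 0 * x ^ 2 + (l 1 * y ^ 2 + v w)))
          (Measurable.lintegral_prod_right' (hG.comp h6)).aemeasurable
    _ ≤ ∫⁻ w : Fin n → ℝ, I w * (ENNReal.ofReal c * ∫⁻ s, φ s) := by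
        refine lintegral_mono fun w => ?_
        have h7 : ∀ x : ℝ, ∫⁻ y : ℝ, I w * φ (l 0 * x ^ 2 + (l 1 * y ^ 2 + v w)) =
            I w * ∫⁻ y : ℝ, φ (l 0 * x ^ 2 + (l 1 * y ^ 2 + v w)) := fun x =>
          lintegral_const_mul _ (by fun_prop)
        simp only [h7]
        rw [lintegral_const_mul _ (Measurable.lintegral_prod_right'
          (f := fun p : ℝ × ℝ => φ (l 0 * p.1 ^ 2 + (l 1 * p.2 ^ 2 + v w))) (by fun_prop))]
        exact mul_le_mul_right (hpdx_two φ hφ (v w) h0 h1) _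
    _ = ENNReal.ofReal V * (ENNReal.ofReal c * ∫⁻ s, φ s) := by
        rw [lintegral_mul_const _ hIm, hI, lintegral_indicator_one hSm, hV]
    _ ≤ ENNReal.ofReal (c * (|V| + 1)) * ∫⁻ s, φ s := by
        rw [← mul_assoc]
        refine mul_le_mul_left ?_ _
        rw [← ENNReal.ofReal_mul' hc0.le]
        apply ENNReal.ofReal_le_ofReal
        have := le_abs_self V
        nlinarith

/-
ROW PD1 (0.8 h). dens: the pushforward of the volume of the cube under ql l has bounded density. E m ≃ᵐ Fin m → ℝ; separate the coordinates 0 and 1 (m ≥ 2); for fixed other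
coordinates (value v0 of the rest) ∫∫_{ℝ²} φ(l0 x² + l1 y² + v0) dx dy = (l0 l1)^(-1/2) ∫∫ φ(x² + y² + v0) = (l0 l1)^(-1/2) π ∫_0^∞ φ(r + v0) dr ≤ (l0 l1)^(-1/2) π ∫ φ
(lintegral_comp_polarCoord_symm, substitution r = s²; or the measure-level lemma of Mathlib/our files: grep polarCoord, lintegral_polar), then the other coordinates give
(2ρ)^(m-2) (if ρ < 0 the left side is 0). If ∫ φ = ∞ nothing to prove for C > 0.
ql_cube: 0 ≤ ql l w ≤ M on the cube. int_inv_sqrt: φ v = |v - 1|^(-1/2) for |v - 1| ≤ M' else 0.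
-/
theorem dens {m : ℕ} (hm : 2 ≤ m) (ρ : ℝ) (l : Fin m → ℝ) (hl : ∀ i, 0 < l i) :
    ∃ C : ℝ, 0 < C ∧ ∀ φ : ℝ → ℝ≥0∞, Measurable φ →
      ∫⁻ w in {w : E m | ∀ i, |w i| ≤ ρ}, φ (ql l w) ≤ ENNReal.ofReal C * ∫⁻ v, φ v := by
  obtain ⟨n, rfl⟩ : ∃ n, m = n + 2 := ⟨m - 2, by omega⟩
  obtain ⟨C, hC, h⟩ := hpdx_dens ρ l hl
  refine ⟨C, hC, fun φ hφ => ?_⟩
  rw [hpdx_transfer ρ l φ hφ]
  exact h φ hφ

theorem measurableSet_cube {m : ℕ} (ρ : ℝ) : MeasurableSet {w : E m | ∀ i, |w i| ≤ ρ} :=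
  (PiLp.volume_preserving_ofLp (Fin m)).measurable (hpdx_cube ρ)

theorem volume_cube {m : ℕ} (ρ : ℝ) : volume {w : E m | ∀ i, |w i| ≤ ρ} < ∞ := by
  have h := (PiLp.volume_preserving_ofLp (Fin m)).measure_preimage
    (hpdx_cube (n := m) ρ).nullMeasurableSet
  have h2 : volume {w : E m | ∀ i, |w i| ≤ ρ} = volume {u : Fin m → ℝ | ∀ i, |u i| ≤ ρ} := h
  rw [h2]
  exact hpdx_vol ρ

theorem hpdx_rpow (M : ℝ) (hM : 0 ≤ M) :
    ∫⁻ v : ℝ, (Icc (1 - M) (1 + M)).indicator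
      (fun v => ENNReal.ofReal (|v - 1| ^ (-(1 / 2) : ℝ))) v < ∞ := by
  rw [lintegral_indicator measurableSet_Icc]
  have h1 : IntegrableOn (fun v : ℝ => |v| ^ (-(1 / 2) : ℝ)) (Icc (-M) M) := by
    have h2 : IntervalIntegrable (fun v : ℝ => |v| ^ (-(1 / 2) : ℝ)) volume (-M) M := by
      have h3 : IntervalIntegrable (fun v : ℝ => |v| ^ (-(1 / 2) : ℝ)) volume 0 M := by
        refine (intervalIntegral.intervalIntegrable_rpow' (a := 0) (b := M)
          (r := (-(1 / 2) : ℝ)) (by norm_num)).congr ?_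
        intro x hx
        rw [uIoc_of_le hM] at hx
        show x ^ (-(1 / 2) : ℝ) = |x| ^ (-(1 / 2) : ℝ)
        rw [abs_of_pos hx.1]
      have h4 : IntervalIntegrable (fun v : ℝ => |v| ^ (-(1 / 2) : ℝ)) volume (-M) 0 := by
        have := (IntervalIntegrable.iff_comp_neg (by simp)).1 h3
        simp only [abs_neg, neg_zero] at this
        exact this.symm
      exact h4.trans h3
    rwa [intervalIntegrable_iff_integrableOn_Icc_of_le (by linarith)] at h2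
  have h5 : ∫⁻ v in Icc (1 - M) (1 + M), ENNReal.ofReal (|v - 1| ^ (-(1 / 2) : ℝ)) =
      ∫⁻ v in Icc (-M) M, ENNReal.ofReal (|v| ^ (-(1 / 2) : ℝ)) := by
    have h6 : (fun v : ℝ => v - 1) ⁻¹' (Icc (-M) M) = Icc (1 - M) (1 + M) := by
      ext v
      simp only [mem_preimage, mem_Icc]
      constructor <;> rintro ⟨a, b⟩ <;> constructor <;> linarith
    rw [← h6]
    exact (measurePreserving_sub_right volume (1:ℝ)).setLIntegral_comp_preimage measurableSet_Icc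
      (f := fun v : ℝ => ENNReal.ofReal (|v| ^ (-(1 / 2) : ℝ))) (by fun_prop)
  rw [h5]
  exact h1.lintegral_lt_top

theorem int_inv_sqrt {m : ℕ} (hm : 2 ≤ m) (ρ : ℝ) (l : Fin m → ℝ) (hl : ∀ i, 0 < l i) :
    ∫⁻ w in {w : E m | ∀ i, |w i| ≤ ρ}, ENNReal.ofReal (|ql l w - 1| ^ (-(1 / 2) : ℝ)) < ∞ := by
  obtain ⟨C, hC, h⟩ := dens hm ρ l hl
  set M : ℝ := 1 + ∑ i, l i * ρ ^ 2 with hM
  have hM0 : 0 ≤ M := by
    have : 0 ≤ ∑ i, l i * ρ ^ 2 := Finset.sum_nonneg fun i _ => by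
      have := hl i
      positivity
    linarith
  set φ : ℝ → ℝ≥0∞ := (Icc (1 - M) (1 + M)).indicator
    (fun v => ENNReal.ofReal (|v - 1| ^ (-(1 / 2) : ℝ))) with hφ
  have hφm : Measurable φ := by
    refine Measurable.indicator ?_ measurableSet_Icc
    fun_prop
  have h1 := h φ hφm
  refine lt_of_le_of_lt ?_ (lt_of_le_of_lt h1 (ENNReal.mul_lt_top ENNReal.ofReal_lt_top
    (hpdx_rpow M hM0)))
  refine setLIntegral_mono' (measurableSet_cube ρ) fun w hw => ?_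
  have h2 : 0 ≤ ql l w := Finset.sum_nonneg fun i _ => by
    have := hl i
    positivity
  have h3 : ql l w ≤ ∑ i, l i * ρ ^ 2 := by
    refine Finset.sum_le_sum fun i _ => ?_
    refine mul_le_mul_of_nonneg_left ?_ (hl i).le
    exact sq_le_sq' (abs_le.1 (hw i)).1 (abs_le.1 (hw i)).2
  rw [hφ, indicator_of_mem]
  constructor <;> linarith

end Pool.Agent.AXD
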