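import Pool.Agent.AXD.PA2
import Pool.Agent.AXD.PD
import Pool.Agent.AEL.L2

namespace Pool.Agent.AXD

open MeasureTheory Set Pool.Agent.MP_6cbfb8_an Pool.Agent.MST
open scoped ENNReal Real

/-
ROW P2 (1 h). op_bounds: on the cube |am| ≤ (b - a) exp(-π t²/(1 + 4 M²)) exp(π (ρ² Σ|l i| + |c|)), M = max |a| |b| (norm_gg, norm_exp_zt), volume of the cube finite; `bessel`
(Pool.Agent.MP_6cbfb8_an.Bessel; used exactly so in hl2_bessel of Pool.Agent.AEL.L2) for the L² bound.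
L2_bound: by `bessel` ∫⁻ y ‖op‖² ≤ ∫⁻ over the cube ‖am‖²; with V = κ (ql l w - 1): am = exp(-π V) ∫ τ in R..2R, gg τ t * ex (τ V) (exp(-π zt τ V) = exp(-π V) ex(τ V)),
exp(-πV) ≤ exp(2π) as V ≥ -κ ≥ -2 (ql l w ≥ 0). `dens` with φ v = ‖∫ τ in R..2R, gg τ t ex (τ κ (v - 1))‖²: ∫ φ = κ⁻¹ ∫ ‖∫ gg ex(τ v)‖² dv ≤ ∫ τ in R..2R ‖gg τ t‖²
(one-dimensional `bessel` with μ = volume.restrict (Ioc R (2R)), F = gg · t, as in hl2_ps) ≤ R · R⁻¹ exp(-2π t²/(17 R²)) (norm_gg_le), R = 2^k.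
-/
theorem hp2x_ex (b : ℝ) : ‖ex b‖ = 1 := by
  unfold ex
  rw [Complex.norm_exp_ofReal_mul_I]

/-- pointwise bound of the amplitude -/
theorem hp2x_am {m : ℕ} (ρ a b : ℝ) (hab : a ≤ b) (l : (Fin m → ℝ) × ℝ) (t : ℝ) (w : E m) :
    ‖am ρ one a b l t w‖ ≤ {w : E m | ∀ i, |w i| ≤ ρ}.indicator (fun _ =>
      ((b - a) * Real.exp (π * (ρ ^ 2 * (∑ i, |l.1 i|) + |l.2|))) *
        Real.exp (-(π * t ^ 2 / (1 + 4 * (max |a| |b|) ^ 2)))) w := by
  by_cases hw : ∀ i, |w i| ≤ ρ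
  · rw [indicator_of_mem (by exact hw)]
    unfold am
    rw [if_pos hw]
    have hM0 : 0 ≤ max |a| |b| := (abs_nonneg a).trans (le_max_left _ _)
    have hql : -(π * (ql l.1 w - l.2)) ≤ π * (ρ ^ 2 * (∑ i, |l.1 i|) + |l.2|) := by
      have h1 : -ql l.1 w ≤ ρ ^ 2 * (∑ i, |l.1 i|) := by
        unfold ql
        rw [← Finset.sum_neg_distrib, Finset.mul_sum]
        refine Finset.sum_le_sum fun i _ => ?_
        have h2 : w i ^ 2 ≤ ρ ^ 2 := by
          rw [← sq_abs (w i)]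
          exact pow_le_pow_left₀ (abs_nonneg _) (hw i) 2
        have h3 : -(l.1 i) ≤ |l.1 i| := neg_le_abs _
        have h4 : 0 ≤ w i ^ 2 := sq_nonneg _
        have h5 : 0 ≤ |l.1 i| := abs_nonneg _
        nlinarith
      have h2 : l.2 ≤ |l.2| := le_abs_self _
      have h3 := Real.pi_pos
      nlinarith
    have hbd : ∀ τ ∈ Set.uIoc a b, ‖one τ * gg τ t *
        Complex.exp (-(π * zt τ * ((ql l.1 w - l.2 : ℝ) : ℂ)))‖ ≤
        Real.exp (-(π * t ^ 2 / (1 + 4 * (max |a| |b|) ^ 2))) *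
          Real.exp (π * (ρ ^ 2 * (∑ i, |l.1 i|) + |l.2|)) := by
      intro τ hτ
      rw [uIoc_of_le hab] at hτ
      have hτM : |τ| ≤ max |a| |b| := by
        rw [abs_le]
        constructor
        · have : -a ≤ |a| := neg_le_abs a
          have h2 := le_max_left |a| |b|
          linarith [hτ.1]
        · have : b ≤ |b| := le_abs_self b
          have h2 := le_max_right |a| |b|
          linarith [hτ.2]
      rw [norm_mul, norm_mul, norm_exp_zt, norm_gg]
      unfold one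
      rw [norm_one, one_mul]
      refine mul_le_mul ?_ (Real.exp_le_exp.2 hql) (Real.exp_pos _).le (Real.exp_pos _).le
      have h1 : (1 + 4 * τ ^ 2) ^ (-(1 / 4) : ℝ) ≤ 1 :=
        Real.rpow_le_one_of_one_le_of_nonpos (by nlinarith [sq_nonneg τ]) (by norm_num)
      have h2 : Real.exp (-(π * t ^ 2 / (1 + 4 * τ ^ 2))) ≤
          Real.exp (-(π * t ^ 2 / (1 + 4 * (max |a| |b|) ^ 2))) := by
        apply Real.exp_le_exp.2
        apply neg_le_neg
        apply div_le_div_of_nonneg_left (by positivity) (by positivity)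
        have h3 : τ ^ 2 ≤ (max |a| |b|) ^ 2 := by
          rw [← sq_abs τ]
          exact pow_le_pow_left₀ (abs_nonneg _) hτM 2
        linarith
      calc (1 + 4 * τ ^ 2) ^ (-(1 / 4) : ℝ) * Real.exp (-(π * t ^ 2 / (1 + 4 * τ ^ 2)))
          ≤ 1 * Real.exp (-(π * t ^ 2 / (1 + 4 * (max |a| |b|) ^ 2))) :=
            mul_le_mul h1 h2 (Real.exp_pos _).le zero_le_one
        _ = _ := one_mul _
    have h := intervalIntegral.norm_integral_le_of_norm_le_const hbd
    rw [abs_of_nonneg (by linarith : (0:ℝ) ≤ b - a)] at h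
    refine h.trans (le_of_eq ?_)
    ring
  · rw [am_zero _ _ _ _ _ _ _ hw, norm_zero]
    refine indicator_nonneg (fun _ _ => ?_) w
    have : 0 ≤ b - a := by linarith
    positivity

theorem hp2x_Gam {m : ℕ} (ρ a b : ℝ) (hab : a ≤ b) (l : (Fin m → ℝ) × ℝ) (t : ℝ)
    (G : E m → ℂ) (hG : ∀ w, ‖G w‖ ≤ 1) (w : E m) :
    ‖G w * am ρ one a b l t w‖ ≤ {w : E m | ∀ i, |w i| ≤ ρ}.indicator (fun _ =>
      ((b - a) * Real.exp (π * (ρ ^ 2 * (∑ i, |l.1 i|) + |l.2|))) *
        Real.exp (-(π * t ^ 2 / (1 + 4 * (max |a| |b|) ^ 2)))) w := by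
  rw [norm_mul]
  calc ‖G w‖ * ‖am ρ one a b l t w‖ ≤ 1 * ‖am ρ one a b l t w‖ :=
        mul_le_mul_of_nonneg_right (hG w) (norm_nonneg _)
    _ = ‖am ρ one a b l t w‖ := one_mul _
    _ ≤ _ := hp2x_am ρ a b hab l t w

theorem hp2x_ind {m : ℕ} (ρ A : ℝ) :
    Integrable ({w : E m | ∀ i, |w i| ≤ ρ}.indicator (fun _ => A)) :=
  (integrable_indicator_iff (measurableSet_cube ρ)).2
    (integrableOn_const (volume_cube ρ).ne)

theorem hp2x_int {m : ℕ} (ρ a b : ℝ) (hab : a ≤ b) (l : (Fin m → ℝ) × ℝ) (t : ℝ)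
    (G : E m → ℂ) (hGm : Measurable G) (hG : ∀ w, ‖G w‖ ≤ 1) :
    Integrable fun w : E m => G w * am ρ one a b l t w := by
  have hm : Measurable fun w : E m => am ρ one a b l t w := by
    have h := measurable_am (m := m) ρ one continuous_const a b
    have hf : Measurable fun w : E m => (((l, t), w) : (((Fin m → ℝ) × ℝ) × ℝ) × E m) := by
      fun_prop
    exact Measurable.comp (g := fun q : (((Fin m → ℝ) × ℝ) × ℝ) × E m =>
      am ρ one a b q.1.1 q.1.2 q.2) h hf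
  exact (hp2x_ind ρ _).mono' ((hGm.mul hm).aestronglyMeasurable)
    (Filter.Eventually.of_forall fun w => hp2x_Gam ρ a b hab l t G hG w)

theorem hp2x_bessel {m : ℕ} (ρ a b : ℝ) (hab : a ≤ b) (l : (Fin m → ℝ) × ℝ) (t : ℝ)
    (G : E m → ℂ) (hGm : Measurable G) (hG : ∀ w, ‖G w‖ ≤ 1) :
    ∫⁻ y, ‖op ρ one a b l t G y‖ₑ ^ (2:ℝ) ≤
      ∫⁻ w : E m, ‖G w * am ρ one a b l t w‖ₑ ^ (2:ℝ) := by
  have hB := bessel (volume : Measure (E m)) (fun w : E m => w) measurable_id 1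
    ENNReal.one_ne_top (fun φ _ => by simp) (fun w : E m => G w * am ρ one a b l t w)
    (hp2x_int ρ a b hab l t G hGm hG)
  rw [one_mul] at hB
  exact hB

theorem op_bounds {m : ℕ} (ρ : ℝ) (a b : ℝ) (hab : a ≤ b) (l : (Fin m → ℝ) × ℝ) :
    ∃ C : ℝ, 0 < C ∧ ∀ (t : ℝ) (G : E m → ℂ), Measurable G → (∀ w, ‖G w‖ ≤ 1) →
      (∀ y, ‖op ρ one a b l t G y‖ ≤ C * Real.exp (-(t ^ 2 / C))) ∧
      ∫⁻ y, ‖op ρ one a b l t G y‖ₑ ^ (2:ℝ) ≤ ENNReal.ofReal (C * Real.exp (-(t ^ 2 / C))) := by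
  have hBm : MeasurableSet {w : E m | ∀ i, |w i| ≤ ρ} := measurableSet_cube ρ
  have hfin : volume {w : E m | ∀ i, |w i| ≤ ρ} ≠ ∞ := (volume_cube ρ).ne
  set V : ℝ := volume.real {w : E m | ∀ i, |w i| ≤ ρ} with hV
  have hV0 : 0 ≤ V := measureReal_nonneg
  obtain ⟨B, hB⟩ : ∃ B : ℝ, B = (b - a) * Real.exp (π * (ρ ^ 2 * (∑ i, |l.1 i|) + |l.2|)) :=
    ⟨_, rfl⟩
  have hB0 : 0 ≤ B := by
    rw [hB]
    have : 0 ≤ b - a := by linarith
    positivity
  obtain ⟨S, hS⟩ : ∃ S : ℝ, S = 1 + 4 * (max |a| |b|) ^ 2 := ⟨_, rfl⟩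
  have hS0 : 0 < S := by rw [hS]; positivity
  have hC0 : 0 < V * B + V * B ^ 2 + S := by positivity
  have hexp : ∀ t : ℝ, Real.exp (-(π * t ^ 2 / S)) ≤
      Real.exp (-(t ^ 2 / (V * B + V * B ^ 2 + S))) := by
    intro t
    apply Real.exp_le_exp.2
    apply neg_le_neg
    have h1 : t ^ 2 / (V * B + V * B ^ 2 + S) ≤ t ^ 2 / S := by
      apply div_le_div_of_nonneg_left (sq_nonneg _) hS0
      have : 0 ≤ V * B + V * B ^ 2 := by positivity
      linarith
    have h2 : t ^ 2 / S ≤ π * t ^ 2 / S := by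
      apply div_le_div_of_nonneg_right _ hS0.le
      nlinarith [Real.pi_gt_three, sq_nonneg t]
    linarith
  refine ⟨V * B + V * B ^ 2 + S, hC0, fun t G hGm hG => ?_⟩
  have hn := hp2x_Gam ρ a b hab l t G hG
  rw [← hB, ← hS] at hn
  have hX0 : 0 ≤ Real.exp (-(π * t ^ 2 / S)) := (Real.exp_pos _).le
  constructor
  · intro y
    unfold op
    refine (norm_integral_le_of_norm_le (hp2x_ind ρ (B * Real.exp (-(π * t ^ 2 / S))))
      (Filter.Eventually.of_forall fun w => ?_)).trans ?_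
    · rw [norm_mul, hp2x_ex, mul_one]
      exact hn w
    · rw [integral_indicator hBm, setIntegral_const, smul_eq_mul, ← hV]
      have h1 := hexp t
      have h2 : 0 ≤ V * B := by positivity
      have h3 : V * B ≤ V * B + V * B ^ 2 + S := by
        have : 0 ≤ V * B ^ 2 := by positivity
        linarith
      calc V * (B * Real.exp (-(π * t ^ 2 / S))) = (V * B) * Real.exp (-(π * t ^ 2 / S)) := by ring
        _ ≤ (V * B + V * B ^ 2 + S) * Real.exp (-(t ^ 2 / (V * B + V * B ^ 2 + S))) :=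
          mul_le_mul h3 h1 hX0 hC0.le
  · refine (hp2x_bessel ρ a b hab l t G hGm hG).trans ?_
    calc ∫⁻ w : E m, ‖G w * am ρ one a b l t w‖ₑ ^ (2:ℝ)
        ≤ ∫⁻ w : E m, {w : E m | ∀ i, |w i| ≤ ρ}.indicator
            (fun _ => ENNReal.ofReal ((B * Real.exp (-(π * t ^ 2 / S))) ^ 2)) w := by
          refine lintegral_mono fun w => ?_
          have hnw := hn w
          by_cases hw : w ∈ {w : E m | ∀ i, |w i| ≤ ρ}
          · rw [indicator_of_mem hw] at hnw
            simp only [indicator_of_mem hw]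
            rw [ENNReal.ofReal_pow (by positivity), ← ENNReal.rpow_natCast]
            simp only [Nat.cast_ofNat]
            refine ENNReal.rpow_le_rpow ?_ (by norm_num)
            rw [← ofReal_norm]
            exact ENNReal.ofReal_le_ofReal hnw
          · rw [indicator_of_notMem hw] at hnw
            simp only [indicator_of_notMem hw]
            have h0' : G w * am ρ one a b l t w = 0 := by
              rw [← norm_le_zero_iff]
              exact hnw
            rw [h0']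
            simp
      _ = ENNReal.ofReal ((B * Real.exp (-(π * t ^ 2 / S))) ^ 2) *
            volume {w : E m | ∀ i, |w i| ≤ ρ} := by
          rw [lintegral_indicator hBm, setLIntegral_const]
      _ = ENNReal.ofReal ((B * Real.exp (-(π * t ^ 2 / S))) ^ 2 * V) := by
          rw [ENNReal.ofReal_mul (by positivity), hV, ofReal_measureReal hfin]
      _ ≤ ENNReal.ofReal ((V * B + V * B ^ 2 + S) *
            Real.exp (-(t ^ 2 / (V * B + V * B ^ 2 + S)))) := by
          apply ENNReal.ofReal_le_ofReal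
          have h1 := hexp t
          have h2 : Real.exp (-(π * t ^ 2 / S)) ≤ 1 := by
            rw [Real.exp_le_one_iff]
            have : 0 ≤ π * t ^ 2 / S := by positivity
            linarith
          have h3 : V * B ^ 2 ≤ V * B + V * B ^ 2 + S := by
            have : 0 ≤ V * B := by positivity
            linarith
          have h4 : 0 ≤ V * B ^ 2 := by positivity
          calc (B * Real.exp (-(π * t ^ 2 / S))) ^ 2 * V
              = (V * B ^ 2) * (Real.exp (-(π * t ^ 2 / S)) * Real.exp (-(π * t ^ 2 / S))) := by ring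
            _ ≤ (V * B ^ 2) * (Real.exp (-(π * t ^ 2 / S)) * 1) := by gcongr
            _ = (V * B ^ 2) * Real.exp (-(π * t ^ 2 / S)) := by ring
            _ ≤ (V * B + V * B ^ 2 + S) * Real.exp (-(t ^ 2 / (V * B + V * B ^ 2 + S))) :=
              mul_le_mul h3 h1 hX0 hC0.le

/-- The frequency integral without the exponential factor. -/
noncomputable def hp2x_J (R t : ℝ) (u : ℝ) : ℂ := ∫ τ in Ioc R (2 * R), gg τ t * ex (τ * u)

theorem hp2x_gg_int (R t : ℝ) : IntegrableOn (fun τ => gg τ t) (Ioc R (2 * R)) := by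
  have hc : Continuous fun τ : ℝ => gg τ t :=
    Continuous.comp (g := fun q : ℝ × ℝ => gg q.1 q.2) (f := fun τ : ℝ => (τ, t)) continuous_gg
      (by fun_prop)
  exact (hc.continuousOn.integrableOn_Icc).mono_set Ioc_subset_Icc_self

theorem hp2x_J_meas (R t : ℝ) : Measurable (hp2x_J R t) := by
  have hc : Continuous fun q : ℝ × ℝ => gg q.2 t * ex (q.2 * q.1) := by
    have h1 : Continuous fun q : ℝ × ℝ => gg q.2 t :=
      Continuous.comp (g := fun q : ℝ × ℝ => gg q.1 q.2) (f := fun q : ℝ × ℝ => (q.2, t))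
        continuous_gg (by fun_prop)
    have h2 : Continuous fun q : ℝ × ℝ => ex (q.2 * q.1) := by
      unfold ex
      fun_prop
    exact h1.mul h2
  exact (hc.stronglyMeasurable.integral_prod_right'
    (ν := (volume : Measure ℝ).restrict (Ioc R (2 * R)))).measurable

/-- Plancherel in the frequency -/
theorem hp2x_ps (R t : ℝ) (hR : 1 ≤ R) : ∫⁻ u : ℝ, ‖hp2x_J R t u‖ₑ ^ (2:ℝ) ≤
    ENNReal.ofReal (Real.exp (-(t ^ 2 / (17 * R ^ 2)))) := by
  have hB := bessel ((volume : Measure ℝ).restrict (Ioc R (2 * R))) (fun w : ℝ => w) measurable_id 1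
    ENNReal.one_ne_top (fun φ _ => by rw [one_mul]; exact setLIntegral_le_lintegral _ _)
    (fun τ : ℝ => gg τ t) (hp2x_gg_int R t)
  have h1 : ∀ ξ : ℝ, ∫ w in Ioc R (2 * R), gg w t *
      Complex.exp (((-(2 * π * inner ℝ w ξ) : ℝ) : ℂ) * Complex.I) = hp2x_J R t ξ := by
    intro ξ
    unfold hp2x_J
    refine integral_congr_ae (Filter.Eventually.of_forall fun w => ?_)
    simp only
    unfold ex
    have h2 : inner ℝ w ξ = w * ξ := by
      rw [real_inner_comm]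
      rfl
    rw [h2]
  simp only [h1] at hB
  rw [one_mul] at hB
  refine hB.trans ?_
  have hR0 : 0 < R := by linarith
  calc ∫⁻ τ in Ioc R (2 * R), ‖gg τ t‖ₑ ^ (2:ℝ)
      ≤ ∫⁻ _τ in Ioc R (2 * R), ENNReal.ofReal ((R ^ (-(1 / 2) : ℝ) *
          Real.exp (-(π * t ^ 2 / (17 * R ^ 2)))) ^ 2) := by
        refine setLIntegral_mono measurable_const fun τ hτ => ?_
        have h := norm_gg_le R hR τ t ⟨hτ.1.le, hτ.2⟩
        rw [ENNReal.ofReal_pow (by positivity), ← ENNReal.rpow_natCast]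
        simp only [Nat.cast_ofNat]
        refine ENNReal.rpow_le_rpow ?_ (by norm_num)
        rw [← ofReal_norm]
        exact ENNReal.ofReal_le_ofReal h
    _ = ENNReal.ofReal ((R ^ (-(1 / 2) : ℝ) * Real.exp (-(π * t ^ 2 / (17 * R ^ 2)))) ^ 2 * R) := by
        rw [setLIntegral_const, Real.volume_Ioc, ← ENNReal.ofReal_mul (by positivity)]
        congr 2
        ring
    _ ≤ ENNReal.ofReal (Real.exp (-(t ^ 2 / (17 * R ^ 2)))) := by
        apply ENNReal.ofReal_le_ofReal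
        have h1 : (R ^ (-(1 / 2) : ℝ)) ^ 2 = R⁻¹ := by
          rw [← Real.rpow_natCast, ← Real.rpow_mul hR0.le]
          norm_num
          exact Real.rpow_neg_one R
        rw [mul_pow, h1]
        have h2 : R⁻¹ * Real.exp (-(π * t ^ 2 / (17 * R ^ 2))) ^ 2 * R =
            Real.exp (-(π * t ^ 2 / (17 * R ^ 2))) ^ 2 := by
          field_simp
        rw [h2]
        have h3 : Real.exp (-(π * t ^ 2 / (17 * R ^ 2))) ≤ Real.exp (-(t ^ 2 / (17 * R ^ 2))) := by
          apply Real.exp_le_exp.2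
          apply neg_le_neg
          apply div_le_div_of_nonneg_right _ (by positivity)
          nlinarith [Real.pi_gt_three, sq_nonneg t]
        have h4 : Real.exp (-(π * t ^ 2 / (17 * R ^ 2))) ≤ 1 := by
          rw [Real.exp_le_one_iff]
          have : 0 ≤ π * t ^ 2 / (17 * R ^ 2) := by positivity
          linarith
        have h5 := (Real.exp_pos (-(π * t ^ 2 / (17 * R ^ 2)))).le
        nlinarith

theorem hp2x_scale (κ : ℝ) (hκ : 1 ≤ κ) (φ : ℝ → ℝ≥0∞) (hφ : Measurable φ) :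
    ∫⁻ v, φ (κ * (v - 1)) ≤ ∫⁻ u, φ u := by
  have h1 : ∫⁻ v, φ (κ * (v - 1)) = ∫⁻ v, φ (κ * v) := by
    have := lintegral_sub_right_eq_self (μ := (volume : Measure ℝ)) (fun v : ℝ => φ (κ * v)) 1
    exact this
  rw [h1]
  have h2 : ∫⁻ v, φ (κ * v) = ∫⁻ u, φ u ∂(Measure.map (fun v => κ * v) volume) :=
    (lintegral_map hφ (measurable_const_mul κ)).symm
  rw [h2, Real.map_volume_mul_left (by linarith : κ ≠ 0), lintegral_smul_measure]
  have h3 : ENNReal.ofReal |κ⁻¹| ≤ 1 := by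
    rw [← ENNReal.ofReal_one]
    apply ENNReal.ofReal_le_ofReal
    rw [abs_of_nonneg (by positivity)]
    exact inv_le_one_of_one_le₀ hκ
  rw [smul_eq_mul]
  calc ENNReal.ofReal |κ⁻¹| * ∫⁻ u, φ u ≤ 1 * ∫⁻ u, φ u := by gcongr
    _ = _ := one_mul _

theorem hp2x_point {m : ℕ} (ρ : ℝ) (l : Fin m → ℝ) (hl : ∀ i, 0 < l i) (κ : ℝ) (hκ : κ ∈ Icc (1:ℝ) 2)
    (R t : ℝ) (hR : 1 ≤ R) (w : E m) (hw : ∀ i, |w i| ≤ ρ) :
    ‖am ρ one R (2 * R) (κ • l, κ) t w‖ ≤ Real.exp (2 * π) * ‖hp2x_J R t (κ * (ql l w - 1))‖ := by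
  unfold am
  rw [if_pos hw]
  have hq : ql (κ • l) w = κ * ql l w := by
    unfold ql
    rw [Finset.mul_sum]
    refine Finset.sum_congr rfl fun i _ => ?_
    simp only [Pi.smul_apply, smul_eq_mul]
    ring
  have hq0 : 0 ≤ ql l w := by
    unfold ql
    exact Finset.sum_nonneg fun i _ => mul_nonneg (hl i).le (sq_nonneg _)
  have h1 : ∀ τ : ℝ, one τ * gg τ t *
      Complex.exp (-(π * zt τ * ((ql (κ • l) w - κ : ℝ) : ℂ))) =
      ((Real.exp (-(π * (κ * (ql l w - 1)))) : ℝ) : ℂ) *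
        (gg τ t * ex (τ * (κ * (ql l w - 1)))) := by
    intro τ
    unfold one ex zt
    rw [hq, one_mul, Complex.ofReal_exp]
    rw [show ((κ * ql l w - κ : ℝ) : ℂ) = ((κ * (ql l w - 1) : ℝ) : ℂ) by
      congr 1; ring]
    rw [mul_left_comm (Complex.exp _), ← Complex.exp_add]
    congr 2
    push_cast
    ring
  simp only [h1]
  rw [intervalIntegral.integral_of_le (by linarith), integral_const_mul, norm_mul,
    Complex.norm_real, Real.norm_eq_abs, abs_of_pos (Real.exp_pos _)]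
  unfold hp2x_J
  refine mul_le_mul_of_nonneg_right ?_ (norm_nonneg _)
  apply Real.exp_le_exp.2
  have h2 := Real.pi_pos
  have h3 : -(κ * (ql l w - 1)) ≤ 2 := by nlinarith [hκ.1, hκ.2]
  nlinarith

theorem L2_bound {m : ℕ} (hm : 2 ≤ m) (ρ : ℝ) (l : Fin m → ℝ) (hl : ∀ i, 0 < l i) :
    ∃ C : ℝ, 0 < C ∧ ∀ κ ∈ Icc (1:ℝ) 2, ∀ (k : ℕ) (t : ℝ) (G : E m → ℂ), Measurable G →
      (∀ w, ‖G w‖ ≤ 1) →
      ∫⁻ y, ‖op ρ one ((2:ℝ) ^ k) (2 * (2:ℝ) ^ k) (κ • l, κ) t G y‖ₑ ^ (2:ℝ) ≤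
        ENNReal.ofReal (C * Real.exp (-(t ^ 2 / (C * ((2:ℝ) ^ k) ^ 2)))) := by
  obtain ⟨C, hC, hd⟩ := dens hm ρ l hl
  have hK0 : 0 < Real.exp (2 * π) ^ 2 * C + 17 := by positivity
  refine ⟨Real.exp (2 * π) ^ 2 * C + 17, hK0, ?_⟩
  intro κ hκ k t G hGm hG
  obtain ⟨R, hRdef⟩ : ∃ R : ℝ, R = (2:ℝ) ^ k := ⟨_, rfl⟩
  have hR : 1 ≤ R := by rw [hRdef]; exact one_le_pow₀ (by norm_num)
  rw [← hRdef]
  have hR0 : 0 < R := by linarith
  have hBm : MeasurableSet {w : E m | ∀ i, |w i| ≤ ρ} := measurableSet_cube ρ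
  refine (hp2x_bessel ρ R (2 * R) (by linarith) (κ • l, κ) t G hGm hG).trans ?_
  calc ∫⁻ w : E m, ‖G w * am ρ one R (2 * R) (κ • l, κ) t w‖ₑ ^ (2:ℝ)
      ≤ ∫⁻ w in {w : E m | ∀ i, |w i| ≤ ρ}, ENNReal.ofReal (Real.exp (2 * π) ^ 2) *
          ‖hp2x_J R t (κ * (ql l w - 1))‖ₑ ^ (2:ℝ) := by
        rw [← lintegral_indicator hBm]
        refine lintegral_mono fun w => ?_
        by_cases hw : w ∈ {w : E m | ∀ i, |w i| ≤ ρ}
        · simp only [indicator_of_mem hw]
          have h1 := hp2x_point ρ l hl κ hκ R t hR w hw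
          have h2 : ‖G w * am ρ one R (2 * R) (κ • l, κ) t w‖ₑ ≤
              ENNReal.ofReal (Real.exp (2 * π)) * ‖hp2x_J R t (κ * (ql l w - 1))‖ₑ := by
            rw [← ofReal_norm, ← ofReal_norm (hp2x_J R t (κ * (ql l w - 1))),
              ← ENNReal.ofReal_mul (Real.exp_pos _).le]
            apply ENNReal.ofReal_le_ofReal
            rw [norm_mul]
            calc ‖G w‖ * ‖am ρ one R (2 * R) (κ • l, κ) t w‖
                ≤ 1 * ‖am ρ one R (2 * R) (κ • l, κ) t w‖ :=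
                  mul_le_mul_of_nonneg_right (hG w) (norm_nonneg _)
              _ = ‖am ρ one R (2 * R) (κ • l, κ) t w‖ := one_mul _
              _ ≤ _ := h1
          calc ‖G w * am ρ one R (2 * R) (κ • l, κ) t w‖ₑ ^ (2:ℝ)
              ≤ (ENNReal.ofReal (Real.exp (2 * π)) * ‖hp2x_J R t (κ * (ql l w - 1))‖ₑ) ^ (2:ℝ) :=
                ENNReal.rpow_le_rpow h2 (by norm_num)
            _ = _ := by
                rw [ENNReal.mul_rpow_of_nonneg _ _ (by norm_num : (0:ℝ) ≤ 2),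
                  ENNReal.ofReal_rpow_of_pos (Real.exp_pos _)]
                congr 2
                exact Real.rpow_natCast _ 2
        · simp only [indicator_of_notMem hw]
          rw [am_zero _ _ _ _ _ _ _ (by exact hw), mul_zero, enorm_zero,
            ENNReal.zero_rpow_of_pos (by norm_num)]
    _ ≤ ENNReal.ofReal C * ∫⁻ v, ENNReal.ofReal (Real.exp (2 * π) ^ 2) *
          ‖hp2x_J R t (κ * (v - 1))‖ₑ ^ (2:ℝ) := by
        refine hd (fun v => ENNReal.ofReal (Real.exp (2 * π) ^ 2) *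
          ‖hp2x_J R t (κ * (v - 1))‖ₑ ^ (2:ℝ)) ?_
        have h1 : Measurable fun v : ℝ => hp2x_J R t (κ * (v - 1)) :=
          (hp2x_J_meas R t).comp (by fun_prop)
        exact (h1.enorm.pow_const _).const_mul _
    _ = ENNReal.ofReal C * (ENNReal.ofReal (Real.exp (2 * π) ^ 2) * ∫⁻ v,
          ‖hp2x_J R t (κ * (v - 1))‖ₑ ^ (2:ℝ)) := by
        rw [lintegral_const_mul' _ _ ENNReal.ofReal_ne_top]
    _ ≤ ENNReal.ofReal C * (ENNReal.ofReal (Real.exp (2 * π) ^ 2) *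
          ENNReal.ofReal (Real.exp (-(t ^ 2 / (17 * R ^ 2))))) := by
        gcongr
        exact (hp2x_scale κ hκ.1 (fun u => ‖hp2x_J R t u‖ₑ ^ (2:ℝ))
          ((hp2x_J_meas R t).enorm.pow_const _)).trans (hp2x_ps R t hR)
    _ = ENNReal.ofReal (C * (Real.exp (2 * π) ^ 2 * Real.exp (-(t ^ 2 / (17 * R ^ 2))))) := by
        rw [← ENNReal.ofReal_mul (by positivity), ← ENNReal.ofReal_mul hC.le]
    _ ≤ _ := by
        apply ENNReal.ofReal_le_ofReal
        have h1 : Real.exp (-(t ^ 2 / (17 * R ^ 2))) ≤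
            Real.exp (-(t ^ 2 / ((Real.exp (2 * π) ^ 2 * C + 17) * R ^ 2))) := by
          apply Real.exp_le_exp.2
          apply neg_le_neg
          apply div_le_div_of_nonneg_left (sq_nonneg _) (by positivity)
          apply mul_le_mul_of_nonneg_right _ (by positivity)
          have : 0 ≤ Real.exp (2 * π) ^ 2 * C := by positivity
          linarith
        calc C * (Real.exp (2 * π) ^ 2 * Real.exp (-(t ^ 2 / (17 * R ^ 2))))
            = (Real.exp (2 * π) ^ 2 * C) * Real.exp (-(t ^ 2 / (17 * R ^ 2))) := by ring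
          _ ≤ (Real.exp (2 * π) ^ 2 * C + 17) *
              Real.exp (-(t ^ 2 / ((Real.exp (2 * π) ^ 2 * C + 17) * R ^ 2))) := by
            apply mul_le_mul _ h1 (Real.exp_pos _).le hK0.le
            linarith

end Pool.Agent.AXD
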