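import Pool.Agent.AXD.Defs

namespace Pool.Agent.AXD

open MeasureTheory Set Pool.Agent.MP_6cbfb8_an Pool.Agent.MST
open scoped ENNReal Real

/-
ROW PA1 (0.8 h). Basic facts. (zt τ).re = 1 > 0, so zt τ is in the slit plane and not 0; norm of (zt τ)^(-1/2): Complex.norm_cpow_of_ne_zero (exponent real: the imaginary part
is 0), ‖zt τ‖ = √(1 + 4τ²) = (1+4τ²)^(1/2). Re (1/zt τ) = 1/(1+4τ²) (norm of Complex.exp = exp of the real part).
norm_gg_le: for τ ∈ [R, 2R], R ≥ 1: 1 + 4τ² ≥ R² and 1 + 4τ² ≤ 17 R². gg_neg: zt (-τ) = conj (zt τ), Complex.cpow_conj (arg ≠ π) / Complex.exp_conj.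
measurable_am / continuity: on the set of w in the cube the amplitude is a parametric interval integral of a jointly continuous function of ((l, t), w)
(intervalIntegral.continuous_parametric_intervalIntegral_of_continuous'); the cube is closed.
-/
theorem zt_re (τ : ℝ) : (zt τ).re = 1 := by
  simp [zt]

theorem hpax_im (τ : ℝ) : (zt τ).im = 2 * τ := by
  simp [zt]

theorem hpax_conj (τ : ℝ) : zt (-τ) = (starRingEnd ℂ) (zt τ) := by
  apply Complex.ext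
  · rw [Complex.conj_re, zt_re, zt_re]
  · rw [Complex.conj_im, hpax_im, hpax_im]
    ring

theorem zt_ne (τ : ℝ) : zt τ ≠ 0 := by
  intro h
  have h1 := zt_re τ
  rw [h, Complex.zero_re] at h1
  exact zero_ne_one h1

theorem norm_zt_sq (τ : ℝ) : ‖zt τ‖ ^ 2 = 1 + 4 * τ ^ 2 := by
  rw [← Complex.normSq_eq_norm_sq, Complex.normSq_apply, zt_re, hpax_im]
  ring

theorem continuous_zt : Continuous zt := by
  unfold zt
  fun_prop

theorem norm_gg (τ t : ℝ) :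
    ‖gg τ t‖ = (1 + 4 * τ ^ 2) ^ (-(1 / 4) : ℝ) * Real.exp (-(π * t ^ 2 / (1 + 4 * τ ^ 2))) := by
  have hX : 0 < 1 + 4 * τ ^ 2 := by positivity
  have hn : ‖zt τ‖ = (1 + 4 * τ ^ 2) ^ (1 / 2 : ℝ) := by
    rw [← norm_zt_sq, ← Real.sqrt_eq_rpow, Real.sqrt_sq (norm_nonneg _)]
  unfold gg
  rw [norm_mul, Complex.norm_cpow_of_ne_zero (zt_ne τ), Complex.norm_exp]
  have h1 : (-(1 / 2) : ℂ).re = -(1 / 2) := by norm_num
  have h2 : (-(1 / 2) : ℂ).im = 0 := by norm_num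
  have h3 : (-((π : ℂ) * (t : ℂ) ^ 2 / zt τ)).re = -(π * t ^ 2 / (1 + 4 * τ ^ 2)) := by
    have h4 : (π : ℂ) * (t : ℂ) ^ 2 / zt τ = ((π * t ^ 2 : ℝ) : ℂ) * (zt τ)⁻¹ := by
      push_cast
      rw [div_eq_mul_inv]
    rw [Complex.neg_re, h4, Complex.re_ofReal_mul, Complex.inv_re, zt_re,
      Complex.normSq_eq_norm_sq, norm_zt_sq]
    ring
  rw [h1, h2, h3, mul_zero, Real.exp_zero, div_one, hn, ← Real.rpow_mul hX.le]
  norm_num

theorem norm_gg_le (R : ℝ) (hR : 1 ≤ R) (τ t : ℝ) (hτ : τ ∈ Icc R (2 * R)) :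
    ‖gg τ t‖ ≤ R ^ (-(1 / 2) : ℝ) * Real.exp (-(π * t ^ 2 / (17 * R ^ 2))) := by
  rw [norm_gg]
  have hR0 : 0 < R := by linarith
  have h1 : R ^ 2 ≤ 1 + 4 * τ ^ 2 := by nlinarith [hτ.1]
  have h2 : 1 + 4 * τ ^ 2 ≤ 17 * R ^ 2 := by nlinarith [hτ.1, hτ.2]
  have hX : 0 < 1 + 4 * τ ^ 2 := by positivity
  have h3 : (1 + 4 * τ ^ 2) ^ (-(1 / 4) : ℝ) ≤ R ^ (-(1 / 2) : ℝ) := by
    have h4 : R ^ (-(1 / 2) : ℝ) = (R ^ 2) ^ (-(1 / 4) : ℝ) := by
      rw [← Real.rpow_natCast R 2, ← Real.rpow_mul hR0.le]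
      norm_num
    rw [h4]
    exact Real.rpow_le_rpow_of_nonpos (by positivity) h1 (by norm_num)
  have h5 : Real.exp (-(π * t ^ 2 / (1 + 4 * τ ^ 2))) ≤ Real.exp (-(π * t ^ 2 / (17 * R ^ 2))) := by
    apply Real.exp_le_exp.2
    apply neg_le_neg
    exact div_le_div_of_nonneg_left (by positivity) hX h2
  exact mul_le_mul h3 h5 (Real.exp_pos _).le (by positivity)

theorem norm_gg_le_one (τ t : ℝ) : ‖gg τ t‖ ≤ 1 := by
  rw [norm_gg]
  have hX : 1 ≤ 1 + 4 * τ ^ 2 := by nlinarith [sq_nonneg τ]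
  have h1 : (1 + 4 * τ ^ 2) ^ (-(1 / 4) : ℝ) ≤ 1 := Real.rpow_le_one_of_one_le_of_nonpos hX (by norm_num)
  have h2 : Real.exp (-(π * t ^ 2 / (1 + 4 * τ ^ 2))) ≤ 1 := by
    rw [Real.exp_le_one_iff]
    apply neg_nonpos.2
    positivity
  exact mul_le_one₀ h1 (Real.exp_pos _).le h2

theorem continuous_gg : Continuous fun q : ℝ × ℝ => gg q.1 q.2 := by
  unfold gg
  have h1 : Continuous fun q : ℝ × ℝ => zt q.1 := continuous_zt.comp continuous_fst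
  refine (h1.cpow continuous_const fun q => ?_).mul ?_
  · exact Or.inl (by rw [zt_re]; exact one_pos)
  · refine Complex.continuous_exp.comp ?_
    refine Continuous.neg ?_
    refine Continuous.div ?_ h1 fun q => zt_ne _
    fun_prop

theorem gg_neg (τ t : ℝ) : gg (-τ) t = (starRingEnd ℂ) (gg τ t) := by
  unfold gg
  have h1 : (zt τ).arg ≠ π := by
    rw [Ne, Complex.arg_eq_pi_iff, zt_re]
    intro h
    linarith [h.1]
  have h2 : (starRingEnd ℂ) (-(1 / 2) : ℂ) = -(1 / 2) := by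
    rw [map_neg, map_div₀, map_one]
    congr 2
    exact Complex.conj_ofNat 2
  rw [hpax_conj, Complex.conj_cpow _ _ h1, h2, map_mul, ← Complex.exp_conj, map_neg, map_div₀, map_mul,
    map_pow, Complex.conj_ofReal, Complex.conj_ofReal]

theorem norm_exp_zt (τ V : ℝ) : ‖Complex.exp (-(π * zt τ * (V : ℂ)))‖ = Real.exp (-(π * V)) := by
  rw [Complex.norm_exp]
  congr 1
  have h1 : (π : ℂ) * zt τ * (V : ℂ) = ((π * V : ℝ) : ℂ) * zt τ := by
    push_cast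
    ring
  rw [Complex.neg_re, h1, Complex.re_ofReal_mul, zt_re, mul_one]

theorem am_zero {m : ℕ} (ρ : ℝ) (A : ℝ → ℂ) (a b : ℝ) (l : (Fin m → ℝ) × ℝ) (t : ℝ) (w : E m)
    (h : ¬ ∀ i, |w i| ≤ ρ) : am ρ A a b l t w = 0 := by
  unfold am
  rw [if_neg h]

theorem norm_am_le {m : ℕ} (ρ : ℝ) (A : ℝ → ℂ) (a b : ℝ) (hab : a ≤ b)
    (h1 : ∀ τ ∈ Icc a b, ‖A τ‖ ≤ 1) (l : (Fin m → ℝ) × ℝ) (t : ℝ) (w : E m) :
    ‖am ρ A a b l t w‖ ≤ (b - a) * Real.exp (-(π * (ql l.1 w - l.2))) := by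
  have hba : 0 ≤ b - a := by linarith
  by_cases h : ∀ i, |w i| ≤ ρ
  · unfold am
    rw [if_pos h]
    have h2 : ∀ τ ∈ Set.uIoc a b, ‖A τ * gg τ t * Complex.exp (-(π * zt τ * ((ql l.1 w - l.2 : ℝ) : ℂ)))‖ ≤
        Real.exp (-(π * (ql l.1 w - l.2))) := by
      intro τ hτ
      rw [uIoc_of_le hab] at hτ
      rw [norm_mul, norm_mul, norm_exp_zt]
      have h3 := h1 τ ⟨hτ.1.le, hτ.2⟩
      have h4 : ‖A τ‖ * ‖gg τ t‖ ≤ 1 := mul_le_one₀ h3 (norm_nonneg _) (norm_gg_le_one τ t)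
      exact mul_le_of_le_one_left (Real.exp_pos _).le h4
    have h3 := intervalIntegral.norm_integral_le_of_norm_le_const h2
    rw [abs_of_nonneg hba, mul_comm] at h3
    exact h3
  · rw [am_zero ρ A a b l t w h, norm_zero]
    positivity

theorem continuous_ql {m : ℕ} : Continuous fun q : (Fin m → ℝ) × E m => ql q.1 q.2 := by
  unfold ql
  fun_prop

theorem hpax_set {m : ℕ} (ρ : ℝ) :
    MeasurableSet {q : (((Fin m → ℝ) × ℝ) × ℝ) × E m | ∀ i, |q.2 i| ≤ ρ} := by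
  have h1 : {q : (((Fin m → ℝ) × ℝ) × ℝ) × E m | ∀ i, |q.2 i| ≤ ρ} =
      ⋂ i, {q : (((Fin m → ℝ) × ℝ) × ℝ) × E m | |q.2 i| ≤ ρ} := by
    ext q
    simp
  rw [h1]
  refine MeasurableSet.iInter fun i => ?_
  have h2 : Continuous fun q : (((Fin m → ℝ) × ℝ) × ℝ) × E m => |q.2 i| := by fun_prop
  exact (isClosed_le h2 continuous_const).measurableSet

theorem hpax_cont {m : ℕ} (A : ℝ → ℂ) (hA : Continuous A) (a b : ℝ) :
    Continuous fun q : (((Fin m → ℝ) × ℝ) × ℝ) × E m => ∫ τ in a..b, A τ * gg τ q.1.2 *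
      Complex.exp (-(π * zt τ * ((ql q.1.1.1 q.2 - q.1.1.2 : ℝ) : ℂ))) := by
  have e1 : Continuous fun x : ((((Fin m → ℝ) × ℝ) × ℝ) × E m) × ℝ => A x.2 :=
    hA.comp continuous_snd
  have e20 : Continuous fun x : ((((Fin m → ℝ) × ℝ) × ℝ) × E m) × ℝ => (x.2, x.1.1.2) := by
    fun_prop
  have e2 : Continuous fun x : ((((Fin m → ℝ) × ℝ) × ℝ) × E m) × ℝ => gg x.2 x.1.1.2 :=
    Continuous.comp (g := fun q : ℝ × ℝ => gg q.1 q.2)
      (f := fun x : ((((Fin m → ℝ) × ℝ) × ℝ) × E m) × ℝ => (x.2, x.1.1.2)) continuous_gg e20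
  have e3 : Continuous fun x : ((((Fin m → ℝ) × ℝ) × ℝ) × E m) × ℝ => zt x.2 :=
    continuous_zt.comp continuous_snd
  have e41 : Continuous fun x : ((((Fin m → ℝ) × ℝ) × ℝ) × E m) × ℝ => (x.1.1.1.1, x.1.2) := by
    fun_prop
  have e42 : Continuous fun x : ((((Fin m → ℝ) × ℝ) × ℝ) × E m) × ℝ => x.1.1.1.2 := by
    fun_prop
  have e43 : Continuous fun x : ((((Fin m → ℝ) × ℝ) × ℝ) × E m) × ℝ => ql x.1.1.1.1 x.1.2 :=
    continuous_ql.comp e41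
  have e4 : Continuous fun x : ((((Fin m → ℝ) × ℝ) × ℝ) × E m) × ℝ =>
      ql x.1.1.1.1 x.1.2 - x.1.1.1.2 := e43.sub e42
  have e5 : Continuous fun x : ((((Fin m → ℝ) × ℝ) × ℝ) × E m) × ℝ =>
      -(π * zt x.2 * ((ql x.1.1.1.1 x.1.2 - x.1.1.1.2 : ℝ) : ℂ)) :=
    ((continuous_const.mul e3).mul (Complex.continuous_ofReal.comp e4)).neg
  have e6 : Continuous fun x : ((((Fin m → ℝ) × ℝ) × ℝ) × E m) × ℝ =>
      Complex.exp (-(π * zt x.2 * ((ql x.1.1.1.1 x.1.2 - x.1.1.1.2 : ℝ) : ℂ))) :=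
    Complex.continuous_exp.comp e5
  have e7 : Continuous fun x : ((((Fin m → ℝ) × ℝ) × ℝ) × E m) × ℝ =>
      A x.2 * gg x.2 x.1.1.2 *
        Complex.exp (-(π * zt x.2 * ((ql x.1.1.1.1 x.1.2 - x.1.1.1.2 : ℝ) : ℂ))) :=
    (e1.mul e2).mul e6
  exact intervalIntegral.continuous_parametric_intervalIntegral_of_continuous'
    (μ := volume) (f := fun (q : (((Fin m → ℝ) × ℝ) × ℝ) × E m) (τ : ℝ) => A τ * gg τ q.1.2 *
      Complex.exp (-(π * zt τ * ((ql q.1.1.1 q.2 - q.1.1.2 : ℝ) : ℂ)))) e7 a b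

theorem measurable_am {m : ℕ} (ρ : ℝ) (A : ℝ → ℂ) (hA : Continuous A) (a b : ℝ) :
    Measurable fun q : (((Fin m → ℝ) × ℝ) × ℝ) × E m => am ρ A a b q.1.1 q.1.2 q.2 := by
  unfold am
  exact Measurable.ite (hpax_set ρ) (hpax_cont A hA a b).measurable measurable_const

end Pool.Agent.AXD
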