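import Pool.Agent.AXD.PA

namespace Pool.Agent.AXD

open MeasureTheory Set Pool.Agent.MP_6cbfb8_an Pool.Agent.MST
open scoped ENNReal Real

/-
ROW PA2 (0.8 h). measurable_op: Measurable of w ↦ ... jointly, then StronglyMeasurable.integral_prod_right'. measurable_L4: Measurable.lintegral_prod_right' twice.
amG_bound: for w in the cube -(π/8) l_i² - π l_i w_i² ≤ 2 π ρ⁴ (as |l| ρ² ≤ l²/8 + 2ρ⁴), -(π/8) c² + π c ≤ 2π; A bounded by 1 on [a, b], |gg| ≤ 1: B = (b - a) exp(2πρ⁴ m + 2π)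
(for ρ < 0 or w outside of the cube the value is 0; note (∀ i, |w i| ≤ ρ) with m = 0 is true). finite_nu: product of finite measures (Gaussian integrals:
integrable_exp_neg_mul_sq, integrable_rpow_mul_exp_neg_mul_sq for |t|^θ; the integral over (Fin m → ℝ) × ℝ of a product: Integrable.fintype_prod, Integrable.mul_prod).
op_conj: substitution τ → -τ in the interval integral, gg_neg, zt (-τ) = conj (zt τ), intervalIntegral_conj / integral_conj, conj (ex a) = ex (-a) (hkf_conj_ex in MST.KF).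
norm_pw_le: ‖zt τ‖ ≤ 1 + 2|τ| ≤ 5R.
-/
theorem measurable_op {m : ℕ} (ρ : ℝ) (A : ℝ → ℂ) (hA : Continuous A) (a b : ℝ) (G : E m → ℂ)
    (hG : Measurable G) :
    Measurable fun q : (((Fin m → ℝ) × ℝ) × ℝ) × E m => op ρ A a b q.1.1 q.1.2 G q.2 := by
  have hm : Measurable fun r : ((((Fin m → ℝ) × ℝ) × ℝ) × E m) × E m =>
      G r.2 * am ρ A a b r.1.1.1 r.1.1.2 r.2 * ex (inner ℝ r.2 r.1.2) := by
    have k2 : Measurable fun r : ((((Fin m → ℝ) × ℝ) × ℝ) × E m) × E m => (r.1.1, r.2) := by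
      fun_prop
    have k3 : Measurable fun r : ((((Fin m → ℝ) × ℝ) × ℝ) × E m) × E m => r.1.2 := by fun_prop
    have k4 : Measurable fun r : ((((Fin m → ℝ) × ℝ) × ℝ) × E m) × E m => r.2 := by fun_prop
    have h1 : Measurable fun r : ((((Fin m → ℝ) × ℝ) × ℝ) × E m) × E m => G r.2 := hG.comp k4
    have h2 : Measurable fun r : ((((Fin m → ℝ) × ℝ) × ℝ) × E m) × E m =>
        am ρ A a b r.1.1.1 r.1.1.2 r.2 := (measurable_am ρ A hA a b).comp k2
    have h3 : Measurable fun r : ((((Fin m → ℝ) × ℝ) × ℝ) × E m) × E m =>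
        ex (inner ℝ r.2 r.1.2) := hkf_cont_ex.measurable.comp (k4.inner k3)
    exact (h1.mul h2).mul h3
  exact (hm.stronglyMeasurable.integral_prod_right').measurable

theorem measurable_L4 {m : ℕ} (ρ θ : ℝ) (A : ℝ → ℂ) (hA : Continuous A) (a b : ℝ) (G : E m → ℂ)
    (hG : Measurable G) : Measurable (L4 ρ θ A a b G) := by
  unfold L4
  have h1 : Measurable fun q : (((Fin m → ℝ) × ℝ) × ℝ) × E m =>
      ‖op ρ A a b q.1.1 q.1.2 G q.2‖ₑ ^ (4:ℝ) :=
    (measurable_op ρ A hA a b G hG).enorm.pow_const _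
  have h2 : Measurable fun q : ((Fin m → ℝ) × ℝ) × ℝ =>
      ∫⁻ y : E m, ‖op ρ A a b q.1 q.2 G y‖ₑ ^ (4:ℝ) := h1.lintegral_prod_right'
  have h3 : Measurable fun q : ((Fin m → ℝ) × ℝ) × ℝ => ENNReal.ofReal (|q.2| ^ θ) := by
    have : Measurable fun q : ((Fin m → ℝ) × ℝ) × ℝ => |q.2| ^ θ :=
      (measurable_snd.norm : Measurable fun q : ((Fin m → ℝ) × ℝ) × ℝ => |q.2|).pow_const θ
    exact this.ennreal_ofReal
  exact (h3.mul h2).lintegral_prod_right'

theorem hpa2x_one : Continuous one := continuous_const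

theorem measurable_Phi {m : ℕ} (ρ : ℝ) (G : E m → ℂ) (hG : Measurable G) :
    Measurable fun q : (((Fin m → ℝ) × ℝ) × ℝ) × E m => Phi ρ q.1.1 q.1.2 G q.2 := by
  unfold Phi
  refine (measurable_op ρ one hpa2x_one _ _ G hG).enorm.add (Measurable.tsum fun k => ?_)
  exact (measurable_op ρ one hpa2x_one _ _ G hG).enorm.add
    (measurable_op ρ one hpa2x_one _ _ G hG).enorm

theorem amG_bound {m : ℕ} (ρ : ℝ) (A : ℝ → ℂ) (a b : ℝ) (hab : a ≤ b)
    (h1 : ∀ τ ∈ Icc a b, ‖A τ‖ ≤ 1) : ∃ B : ℝ, ∀ (p : ((Fin m → ℝ) × ℝ) × ℝ) (w : E m),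
      ‖amG ρ A a b p w‖ ≤ B := by
  refine ⟨(b - a) * Real.exp (2 * π * ρ ^ 4 * m + 2 * π), fun p w => ?_⟩
  have hB : 0 ≤ (b - a) * Real.exp (2 * π * ρ ^ 4 * m + 2 * π) :=
    mul_nonneg (sub_nonneg.2 hab) (Real.exp_pos _).le
  unfold amG
  by_cases hw : ∀ i, |w i| ≤ ρ
  · rw [norm_mul, Complex.norm_real, Real.norm_eq_abs, abs_of_pos (Real.exp_pos _)]
    have h2 := norm_am_le ρ A a b hab h1 p.1 p.2 w
    calc Real.exp (-(π / 8 * ((∑ i, p.1.1 i ^ 2) + p.1.2 ^ 2))) * ‖am ρ A a b p.1 p.2 w‖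
        ≤ Real.exp (-(π / 8 * ((∑ i, p.1.1 i ^ 2) + p.1.2 ^ 2))) *
          ((b - a) * Real.exp (-(π * (ql p.1.1 w - p.1.2)))) :=
          mul_le_mul_of_nonneg_left h2 (Real.exp_pos _).le
      _ = (b - a) * Real.exp (-(π / 8 * ((∑ i, p.1.1 i ^ 2) + p.1.2 ^ 2)) +
          -(π * (ql p.1.1 w - p.1.2))) := by
          rw [Real.exp_add]
          ring
      _ ≤ (b - a) * Real.exp (2 * π * ρ ^ 4 * m + 2 * π) := by
          refine mul_le_mul_of_nonneg_left (Real.exp_le_exp.2 ?_) (sub_nonneg.2 hab)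
          have hpi := Real.pi_pos
          have h3 : ∀ i, -(p.1.1 i ^ 2 / 8) - p.1.1 i * w i ^ 2 ≤ 2 * ρ ^ 4 := by
            intro i
            have h4 : w i ^ 2 ≤ ρ ^ 2 := by
              rw [← sq_abs (w i)]
              exact pow_le_pow_left₀ (abs_nonneg _) (hw i) 2
            have h5 : 0 ≤ w i ^ 2 := sq_nonneg _
            have h6 : (w i ^ 2) ^ 2 ≤ (ρ ^ 2) ^ 2 := pow_le_pow_left₀ h5 h4 2
            nlinarith [sq_nonneg (p.1.1 i + 4 * w i ^ 2)]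
          have h7 : ∑ i, (-(p.1.1 i ^ 2 / 8) - p.1.1 i * w i ^ 2) ≤ ∑ _i : Fin m, 2 * ρ ^ 4 :=
            Finset.sum_le_sum fun i _ => h3 i
          rw [Finset.sum_sub_distrib, Finset.sum_neg_distrib, Finset.sum_const, Finset.card_univ,
            Fintype.card_fin, nsmul_eq_mul, ← Finset.sum_div] at h7
          have h8 : p.1.2 - p.1.2 ^ 2 / 8 ≤ 2 := by nlinarith [sq_nonneg (p.1.2 - 4)]
          have h9 : -(π / 8 * ((∑ i, p.1.1 i ^ 2) + p.1.2 ^ 2)) + -(π * (ql p.1.1 w - p.1.2)) =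
              π * ((-((∑ i, p.1.1 i ^ 2) / 8) - ∑ i, p.1.1 i * w i ^ 2) +
                (p.1.2 - p.1.2 ^ 2 / 8)) := by
            unfold ql
            ring
          rw [h9]
          have h10 : (-((∑ i, p.1.1 i ^ 2) / 8) - ∑ i, p.1.1 i * w i ^ 2) +
                (p.1.2 - p.1.2 ^ 2 / 8) ≤ m * (2 * ρ ^ 4) + 2 := add_le_add h7 h8
          calc π * ((-((∑ i, p.1.1 i ^ 2) / 8) - ∑ i, p.1.1 i * w i ^ 2) +
                (p.1.2 - p.1.2 ^ 2 / 8)) ≤ π * (m * (2 * ρ ^ 4) + 2) :=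
                mul_le_mul_of_nonneg_left h10 hpi.le
            _ = 2 * π * ρ ^ 4 * m + 2 * π := by ring
  · rw [am_zero ρ A a b p.1 p.2 w hw, mul_zero, norm_zero]
    exact hB

theorem measurable_amG {m : ℕ} (ρ : ℝ) (A : ℝ → ℂ) (hA : Continuous A) (a b : ℝ) :
    Measurable (Function.uncurry fun (p : ((Fin m → ℝ) × ℝ) × ℝ) (w : E m) =>
      amG ρ A a b p w) := by
  have h1 : Continuous fun q : (((Fin m → ℝ) × ℝ) × ℝ) × E m =>
      ((Real.exp (-(π / 8 * ((∑ i, q.1.1.1 i ^ 2) + q.1.1.2 ^ 2))) : ℝ) : ℂ) := by fun_prop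
  exact h1.measurable.mul (measurable_am ρ A hA a b)

theorem hpa2x_int_l (m : ℕ) : Integrable (fun l : (Fin m → ℝ) × ℝ =>
    Real.exp (-(π / 2 * ((∑ i, l.1 i ^ 2) + l.2 ^ 2)))) := by
  have h0 : Integrable fun v : ℝ => Real.exp (-(π / 2) * v ^ 2) :=
    integrable_exp_neg_mul_sq (by positivity)
  have h1 : Integrable (fun x : Fin m → ℝ => ∏ j, Real.exp (-(π / 2) * x j ^ 2)) :=
    Integrable.fintype_prod (fun _ => h0)
  have h3 := h1.mul_prod h0
  refine h3.congr (Filter.Eventually.of_forall fun l => ?_)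
  show (∏ j, Real.exp (-(π / 2) * l.1 j ^ 2)) * Real.exp (-(π / 2) * l.2 ^ 2) =
    Real.exp (-(π / 2 * ((∑ i, l.1 i ^ 2) + l.2 ^ 2)))
  rw [← Real.exp_sum, ← Real.exp_add, ← Finset.mul_sum]
  congr 1
  ring

theorem hpa2x_int_t (θ T : ℝ) (h0 : 0 ≤ θ) (hT : 0 < T) : Integrable (fun t : ℝ =>
    |t| ^ θ * Real.exp (-(π * t ^ 2 / T ^ 2))) := by
  have hb : 0 < π / T ^ 2 := by positivity
  obtain ⟨N, hN⟩ := exists_nat_ge θ
  have i1 : Integrable fun x : ℝ => Real.exp (-(π / T ^ 2) * x ^ 2) := integrable_exp_neg_mul_sq hb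
  have i2 : Integrable fun x : ℝ => x ^ ((2 * N : ℕ) : ℝ) * Real.exp (-(π / T ^ 2) * x ^ 2) :=
    integrable_rpow_mul_exp_neg_mul_sq hb (by
      have : (0:ℝ) ≤ ((2 * N : ℕ) : ℝ) := Nat.cast_nonneg _
      linarith)
  refine Integrable.mono' (i1.add i2) ?_ (Filter.Eventually.of_forall fun t => ?_)
  · have m1 : Measurable fun t : ℝ => |t| ^ θ :=
      (measurable_id.norm : Measurable fun t : ℝ => |t|).pow_const θ
    have m2 : Continuous fun t : ℝ => Real.exp (-(π * t ^ 2 / T ^ 2)) := by fun_prop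
    exact (m1.mul m2.measurable).aestronglyMeasurable
  · have e1 : -(π * t ^ 2 / T ^ 2) = -(π / T ^ 2) * t ^ 2 := by ring
    rw [e1, Real.norm_eq_abs, abs_mul, abs_of_pos (Real.exp_pos _),
      abs_of_nonneg (Real.rpow_nonneg (abs_nonneg t) θ)]
    show |t| ^ θ * Real.exp (-(π / T ^ 2) * t ^ 2) ≤ Real.exp (-(π / T ^ 2) * t ^ 2) +
      t ^ ((2 * N : ℕ) : ℝ) * Real.exp (-(π / T ^ 2) * t ^ 2)
    have h2 : |t| ^ θ ≤ 1 + t ^ ((2 * N : ℕ) : ℝ) := by
      rw [Real.rpow_natCast]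
      have h3 : 0 ≤ t ^ (2 * N) := by
        rw [pow_mul]
        positivity
      rcases le_total |t| 1 with h | h
      · have : |t| ^ θ ≤ 1 := Real.rpow_le_one (abs_nonneg t) h h0
        linarith
      · have h4 : |t| ^ θ ≤ |t| ^ ((2 * N : ℕ) : ℝ) := by
          refine Real.rpow_le_rpow_of_exponent_le h ?_
          push_cast
          have : (0:ℝ) ≤ N := Nat.cast_nonneg _
          linarith
        rw [Real.rpow_natCast, pow_mul, sq_abs, ← pow_mul] at h4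
        linarith
    calc |t| ^ θ * Real.exp (-(π / T ^ 2) * t ^ 2)
        ≤ (1 + t ^ ((2 * N : ℕ) : ℝ)) * Real.exp (-(π / T ^ 2) * t ^ 2) :=
          mul_le_mul_of_nonneg_right h2 (Real.exp_pos _).le
      _ = _ := by ring

theorem finite_nu (m : ℕ) (θ T : ℝ) (h0 : 0 ≤ θ) (hT : 0 < T) : IsFiniteMeasure (nu m θ T) := by
  unfold nu
  have h1 : IsFiniteMeasure ((volume : Measure ((Fin m → ℝ) × ℝ)).withDensity fun l =>
      ENNReal.ofReal (Real.exp (-(π / 2 * ((∑ i, l.1 i ^ 2) + l.2 ^ 2))))) :=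
    isFiniteMeasure_withDensity_ofReal (hpa2x_int_l m).2
  have h2 : IsFiniteMeasure ((volume : Measure ℝ).withDensity fun t =>
      ENNReal.ofReal (|t| ^ θ * Real.exp (-(π * t ^ 2 / T ^ 2)))) :=
    isFiniteMeasure_withDensity_ofReal (hpa2x_int_t θ T h0 hT).2
  infer_instance

theorem hpa2x_am_conj {m : ℕ} (ρ a b : ℝ) (l : (Fin m → ℝ) × ℝ) (t : ℝ) (w : E m) :
    (starRingEnd ℂ) (am ρ one a b l t w) = am ρ one (-b) (-a) l t w := by
  unfold am
  split_ifs with h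
  · rw [← intervalIntegral.intervalIntegral_conj, ← intervalIntegral.integral_comp_neg]
    refine intervalIntegral.integral_congr fun τ _ => ?_
    have hz : zt (-τ) = (starRingEnd ℂ) (zt τ) := by
      unfold zt
      have h2 : (starRingEnd ℂ) (2 : ℂ) = 2 := Complex.conj_ofNat 2
      rw [map_add, map_mul, map_mul, map_one, h2, Complex.conj_ofReal, Complex.conj_I]
      push_cast
      ring
    show (starRingEnd ℂ) (one τ * gg τ t *
        Complex.exp (-(π * zt τ * ((ql l.1 w - l.2 : ℝ) : ℂ)))) =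
      one (-τ) * gg (-τ) t * Complex.exp (-(π * zt (-τ) * ((ql l.1 w - l.2 : ℝ) : ℂ)))
    rw [map_mul, map_mul, gg_neg, hz, ← Complex.exp_conj, map_neg, map_mul, map_mul,
      Complex.conj_ofReal, Complex.conj_ofReal]
    unfold one
    rw [map_one]
  · exact map_zero _

theorem op_conj {m : ℕ} (ρ a b : ℝ) (l : (Fin m → ℝ) × ℝ) (t : ℝ) (G : E m → ℂ) (y : E m) :
    op ρ one (-b) (-a) l t G y = (starRingEnd ℂ) (op ρ one a b l t (cj G) (-y)) := by
  unfold op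
  rw [← integral_conj]
  refine integral_congr_ae (Filter.Eventually.of_forall fun w => ?_)
  show G w * am ρ one (-b) (-a) l t w * ex (inner ℝ w y) =
    (starRingEnd ℂ) (cj G w * am ρ one a b l t w * ex (inner ℝ w (-y)))
  rw [map_mul, map_mul, hpa2x_am_conj, hkf_conj_ex, inner_neg_right, neg_neg]
  unfold cj
  rw [Complex.conj_conj]

theorem continuous_pw (R : ℝ) (k : ℕ) : Continuous (pw R k) := by
  unfold pw
  exact (continuous_zt.div_const _).pow k

theorem norm_pw_le (R : ℝ) (hR : 1 ≤ R) (k : ℕ) (τ : ℝ) (hτ : τ ∈ Icc R (2 * R)) :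
    ‖pw R k τ‖ ≤ 1 := by
  unfold pw
  have hR0 : 0 < 5 * R := by linarith
  rw [norm_pow, norm_div, Complex.norm_real, Real.norm_eq_abs, abs_of_pos hR0]
  refine pow_le_one₀ (by positivity) ?_
  rw [div_le_one hR0]
  have h1 := norm_zt_sq τ
  refine abs_le_of_sq_le_sq' ?_ hR0.le |>.2
  rw [h1]
  obtain ⟨h2, h3⟩ := hτ
  have h4 : τ ^ 2 ≤ (2 * R) ^ 2 := pow_le_pow_left₀ (by linarith) h3 2
  nlinarith

theorem hpa2x_cube {m : ℕ} (ρ : ℝ) : MeasurableSet {w : E m | ∀ i, |w i| ≤ ρ} := by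
  have : {w : E m | ∀ i, |w i| ≤ ρ} = ⋂ i, {w : E m | |w i| ≤ ρ} := by
    ext w
    simp
  rw [this]
  refine MeasurableSet.iInter fun i => ?_
  have h1 : Continuous fun w : E m => |w i| := by fun_prop
  exact measurableSet_le h1.measurable measurable_const

theorem measurable_Gs {m : ℕ} (ρ : ℝ) (G : E m → ℂ) (hG : Measurable G) (k : ℕ)
    (s : Fin k → Fin m) : Measurable (Gs ρ G k s) := by
  unfold Gs
  refine Measurable.ite (hpa2x_cube ρ) ?_ measurable_const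
  refine hG.mul ?_
  have h1 : Continuous fun w : E m => ∏ r, (w (s r) ^ 2 / ρ ^ 2) :=
    continuous_finsetProd _ fun r _ => by fun_prop
  exact (Complex.continuous_ofReal.comp h1).measurable

theorem norm_Gs_le {m : ℕ} (ρ : ℝ) (hρ : 0 < ρ) (G : E m → ℂ) (hG : ∀ w, ‖G w‖ ≤ 1) (k : ℕ)
    (s : Fin k → Fin m) (w : E m) : ‖Gs ρ G k s w‖ ≤ 1 := by
  unfold Gs
  split_ifs with hw
  · rw [norm_mul, Complex.norm_real, Real.norm_eq_abs, Finset.abs_prod]
    have h1 : ∏ r, |w (s r) ^ 2 / ρ ^ 2| ≤ 1 := by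
      refine Finset.prod_le_one (fun r _ => abs_nonneg _) fun r _ => ?_
      rw [abs_div, abs_of_nonneg (sq_nonneg ρ), abs_of_nonneg (sq_nonneg _),
        div_le_one (by positivity), ← sq_abs (w (s r))]
      exact pow_le_pow_left₀ (abs_nonneg _) (hw _) 2
    calc ‖G w‖ * ∏ r, |w (s r) ^ 2 / ρ ^ 2| ≤ 1 * 1 :=
          mul_le_mul (hG w) h1 (Finset.prod_nonneg fun r _ => abs_nonneg _) zero_le_one
      _ = 1 := one_mul 1
  · rw [norm_zero]
    exact zero_le_one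

end Pool.Agent.AXD
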