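import Pool.Agent.AXD.PI
import Pool.Agent.AEE.XI

namespace Pool.Agent.AXD

open MeasureTheory Set Pool.Agent.MP_6cbfb8_an Pool.Agent.MST
open scoped ENNReal Real

theorem hpi2x_meas {m : ℕ} (ρ a b : ℝ) (l : Fin m → ℝ) (G : E m → ℂ) (hG : Measurable G) :
    Measurable fun q : ℝ × ℝ × E m => ‖op ρ one a b (q.1 • l, q.1) q.2.1 G q.2.2‖ₑ := by
  have h1 := measurable_op (m := m) ρ one continuous_const a b G hG
  have h0 : Measurable fun q : ℝ × ℝ × E m => ((q.1 • l, q.1) : (Fin m → ℝ) × ℝ) :=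
    (measurable_fst.smul_const l).prodMk measurable_fst
  have h2 : Measurable fun q : ℝ × ℝ × E m =>
      ((((q.1 • l, q.1) : (Fin m → ℝ) × ℝ), q.2.1), q.2.2) :=
    (h0.prodMk (measurable_fst.comp measurable_snd)).prodMk (measurable_snd.comp measurable_snd)
  have h3 := (h1.comp h2).enorm
  simp only [Function.comp_def] at h3
  exact h3

theorem hpi2x_fin0 {m : ℕ} (F : ℝ → E m → ℝ≥0∞) (hF : ∀ t, Measurable (F t)) (C p : ℝ)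
    (hC : 0 < C) (hp : 2 ≤ p) (h1 : ∀ t y, F t y ≤ ENNReal.ofReal C)
    (h2 : ∀ t, ∫⁻ y, F t y ^ (2:ℝ) ≤ ENNReal.ofReal (C * Real.exp (-(t ^ 2 / C)))) :
    ∫⁻ t, ∫⁻ y, F t y ^ p < ∞ := by
  obtain ⟨K, hK, hsc⟩ := hpix_scale 0 C one_pos hC
  have h3 : ∀ t, ∫⁻ y, F t y ^ p ≤ ENNReal.ofReal C ^ (p - 2) *
      (ENNReal.ofReal (|t| ^ (-(0:ℝ))) *
        ENNReal.ofReal (C * Real.exp (-(t ^ 2 / (C * 1 ^ 2))))) := by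
    intro t
    refine (lintegral_rpow_le_sup (F t) (hF t) (by norm_num : (0 : ℝ) ≤ 2) hp
      (ENNReal.ofReal C) (h1 t)).trans ?_
    refine mul_le_mul' le_rfl ?_
    rw [neg_zero, Real.rpow_zero, ENNReal.ofReal_one, one_mul]
    have e : C * (1:ℝ) ^ 2 = C := by ring
    rw [e]
    exact h2 t
  refine (lintegral_mono h3).trans_lt ?_
  have hpow : ENNReal.ofReal C ^ (p - 2) ≠ ∞ :=
    (ENNReal.rpow_lt_top_of_nonneg (by linarith) ENNReal.ofReal_ne_top).ne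
  rw [lintegral_const_mul' _ _ hpow]
  exact ENNReal.mul_lt_top hpow.lt_top ((hsc 1 one_pos).trans_lt ENNReal.ofReal_lt_top)

theorem hpi2x_my {m : ℕ} (ρ a b : ℝ) (l : (Fin m → ℝ) × ℝ) (G : E m → ℂ) (hG : Measurable G)
    (t : ℝ) : Measurable fun y : E m => ‖op ρ one a b l t G y‖ₑ := by
  have h := (hpix_meas ρ a b l G hG).comp (measurable_prodMk_left (x := t))
  simpa only [Function.comp_def] using h

/-- every piece is in `L^p` -/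
theorem hpi2x_fin {m : ℕ} (ρ a b p : ℝ) (hp : 2 ≤ p) (hab : a ≤ b) (l : (Fin m → ℝ) × ℝ)
    (G : E m → ℂ) (hG : Measurable G) (hb : ∀ w, ‖G w‖ ≤ 1) :
    ∫⁻ t, ∫⁻ y, ‖op ρ one a b l t G y‖ₑ ^ p < ∞ := by
  obtain ⟨C, hC, hop⟩ := op_bounds (m := m) ρ a b hab l
  refine hpi2x_fin0 (fun t y => ‖op ρ one a b l t G y‖ₑ) (hpi2x_my ρ a b l G hG) C p hC hp
    (fun t y => ?_) (fun t => (hop t G hG hb).2)
  rw [← ofReal_norm]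
  refine ENNReal.ofReal_le_ofReal (((hop t G hG hb).1 y).trans ?_)
  have : Real.exp (-(t ^ 2 / C)) ≤ 1 := Real.exp_le_one_iff.2 (by
    have : 0 ≤ t ^ 2 / C := by positivity
    linarith)
  nlinarith

/-- mean of the interpolated bound -/
theorem hpi2x_int {m : ℕ} (ρ : ℝ) (p θ β C : ℝ) (hp : 2 < p) (hp4 : p < 4) (hC : 0 < C)
    (l : Fin m → ℝ) (k : ℕ) (G : E m → ℂ) (hG : Measurable G)
    (hint : ∀ κ ∈ Icc (1:ℝ) 2,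
      ∫⁻ t, ∫⁻ y, ‖op ρ one ((2:ℝ) ^ k) (2 * (2:ℝ) ^ k) (κ • l, κ) t G y‖ₑ ^ p ≤
        ENNReal.ofReal (C * ((2:ℝ) ^ k) ^ (((4 - p) - θ * (p - 2)) / 2)) *
          (L4 ρ θ one ((2:ℝ) ^ k) (2 * (2:ℝ) ^ k) G (κ • l, κ)) ^ ((p - 2) / 2))
    (hk : HH ρ θ k l G ≤ ENNReal.ofReal ((2:ℝ) ^ (-(β * (k:ℝ))))) :
    ∫⁻ κ in Icc (1:ℝ) 2,
      ∫⁻ t, ∫⁻ y, ‖op ρ one ((2:ℝ) ^ k) (2 * (2:ℝ) ^ k) (κ • l, κ) t G y‖ₑ ^ p ≤
      ENNReal.ofReal C * (2:ℝ≥0∞) ^ (-(((p - 2) / 2 * (β - ((4 - p) / (p - 2) - θ))) * (k:ℝ))) := by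
  obtain ⟨a, ha⟩ : ∃ a : ℝ, a = (4 - p) / 2 := ⟨_, rfl⟩
  obtain ⟨b, hb⟩ : ∃ b : ℝ, b = (p - 2) / 2 := ⟨_, rfl⟩
  have ha0 : 0 < a := by rw [ha]; linarith
  have hb0 : 0 < b := by rw [hb]; linarith
  have hab : a + b = 1 := by rw [ha, hb]; ring
  have hLm : Measurable fun κ : ℝ => L4 ρ θ one ((2:ℝ) ^ k) (2 * (2:ℝ) ^ k) G (κ • l, κ) := by
    have h1 := measurable_L4 (m := m) ρ θ one continuous_const ((2:ℝ) ^ k) (2 * (2:ℝ) ^ k) G hG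
    have h2 : Measurable fun κ : ℝ => ((κ • l, κ) : (Fin m → ℝ) × ℝ) :=
      (measurable_id.smul_const l).prodMk measurable_id
    exact h1.comp h2
  have hJ : ∫⁻ κ in Icc (1:ℝ) 2, (L4 ρ θ one ((2:ℝ) ^ k) (2 * (2:ℝ) ^ k) G (κ • l, κ)) ^ b ≤
      (HH ρ θ k l G) ^ b := by
    have h3 := ENNReal.lintegral_mul_norm_pow_le (μ := volume.restrict (Icc (1:ℝ) 2))
      (f := fun _ => 1) (g := fun κ => L4 ρ θ one ((2:ℝ) ^ k) (2 * (2:ℝ) ^ k) G (κ • l, κ))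
      aemeasurable_const hLm.aemeasurable ha0.le hb0.le hab
    simp only [ENNReal.one_rpow, one_mul, lintegral_const, Pool.Agent.AEE.hxi_vol] at h3
    exact h3
  rw [← hb] at hint ⊢
  calc ∫⁻ κ in Icc (1:ℝ) 2,
        ∫⁻ t, ∫⁻ y, ‖op ρ one ((2:ℝ) ^ k) (2 * (2:ℝ) ^ k) (κ • l, κ) t G y‖ₑ ^ p
      ≤ ∫⁻ κ in Icc (1:ℝ) 2, ENNReal.ofReal (C * ((2:ℝ) ^ k) ^ (((4 - p) - θ * (p - 2)) / 2)) *
          (L4 ρ θ one ((2:ℝ) ^ k) (2 * (2:ℝ) ^ k) G (κ • l, κ)) ^ b :=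
        setLIntegral_mono' measurableSet_Icc hint
    _ = ENNReal.ofReal (C * ((2:ℝ) ^ k) ^ (((4 - p) - θ * (p - 2)) / 2)) *
          ∫⁻ κ in Icc (1:ℝ) 2, (L4 ρ θ one ((2:ℝ) ^ k) (2 * (2:ℝ) ^ k) G (κ • l, κ)) ^ b :=
        lintegral_const_mul _ (hLm.pow_const b)
    _ ≤ ENNReal.ofReal (C * ((2:ℝ) ^ k) ^ (((4 - p) - θ * (p - 2)) / 2)) *
          (ENNReal.ofReal ((2:ℝ) ^ (-(β * (k:ℝ))))) ^ b :=
        mul_le_mul' le_rfl (hJ.trans (ENNReal.rpow_le_rpow hk hb0.le))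
    _ = ENNReal.ofReal C * (2:ℝ≥0∞) ^ (-((b * (β - ((4 - p) / (p - 2) - θ))) * (k:ℝ))) := by
        have e1 : ((2:ℝ) ^ k) ^ (((4 - p) - θ * (p - 2)) / 2) =
            (2:ℝ) ^ ((((4 - p) - θ * (p - 2)) / 2) * (k:ℝ)) := by
          rw [← Real.rpow_natCast 2 k, ← Real.rpow_mul (by norm_num)]
          congr 1
          ring
        rw [ENNReal.ofReal_mul hC.le, e1, Pool.Agent.AEE.hxi_two, Pool.Agent.AEE.hxi_two,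
          ← ENNReal.rpow_mul, mul_assoc, ← ENNReal.rpow_add _ _ (by norm_num) (by norm_num)]
        congr 2
        have e2 : (4 - p) / (p - 2) * b = a := by
          rw [hb, ha]
          have : p - 2 ≠ 0 := by linarith
          field_simp
        have e3 : (4 - p - θ * (p - 2)) / 2 = a - θ * b := by rw [ha, hb]; ring
        rw [e3, ← e2]
        ring

/-- the abstract summation -/
theorem hpi2x_core {X : Type*} [MeasurableSpace X] (μ : Measure X) [SFinite μ] (ν : Measure ℝ)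
    [SFinite ν] (A : ℝ × X → ℝ≥0∞) (f g : ℕ → ℝ × X → ℝ≥0∞) (hA : Measurable A)
    (hf : ∀ k, Measurable (f k)) (hg : ∀ k, Measurable (g k)) (p δ : ℝ) (hp : 1 ≤ p) (hδ : 0 < δ)
    (c : ℝ≥0∞) (hc : c < ∞) (hA0 : ∀ κ, ∫⁻ q, A (κ, q) ^ p ∂μ < ∞)
    (hf0 : ∀ k κ, ∫⁻ q, f k (κ, q) ^ p ∂μ < ∞) (hg0 : ∀ k κ, ∫⁻ q, g k (κ, q) ^ p ∂μ < ∞)
    (hfl : ∀ᶠ k : ℕ in Filter.atTop, ∫⁻ κ, (∫⁻ q, f k (κ, q) ^ p ∂μ) ∂ν ≤
      c * (2 : ℝ≥0∞) ^ (-(δ * (k : ℝ))))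
    (hgl : ∀ᶠ k : ℕ in Filter.atTop, ∫⁻ κ, (∫⁻ q, g k (κ, q) ^ p ∂μ) ∂ν ≤
      c * (2 : ℝ≥0∞) ^ (-(δ * (k : ℝ)))) :
    ∀ᵐ κ ∂ν, ∫⁻ q, (A (κ, q) + ∑' k, (f k (κ, q) + g k (κ, q))) ^ p ∂μ < ∞ := by
  have hp0 : 0 < p := by linarith
  obtain ⟨ε', hε'⟩ : ∃ ε' : ℝ, ε' = δ / (2 * p) := ⟨_, rfl⟩
  have hε0 : 0 < ε' := by rw [hε']; positivity
  obtain ⟨S0, hS0⟩ : ∃ S0 : ℝ≥0∞, S0 = ∑' k : ℕ, (2:ℝ≥0∞) ^ (-(ε' * (k:ℝ))) := ⟨_, rfl⟩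
  have hS0f : S0 < ∞ := hS0 ▸ Pool.Agent.AEL.geom_fin ε' hε0
  have h2p : (2:ℝ≥0∞) ^ (p - 1) < ∞ :=
    ENNReal.rpow_lt_top_of_nonneg (by linarith) (by norm_num)
  have hAm : ∀ κ, Measurable fun q => A (κ, q) := fun κ => hA.comp measurable_prodMk_left
  have hfm : ∀ k κ, Measurable fun q => f k (κ, q) := fun k κ =>
    (hf k).comp measurable_prodMk_left
  have hgm : ∀ k κ, Measurable fun q => g k (κ, q) := fun k κ =>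
    (hg k).comp measurable_prodMk_left
  have hfml : ∀ k, Measurable fun κ => ∫⁻ q, f k (κ, q) ^ p ∂μ := fun k =>
    Measurable.lintegral_prod_right' (f := fun z : ℝ × X => f k z ^ p) ((hf k).pow_const p)
  have hgml : ∀ k, Measurable fun κ => ∫⁻ q, g k (κ, q) ^ p ∂μ := fun k =>
    Measurable.lintegral_prod_right' (f := fun z : ℝ × X => g k z ^ p) ((hg k).pow_const p)
  have hl : ∀ κ, ∫⁻ q, (A (κ, q) + ∑' k, (f k (κ, q) + g k (κ, q))) ^ p ∂μ ≤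
      2 ^ (p - 1) * ((∫⁻ q, A (κ, q) ^ p ∂μ) + S0 ^ p *
      ∑' k : ℕ, (2:ℝ≥0∞) ^ (ε' * p * (k:ℝ)) * (2 ^ (p - 1) *
        ((∫⁻ q, f k (κ, q) ^ p ∂μ) + ∫⁻ q, g k (κ, q) ^ p ∂μ))) := by
    intro κ
    calc ∫⁻ q, (A (κ, q) + ∑' k, (f k (κ, q) + g k (κ, q))) ^ p ∂μ
        ≤ ∫⁻ q, 2 ^ (p - 1) * (A (κ, q) ^ p + S0 ^ p *
          ∑' k : ℕ, (2:ℝ≥0∞) ^ (ε' * p * (k:ℝ)) *
            (2 ^ (p - 1) * (f k (κ, q) ^ p + g k (κ, q) ^ p))) ∂μ := by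
          refine lintegral_mono fun q => ?_
          rw [hS0]
          exact Pool.Agent.AEL.hsm_pt _ _ _ p ε' hp
      _ = _ := Pool.Agent.AEL.hsm_int μ (fun q => A (κ, q) ^ p) (fun k q => f k (κ, q) ^ p)
          (fun k q => g k (κ, q) ^ p)
          (2 ^ (p - 1)) (S0 ^ p) (fun k => (2:ℝ≥0∞) ^ (ε' * p * (k:ℝ))) ((hAm κ).pow_const p)
          (fun k => (hfm k κ).pow_const p) (fun k => (hgm k κ).pow_const p)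
  obtain ⟨k0, hk0⟩ := Filter.eventually_atTop.1 (hfl.and hgl)
  have hwm : ∀ k : ℕ, Measurable fun κ => (if k0 ≤ k then (2:ℝ≥0∞) ^ (ε' * p * (k:ℝ)) *
      (2 ^ (p - 1) * ((∫⁻ q, f k (κ, q) ^ p ∂μ) + ∫⁻ q, g k (κ, q) ^ p ∂μ)) else 0) := by
    intro k
    by_cases hk : k0 ≤ k
    · simp only [if_pos hk]
      exact (((hfml k).add (hgml k)).const_mul _).const_mul _
    · simp only [if_neg hk]
      exact measurable_const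
  have htail : ∀ᵐ κ ∂ν, ∑' k : ℕ, (if k0 ≤ k then (2:ℝ≥0∞) ^ (ε' * p * (k:ℝ)) *
      (2 ^ (p - 1) * ((∫⁻ q, f k (κ, q) ^ p ∂μ) + ∫⁻ q, g k (κ, q) ^ p ∂μ)) else 0) < ∞ := by
    refine ae_lt_top (Measurable.tsum hwm) (ne_of_lt ?_)
    rw [lintegral_tsum fun k => (hwm k).aemeasurable]
    refine lt_of_le_of_lt (b := ∑' k : ℕ, (2 ^ (p - 1) * (2 * c)) *
      (2 : ℝ≥0∞) ^ (-(δ / 2 * (k : ℝ)))) (ENNReal.tsum_le_tsum fun k => ?_) ?_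
    · by_cases hk : k0 ≤ k
      · simp only [if_pos hk]
        have m0 : Measurable fun κ => (∫⁻ q, f k (κ, q) ^ p ∂μ) + ∫⁻ q, g k (κ, q) ^ p ∂μ :=
          (hfml k).add (hgml k)
        have m1 : Measurable fun κ => (2:ℝ≥0∞) ^ (p - 1) *
            ((∫⁻ q, f k (κ, q) ^ p ∂μ) + ∫⁻ q, g k (κ, q) ^ p ∂μ) := m0.const_mul _
        rw [lintegral_const_mul _ m1, lintegral_const_mul _ m0, lintegral_add_left (hfml k)]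
        obtain ⟨a1, a2⟩ := hk0 k hk
        calc (2:ℝ≥0∞) ^ (ε' * p * (k:ℝ)) * (2 ^ (p - 1) *
              ((∫⁻ κ, (∫⁻ q, f k (κ, q) ^ p ∂μ) ∂ν) + ∫⁻ κ, (∫⁻ q, g k (κ, q) ^ p ∂μ) ∂ν))
            ≤ (2:ℝ≥0∞) ^ (ε' * p * (k:ℝ)) * (2 ^ (p - 1) *
              (c * (2 : ℝ≥0∞) ^ (-(δ * (k : ℝ))) + c * (2 : ℝ≥0∞) ^ (-(δ * (k : ℝ))))) :=
              mul_le_mul' le_rfl (mul_le_mul' le_rfl (add_le_add a1 a2))
          _ = (2 ^ (p - 1) * (2 * c)) *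
              ((2:ℝ≥0∞) ^ (ε' * p * (k:ℝ)) * (2 : ℝ≥0∞) ^ (-(δ * (k : ℝ)))) := by ring
          _ = (2 ^ (p - 1) * (2 * c)) * (2 : ℝ≥0∞) ^ (-(δ / 2 * (k : ℝ))) := by
              rw [← ENNReal.rpow_add _ _ (by norm_num) (by norm_num)]
              congr 2
              rw [hε']
              field_simp
              ring
      · simp only [if_neg hk, lintegral_zero]
        exact zero_le
    · rw [ENNReal.tsum_mul_left]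
      exact ENNReal.mul_lt_top (ENNReal.mul_lt_top h2p (ENNReal.mul_lt_top (by norm_num) hc))
        (Pool.Agent.AEL.geom_fin (δ / 2) (by positivity))
  filter_upwards [htail] with κ hκ
  refine (hl κ).trans_lt (ENNReal.mul_lt_top h2p (ENNReal.add_lt_top.2 ⟨hA0 κ,
    ENNReal.mul_lt_top (ENNReal.rpow_lt_top_of_nonneg hp0.le hS0f.ne) ?_⟩))
  have hall : ∀ k : ℕ, (2:ℝ≥0∞) ^ (ε' * p * (k:ℝ)) * (2 ^ (p - 1) *
        ((∫⁻ q, f k (κ, q) ^ p ∂μ) + ∫⁻ q, g k (κ, q) ^ p ∂μ)) < ∞ := by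
    intro k
    have hk : 0 ≤ ε' * p * (k:ℝ) := by positivity
    exact ENNReal.mul_lt_top (ENNReal.rpow_lt_top_of_nonneg hk (by norm_num))
      (ENNReal.mul_lt_top h2p (ENNReal.add_lt_top.2 ⟨hf0 k κ, hg0 k κ⟩))
  refine lt_of_le_of_lt (ENNReal.tsum_le_tsum (g := fun k =>
    (if k ∈ Finset.range k0 then (2:ℝ≥0∞) ^ (ε' * p * (k:ℝ)) * (2 ^ (p - 1) *
        ((∫⁻ q, f k (κ, q) ^ p ∂μ) + ∫⁻ q, g k (κ, q) ^ p ∂μ)) else 0) +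
    (if k0 ≤ k then (2:ℝ≥0∞) ^ (ε' * p * (k:ℝ)) * (2 ^ (p - 1) *
        ((∫⁻ q, f k (κ, q) ^ p ∂μ) + ∫⁻ q, g k (κ, q) ^ p ∂μ)) else 0)) fun k => ?_) ?_
  · by_cases hk : k0 ≤ k
    · rw [if_pos hk]
      exact le_add_self
    · rw [if_pos (by simpa using hk)]
      exact le_self_add
  · rw [ENNReal.tsum_add]
    refine ENNReal.add_lt_top.2 ⟨?_, hκ⟩
    rw [tsum_eq_sum (s := Finset.range k0) (fun k hk => if_neg hk)]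
    refine ENNReal.sum_lt_top.2 fun k hk => ?_
    rw [if_pos hk]
    exact hall k

theorem hpi2x_it {m : ℕ} (F : ℝ × E m → ℝ≥0∞) (hF : Measurable F) :
    ∫⁻ t : ℝ, ∫⁻ y : E m, F (t, y) = ∫⁻ q : ℝ × E m, F q := by
  rw [Measure.volume_eq_prod, lintegral_prod _ hF.aemeasurable]

theorem hpi2x_core2 {m : ℕ} (A : ℝ → ℝ → E m → ℝ≥0∞) (f g : ℕ → ℝ → ℝ → E m → ℝ≥0∞)
    (hA : Measurable fun q : ℝ × ℝ × E m => A q.1 q.2.1 q.2.2)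
    (hf : ∀ k, Measurable fun q : ℝ × ℝ × E m => f k q.1 q.2.1 q.2.2)
    (hg : ∀ k, Measurable fun q : ℝ × ℝ × E m => g k q.1 q.2.1 q.2.2)
    (p δ : ℝ) (hp : 1 ≤ p) (hδ : 0 < δ) (c : ℝ≥0∞) (hc : c < ∞)
    (hA0 : ∀ κ, ∫⁻ t, ∫⁻ y, A κ t y ^ p < ∞)
    (hf0 : ∀ k κ, ∫⁻ t, ∫⁻ y, f k κ t y ^ p < ∞) (hg0 : ∀ k κ, ∫⁻ t, ∫⁻ y, g k κ t y ^ p < ∞)
    (hfl : ∀ᶠ k : ℕ in Filter.atTop, ∫⁻ κ in Icc (1:ℝ) 2, ∫⁻ t, ∫⁻ y, f k κ t y ^ p ≤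
      c * (2 : ℝ≥0∞) ^ (-(δ * (k : ℝ))))
    (hgl : ∀ᶠ k : ℕ in Filter.atTop, ∫⁻ κ in Icc (1:ℝ) 2, ∫⁻ t, ∫⁻ y, g k κ t y ^ p ≤
      c * (2 : ℝ≥0∞) ^ (-(δ * (k : ℝ)))) :
    ∀ᵐ κ ∂(volume.restrict (Icc (1:ℝ) 2)),
      ∫⁻ t, ∫⁻ y, (A κ t y + ∑' k, (f k κ t y + g k κ t y)) ^ p < ∞ := by
  have hmA : ∀ κ, Measurable fun q : ℝ × E m => A κ q.1 q.2 := fun κ =>
    hA.comp (measurable_prodMk_left (x := κ))
  have hmf : ∀ k κ, Measurable fun q : ℝ × E m => f k κ q.1 q.2 := fun k κ =>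
    (hf k).comp (measurable_prodMk_left (x := κ))
  have hmg : ∀ k κ, Measurable fun q : ℝ × E m => g k κ q.1 q.2 := fun k κ =>
    (hg k).comp (measurable_prodMk_left (x := κ))
  have iA : ∀ κ, ∫⁻ q : ℝ × E m, A κ q.1 q.2 ^ p = ∫⁻ t, ∫⁻ y, A κ t y ^ p := fun κ =>
    (hpi2x_it (fun q : ℝ × E m => A κ q.1 q.2 ^ p) ((hmA κ).pow_const p)).symm
  have iF : ∀ k κ, ∫⁻ q : ℝ × E m, f k κ q.1 q.2 ^ p = ∫⁻ t, ∫⁻ y, f k κ t y ^ p := fun k κ =>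
    (hpi2x_it (fun q : ℝ × E m => f k κ q.1 q.2 ^ p) ((hmf k κ).pow_const p)).symm
  have iG : ∀ k κ, ∫⁻ q : ℝ × E m, g k κ q.1 q.2 ^ p = ∫⁻ t, ∫⁻ y, g k κ t y ^ p := fun k κ =>
    (hpi2x_it (fun q : ℝ × E m => g k κ q.1 q.2 ^ p) ((hmg k κ).pow_const p)).symm
  have key := hpi2x_core (volume : Measure (ℝ × E m)) (volume.restrict (Icc (1:ℝ) 2))
    (fun q : ℝ × ℝ × E m => A q.1 q.2.1 q.2.2)
    (fun (k : ℕ) (q : ℝ × ℝ × E m) => f k q.1 q.2.1 q.2.2)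
    (fun (k : ℕ) (q : ℝ × ℝ × E m) => g k q.1 q.2.1 q.2.2) hA hf hg p δ hp hδ c hc
    (fun κ => by simpa only [iA] using hA0 κ) (fun k κ => by simpa only [iF] using hf0 k κ)
    (fun k κ => by simpa only [iG] using hg0 k κ) (by simpa only [iF] using hfl)
    (by simpa only [iG] using hgl)
  filter_upwards [key] with κ hκ
  have hm : Measurable fun q : ℝ × E m =>
      (A κ q.1 q.2 + ∑' k, (f k κ q.1 q.2 + g k κ q.1 q.2)) ^ p :=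
    ((hmA κ).add (Measurable.tsum fun k => (hmf k κ).add (hmg k κ))).pow_const p
  rw [hpi2x_it (fun q : ℝ × E m => (A κ q.1 q.2 + ∑' k, (f k κ q.1 q.2 + g k κ q.1 q.2)) ^ p) hm]
  exact hκ

theorem hpi2x_neg {m : ℕ} (ρ a b p : ℝ) (l : (Fin m → ℝ) × ℝ) (G : E m → ℂ) :
    ∫⁻ t, ∫⁻ y, ‖op ρ one (-b) (-a) l t G y‖ₑ ^ p =
      ∫⁻ t, ∫⁻ y, ‖op ρ one a b l t (cj G) y‖ₑ ^ p := by
  refine lintegral_congr fun t => ?_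
  have h1 : ∀ y : E m, ‖op ρ one (-b) (-a) l t G y‖ₑ ^ p =
      ‖op ρ one a b l t (cj G) (-y)‖ₑ ^ p := by
    intro y
    rw [op_conj, ← ofReal_norm, RCLike.norm_conj, ofReal_norm]
  simp only [h1]
  exact lintegral_neg_eq_self (fun y : E m => ‖op ρ one a b l t (cj G) y‖ₑ ^ p)

/-
ROW PI2 (1.2 h). Choose σ - θ < β' < β, σ = (4-p)/(p-2). For k ≥ k0: HH ≤ 2^(-βk), so Σ_{k ≥ k0} 2^(β'k) HH_k < ∞, hence (ae_lt_top after lintegral_tsum) for a.e. κ ∈ [1,2]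
Σ_{k ≥ k0} 2^(β'k) L4_k(κ) < ∞, so L4_k(κ) ≤ M_κ 2^(-β'k) for k ≥ k0, M_κ < ∞; by `interp` ∫∫ ‖op_k‖^p ≤ M' 2^(-δk), δ = (p-2)/2 (β' - (σ - θ)) > 0
(exponent: ((4-p) - θ(p-2))/2 = (p-2)/2 (σ - θ)). The same for cj G, and the pieces over (-2·2^k, -2^k) have the same norms as those of cj G at -y (op_conj; y → -y preserves the
integral). For k < k0 and for the low piece (-1, 1): `op_bounds` ((p > 2): ‖F‖^p ≤ sup^(p-2) ‖F‖², Gaussian in t): finite. So for all k the p-th power integrals are ≤ M'' 2^(-δk)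
with M'' < ∞ depending on κ. Then Phi ∈ L^p: Minkowski for the countable sum, exactly as Phi_fin in Pool.Agent.AEL.SM / fin_of_HH in Pool.Agent.AEE.XI (hsm_pt: pointwise
(Σ a_k)^p ≤ C Σ 2^(εk) a_k^p with ε < δ; then lintegral_tsum) with the measure volume.prod volume on ℝ × E m (lintegral_prod to go back to the iterated integral; measurable_op).
-/
theorem fin_of_HH {m : ℕ} (hm : 2 ≤ m) (ρ : ℝ) (p θ β : ℝ) (hp : 2 < p) (hp4 : p < 4)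
    (h0 : 0 ≤ θ) (hθ : θ < (4 - p) / (p - 2)) (hβ : (4 - p) / (p - 2) - θ < β)
    (l : Fin m → ℝ) (hl : ∀ i, 0 < l i) (G : E m → ℂ) (hG : Measurable G) (hb : ∀ w, ‖G w‖ ≤ 1)
    (h1 : ∀ᶠ k : ℕ in Filter.atTop,
      HH ρ θ k l G ≤ ENNReal.ofReal ((2:ℝ) ^ (-(β * (k:ℝ)))))
    (h2 : ∀ᶠ k : ℕ in Filter.atTop,
      HH ρ θ k l (cj G) ≤ ENNReal.ofReal ((2:ℝ) ^ (-(β * (k:ℝ))))) :
    ∀ᵐ κ ∂(volume.restrict (Icc (1:ℝ) 2)),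
      ∫⁻ t, ∫⁻ y, Phi ρ (κ • l, κ) t G y ^ p < ∞ := by
  have hp1 : 1 ≤ p := by linarith
  obtain ⟨C, hC, hint⟩ := interp hm ρ p θ hp hp4 h0 hθ l hl
  have hδ : 0 < (p - 2) / 2 * (β - ((4 - p) / (p - 2) - θ)) :=
    mul_pos (by linarith) (by linarith)
  have hG'm : Measurable (cj G) := Complex.continuous_conj.measurable.comp hG
  have hG'b : ∀ w, ‖cj G w‖ ≤ 1 := fun w => by
    unfold cj
    rw [RCLike.norm_conj]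
    exact hb w
  have hpk : ∀ k : ℕ, (2:ℝ) ^ k ≤ 2 * (2:ℝ) ^ k := fun k => by
    have : (0:ℝ) < (2:ℝ) ^ k := by positivity
    linarith
  have hfl : ∀ᶠ k : ℕ in Filter.atTop, ∫⁻ κ in Icc (1:ℝ) 2, ∫⁻ t, ∫⁻ y,
      ‖op ρ one ((2:ℝ) ^ k) (2 * (2:ℝ) ^ k) (κ • l, κ) t G y‖ₑ ^ p ≤
      ENNReal.ofReal C * (2:ℝ≥0∞) ^ (-(((p - 2) / 2 * (β - ((4 - p) / (p - 2) - θ))) * (k:ℝ))) :=
    h1.mono fun k hk => hpi2x_int ρ p θ β C hp hp4 hC l k G hG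
        (fun κ hκ => hint κ hκ k G hG hb) hk
  have hgl : ∀ᶠ k : ℕ in Filter.atTop, ∫⁻ κ in Icc (1:ℝ) 2, ∫⁻ t, ∫⁻ y,
      ‖op ρ one (-(2 * (2:ℝ) ^ k)) (-((2:ℝ) ^ k)) (κ • l, κ) t G y‖ₑ ^ p ≤
      ENNReal.ofReal C * (2:ℝ≥0∞) ^ (-(((p - 2) / 2 * (β - ((4 - p) / (p - 2) - θ))) * (k:ℝ))) := by
    simp only [hpi2x_neg]
    exact h2.mono fun k hk => hpi2x_int ρ p θ β C hp hp4 hC l k (cj G) hG'm
        (fun κ hκ => hint κ hκ k (cj G) hG'm hG'b) hk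
  have key := hpi2x_core2 (fun κ t y => ‖op ρ one (-1) 1 (κ • l, κ) t G y‖ₑ)
    (fun k κ t y => ‖op ρ one ((2:ℝ) ^ k) (2 * (2:ℝ) ^ k) (κ • l, κ) t G y‖ₑ)
    (fun k κ t y => ‖op ρ one (-(2 * (2:ℝ) ^ k)) (-((2:ℝ) ^ k)) (κ • l, κ) t G y‖ₑ)
    (hpi2x_meas ρ _ _ l G hG) (fun k => hpi2x_meas ρ _ _ l G hG)
    (fun k => hpi2x_meas ρ _ _ l G hG) p _ hp1 hδ (ENNReal.ofReal C)
    ENNReal.ofReal_lt_top
    (fun κ => hpi2x_fin ρ (-1) 1 p hp.le (by norm_num) (κ • l, κ) G hG hb)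
    (fun k κ => hpi2x_fin ρ _ _ p hp.le (hpk k) (κ • l, κ) G hG hb)
    (fun k κ => hpi2x_fin ρ _ _ p hp.le (neg_le_neg (hpk k)) (κ • l, κ) G hG hb)
    hfl hgl
  unfold Phi
  exact key

end Pool.Agent.AXD
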