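import Pool.Agent.AXD.PA

namespace Pool.Agent.AXD

open MeasureTheory Set Pool.Agent.MP_6cbfb8_an Pool.Agent.MST
open scoped ENNReal Real

/-- the derivative of `gg` in the frequency -/
noncomputable def hpg3x_d (τ t : ℝ) : ℂ :=
  (-(1 / 2) : ℂ) * (zt τ) ^ (-(1 / 2) - 1 : ℂ) * (2 * Complex.I) *
      Complex.exp (-(π * (t : ℂ) ^ 2 / zt τ)) +
    (zt τ) ^ (-(1 / 2) : ℂ) * (Complex.exp (-(π * (t : ℂ) ^ 2 / zt τ)) *
      (π * (t : ℂ) ^ 2 * (2 * Complex.I) / zt τ ^ 2))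

theorem hpg3x_deriv (τ t : ℝ) : HasDerivAt (fun τ : ℝ => gg τ t) (hpg3x_d τ t) τ := by
  have hz : HasDerivAt (fun z : ℂ => 1 + 2 * z * Complex.I) (2 * Complex.I) (τ : ℂ) := by
    have h := (((hasDerivAt_id (τ : ℂ)).const_mul 2).mul_const Complex.I).const_add 1
    simpa using h
  have hsl : (1 + 2 * (τ : ℂ) * Complex.I) ∈ Complex.slitPlane := by
    left
    have := zt_re τ
    unfold zt at this
    rw [this]
    exact one_pos
  have hne : (1 + 2 * (τ : ℂ) * Complex.I) ≠ 0 := zt_ne τ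
  have h1 := hz.cpow_const (c := -(1 / 2)) hsl
  have h2 : HasDerivAt (fun z : ℂ => -(π * (t : ℂ) ^ 2 / (1 + 2 * z * Complex.I)))
      (π * (t : ℂ) ^ 2 * (2 * Complex.I) / (1 + 2 * (τ : ℂ) * Complex.I) ^ 2) (τ : ℂ) := by
    have h := ((hz.fun_inv hne).const_mul (π * (t : ℂ) ^ 2)).neg
    refine (h.congr_deriv ?_).congr_of_eventuallyEq ?_
    · ring
    · exact Filter.Eventually.of_forall fun z => by simp [div_eq_mul_inv]
  have h4 := (h1.mul h2.cexp).comp_ofReal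
  exact h4

theorem hpg3x_zt_ge (τ : ℝ) : 1 ≤ ‖zt τ‖ ∧ τ ≤ ‖zt τ‖ := by
  have h := norm_zt_sq τ
  have h0 := norm_nonneg (zt τ)
  constructor
  · nlinarith [sq_nonneg τ]
  · by_contra hc
    rw [not_le] at hc
    nlinarith [sq_nonneg τ]

theorem hpg3x_norm_cpow (τ r : ℝ) : ‖(zt τ) ^ ((r : ℝ) : ℂ)‖ = ‖zt τ‖ ^ r := by
  rw [Complex.norm_cpow_of_ne_zero (zt_ne τ), Complex.ofReal_re, Complex.ofReal_im, mul_zero,
    Real.exp_zero, div_one]

theorem hpg3x_norm_exp (τ t : ℝ) : ‖Complex.exp (-(π * (t : ℂ) ^ 2 / zt τ))‖ ≤ 1 := by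
  rw [Complex.norm_exp]
  have h3 : (-((π : ℂ) * (t : ℂ) ^ 2 / zt τ)).re = -(π * t ^ 2 / (1 + 4 * τ ^ 2)) := by
    have h4 : (π : ℂ) * (t : ℂ) ^ 2 / zt τ = ((π * t ^ 2 : ℝ) : ℂ) * (zt τ)⁻¹ := by
      push_cast
      rw [div_eq_mul_inv]
    rw [Complex.neg_re, h4, Complex.re_ofReal_mul, Complex.inv_re, zt_re,
      Complex.normSq_eq_norm_sq, norm_zt_sq]
    ring
  rw [h3, Real.exp_le_one_iff]
  have : 0 ≤ π * t ^ 2 / (1 + 4 * τ ^ 2) := by positivity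
  linarith

theorem hpg3x_norm_d (τ t : ℝ) (hτ : 0 < τ) :
    ‖hpg3x_d τ t‖ ≤ (1 + 2 * π * t ^ 2) * τ ^ (-(3 / 2) : ℝ) := by
  obtain ⟨h1, h2⟩ := hpg3x_zt_ge τ
  have hp : 0 < ‖zt τ‖ := by linarith
  have e1 : ‖(zt τ) ^ (-(1 / 2) - 1 : ℂ)‖ = ‖zt τ‖ ^ (-(3 / 2) : ℝ) := by
    rw [← hpg3x_norm_cpow]
    congr 2
    push_cast
    ring
  have e2 : ‖(zt τ) ^ (-(1 / 2) : ℂ)‖ = ‖zt τ‖ ^ (-(1 / 2) : ℝ) := by
    rw [← hpg3x_norm_cpow]
    congr 2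
    push_cast
    ring
  have e3 := hpg3x_norm_exp τ t
  have e4 : ‖zt τ‖ ^ (-(3 / 2) : ℝ) ≤ τ ^ (-(3 / 2) : ℝ) :=
    Real.rpow_le_rpow_of_nonpos hτ h2 (by norm_num)
  have e5 : 0 ≤ ‖zt τ‖ ^ (-(3 / 2) : ℝ) := Real.rpow_nonneg (norm_nonneg _) _
  have f1 : ‖(-(1 / 2) : ℂ) * (zt τ) ^ (-(1 / 2) - 1 : ℂ) * (2 * Complex.I) *
      Complex.exp (-(π * (t : ℂ) ^ 2 / zt τ))‖ ≤ ‖zt τ‖ ^ (-(3 / 2) : ℝ) := by
    rw [norm_mul, norm_mul, norm_mul, norm_mul, e1, Complex.norm_I, norm_neg]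
    have g1 : ‖(1 / 2 : ℂ)‖ = 1 / 2 := by norm_num
    have g2 : ‖(2 : ℂ)‖ = 2 := by norm_num
    rw [g1, g2]
    nlinarith
  have f2 : ‖(zt τ) ^ (-(1 / 2) : ℂ) * (Complex.exp (-(π * (t : ℂ) ^ 2 / zt τ)) *
      (π * (t : ℂ) ^ 2 * (2 * Complex.I) / zt τ ^ 2))‖ ≤
        2 * π * t ^ 2 * ‖zt τ‖ ^ (-(3 / 2) : ℝ) := by
    have g3 : ‖(π * (t : ℂ) ^ 2 * (2 * Complex.I) / zt τ ^ 2 : ℂ)‖ =
        2 * π * t ^ 2 / ‖zt τ‖ ^ 2 := by
      rw [norm_div, norm_pow, norm_mul, norm_mul, norm_mul, Complex.norm_I, norm_pow,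
        Complex.norm_real, Complex.norm_real, Real.norm_of_nonneg Real.pi_pos.le,
        Real.norm_eq_abs, sq_abs]
      have g2 : ‖(2 : ℂ)‖ = 2 := by norm_num
      rw [g2]
      ring
    rw [norm_mul, norm_mul, e2, g3]
    have g4 : ‖zt τ‖ ^ (-(1 / 2) : ℝ) ≤ ‖zt τ‖ ^ (-(3 / 2) : ℝ) * ‖zt τ‖ ^ 2 := by
      rw [← Real.rpow_natCast ‖zt τ‖ 2, ← Real.rpow_add hp]
      exact Real.rpow_le_rpow_of_exponent_le h1 (by norm_num)
    have g5 : 0 ≤ 2 * π * t ^ 2 / ‖zt τ‖ ^ 2 := by positivity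
    calc ‖zt τ‖ ^ (-(1 / 2) : ℝ) * (‖Complex.exp (-(π * (t : ℂ) ^ 2 / zt τ))‖ *
          (2 * π * t ^ 2 / ‖zt τ‖ ^ 2))
        ≤ (‖zt τ‖ ^ (-(3 / 2) : ℝ) * ‖zt τ‖ ^ 2) * (1 * (2 * π * t ^ 2 / ‖zt τ‖ ^ 2)) := by
          gcongr
      _ = 2 * π * t ^ 2 * ‖zt τ‖ ^ (-(3 / 2) : ℝ) := by
          field_simp
  unfold hpg3x_d
  refine (norm_add_le _ _).trans ((add_le_add f1 f2).trans ?_)
  have g6 : 0 ≤ 1 + 2 * π * t ^ 2 := by positivity
  calc ‖zt τ‖ ^ (-(3 / 2) : ℝ) + 2 * π * t ^ 2 * ‖zt τ‖ ^ (-(3 / 2) : ℝ)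
      = (1 + 2 * π * t ^ 2) * ‖zt τ‖ ^ (-(3 / 2) : ℝ) := by ring
    _ ≤ _ := mul_le_mul_of_nonneg_left e4 g6

theorem hpg3x_norm_gg (τ t : ℝ) (hτ : 0 < τ) : ‖gg τ t‖ ≤ τ ^ (-(1 / 2) : ℝ) := by
  obtain ⟨h1, h2⟩ := hpg3x_zt_ge τ
  have e2 : ‖(zt τ) ^ (-(1 / 2) : ℂ)‖ = ‖zt τ‖ ^ (-(1 / 2) : ℝ) := by
    rw [← hpg3x_norm_cpow]
    congr 2
    push_cast
    ring
  unfold gg
  rw [norm_mul, e2]
  calc ‖zt τ‖ ^ (-(1 / 2) : ℝ) * ‖Complex.exp (-(π * (t : ℂ) ^ 2 / zt τ))‖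
      ≤ τ ^ (-(1 / 2) : ℝ) * 1 :=
        mul_le_mul (Real.rpow_le_rpow_of_nonpos hτ h2 (by norm_num)) (hpg3x_norm_exp τ t)
          (norm_nonneg _) (by positivity)
    _ = _ := mul_one _

theorem hpg3x_ex (b : ℝ) : ‖ex b‖ = 1 := by
  unfold ex
  rw [Complex.norm_exp_ofReal_mul_I]

theorem hpg3x_cont_gg (t : ℝ) : Continuous fun τ : ℝ => gg τ t :=
  Continuous.comp (g := fun q : ℝ × ℝ => gg q.1 q.2) (f := fun τ : ℝ => (τ, t)) continuous_gg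
    (by fun_prop)

theorem hpg3x_cont_ex (V : ℝ) : Continuous fun τ : ℝ => ex (τ * V) := by
  unfold ex
  fun_prop

theorem hpg3x_cont_d (t : ℝ) : Continuous fun τ : ℝ => hpg3x_d τ t := by
  have h1 : ∀ c : ℂ, Continuous fun τ : ℝ => (zt τ) ^ c := by
    intro c
    exact continuous_zt.cpow continuous_const fun τ => Or.inl (by rw [zt_re]; exact one_pos)
  have h2 : Continuous fun τ : ℝ => Complex.exp (-(π * (t : ℂ) ^ 2 / zt τ)) :=
    Complex.continuous_exp.comp (continuous_const.div continuous_zt zt_ne).neg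
  have h3 : Continuous fun τ : ℝ => (π * (t : ℂ) ^ 2 * (2 * Complex.I) / zt τ ^ 2 : ℂ) :=
    continuous_const.div (continuous_zt.pow 2) fun τ => pow_ne_zero 2 (zt_ne τ)
  unfold hpg3x_d
  exact (((continuous_const.mul (h1 _)).mul continuous_const).mul h2).add
    ((h1 _).mul (h2.mul h3))

theorem hpg3x_small (t V T : ℝ) (hT : 0 ≤ T) :
    ‖∫ τ in (0:ℝ)..T, gg τ t * ex (τ * V)‖ ≤ 2 * T ^ (1 / 2 : ℝ) := by
  have h1 : IntervalIntegrable (fun τ : ℝ => τ ^ (-(1 / 2) : ℝ)) volume 0 T :=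
    intervalIntegral.intervalIntegrable_rpow' (by norm_num)
  refine (intervalIntegral.norm_integral_le_of_norm_le hT ?_ h1).trans (le_of_eq ?_)
  · refine Filter.Eventually.of_forall fun τ hτ => ?_
    rw [norm_mul, hpg3x_ex, mul_one]
    exact hpg3x_norm_gg τ t hτ.1
  · rw [integral_rpow (Or.inl (by norm_num))]
    norm_num
    ring

theorem hpg3x_large (t V S T : ℝ) (hV : V ≠ 0) (hS : 0 < S) (hT : S ≤ T) :
    ‖∫ τ in S..T, gg τ t * ex (τ * V)‖ ≤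
      (2 + 2 * (1 + 2 * π * t ^ 2)) * (S ^ (-(1 / 2) : ℝ) / |V|) := by
  have hc : (-(2 * π * V * Complex.I) : ℂ) ≠ 0 := by
    have h1 : (π : ℂ) ≠ 0 := by exact_mod_cast Real.pi_ne_zero
    have h2 : (V : ℂ) ≠ 0 := by exact_mod_cast hV
    simp [h1, h2]
  set v : ℝ → ℂ := fun τ => ex (τ * V) / (-(2 * π * V * Complex.I)) with hv
  have hvd : ∀ τ, HasDerivAt v (ex (τ * V)) τ := by
    intro τ
    have h1 : HasDerivAt (fun z : ℂ => Complex.exp (-(2 * π * (z * V)) * Complex.I))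
        (Complex.exp (-(2 * π * ((τ : ℂ) * V)) * Complex.I) * (-(2 * π * V) * Complex.I)) (τ : ℂ) := by
      have h2 : HasDerivAt (fun z : ℂ => -(2 * π * (z * V)) * Complex.I)
          (-(2 * π * V) * Complex.I) (τ : ℂ) := by
        have h := ((((hasDerivAt_id (τ : ℂ)).mul_const (V : ℂ)).const_mul (2 * (π : ℂ))).neg).mul_const
          Complex.I
        simpa using h
      exact h2.cexp
    have h3 := (h1.comp_ofReal).div_const (-(2 * π * V * Complex.I))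
    have h4 : (fun y : ℝ => Complex.exp (-(2 * π * ((y : ℂ) * V)) * Complex.I) /
        (-(2 * π * V * Complex.I))) = v := by
      funext y
      simp only [hv]
      unfold ex
      push_cast
      rfl
    rw [h4] at h3
    refine h3.congr_deriv ?_
    unfold ex
    push_cast
    rw [div_eq_iff hc]
    ring
  have hvn : ∀ τ, ‖v τ‖ ≤ 1 / |V| := by
    intro τ
    simp only [hv]
    rw [norm_div, hpg3x_ex, norm_neg, norm_mul, norm_mul, norm_mul, Complex.norm_I,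
      Complex.norm_real, Complex.norm_real, Real.norm_of_nonneg Real.pi_pos.le, Real.norm_eq_abs]
    have g2 : ‖(2 : ℂ)‖ = 2 := by norm_num
    rw [g2, mul_one]
    apply one_div_le_one_div_of_le (abs_pos.2 hV)
    have : 0 ≤ |V| := abs_nonneg V
    nlinarith [Real.pi_gt_three]
  have hV0 : 0 < |V| := abs_pos.2 hV
  have hT0 : 0 < T := by linarith
  have hparts := intervalIntegral.integral_mul_deriv_eq_deriv_mul (a := S) (b := T)
    (u := fun τ : ℝ => gg τ t) (v := v) (u' := fun τ => hpg3x_d τ t) (v' := fun τ => ex (τ * V))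
    (fun τ _ => hpg3x_deriv τ t) (fun τ _ => hvd τ) ((hpg3x_cont_d t).intervalIntegrable _ _)
    ((hpg3x_cont_ex V).intervalIntegrable _ _)
  rw [hparts]
  have hbd : ∀ τ, S ≤ τ → ‖gg τ t * v τ‖ ≤ S ^ (-(1 / 2) : ℝ) / |V| := by
    intro τ hτ
    have h0 : 0 < τ := by linarith
    rw [norm_mul]
    have h1 : ‖gg τ t‖ ≤ S ^ (-(1 / 2) : ℝ) := (hpg3x_norm_gg τ t h0).trans
      (Real.rpow_le_rpow_of_nonpos hS hτ (by norm_num))
    calc ‖gg τ t‖ * ‖v τ‖ ≤ S ^ (-(1 / 2) : ℝ) * (1 / |V|) :=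
          mul_le_mul h1 (hvn τ) (norm_nonneg _) (by positivity)
      _ = _ := by ring
  have h5 : ‖∫ τ in S..T, hpg3x_d τ t * v τ‖ ≤
      2 * (1 + 2 * π * t ^ 2) * (S ^ (-(1 / 2) : ℝ) / |V|) := by
    have hi : IntervalIntegrable (fun τ : ℝ => (1 + 2 * π * t ^ 2) / |V| * τ ^ (-(3 / 2) : ℝ))
        volume S T := by
      apply IntervalIntegrable.const_mul
      apply intervalIntegral.intervalIntegrable_rpow
      right
      rw [uIcc_of_le hT]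
      intro h0
      linarith [h0.1]
    refine (intervalIntegral.norm_integral_le_of_norm_le hT ?_ hi).trans ?_
    · refine Filter.Eventually.of_forall fun τ hτ => ?_
      have h0 : 0 < τ := by linarith [hτ.1]
      rw [norm_mul]
      have g6 : 0 ≤ 1 + 2 * π * t ^ 2 := by positivity
      calc ‖hpg3x_d τ t‖ * ‖v τ‖ ≤ ((1 + 2 * π * t ^ 2) * τ ^ (-(3 / 2) : ℝ)) * (1 / |V|) :=
            mul_le_mul (hpg3x_norm_d τ t h0) (hvn τ) (norm_nonneg _) (by positivity)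
        _ = _ := by ring
    · rw [intervalIntegral.integral_const_mul, integral_rpow (Or.inr ⟨by norm_num, by
        rw [uIcc_of_le hT]
        intro h0
        linarith [h0.1]⟩)]
      have e1 : (-(3 / 2) + 1 : ℝ) = -(1 / 2) := by norm_num
      rw [e1]
      have e2 : 0 ≤ T ^ (-(1 / 2) : ℝ) := by positivity
      have e3 : (T ^ (-(1 / 2) : ℝ) - S ^ (-(1 / 2) : ℝ)) / (-(1 / 2)) ≤ 2 * S ^ (-(1 / 2) : ℝ) := by
        rw [div_neg, div_eq_mul_inv]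
        norm_num
        linarith
      have g6 : 0 ≤ (1 + 2 * π * t ^ 2) / |V| := by positivity
      calc (1 + 2 * π * t ^ 2) / |V| * ((T ^ (-(1 / 2) : ℝ) - S ^ (-(1 / 2) : ℝ)) / (-(1 / 2)))
          ≤ (1 + 2 * π * t ^ 2) / |V| * (2 * S ^ (-(1 / 2) : ℝ)) :=
            mul_le_mul_of_nonneg_left e3 g6
        _ = _ := by ring
  have h6 := hbd T hT
  have h7 := hbd S le_rfl
  calc ‖gg T t * v T - gg S t * v S - ∫ τ in S..T, hpg3x_d τ t * v τ‖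
      ≤ ‖gg T t * v T - gg S t * v S‖ + ‖∫ τ in S..T, hpg3x_d τ t * v τ‖ := norm_sub_le _ _
    _ ≤ (‖gg T t * v T‖ + ‖gg S t * v S‖) + ‖∫ τ in S..T, hpg3x_d τ t * v τ‖ := by
        gcongr
        exact norm_sub_le _ _
    _ ≤ (S ^ (-(1 / 2) : ℝ) / |V| + S ^ (-(1 / 2) : ℝ) / |V|) +
        2 * (1 + 2 * π * t ^ 2) * (S ^ (-(1 / 2) : ℝ) / |V|) := by gcongr
    _ = _ := by ring

theorem hpg3x_half (t : ℝ) (V T : ℝ) (hV : V ≠ 0) (hT : 0 ≤ T) :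
    ‖∫ τ in (0:ℝ)..T, gg τ t * ex (τ * V)‖ ≤
      (4 + 2 * (1 + 2 * π * t ^ 2)) * |V| ^ (-(1 / 2) : ℝ) := by
  have hV0 : 0 < |V| := abs_pos.2 hV
  set S : ℝ := |V|⁻¹ with hS
  have hS0 : 0 < S := inv_pos.2 hV0
  have e1 : S ^ (1 / 2 : ℝ) = |V| ^ (-(1 / 2) : ℝ) := by
    rw [hS, Real.inv_rpow hV0.le, ← Real.rpow_neg hV0.le]
  have e2 : S ^ (-(1 / 2) : ℝ) / |V| = |V| ^ (-(1 / 2) : ℝ) := by
    rw [hS, Real.inv_rpow hV0.le, ← Real.rpow_neg hV0.le, neg_neg, div_eq_mul_inv,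
      ← Real.rpow_neg_one, ← Real.rpow_add hV0]
    norm_num
  have hp : 0 ≤ |V| ^ (-(1 / 2) : ℝ) := Real.rpow_nonneg hV0.le _
  have hpi : 0 ≤ 2 * π * t ^ 2 := by positivity
  rcases le_total T S with h | h
  · refine (hpg3x_small t V T hT).trans ?_
    have h1 : T ^ (1 / 2 : ℝ) ≤ S ^ (1 / 2 : ℝ) := Real.rpow_le_rpow hT h (by norm_num)
    rw [e1] at h1
    nlinarith
  · have hcont : Continuous fun τ : ℝ => gg τ t * ex (τ * V) :=
      (hpg3x_cont_gg t).mul (hpg3x_cont_ex V)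
    rw [← intervalIntegral.integral_add_adjacent_intervals (hcont.intervalIntegrable 0 S)
      (hcont.intervalIntegrable S T)]
    have h1 := hpg3x_small t V S hS0.le
    have h2 := hpg3x_large t V S T hV hS0 h
    rw [e1] at h1
    rw [e2] at h2
    refine (norm_add_le _ _).trans ((add_le_add h1 h2).trans (le_of_eq ?_))
    ring

/-
ROW PG3 (1 h). exp(-π zt τ V) = exp(-πV) ex(τ V). The integral over (-T, 0) is the conjugate of the one over (0, T).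
-/
theorem PP_bound (t : ℝ) : ∃ C : ℝ, 0 < C ∧ ∀ T : ℝ, 0 ≤ T → ∀ V : ℝ, V ≠ 0 →
    ‖PP T t V‖ ≤ C * Real.exp (-(π * V)) * |V| ^ (-(1 / 2) : ℝ) := by
  refine ⟨2 * (4 + 2 * (1 + 2 * π * t ^ 2)), by positivity, fun T hT V hV => ?_⟩
  have h1 : ∀ τ : ℝ, Complex.exp (-(π * zt τ * (V : ℂ))) =
      ((Real.exp (-(π * V)) : ℝ) : ℂ) * ex (τ * V) := by
    intro τ
    unfold ex zt
    rw [Complex.ofReal_exp, ← Complex.exp_add]
    congr 1
    push_cast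
    ring
  have h2 : PP T t V = ((Real.exp (-(π * V)) : ℝ) : ℂ) * ∫ τ in (-T)..T, gg τ t * ex (τ * V) := by
    unfold PP
    rw [← intervalIntegral.integral_const_mul]
    refine intervalIntegral.integral_congr fun τ _ => ?_
    show gg τ t * Complex.exp (-(π * zt τ * (V : ℂ))) = _
    rw [h1]
    ring
  have hcont : Continuous fun τ : ℝ => gg τ t * ex (τ * V) :=
    (hpg3x_cont_gg t).mul (hpg3x_cont_ex V)
  have h3 : ∫ τ in (-T)..(0:ℝ), gg τ t * ex (τ * V) =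
      (starRingEnd ℂ) (∫ τ in (0:ℝ)..T, gg τ t * ex (τ * V)) := by
    have h4 : ∫ τ in (-T)..(0:ℝ), gg τ t * ex (τ * V) =
        ∫ τ in (0:ℝ)..T, gg (-τ) t * ex (-τ * V) := by
      rw [intervalIntegral.integral_comp_neg (fun τ : ℝ => gg τ t * ex (τ * V)), neg_zero]
    rw [h4, intervalIntegral.integral_of_le hT, intervalIntegral.integral_of_le hT, ← integral_conj]
    refine integral_congr_ae (Filter.Eventually.of_forall fun τ => ?_)
    show gg (-τ) t * ex (-τ * V) = (starRingEnd ℂ) (gg τ t * ex (τ * V))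
    rw [map_mul, gg_neg, hkf_conj_ex, neg_mul]
  have h5 : ‖∫ τ in (-T)..T, gg τ t * ex (τ * V)‖ ≤
      2 * ((4 + 2 * (1 + 2 * π * t ^ 2)) * |V| ^ (-(1 / 2) : ℝ)) := by
    rw [← intervalIntegral.integral_add_adjacent_intervals (hcont.intervalIntegrable (-T) 0)
      (hcont.intervalIntegrable 0 T), h3]
    refine (norm_add_le _ _).trans ?_
    rw [RCLike.norm_conj]
    have := hpg3x_half t V T hV hT
    linarith
  rw [h2, norm_mul, Complex.norm_real, Real.norm_of_nonneg (Real.exp_pos _).le]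
  calc Real.exp (-(π * V)) * ‖∫ τ in (-T)..T, gg τ t * ex (τ * V)‖
      ≤ Real.exp (-(π * V)) * (2 * ((4 + 2 * (1 + 2 * π * t ^ 2)) * |V| ^ (-(1 / 2) : ℝ))) :=
        mul_le_mul_of_nonneg_left h5 (Real.exp_pos _).le
    _ = _ := by ring

end Pool.Agent.AXD
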