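import Pool.Agent.AXD.PG2
import Pool.Agent.AXD.PG3
import Pool.Agent.AXD.P2

namespace Pool.Agent.AXD

open MeasureTheory Set Pool.Agent.MP_6cbfb8_an Pool.Agent.MST
open scoped ENNReal Real

theorem hplx_ql {m : ℕ} (l : Fin m → ℝ) (κ : ℝ) (w : E m) : ql (κ • l) w = κ * ql l w := by
  unfold ql
  rw [Finset.mul_sum]
  refine Finset.sum_congr rfl fun i _ => ?_
  simp only [Pi.smul_apply, smul_eq_mul]
  ring

theorem hplx_am {m : ℕ} (ρ : ℝ) (l : Fin m → ℝ) (κ t T : ℝ) (w : E m) (hw : ∀ i, |w i| ≤ ρ) :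
    am ρ one (-T) T (κ • l, κ) t w = PP T t (κ * (ql l w - 1)) := by
  unfold am PP
  rw [if_pos hw]
  refine intervalIntegral.integral_congr fun τ _ => ?_
  have h1 : ql (κ • l) w - κ = κ * (ql l w - 1) := by
    rw [hplx_ql]
    ring
  simp only [one, one_mul, h1]

theorem hplx_ex (b : ℝ) : ‖ex b‖ = 1 := by
  unfold ex
  rw [Complex.norm_exp_ofReal_mul_I]

/-- the level set `ql l w = 1` is a null set in the cube -/
theorem hplx_null {m : ℕ} (hm : 2 ≤ m) (ρ : ℝ) (l : Fin m → ℝ) (hl : ∀ i, 0 < l i) :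
    ∀ᵐ w : E m, (∀ i, |w i| ≤ ρ) → ql l w ≠ 1 := by
  obtain ⟨C, hC, h⟩ := dens hm ρ l hl
  have h1 := h (Set.indicator {(1:ℝ)} fun _ => 1) (measurable_const.indicator (measurableSet_singleton _))
  rw [lintegral_indicator (measurableSet_singleton _)] at h1
  simp only [lintegral_const, Measure.restrict_singleton, measure_singleton, zero_smul, mul_zero,
    nonpos_iff_eq_zero, Measure.coe_zero, Pi.zero_apply] at h1
  have hmq : Measurable fun w : E m => Set.indicator {(1:ℝ)} (fun _ => (1:ℝ≥0∞)) (ql l w) := by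
    have h2 : Measurable fun w : E m => ql l w := by
      exact (Continuous.comp (g := fun q : (Fin m → ℝ) × E m => ql q.1 q.2) (f := fun w : E m => (l, w))
        continuous_ql (by fun_prop)).measurable
    exact (measurable_const.indicator (measurableSet_singleton _)).comp h2
  rw [lintegral_eq_zero_iff hmq] at h1
  rw [Filter.EventuallyEq, ae_restrict_iff' (measurableSet_cube ρ)] at h1
  filter_upwards [h1] with w hw hc hq
  have h2 := hw hc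
  rw [hq] at h2
  simp at h2

theorem hplx_meas_ql {m : ℕ} (l : Fin m → ℝ) : Measurable fun w : E m => ql l w :=
  (Continuous.comp (g := fun q : (Fin m → ℝ) × E m => ql q.1 q.2) (f := fun w : E m => (l, w))
    continuous_ql (by fun_prop)).measurable

/-- the dominating function -/
noncomputable def hplx_dom {m : ℕ} (ρ C κ : ℝ) (l : Fin m → ℝ) (w : E m) : ℝ :=
  {w : E m | ∀ i, |w i| ≤ ρ}.indicator (fun w => C * |ql l w - 1| ^ (-(1 / 2) : ℝ)) w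

theorem hplx_dom_int {m : ℕ} (hm : 2 ≤ m) (ρ C κ : ℝ) (hC : 0 ≤ C) (l : Fin m → ℝ)
    (hl : ∀ i, 0 < l i) : Integrable (hplx_dom ρ C κ l) := by
  unfold hplx_dom
  rw [integrable_indicator_iff (measurableSet_cube ρ)]
  have hm1 : Measurable fun w : E m => |ql l w - 1| ^ (-(1 / 2) : ℝ) :=
    (((hplx_meas_ql l).sub_const 1).abs).pow_const _
  refine Integrable.const_mul ?_ C
  refine ⟨hm1.aestronglyMeasurable, ?_⟩
  rw [hasFiniteIntegral_iff_ofReal (Filter.Eventually.of_forall fun w =>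
    Real.rpow_nonneg (abs_nonneg _) _)]
  exact int_inv_sqrt hm ρ l hl

theorem hplx_bound {m : ℕ} (ρ : ℝ) (l : Fin m → ℝ) (hl : ∀ i, 0 < l i) (κ : ℝ) (hκ : 0 < κ)
    (G : E m → ℂ) (hb : ∀ w, ‖G w‖ ≤ 1) (t : ℝ) (y : E m) (C : ℝ) (hC : 0 < C)
    (h : ∀ T : ℝ, 0 ≤ T → ∀ V : ℝ, V ≠ 0 →
      ‖PP T t V‖ ≤ C * Real.exp (-(π * V)) * |V| ^ (-(1 / 2) : ℝ)) (T : ℝ) (hT : 0 ≤ T) (w : E m)
    (hw : (∀ i, |w i| ≤ ρ) → ql l w ≠ 1) :
    ‖G w * am ρ one (-T) T (κ • l, κ) t w * ex (inner ℝ w y)‖ ≤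
      hplx_dom ρ (C * Real.exp (π * κ) * κ ^ (-(1 / 2) : ℝ)) κ l w := by
  unfold hplx_dom
  rw [norm_mul, norm_mul, hplx_ex, mul_one]
  by_cases hc : ∀ i, |w i| ≤ ρ
  · have hw1 : ql l w - 1 ≠ 0 := sub_ne_zero.2 (hw hc)
    have hV : κ * (ql l w - 1) ≠ 0 := mul_ne_zero hκ.ne' hw1
    have hq0 : 0 ≤ ql l w := by
      unfold ql
      exact Finset.sum_nonneg fun i _ => mul_nonneg (hl i).le (sq_nonneg _)
    rw [indicator_of_mem (show w ∈ {w : E m | ∀ i, |w i| ≤ ρ} from hc), hplx_am ρ l κ t T w hc]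
    have h1 := h T hT _ hV
    have h2 : Real.exp (-(π * (κ * (ql l w - 1)))) ≤ Real.exp (π * κ) := by
      apply Real.exp_le_exp.2
      have : 0 ≤ π * (κ * ql l w) := by positivity
      linarith
    have h3 : |κ * (ql l w - 1)| ^ (-(1 / 2) : ℝ) =
        κ ^ (-(1 / 2) : ℝ) * |ql l w - 1| ^ (-(1 / 2) : ℝ) := by
      rw [abs_mul, abs_of_pos hκ, Real.mul_rpow hκ.le (abs_nonneg _)]
    rw [h3] at h1
    calc ‖G w‖ * ‖PP T t (κ * (ql l w - 1))‖ ≤ 1 * (C * Real.exp (-(π * (κ * (ql l w - 1)))) *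
          (κ ^ (-(1 / 2) : ℝ) * |ql l w - 1| ^ (-(1 / 2) : ℝ))) :=
          mul_le_mul (hb w) h1 (norm_nonneg _) zero_le_one
      _ = C * Real.exp (-(π * (κ * (ql l w - 1)))) *
          (κ ^ (-(1 / 2) : ℝ) * |ql l w - 1| ^ (-(1 / 2) : ℝ)) := one_mul _
      _ ≤ C * Real.exp (π * κ) *
          (κ ^ (-(1 / 2) : ℝ) * |ql l w - 1| ^ (-(1 / 2) : ℝ)) := by gcongr
      _ = C * Real.exp (π * κ) * κ ^ (-(1 / 2) : ℝ) * |ql l w - 1| ^ (-(1 / 2) : ℝ) := by ring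
  · rw [indicator_of_notMem (show w ∉ {w : E m | ∀ i, |w i| ≤ ρ} from hc),
      am_zero ρ one (-T) T (κ • l, κ) t w hc, norm_zero, mul_zero]

theorem hplx_cube {m : ℕ} (ρ : ℝ) (hρ : 0 ≤ ρ) (l : Fin m → ℝ) (hl : ∀ i, 0 < l i)
    (hc : ∀ i, 1 ≤ l i * ρ ^ 2) (w : E m) (hw : ql l w < 1) : ∀ i, |w i| ≤ ρ := by
  intro i
  have h1 : l i * w i ^ 2 ≤ ql l w := by
    unfold ql
    exact Finset.single_le_sum (f := fun i => l i * w i ^ 2)
      (fun j _ => mul_nonneg (hl j).le (sq_nonneg _)) (Finset.mem_univ i)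
  have h2 : l i * w i ^ 2 < l i * ρ ^ 2 := (h1.trans_lt hw).trans_le (hc i)
  have h3 : w i ^ 2 < ρ ^ 2 := lt_of_mul_lt_mul_left h2 (hl i).le
  exact abs_le_of_sq_le_sq h3.le hρ

/-- pointwise limit of the integrand -/
theorem hplx_lim {m : ℕ} (ρ : ℝ) (hρ : 0 ≤ ρ) (l : Fin m → ℝ) (hl : ∀ i, 0 < l i)
    (hc : ∀ i, 1 ≤ l i * ρ ^ 2) (κ : ℝ) (hκ : 0 < κ) (G : E m → ℂ) (t : ℝ) (y w : E m)
    (hw : (∀ i, |w i| ≤ ρ) → ql l w ≠ 1) :
    Filter.Tendsto (fun T : ℝ => G w * am ρ one (-T) T (κ • l, κ) t w * ex (inner ℝ w y))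
      Filter.atTop (nhds (((√κ)⁻¹ : ℝ) * ((if ql l w < 1 then G w *
        ((Real.cos (2 * π * (√κ * t) * √(1 - ql l w)) / √(1 - ql l w) : ℝ) : ℂ) else 0) *
          ex (inner ℝ w y)))) := by
  by_cases hcw : ∀ i, |w i| ≤ ρ
  · have hw1 : ql l w - 1 ≠ 0 := sub_ne_zero.2 (hw hcw)
    have hV : κ * (ql l w - 1) ≠ 0 := mul_ne_zero hκ.ne' hw1
    have h1 := PP_lim t _ hV
    have h2 := (h1.const_mul (G w)).mul_const (ex (inner ℝ w y))
    have h3 : (fun T : ℝ => G w * am ρ one (-T) T (κ • l, κ) t w * ex (inner ℝ w y)) =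
        fun T : ℝ => G w * PP T t (κ * (ql l w - 1)) * ex (inner ℝ w y) := by
      funext T
      rw [hplx_am ρ l κ t T w hcw]
    rw [h3]
    suffices hE : G w * (if κ * (ql l w - 1) < 0 then
        ((Real.cos (2 * π * t * √(-(κ * (ql l w - 1)))) / √(-(κ * (ql l w - 1))) : ℝ) : ℂ) else 0) *
          ex (inner ℝ w y) = ((√κ)⁻¹ : ℝ) * ((if ql l w < 1 then G w *
        ((Real.cos (2 * π * (√κ * t) * √(1 - ql l w)) / √(1 - ql l w) : ℝ) : ℂ) else 0) *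
          ex (inner ℝ w y)) by
      rw [← hE]
      exact h2
    by_cases hq : ql l w < 1
    · have h4 : κ * (ql l w - 1) < 0 := mul_neg_of_pos_of_neg hκ (by linarith)
      rw [if_pos h4, if_pos hq]
      have h5 : √(-(κ * (ql l w - 1))) = √κ * √(1 - ql l w) := by
        rw [← Real.sqrt_mul hκ.le]
        congr 1
        ring
      rw [h5]
      have h6 : Real.cos (2 * π * t * (√κ * √(1 - ql l w))) / (√κ * √(1 - ql l w)) =
          (√κ)⁻¹ * (Real.cos (2 * π * (√κ * t) * √(1 - ql l w)) / √(1 - ql l w)) := by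
        rw [show 2 * π * t * (√κ * √(1 - ql l w)) = 2 * π * (√κ * t) * √(1 - ql l w) by ring]
        field_simp
      rw [h6]
      push_cast
      ring
    · have h4 : ¬ κ * (ql l w - 1) < 0 := by
        have : 0 ≤ κ * (ql l w - 1) := mul_nonneg hκ.le (by linarith [not_lt.1 hq])
        exact not_lt.2 this
      rw [if_neg h4, if_neg hq]
      simp
  · have h1 : ¬ ql l w < 1 := fun h => hcw (hplx_cube ρ hρ l hl hc w h)
    have h2 : (fun T : ℝ => G w * am ρ one (-T) T (κ • l, κ) t w * ex (inner ℝ w y)) =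
        fun _ => 0 := by
      funext T
      rw [am_zero ρ one (-T) T (κ • l, κ) t w hcw, mul_zero, zero_mul]
    rw [h2, if_neg h1, zero_mul, mul_zero]
    exact tendsto_const_nhds

theorem hplx_meas_int {m : ℕ} (ρ a b : ℝ) (l : (Fin m → ℝ) × ℝ) (t : ℝ) (G : E m → ℂ)
    (hG : Measurable G) (y : E m) :
    Measurable fun w : E m => G w * am ρ one a b l t w * ex (inner ℝ w y) := by
  have h1 : Measurable fun w : E m => am ρ one a b l t w :=
    (measurable_am ρ one continuous_const a b).comp (f := fun w : E m => ((l, t), w)) (by fun_prop)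
  have h2 : Measurable fun w : E m => ex (inner ℝ w y) := by
    have : Continuous fun w : E m => ex (inner ℝ w y) := by
      unfold ex
      fun_prop
    exact this.measurable
  exact (hG.mul h1).mul h2

theorem op_lim {m : ℕ} (hm : 2 ≤ m) (ρ : ℝ) (hρ : 0 ≤ ρ) (l : Fin m → ℝ) (hl : ∀ i, 0 < l i)
    (hc : ∀ i, 1 ≤ l i * ρ ^ 2) (κ : ℝ) (hκ : 0 < κ) (G : E m → ℂ) (hG : Measurable G)
    (hb : ∀ w, ‖G w‖ ≤ 1) (t : ℝ) (y : E m) :
    Filter.Tendsto (fun T : ℝ => op ρ one (-T) T (κ • l, κ) t G y) Filter.atTop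
      (nhds (((√κ)⁻¹ : ℝ) * EE l G y (√κ * t))) := by
  obtain ⟨C, hC, h⟩ := PP_bound t
  unfold EE
  rw [← integral_const_mul]
  unfold op
  refine tendsto_integral_filter_of_dominated_convergence
    (hplx_dom ρ (C * Real.exp (π * κ) * κ ^ (-(1 / 2) : ℝ)) κ l) ?_ ?_ ?_ ?_
  · exact Filter.Eventually.of_forall fun T =>
      (hplx_meas_int ρ (-T) T (κ • l, κ) t G hG y).aestronglyMeasurable
  · filter_upwards [Filter.eventually_ge_atTop (0:ℝ)] with T hT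
    filter_upwards [hplx_null hm ρ l hl] with w hw
    exact hplx_bound ρ l hl κ hκ G hb t y C hC h T hT w hw
  · exact hplx_dom_int hm ρ _ κ (by positivity) l hl
  · filter_upwards [hplx_null hm ρ l hl] with w hw
    exact hplx_lim ρ hρ l hl hc κ hκ G t y w hw

/-- the amplitudes are additive in the frequency interval -/
theorem hplx_ii {m : ℕ} (l : (Fin m → ℝ) × ℝ) (t : ℝ) (w : E m) (a b : ℝ) :
    IntervalIntegrable (fun τ => one τ * gg τ t *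
      Complex.exp (-(π * zt τ * ((ql l.1 w - l.2 : ℝ) : ℂ)))) volume a b := by
  have h1 : Continuous fun τ : ℝ => gg τ t :=
    Continuous.comp (g := fun q : ℝ × ℝ => gg q.1 q.2) (f := fun τ : ℝ => (τ, t)) continuous_gg
      (by fun_prop)
  have h2 : Continuous fun τ : ℝ => Complex.exp (-(π * zt τ * ((ql l.1 w - l.2 : ℝ) : ℂ))) :=
    Complex.continuous_exp.comp ((continuous_const.mul continuous_zt).mul continuous_const).neg
  have h3 : Continuous one := continuous_const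
  exact ((h3.mul h1).mul h2).intervalIntegrable a b

theorem hplx_am_add {m : ℕ} (ρ : ℝ) (l : (Fin m → ℝ) × ℝ) (t : ℝ) (w : E m) (a b c : ℝ) :
    am ρ one a c l t w = am ρ one a b l t w + am ρ one b c l t w := by
  unfold am
  split_ifs
  · exact (intervalIntegral.integral_add_adjacent_intervals (hplx_ii l t w a b)
      (hplx_ii l t w b c)).symm
  · simp

theorem hplx_op_int {m : ℕ} (ρ a b : ℝ) (hab : a ≤ b) (l : (Fin m → ℝ) × ℝ) (t : ℝ) (G : E m → ℂ)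
    (hG : Measurable G) (hb : ∀ w, ‖G w‖ ≤ 1) (y : E m) :
    Integrable fun w : E m => G w * am ρ one a b l t w * ex (inner ℝ w y) := by
  have h1 := hp2x_int ρ a b hab l t G hG hb
  refine h1.norm.mono (hplx_meas_int ρ a b l t G hG y).aestronglyMeasurable
    (Filter.Eventually.of_forall fun w => ?_)
  rw [norm_mul, hplx_ex, mul_one, Real.norm_eq_abs, abs_of_nonneg (norm_nonneg _)]

theorem hplx_op_add {m : ℕ} (ρ a b c : ℝ) (hab : a ≤ b) (hbc : b ≤ c) (l : (Fin m → ℝ) × ℝ) (t : ℝ)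
    (G : E m → ℂ) (hG : Measurable G) (hb : ∀ w, ‖G w‖ ≤ 1) (y : E m) :
    op ρ one a c l t G y = op ρ one a b l t G y + op ρ one b c l t G y := by
  unfold op
  rw [← integral_add (hplx_op_int ρ a b hab l t G hG hb y) (hplx_op_int ρ b c hbc l t G hG hb y)]
  refine integral_congr_ae (Filter.Eventually.of_forall fun w => ?_)
  show G w * am ρ one a c l t w * ex (inner ℝ w y) = _
  rw [hplx_am_add ρ l t w a b c]
  ring

theorem hplx_sum {m : ℕ} (ρ : ℝ) (l : (Fin m → ℝ) × ℝ) (t : ℝ) (G : E m → ℂ) (hG : Measurable G)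
    (hb : ∀ w, ‖G w‖ ≤ 1) (y : E m) (K : ℕ) :
    op ρ one (-(2:ℝ) ^ K) ((2:ℝ) ^ K) l t G y = op ρ one (-1) 1 l t G y +
      ∑ k ∈ Finset.range K, (op ρ one ((2:ℝ) ^ k) (2 * (2:ℝ) ^ k) l t G y +
        op ρ one (-(2 * (2:ℝ) ^ k)) (-((2:ℝ) ^ k)) l t G y) := by
  induction K with
  | zero => simp
  | succ K ih =>
    have h0 : (0:ℝ) < (2:ℝ) ^ K := by positivity
    have e1 : (2:ℝ) ^ (K + 1) = 2 * (2:ℝ) ^ K := by rw [pow_succ]; ring
    rw [Finset.sum_range_succ, ← add_assoc, ← ih, e1,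
      hplx_op_add ρ (-(2 * (2:ℝ) ^ K)) (-(2:ℝ) ^ K) (2 * (2:ℝ) ^ K) (by linarith) (by linarith) l t
        G hG hb y,
      hplx_op_add ρ (-(2:ℝ) ^ K) ((2:ℝ) ^ K) (2 * (2:ℝ) ^ K) (by linarith) (by linarith) l t G hG hb y]
    ring

theorem hplx_le_Phi {m : ℕ} (ρ : ℝ) (l : (Fin m → ℝ) × ℝ) (t : ℝ) (G : E m → ℂ) (hG : Measurable G)
    (hb : ∀ w, ‖G w‖ ≤ 1) (y : E m) (K : ℕ) :
    ‖op ρ one (-(2:ℝ) ^ K) ((2:ℝ) ^ K) l t G y‖ₑ ≤ Phi ρ l t G y := by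
  rw [hplx_sum ρ l t G hG hb y K]
  unfold Phi
  refine (enorm_add_le _ _).trans (add_le_add le_rfl ?_)
  refine (enorm_sum_le _ _).trans ?_
  refine (Finset.sum_le_sum fun k _ => enorm_add_le _ _).trans ?_
  exact ENNReal.sum_le_tsum _

theorem EE_le_Phi {m : ℕ} (hm : 2 ≤ m) (ρ : ℝ) (hρ : 0 ≤ ρ) (l : Fin m → ℝ) (hl : ∀ i, 0 < l i)
    (hc : ∀ i, 1 ≤ l i * ρ ^ 2) (κ : ℝ) (hκ : 0 < κ) (G : E m → ℂ) (hG : Measurable G)
    (hb : ∀ w, ‖G w‖ ≤ 1) (t : ℝ) (y : E m) :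
    ‖EE l G y (√κ * t)‖ₑ ≤ ENNReal.ofReal (√κ) * Phi ρ (κ • l, κ) t G y := by
  have hs : 0 < √κ := Real.sqrt_pos.2 hκ
  have h1 := (op_lim hm ρ hρ l hl hc κ hκ G hG hb t y).comp
    (tendsto_pow_atTop_atTop_of_one_lt (one_lt_two (α := ℝ)))
  have h2 := (continuous_enorm.tendsto _).comp h1
  have h3 : ‖(((√κ)⁻¹ : ℝ) : ℂ) * EE l G y (√κ * t)‖ₑ ≤ Phi ρ (κ • l, κ) t G y :=
    le_of_tendsto h2 (Filter.Eventually.of_forall fun K =>
      hplx_le_Phi ρ (κ • l, κ) t G hG hb y K)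
  have h4 : EE l G y (√κ * t) = ((√κ : ℝ) : ℂ) * ((((√κ)⁻¹ : ℝ) : ℂ) * EE l G y (√κ * t)) := by
    rw [← mul_assoc, ← Complex.ofReal_mul, mul_inv_cancel₀ hs.ne', Complex.ofReal_one, one_mul]
  rw [h4, enorm_mul]
  have h5 : ‖((√κ : ℝ) : ℂ)‖ₑ = ENNReal.ofReal (√κ) := by
    rw [← ofReal_norm, Complex.norm_real, Real.norm_of_nonneg hs.le]
  rw [h5]
  exact mul_le_mul_right h3 _

theorem EE_fin {m : ℕ} (hm : 2 ≤ m) (ρ : ℝ) (hρ : 0 ≤ ρ) (l : Fin m → ℝ) (hl : ∀ i, 0 < l i)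
    (hc : ∀ i, 1 ≤ l i * ρ ^ 2) (κ : ℝ) (hκ : 0 < κ) (G : E m → ℂ) (hG : Measurable G)
    (hb : ∀ w, ‖G w‖ ≤ 1) (p : ℝ) (hp : 0 ≤ p)
    (h : ∫⁻ t, ∫⁻ y, Phi ρ (κ • l, κ) t G y ^ p < ∞) :
    ∫⁻ t, ∫⁻ y, ‖EE l G y t‖ₑ ^ p < ∞ := by
  have hs : 0 < √κ := Real.sqrt_pos.2 hκ
  have h1 : ∫⁻ t, ∫⁻ y, ‖EE l G y (√κ * t)‖ₑ ^ p =
      ENNReal.ofReal |(√κ)⁻¹| * ∫⁻ t, ∫⁻ y, ‖EE l G y t‖ₑ ^ p := by
    have h2 := lintegral_map_equiv (μ := (volume : Measure ℝ))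
      (fun t : ℝ => ∫⁻ y, ‖EE l G y t‖ₑ ^ p) (MeasurableEquiv.mulLeft₀ (√κ) hs.ne')
    rw [MeasurableEquiv.coe_mulLeft₀, Real.map_volume_mul_left hs.ne', lintegral_smul_measure,
      smul_eq_mul] at h2
    exact h2.symm
  have h3 : ∫⁻ t, ∫⁻ y, ‖EE l G y (√κ * t)‖ₑ ^ p < ∞ := by
    calc ∫⁻ t, ∫⁻ y, ‖EE l G y (√κ * t)‖ₑ ^ p
        ≤ ∫⁻ t, ∫⁻ y, ENNReal.ofReal (√κ) ^ p * Phi ρ (κ • l, κ) t G y ^ p := by
          refine lintegral_mono fun t => lintegral_mono fun y => ?_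
          rw [← ENNReal.mul_rpow_of_nonneg _ _ hp]
          exact ENNReal.rpow_le_rpow (EE_le_Phi hm ρ hρ l hl hc κ hκ G hG hb t y) hp
      _ = ENNReal.ofReal (√κ) ^ p * ∫⁻ t, ∫⁻ y, Phi ρ (κ • l, κ) t G y ^ p := by
          have hf : ENNReal.ofReal (√κ) ^ p ≠ ∞ :=
            ENNReal.rpow_ne_top_of_nonneg hp ENNReal.ofReal_ne_top
          rw [← lintegral_const_mul' _ _ hf]
          refine lintegral_congr fun t => ?_
          rw [lintegral_const_mul' _ _ hf]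
      _ < ∞ := ENNReal.mul_lt_top (ENNReal.rpow_lt_top_of_nonneg hp ENNReal.ofReal_ne_top) h
  rw [h1] at h3
  by_contra hcon
  rw [not_lt, top_le_iff] at hcon
  rw [hcon, ENNReal.mul_top] at h3
  · exact lt_irrefl _ h3
  · rw [Ne, ENNReal.ofReal_eq_zero, not_le, abs_inv, abs_of_pos hs]
    exact inv_pos.2 hs

end Pool.Agent.AXD
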