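import Pool.Agent.AXD.PM
import Pool.Agent.AXD.PV
import Pool.Agent.AXD.PI2
import Pool.Agent.AXD.PL

namespace Pool.Agent.AXD

open MeasureTheory Set Pool.Agent.MP_6cbfb8_an Pool.Agent.MST
open scoped ENNReal NNReal Real

/-
ROW PB (1 h). choose: σ = (4-p)/(p-2) > 0. If p < 3 (σ > 1): θ = 1, β = σ - 1 + small: 2 + β = 1 + σ + small = 2/(p-2) + small. If p ≥ 3 (σ ≤ 1): θ = σ - ε, β = 2ε:
2 + 2ε - (1 - σ + ε)/2 = 3/2 + σ/2 + 3ε/2 = (p-1)/(p-2) + 3ε/2.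
dim_l (as dim_M in Pool.Agent.AEE.XB): ρ = max 1 (δ^(-1/2)); then 1 ≤ l i ρ² for l i ≥ δ. If l is in the set then by fin_of_HH + EE_fin (some κ ∈ [1, 2]: the a.e. set is
nonempty as volume [1,2] > 0) for G or for cj G: 2^(-βk) < HH ρ θ k l · for infinitely many k. So the set is in the union of {l ∈ cb m K | ∃ᶠ k, l ∈ bad k} for G and cj G,
bad k = {l | ofReal (2^(-βk)) < HH ρ θ k l G}; pi_cover with V k of HH_stab (with K + 1; choose), B k = C (1+k)^(m+2) (2^k)^(2 - m - (1-θ)/2), thr k = 2^(-βk):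
B/thr (2^k)^m (2^k)^(-d) = C (1+k)^(m+2) 2^(-(d - 2 - β + (1-θ)/2) k) summable. dimH_union / dimH_mono.
-/
theorem choose_par (p : ℝ) (hp : 2 < p) (hp4 : p < 4) (d : ℝ) (hd : max 2 (p - 1) / (p - 2) < d) :
    ∃ θ β : ℝ, 0 ≤ θ ∧ θ ≤ 1 ∧ θ < (4 - p) / (p - 2) ∧ (4 - p) / (p - 2) - θ < β ∧
      2 + β - (1 - θ) / 2 < d := by
  have h2 : 0 < p - 2 := by linarith
  have hσ : (4 - p) / (p - 2) = 2 / (p - 2) - 1 := by
    field_simp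
    ring
  by_cases h3 : p < 3
  · have h4 : max 2 (p - 1) = 2 := max_eq_left (by linarith)
    rw [h4] at hd
    have h5 : 2 < 2 / (p - 2) := by
      rw [lt_div_iff₀ h2]
      linarith
    refine ⟨1, 2 / (p - 2) - 2 + (d - 2 / (p - 2)) / 2, by norm_num, le_rfl, ?_, ?_, ?_⟩
    · rw [hσ]
      linarith
    · rw [hσ]
      linarith
    · linarith
  · have h3' : 3 ≤ p := not_lt.1 h3
    have h4 : max 2 (p - 1) = p - 1 := max_eq_right (by linarith)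
    rw [h4] at hd
    have h5 : (p - 1) / (p - 2) = 1 + 1 / (p - 2) := by
      field_simp
      ring
    have h6 : 2 / (p - 2) = 2 * (1 / (p - 2)) := by ring
    have h7 : 1 / (p - 2) ≤ 1 := by
      rw [div_le_one h2]
      linarith
    have h8 : 1 < 2 / (p - 2) := by
      rw [lt_div_iff₀ h2]
      linarith
    rw [h5] at hd
    rw [hσ]
    set s : ℝ := 1 / (p - 2) with hs
    rw [h6] at h8 ⊢
    obtain ⟨ε, hε, he1, he2⟩ : ∃ ε : ℝ, 0 < ε ∧ ε ≤ 2 * s - 1 ∧ 3 * ε < 2 * (d - (1 + s)) := by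
      refine ⟨min (2 * s - 1) ((d - (1 + s)) / 2), lt_min (by linarith) (by linarith),
        min_le_left _ _, ?_⟩
      have := min_le_right (2 * s - 1) ((d - (1 + s)) / 2)
      linarith
    refine ⟨2 * s - 1 - ε, 2 * ε, by linarith, by linarith, by linarith, by linarith, by linarith⟩

theorem hpbx_sum (m : ℕ) (θ β : ℝ) (d : ℝ≥0) (C : ℝ) (hd : 2 + β - (1 - θ) / 2 < d) :
    Summable fun k : ℕ => (C * (1 + k) ^ (m + 2) * ((2:ℝ) ^ k) ^ (2 - (m:ℝ) - (1 - θ) / 2)) /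
      (2:ℝ) ^ (-(β * (k:ℝ))) * ((2:ℝ) ^ k) ^ m * (((2:ℝ) ^ k)⁻¹) ^ (d : ℝ) := by
  obtain ⟨δ, hδ, hdδ⟩ : ∃ δ : ℝ, 0 < δ ∧ (d : ℝ) = 2 + β - (1 - θ) / 2 + δ :=
    ⟨(d : ℝ) - (2 + β - (1 - θ) / 2), by linarith, by ring⟩
  have h2 : (0:ℝ) < 2 := two_pos
  obtain ⟨r, hr⟩ : ∃ r : ℝ, r = (2:ℝ) ^ (-δ) := ⟨_, rfl⟩
  have hr0 : 0 < r := by rw [hr]; positivity
  have hr1 : r < 1 := by
    rw [hr]
    exact Real.rpow_lt_one_of_one_lt_of_neg one_lt_two (by linarith)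
  have hs : Summable fun k : ℕ => ((k:ℝ)) ^ (m + 2) * r ^ k :=
    summable_pow_mul_geometric_of_norm_lt_one (m + 2)
      (by rw [Real.norm_eq_abs, abs_of_pos hr0]; exact hr1)
  have hs2 := (((summable_nat_add_iff 1).2 hs).mul_right r⁻¹).mul_left C
  refine hs2.congr ?_
  intro k
  have e1 : ((2:ℝ) ^ k) ^ (2 - (m:ℝ) - (1 - θ) / 2) =
      (2:ℝ) ^ ((k:ℝ) * (2 - (m:ℝ) - (1 - θ) / 2)) := by
    rw [← Real.rpow_natCast, ← Real.rpow_mul h2.le]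
  have e2 : ((2:ℝ) ^ k) ^ m = (2:ℝ) ^ ((k:ℝ) * (m:ℝ)) := by
    rw [← pow_mul, ← Real.rpow_natCast, Nat.cast_mul]
  have e3 : (((2:ℝ) ^ k)⁻¹) ^ (d : ℝ) = (2:ℝ) ^ (-(k:ℝ) * (d:ℝ)) := by
    rw [← Real.rpow_natCast, ← Real.rpow_neg h2.le, ← Real.rpow_mul h2.le]
  have e4 : r ^ k = (2:ℝ) ^ (-δ * (k:ℝ)) := by
    rw [hr, ← Real.rpow_natCast, ← Real.rpow_mul h2.le]
  have e5 : (2:ℝ) ^ (-δ * (k:ℝ)) = (2:ℝ) ^ ((k:ℝ) * (2 - (m:ℝ) - (1 - θ) / 2)) *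
      ((2:ℝ) ^ (-(β * (k:ℝ))))⁻¹ * (2:ℝ) ^ ((k:ℝ) * (m:ℝ)) * (2:ℝ) ^ (-(k:ℝ) * (d:ℝ)) := by
    rw [← Real.rpow_neg h2.le, ← Real.rpow_add h2, ← Real.rpow_add h2, ← Real.rpow_add h2]
    congr 1
    rw [hdδ]
    ring
  have e6 : (((k + 1 : ℕ)) : ℝ) ^ (m + 2) * r ^ (k + 1) * r⁻¹ =
      (1 + (k:ℝ)) ^ (m + 2) * r ^ k := by
    rw [pow_succ r k]
    push_cast
    rw [add_comm (k:ℝ) 1]
    field_simp
  rw [e6, e4, e5, e1, e2, e3]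
  simp only [div_eq_mul_inv]
  ring

theorem hpbx_one {m : ℕ} (ρ θ β : ℝ) (hρ : 1 ≤ ρ) (h0 : 0 ≤ θ) (h1 : θ ≤ 1) (d : ℝ≥0)
    (hd : 2 + β - (1 - θ) / 2 < d) (F : E m → ℂ)
    (hF : Measurable F) (hbF : ∀ w, ‖F w‖ ≤ 1) (K : ℝ) (hK : 0 ≤ K) :
    dimH {l : Fin m → ℝ | l ∈ cb m K ∧ ∃ᶠ k : ℕ in Filter.atTop,
      l ∈ {l : Fin m → ℝ | ENNReal.ofReal ((2:ℝ) ^ (-(β * (k:ℝ)))) < HH ρ θ k l F}} ≤ d := by
  obtain ⟨C, hC, hst⟩ := HH_stab m ρ θ hρ h0 h1 (K + 1) (by linarith)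
  choose V hV1 hV2 hV3 using hst F hF hbF
  refine pi_cover m K hK d V hV1
    (fun k => (2:ℝ) ^ (-(β * (k:ℝ))))
    (fun k => C * (1 + k) ^ (m + 2) * ((2:ℝ) ^ k) ^ (2 - (m:ℝ) - (1 - θ) / 2))
    (fun k => Real.rpow_pos_of_pos two_pos _) (fun k => by positivity) hV3
    (hpbx_sum m θ β d C hd)
    (fun k => {l : Fin m → ℝ | ENNReal.ofReal ((2:ℝ) ^ (-(β * (k:ℝ)))) < HH ρ θ k l F}) ?_
  intro k l hl _ l' hll'
  exact (le_of_lt hl).trans (hV2 k l l' hll')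

theorem hpbx_cj {m : ℕ} {G : E m → ℂ} (hG : Measurable G) : Measurable (cj G) :=
  Complex.continuous_conj.measurable.comp hG

theorem hpbx_cj_norm {m : ℕ} {G : E m → ℂ} (hb : ∀ w, ‖G w‖ ≤ 1) : ∀ w, ‖cj G w‖ ≤ 1 := by
  intro w
  unfold cj
  rw [RCLike.norm_conj]
  exact hb w

theorem dim_l {m : ℕ} (hm : 2 ≤ m) (p : ℝ) (hp : 2 < p) (hp4 : p < 4) (d : ℝ≥0)
    (hd : max 2 (p - 1) / (p - 2) < d) (G : E m → ℂ) (hG : Measurable G) (hb : ∀ w, ‖G w‖ ≤ 1)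
    (δ K : ℝ) (hδ : 0 < δ) (hK : 0 ≤ K) :
    dimH {l : Fin m → ℝ | (∀ i, δ ≤ l i ∧ l i ≤ K) ∧ ∫⁻ t, ∫⁻ y, ‖EE l G y t‖ₑ ^ p = ∞} ≤ d := by
  obtain ⟨θ, β, h0, h1, hθ, hβ, hdd⟩ := choose_par p hp hp4 d hd
  set ρ : ℝ := max 1 (√δ)⁻¹ with hρd
  have hρ : 1 ≤ ρ := le_max_left _ _
  have hδρ : 1 ≤ δ * ρ ^ 2 := by
    have h2 : (√δ)⁻¹ ≤ ρ := le_max_right _ _
    have h3 : 0 < (√δ)⁻¹ := inv_pos.2 (Real.sqrt_pos.2 hδ)
    have h4 : ((√δ)⁻¹) ^ 2 ≤ ρ ^ 2 := by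
      exact pow_le_pow_left₀ h3.le h2 2
    have h5 : δ * ((√δ)⁻¹) ^ 2 = 1 := by
      rw [inv_pow, Real.sq_sqrt hδ.le]
      exact mul_inv_cancel₀ hδ.ne'
    calc (1:ℝ) = δ * ((√δ)⁻¹) ^ 2 := h5.symm
      _ ≤ δ * ρ ^ 2 := mul_le_mul_of_nonneg_left h4 hδ.le
  have hsub : {l : Fin m → ℝ | (∀ i, δ ≤ l i ∧ l i ≤ K) ∧
      ∫⁻ t, ∫⁻ y, ‖EE l G y t‖ₑ ^ p = ∞} ⊆
      {l : Fin m → ℝ | l ∈ cb m K ∧ ∃ᶠ k : ℕ in Filter.atTop,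
        l ∈ {l : Fin m → ℝ | ENNReal.ofReal ((2:ℝ) ^ (-(β * (k:ℝ)))) < HH ρ θ k l G}} ∪
      {l : Fin m → ℝ | l ∈ cb m K ∧ ∃ᶠ k : ℕ in Filter.atTop,
        l ∈ {l : Fin m → ℝ | ENNReal.ofReal ((2:ℝ) ^ (-(β * (k:ℝ)))) < HH ρ θ k l (cj G)}} := by
    rintro l ⟨hl, hinf⟩
    have hlK : l ∈ cb m K := by
      intro i
      rw [abs_of_nonneg (hδ.le.trans (hl i).1)]
      exact (hl i).2
    by_contra hcon
    have c1 : ¬ ∃ᶠ k : ℕ in Filter.atTop,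
        l ∈ {l : Fin m → ℝ | ENNReal.ofReal ((2:ℝ) ^ (-(β * (k:ℝ)))) < HH ρ θ k l G} :=
      fun h => hcon (Or.inl ⟨hlK, h⟩)
    have c2 : ¬ ∃ᶠ k : ℕ in Filter.atTop,
        l ∈ {l : Fin m → ℝ | ENNReal.ofReal ((2:ℝ) ^ (-(β * (k:ℝ)))) < HH ρ θ k l (cj G)} :=
      fun h => hcon (Or.inr ⟨hlK, h⟩)
    have g1 : ∀ᶠ k : ℕ in Filter.atTop, HH ρ θ k l G ≤
        ENNReal.ofReal ((2:ℝ) ^ (-(β * (k:ℝ)))) := by
      by_contra h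
      rw [Filter.not_eventually] at h
      exact c1 (h.mono fun k hk => not_le.1 hk)
    have g2 : ∀ᶠ k : ℕ in Filter.atTop, HH ρ θ k l (cj G) ≤
        ENNReal.ofReal ((2:ℝ) ^ (-(β * (k:ℝ)))) := by
      by_contra h
      rw [Filter.not_eventually] at h
      exact c2 (h.mono fun k hk => not_le.1 hk)
    have hlpos : ∀ i, 0 < l i := fun i => hδ.trans_le (hl i).1
    have hae := fin_of_HH hm ρ p θ β hp hp4 h0 hθ hβ l hlpos G hG hb g1 g2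
    have hne : NeZero (volume.restrict (Icc (1:ℝ) 2)) := by
      refine ⟨fun h => ?_⟩
      have h3 := congrArg (fun μ : Measure ℝ => μ univ) h
      simp only [Measure.restrict_apply_univ, Real.volume_Icc, Measure.coe_zero,
        Pi.zero_apply] at h3
      norm_num at h3
    obtain ⟨κ, hκ, hκI⟩ := (hae.and (ae_restrict_mem measurableSet_Icc)).exists
    have hκ0 : 0 < κ := zero_lt_one.trans_le hκI.1
    have hfin := EE_fin hm ρ (zero_le_one.trans hρ) l hlpos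
      (fun i => hδρ.trans (mul_le_mul_of_nonneg_right (hl i).1 (sq_nonneg ρ))) κ hκ0 G hG hb p
      (by linarith) hκ
    exact hfin.ne hinf
  refine (dimH_mono hsub).trans ?_
  rw [dimH_union]
  refine max_le ?_ ?_
  · exact hpbx_one ρ θ β hρ h0 h1 d hdd G hG hb K hK
  · exact hpbx_one ρ θ β hρ h0 h1 d hdd (cj G) (hpbx_cj hG) (hpbx_cj_norm hb) K hK

end Pool.Agent.AXD
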