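import Pool.Agent.AXD.Defs
import Pool.Agent.AEL.V1

namespace Pool.Agent.AXD

open MeasureTheory Set Pool.Agent.MP_6cbfb8_an Pool.Agent.MST
open scoped ENNReal Real

/-
ROW PC1 (1 h). Hyperbola estimate. Translate P, Q: it is enough to bound the integral over |P|, |Q| ≤ 2L of exp(-π (a P² - b Q² + c)²).
u = √a P - √b Q, v = √a P + √b Q: a P² - b Q² = u v, dP dQ = du dv / (2 √(a b)), |u|, |v| ≤ 4 L √R; for fixed u, ∫⁻ v in [-4L√R, 4L√R] exp(-π (u v + c)²) ≤
C / (1/(4L√R) + |u|)  (`slope` in Pool.Agent.AEL.V1 with c := π, K := 4L√R), and ∫ over |u| ≤ 4L√R of this is ≤ C (1 + log R); 2 √(a b) ≥ R.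
(Linear change of variables for lintegral on ℝ × ℝ: Real.map_linearMap_volume_pi_eq.. on Fin 2 → ℝ, or two shears and scalings: for fixed Q substitute
P = (u + √b Q)/√a, then for fixed u substitute Q.: a P² - b Q² = u (u + 2 √b Q) with u = √a P - √b Q; so no linear algebra is needed: the inner substitution is in P for fixed Q,
swap, then for fixed u the function Q ↦ (u (u + 2√b Q) + c)² is the square of a linear function of slope 2√b u : `slope` again with K := 2L, a := 2√b u.)
-/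

/-- affine substitution -/
theorem hpcx_aff (α β : ℝ) (hα : 0 < α) (F : ℝ → ℝ≥0∞) (hF : Measurable F) :
    ∫⁻ x : ℝ, F x = ENNReal.ofReal α * ∫⁻ z : ℝ, F (α * z + β) := by
  have h1 : ∫⁻ z : ℝ, F (z + β) = ∫⁻ x : ℝ, F x := lintegral_add_right_eq_self F β
  have hF1 : Measurable fun z : ℝ => F (z + β) := hF.comp (measurable_id.add_const β)
  have h2 : ∫⁻ z : ℝ, F (z + β) = ENNReal.ofReal α * ∫⁻ z : ℝ, F (α * z + β) := by
    conv_lhs => rw [← Real.smul_map_volume_mul_left hα.ne']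
    rw [lintegral_smul_measure, lintegral_map hF1 (measurable_const_mul α), abs_of_pos hα,
      smul_eq_mul]
  rw [← h1, h2]

/-- translation on an interval -/
theorem hpcx_tr (L γ : ℝ) (hγ : |γ| ≤ L) (F : ℝ → ℝ≥0∞) :
    ∫⁻ x in Icc (-L) L, F (x + γ) ≤ ∫⁻ x in Icc (-(2 * L)) (2 * L), F x := by
  have h1 : ∫⁻ x in Icc (-L) L, F (x + γ) ≤
      ∫⁻ x : ℝ, (Icc (-(2 * L)) (2 * L)).indicator F (x + γ) := by
    rw [← lintegral_indicator measurableSet_Icc]
    refine lintegral_mono fun x => ?_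
    by_cases hx : x ∈ Icc (-L) L
    · rw [indicator_of_mem hx, indicator_of_mem]
      have h2 := abs_le.1 hγ
      exact ⟨by linarith [hx.1], by linarith [hx.2]⟩
    · rw [indicator_of_notMem hx]
      exact zero_le
  refine h1.trans (le_of_eq ?_)
  rw [lintegral_add_right_eq_self ((Icc (-(2 * L)) (2 * L)).indicator F) γ,
    lintegral_indicator measurableSet_Icc]

theorem hyper (L : ℝ) (hL : 0 < L) : ∃ C : ℝ, 0 < C ∧ ∀ (R a b γ δ c : ℝ), 1 ≤ R → R / 2 ≤ a →
    a ≤ R → R / 2 ≤ b → b ≤ R → |γ| ≤ L → |δ| ≤ L →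
    ∫⁻ P in Icc (-L) L, ∫⁻ Q in Icc (-L) L,
      ENNReal.ofReal (Real.exp (-(π * (a * (P + γ) ^ 2 - b * (Q + δ) ^ 2 + c) ^ 2))) ≤
      ENNReal.ofReal (C * (1 + Real.log R) / R) := by
  obtain ⟨C0, hC0, hs⟩ := Pool.Agent.AEL.slope π Real.pi_pos
  obtain ⟨C1, hC1, hl⟩ := Pool.Agent.AEL.log_int (max 1 (4 * L)) (le_max_left _ _)
  set M : ℝ := max 1 (2 * L) with hM
  have hM1 : 1 ≤ M := le_max_left _ _
  have hM2 : 2 * L ≤ M := le_max_right _ _
  have hlM : 0 ≤ Real.log M := Real.log_nonneg hM1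
  refine ⟨2 * C0 * C1 * (1 + Real.log M), by positivity, ?_⟩
  intro R a b γ δ c hR ha1 ha2 hb1 hb2 hγ hδ
  have hR0 : 0 < R := by linarith
  have ha0 : 0 < a := by linarith
  have hb0 : 0 < b := by linarith
  have hlR : 0 ≤ Real.log R := Real.log_nonneg hR
  set f : ℝ → ℝ → ℝ≥0∞ := fun P Q =>
    ENNReal.ofReal (Real.exp (-(π * (a * P ^ 2 - b * Q ^ 2 + c) ^ 2))) with hf
  have hfm : Measurable (Function.uncurry f) := by
    simp only [hf]
    apply Measurable.ennreal_ofReal
    apply Measurable.exp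
    fun_prop
  -- translation
  have e1 : ∫⁻ P in Icc (-L) L, ∫⁻ Q in Icc (-L) L,
      ENNReal.ofReal (Real.exp (-(π * (a * (P + γ) ^ 2 - b * (Q + δ) ^ 2 + c) ^ 2))) ≤
      ∫⁻ P in Icc (-(2 * L)) (2 * L), ∫⁻ Q in Icc (-(2 * L)) (2 * L), f P Q := by
    calc _ ≤ ∫⁻ P in Icc (-L) L, ∫⁻ Q in Icc (-(2 * L)) (2 * L), f (P + γ) Q :=
          lintegral_mono fun P => hpcx_tr L δ hδ (f (P + γ))
      _ ≤ _ := hpcx_tr L γ hγ fun P => ∫⁻ Q in Icc (-(2 * L)) (2 * L), f P Q
  refine e1.trans ?_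
  -- swap
  rw [lintegral_lintegral_swap hfm.aemeasurable]
  -- substitution in P for fixed Q
  set α : ℝ := √R / √a with hα
  have hsa : 0 < √a := Real.sqrt_pos.2 ha0
  have hsb : 0 < √b := Real.sqrt_pos.2 hb0
  have hsR : 0 < √R := Real.sqrt_pos.2 hR0
  have hsa2 : √a ^ 2 = a := Real.sq_sqrt ha0.le
  have hsb2 : √b ^ 2 = b := Real.sq_sqrt hb0.le
  have hsR2 : √R ^ 2 = R := Real.sq_sqrt hR0.le
  have hα0 : 0 < α := by positivity
  have hα2 : α ≤ 2 := by
    rw [hα, div_le_iff₀ hsa]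
    have : √R ^ 2 ≤ (2 * √a) ^ 2 := by rw [mul_pow, hsR2, hsa2]; linarith
    exact le_of_sq_le_sq this (by positivity)
  have hRb : R ≤ 2 * √R * √b := by
    have : R ^ 2 ≤ (2 * √R * √b) ^ 2 := by
      rw [mul_pow, mul_pow, hsR2, hsb2]; nlinarith
    exact le_of_sq_le_sq this (by positivity)
  have e2 : ∀ Q ∈ Icc (-(2 * L)) (2 * L), ∫⁻ P in Icc (-(2 * L)) (2 * L), f P Q ≤
      ENNReal.ofReal α * ∫⁻ z in Icc (-(max 1 (4 * L))) (max 1 (4 * L)),
        ENNReal.ofReal (Real.exp (-(π * (2 * √R * √b * z * Q + (R * z ^ 2 + c)) ^ 2))) := by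
    intro Q hQ
    have hm : Measurable ((Icc (-(2 * L)) (2 * L)).indicator fun P => f P Q) :=
      (hfm.comp (measurable_id.prodMk measurable_const)).indicator measurableSet_Icc
    rw [← lintegral_indicator measurableSet_Icc, hpcx_aff α (√b * Q / √a) hα0 _ hm]
    refine mul_le_mul_right ?_ _
    rw [← lintegral_indicator measurableSet_Icc]
    refine lintegral_mono fun z => ?_
    by_cases hz : α * z + √b * Q / √a ∈ Icc (-(2 * L)) (2 * L)
    · rw [indicator_of_mem hz, indicator_of_mem]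
      · simp only [hf]
        apply le_of_eq
        congr 5
        have h3 : a * (α * z + √b * Q / √a) ^ 2 = (√R * z + √b * Q) ^ 2 := by
          have h4 : α * z + √b * Q / √a = (√R * z + √b * Q) / √a := by
            rw [hα]; ring
          rw [h4, div_pow, hsa2]
          field_simp
        rw [h3, add_sq, mul_pow, mul_pow, hsR2, hsb2]
        ring
      · have h4 : α * z + √b * Q / √a = (√R * z + √b * Q) / √a := by
          rw [hα]; ring
        rw [h4] at hz
        have h5 : √a ≤ √R := Real.sqrt_le_sqrt ha2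
        have h6 : √b ≤ √R := Real.sqrt_le_sqrt hb2
        have h7 : |√R * z + √b * Q| ≤ 2 * L * √R := by
          have h8 : |(√R * z + √b * Q) / √a| ≤ 2 * L := abs_le.2 hz
          rw [abs_div, abs_of_pos hsa, div_le_iff₀ hsa] at h8
          refine h8.trans ?_
          gcongr
        have h9 : |√b * Q| ≤ 2 * L * √R := by
          rw [abs_mul, abs_of_pos hsb, mul_comm]
          have : |Q| ≤ 2 * L := abs_le.2 hQ
          gcongr
        have h10 : √R * |z| ≤ 4 * L * √R := by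
          calc √R * |z| = |√R * z| := by rw [abs_mul, abs_of_pos hsR]
            _ = |(√R * z + √b * Q) - √b * Q| := by rw [add_sub_cancel_right]
            _ ≤ |√R * z + √b * Q| + |√b * Q| := abs_sub _ _
            _ ≤ 4 * L * √R := by linarith
        have h11 : |z| ≤ 4 * L := by
          rw [mul_comm] at h10
          exact le_of_mul_le_mul_right h10 hsR
        have h12 := h11.trans (le_max_right 1 (4 * L))
        exact abs_le.1 h12
    · rw [indicator_of_notMem hz]
      exact zero_le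
  have e3 : ∫⁻ Q in Icc (-(2 * L)) (2 * L), ∫⁻ P in Icc (-(2 * L)) (2 * L), f P Q ≤
      ∫⁻ Q in Icc (-(2 * L)) (2 * L), ENNReal.ofReal α *
        ∫⁻ z in Icc (-(max 1 (4 * L))) (max 1 (4 * L)),
        ENNReal.ofReal (Real.exp (-(π * (2 * √R * √b * z * Q + (R * z ^ 2 + c)) ^ 2))) :=
    setLIntegral_mono' measurableSet_Icc e2
  refine e3.trans ?_
  rw [lintegral_const_mul' _ _ ENNReal.ofReal_ne_top]
  have hgm : Measurable (Function.uncurry fun Q z : ℝ =>
      ENNReal.ofReal (Real.exp (-(π * (2 * √R * √b * z * Q + (R * z ^ 2 + c)) ^ 2)))) := by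
    apply Measurable.ennreal_ofReal
    apply Measurable.exp
    fun_prop
  rw [lintegral_lintegral_swap hgm.aemeasurable]
  have e4 : ∀ z : ℝ, ∫⁻ Q in Icc (-(2 * L)) (2 * L),
      ENNReal.ofReal (Real.exp (-(π * (2 * √R * √b * z * Q + (R * z ^ 2 + c)) ^ 2))) ≤
      ENNReal.ofReal (C0 / R) * ENNReal.ofReal (1 / (1 / (M * R) + |z - 0|)) := by
    intro z
    refine (hs (2 * L) (by positivity) (2 * √R * √b * z) (R * z ^ 2 + c)).trans ?_
    rw [← ENNReal.ofReal_mul (by positivity)]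
    apply ENNReal.ofReal_le_ofReal
    rw [sub_zero]
    have h1 : 1 / M + R * |z| ≤ 1 / (2 * L) + |2 * √R * √b * z| := by
      have h2 : |2 * √R * √b * z| = 2 * √R * √b * |z| := by
        rw [abs_mul, abs_of_pos (by positivity)]
      rw [h2]
      gcongr
    have h3 : C0 / R * (1 / (1 / (M * R) + |z|)) = C0 / (1 / M + R * |z|) := by
      have h5 : 1 / M + R * |z| = R * (1 / (M * R) + |z|) := by
        field_simp
      rw [h5]
      have h6 : 0 < 1 / (M * R) + |z| := by positivity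
      field_simp
    rw [h3]
    gcongr
  have e5 : ∫⁻ z in Icc (-(max 1 (4 * L))) (max 1 (4 * L)), ∫⁻ Q in Icc (-(2 * L)) (2 * L),
      ENNReal.ofReal (Real.exp (-(π * (2 * √R * √b * z * Q + (R * z ^ 2 + c)) ^ 2))) ≤
      ENNReal.ofReal (C0 / R) * ENNReal.ofReal (C1 * (1 + Real.log (M * R))) := by
    refine (lintegral_mono e4).trans ?_
    rw [lintegral_const_mul' _ _ ENNReal.ofReal_ne_top]
    gcongr
    exact hl (M * R) (by nlinarith) 0
  calc _ ≤ ENNReal.ofReal α * (ENNReal.ofReal (C0 / R) *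
        ENNReal.ofReal (C1 * (1 + Real.log (M * R)))) := by gcongr
    _ = ENNReal.ofReal (α * (C0 / R * (C1 * (1 + Real.log (M * R))))) := by
        rw [← ENNReal.ofReal_mul (by positivity), ← ENNReal.ofReal_mul (by positivity)]
    _ ≤ _ := by
        apply ENNReal.ofReal_le_ofReal
        rw [Real.log_mul (by positivity) (by positivity)]
        have h1 : 1 + (Real.log M + Real.log R) ≤ (1 + Real.log M) * (1 + Real.log R) := by
          nlinarith [mul_nonneg hlM hlR]
        have h2 : 0 ≤ 1 + (Real.log M + Real.log R) := by positivity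
        calc α * (C0 / R * (C1 * (1 + (Real.log M + Real.log R))))
            ≤ 2 * (C0 / R * (C1 * ((1 + Real.log M) * (1 + Real.log R)))) := by gcongr
          _ = _ := by ring

end Pool.Agent.AXD
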