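import Pool.Agent.AXD.PC

namespace Pool.Agent.AXD

open MeasureTheory Set Pool.Agent.MP_6cbfb8_an Pool.Agent.MST
open scoped ENNReal Real

theorem hpc2x_pi (m : ℕ) {X : Type} [MeasureSpace X] [SigmaFinite (volume : Measure X)]
    (f : X → ℝ≥0∞) (hf : Measurable f) :
    ∫⁻ x : Fin m → X, ∏ i, f (x i) = (∫⁻ x, f x) ^ m := by
  induction m with
  | zero =>
    simp only [Finset.univ_eq_empty, Finset.prod_empty, pow_zero, lintegral_const, one_mul]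
    rw [Measure.volume_pi_eq_dirac (fun i => Fin.elim0 i)]
    simp
  | succ n ih =>
    have h1 := (volume_preserving_piFinSuccAbove (fun _ : Fin (n + 1) => X) 0).symm
    have hm : Measurable fun x : Fin (n + 1) → X => ∏ i, f (x i) :=
      Finset.measurable_prod _ (fun i _ => hf.comp (measurable_pi_apply i))
    rw [← h1.lintegral_comp hm]
    have h2 : ∀ a : X × (Fin n → X), (∏ i, f ((MeasurableEquiv.piFinSuccAbove
        (fun _ : Fin (n + 1) => X) 0).symm a i)) = f a.1 * ∏ i, f (a.2 i) := by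
      intro a
      rw [Fin.prod_univ_succ]
      rfl
    simp_rw [h2]
    have hm2 : Measurable fun x : Fin n → X => ∏ i, f (x i) :=
      Finset.measurable_prod _ (fun i _ => hf.comp (measurable_pi_apply i))
    rw [Measure.volume_eq_prod, lintegral_prod_mul hf.aemeasurable hm2.aemeasurable, ih, pow_succ, mul_comm]

theorem hpc2x_mp (m : ℕ) : MeasurePreserving
    (fun q : E m × E m × E m => fun i : Fin m => ((q.1 i, q.2.1 i, q.2.2 i) : ℝ × ℝ × ℝ))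
    volume volume := by
  have h0 : MeasurePreserving (WithLp.ofLp : E m → (Fin m → ℝ)) volume volume :=
    PiLp.volume_preserving_ofLp (Fin m)
  have h1 := h0.prod (h0.prod h0)
  have h2 := (volume_measurePreserving_arrowProdEquivProdArrow ℝ ℝ (Fin m)).symm
  have h3 := (volume_measurePreserving_arrowProdEquivProdArrow ℝ (ℝ × ℝ) (Fin m)).symm
  have h4 := (MeasurePreserving.id (volume : Measure (Fin m → ℝ))).prod h2
  exact (h3.comp h4).comp h1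

theorem space (m : ℕ) (f : ℝ × ℝ × ℝ → ℝ≥0∞) (hf : Measurable f) :
    ∫⁻ q : E m × E m × E m, ∏ i, f (q.1 i, q.2.1 i, q.2.2 i) = (∫⁻ x, f x) ^ m := by
  have hm : Measurable fun x : Fin m → ℝ × ℝ × ℝ => ∏ i, f (x i) :=
    Finset.measurable_prod _ (fun i _ => hf.comp (measurable_pi_apply i))
  rw [← hpc2x_pi m f hf, ← (hpc2x_mp m).lintegral_comp hm]

theorem measurable_fc (ρ : ℝ) : Measurable fun q : (Fin 4 → ℝ) × (ℝ × ℝ × ℝ) => fc ρ q.1 q.2 := by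
  have hset : MeasurableSet {q : (Fin 4 → ℝ) × (ℝ × ℝ × ℝ) | inC ρ q.2.1 q.2.2.1 q.2.2.2} := by
    have e : {q : (Fin 4 → ℝ) × (ℝ × ℝ × ℝ) | inC ρ q.2.1 q.2.2.1 q.2.2.2} =
        {q : (Fin 4 → ℝ) × (ℝ × ℝ × ℝ) | |q.2.1| ≤ ρ} ∩
        ({q : (Fin 4 → ℝ) × (ℝ × ℝ × ℝ) | |q.2.1 - q.2.2.1 - q.2.2.2| ≤ ρ} ∩
        ({q : (Fin 4 → ℝ) × (ℝ × ℝ × ℝ) | |q.2.1 - q.2.2.1| ≤ ρ} ∩
        {q : (Fin 4 → ℝ) × (ℝ × ℝ × ℝ) | |q.2.1 - q.2.2.2| ≤ ρ})) := rfl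
    rw [e]
    exact ((isClosed_le (by fun_prop) (by fun_prop)).inter
      ((isClosed_le (by fun_prop) (by fun_prop)).inter
      ((isClosed_le (by fun_prop) (by fun_prop)).inter
      (isClosed_le (by fun_prop) (by fun_prop))))).measurableSet
  have hfun : Measurable fun q : (Fin 4 → ℝ) × (ℝ × ℝ × ℝ) =>
      ENNReal.ofReal (Real.exp (-(π * bb q.1 q.2.1 q.2.2.1 q.2.2.2 ^ 2))) := by
    unfold bb
    apply Measurable.ennreal_ofReal
    apply Continuous.measurable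
    fun_prop
  have : (fun q : (Fin 4 → ℝ) × (ℝ × ℝ × ℝ) => fc ρ q.1 q.2) =
      {q : (Fin 4 → ℝ) × (ℝ × ℝ × ℝ) | inC ρ q.2.1 q.2.2.1 q.2.2.2}.indicator
      (fun q => ENNReal.ofReal (Real.exp (-(π * bb q.1 q.2.1 q.2.2.1 q.2.2.2 ^ 2)))) := by
    funext q
    unfold fc
    by_cases h : inC ρ q.2.1 q.2.2.1 q.2.2.2
    · rw [Set.indicator_of_mem (by exact h), Set.indicator_of_mem (by exact h)]
    · rw [Set.indicator_of_notMem (by exact h), Set.indicator_of_notMem (by exact h)]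
  rw [this]
  exact hfun.indicator hset

/-- the quadratic form in the variables `μ, p, q` -/
theorem hpc2x_bb (τ : Fin 4 → ℝ) (w y z : ℝ) (h1 : 0 < τ 0 + τ 1) (h2 : 0 < τ 2 + τ 3) :
    bb τ w y z = (τ 0 + τ 1) / 4 * ((y + z) + 2 * (w - (y + z) / 2) * (τ 0 - τ 1) / (τ 0 + τ 1)) ^ 2
      - (τ 2 + τ 3) / 4 * ((y - z) + -(2 * (w - (y + z) / 2) * (τ 2 - τ 3) / (τ 2 + τ 3))) ^ 2
      + ((w - (y + z) / 2) ^ 2 * (ss τ - (τ 0 - τ 1) ^ 2 / (τ 0 + τ 1) +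
        (τ 2 - τ 3) ^ 2 / (τ 2 + τ 3))) := by
  unfold bb ss
  have h1' := h1.ne'
  have h2' := h2.ne'
  field_simp
  ring

/-- the change of variables -/
theorem hpc2x_cv (F : ℝ × ℝ × ℝ → ℝ≥0∞) (hF : Measurable F) :
    ∫⁻ x : ℝ × ℝ × ℝ, F (x.1 - (x.2.1 + x.2.2) / 2, x.2.1 + x.2.2, x.2.1 - x.2.2) =
      ENNReal.ofReal (1 / 2) * ∫⁻ μ : ℝ, ∫⁻ p : ℝ, ∫⁻ q : ℝ, F (μ, p, q) := by
  have hF1 : Measurable fun x : ℝ × ℝ × ℝ =>
      F (x.1 - (x.2.1 + x.2.2) / 2, x.2.1 + x.2.2, x.2.1 - x.2.2) := by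
    apply hF.comp
    fun_prop
  rw [Measure.volume_eq_prod, lintegral_prod_symm _ hF1.aemeasurable]
  have e1 : ∀ y : ℝ × ℝ, ∫⁻ w : ℝ, F (w - (y.1 + y.2) / 2, y.1 + y.2, y.1 - y.2) =
      ∫⁻ μ : ℝ, F (μ, y.1 + y.2, y.1 - y.2) := by
    intro y
    exact lintegral_sub_right_eq_self (fun w => F (w, y.1 + y.2, y.1 - y.2)) ((y.1 + y.2) / 2)
  simp_rw [e1]
  have hF2 : Measurable fun x : (ℝ × ℝ) × ℝ => F (x.2, x.1.1 + x.1.2, x.1.1 - x.1.2) := by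
    apply hF.comp
    fun_prop
  rw [lintegral_lintegral_swap (f := fun (x : ℝ × ℝ) (μ : ℝ) => F (μ, x.1 + x.2, x.1 - x.2))
    hF2.aemeasurable]
  rw [← lintegral_const_mul' _ _ ENNReal.ofReal_ne_top]
  apply lintegral_congr
  intro μ
  have hF3 : Measurable fun x : ℝ × ℝ => F (μ, x.1 + x.2, x.1 - x.2) := by
    apply hF.comp
    fun_prop
  rw [Measure.volume_eq_prod, lintegral_prod _ hF3.aemeasurable]
  have e2 : ∀ y : ℝ, ∫⁻ z : ℝ, F (μ, y + z, y - z) = ∫⁻ p : ℝ, F (μ, p, 2 * y - p) := by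
    intro y
    rw [← lintegral_add_left_eq_self (fun p => F (μ, p, 2 * y - p)) y]
    apply lintegral_congr
    intro z
    congr 3
    ring
  simp_rw [e2]
  have hF4 : Measurable fun x : ℝ × ℝ => F (μ, x.2, 2 * x.1 - x.2) := by
    apply hF.comp
    fun_prop
  rw [lintegral_lintegral_swap (f := fun (y p : ℝ) => F (μ, p, 2 * y - p)) hF4.aemeasurable]
  rw [← lintegral_const_mul' _ _ ENNReal.ofReal_ne_top]
  apply lintegral_congr
  intro p
  have e3 : ∫⁻ y : ℝ, F (μ, p, 2 * y - p) = ∫⁻ y : ℝ, F (μ, p, 2 * y) := by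
    rw [← lintegral_add_right_eq_self (fun y => F (μ, p, 2 * y - p)) (p / 2)]
    apply lintegral_congr
    intro y
    congr 3
    ring
  rw [e3]
  have hF5 : Measurable fun q : ℝ => F (μ, p, q) := by
    apply hF.comp
    fun_prop
  have h6 := Real.map_volume_mul_left (a := (2 : ℝ)) (by norm_num)
  have h7 : ∫⁻ y : ℝ, F (μ, p, 2 * y) = ∫⁻ q : ℝ, F (μ, p, q) ∂(Measure.map (fun y => 2 * y) volume) := by
    rw [lintegral_map hF5 (by fun_prop)]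
  rw [h7, h6, lintegral_smul_measure]
  congr 1
  norm_num

theorem coord (ρ : ℝ) (hρ : 1 ≤ ρ) : ∃ C : ℝ, 0 < C ∧ ∀ R : ℝ, 1 ≤ R → ∀ τ ∈ Box R,
    ∫⁻ x : ℝ × ℝ × ℝ, fc ρ τ x ≤ ENNReal.ofReal (C * (1 + Real.log R) / R) := by
  obtain ⟨C, hC, H⟩ := hyper (2 * ρ) (by linarith)
  refine ⟨ρ * C, by positivity, ?_⟩
  intro R hR τ hτ
  have hR0 : 0 < R := by linarith
  have t0 := hτ 0
  have t1 := hτ 1
  have t2 := hτ 2
  have t3 := hτ 3
  have s01 : 0 < τ 0 + τ 1 := by linarith [t0.1, t1.1]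
  have s23 : 0 < τ 2 + τ 3 := by linarith [t2.1, t3.1]
  set F : ℝ × ℝ × ℝ → ℝ≥0∞ := fun x =>
    (Icc (-ρ) ρ).indicator (fun _ => 1) x.1 * ((Icc (-(2 * ρ)) (2 * ρ)).indicator (fun _ => 1) x.2.1 *
    ((Icc (-(2 * ρ)) (2 * ρ)).indicator (fun _ => 1) x.2.2 *
      ENNReal.ofReal (Real.exp (-(π * ((τ 0 + τ 1) / 4 * (x.2.1 + 2 * x.1 * (τ 0 - τ 1) / (τ 0 + τ 1)) ^ 2
      - (τ 2 + τ 3) / 4 * (x.2.2 + -(2 * x.1 * (τ 2 - τ 3) / (τ 2 + τ 3))) ^ 2
      + (x.1 ^ 2 * (ss τ - (τ 0 - τ 1) ^ 2 / (τ 0 + τ 1) +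
        (τ 2 - τ 3) ^ 2 / (τ 2 + τ 3)))) ^ 2))))) with hFdef
  have hFm : Measurable F := by
    have m1 : Measurable fun x : ℝ × ℝ × ℝ => (Icc (-ρ) ρ).indicator (fun _ => (1 : ℝ≥0∞)) x.1 :=
      (measurable_const.indicator measurableSet_Icc).comp measurable_fst
    have m2 : Measurable fun x : ℝ × ℝ × ℝ =>
        (Icc (-(2 * ρ)) (2 * ρ)).indicator (fun _ => (1 : ℝ≥0∞)) x.2.1 :=
      (measurable_const.indicator measurableSet_Icc).comp (measurable_fst.comp measurable_snd)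
    have m3 : Measurable fun x : ℝ × ℝ × ℝ =>
        (Icc (-(2 * ρ)) (2 * ρ)).indicator (fun _ => (1 : ℝ≥0∞)) x.2.2 :=
      (measurable_const.indicator measurableSet_Icc).comp (measurable_snd.comp measurable_snd)
    refine m1.mul (m2.mul (m3.mul ?_))
    apply Measurable.ennreal_ofReal
    apply Continuous.measurable
    fun_prop
  have step1 : ∫⁻ x : ℝ × ℝ × ℝ, fc ρ τ x ≤
      ∫⁻ x : ℝ × ℝ × ℝ, F (x.1 - (x.2.1 + x.2.2) / 2, x.2.1 + x.2.2, x.2.1 - x.2.2) := by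
    apply lintegral_mono
    intro x
    unfold fc
    by_cases h : inC ρ x.1 x.2.1 x.2.2
    · rw [Set.indicator_of_mem (by exact h)]
      obtain ⟨a1, a2, a3, a4⟩ := h
      rw [abs_le] at a1 a2 a3 a4
      have b1 : x.1 - (x.2.1 + x.2.2) / 2 ∈ Icc (-ρ) ρ := by
        constructor <;> linarith [a1.1, a1.2, a2.1, a2.2]
      have b2 : x.2.1 + x.2.2 ∈ Icc (-(2 * ρ)) (2 * ρ) := by
        constructor <;> linarith [a1.1, a1.2, a2.1, a2.2]
      have b3 : x.2.1 - x.2.2 ∈ Icc (-(2 * ρ)) (2 * ρ) := by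
        constructor <;> linarith [a3.1, a3.2, a4.1, a4.2]
      simp only [hFdef]
      rw [Set.indicator_of_mem b1, Set.indicator_of_mem b2, Set.indicator_of_mem b3, one_mul,
        one_mul, one_mul, hpc2x_bb τ x.1 x.2.1 x.2.2 s01 s23]
    · rw [Set.indicator_of_notMem (by exact h)]
      exact zero_le
  have step2 : ∀ μ p : ℝ, ∫⁻ q : ℝ, F (μ, p, q) =
      (Icc (-ρ) ρ).indicator (fun _ => 1) μ * ((Icc (-(2 * ρ)) (2 * ρ)).indicator (fun _ => 1) p *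
      ∫⁻ q in Icc (-(2 * ρ)) (2 * ρ),
      ENNReal.ofReal (Real.exp (-(π * ((τ 0 + τ 1) / 4 * (p + 2 * μ * (τ 0 - τ 1) / (τ 0 + τ 1)) ^ 2
      - (τ 2 + τ 3) / 4 * (q + -(2 * μ * (τ 2 - τ 3) / (τ 2 + τ 3))) ^ 2
      + (μ ^ 2 * (ss τ - (τ 0 - τ 1) ^ 2 / (τ 0 + τ 1) +
        (τ 2 - τ 3) ^ 2 / (τ 2 + τ 3)))) ^ 2)))) := by
    intro μ p
    simp only [hFdef]
    rw [lintegral_const_mul', lintegral_const_mul', ← lintegral_indicator measurableSet_Icc]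
    · congr 2
      apply lintegral_congr
      intro q
      by_cases h : q ∈ Icc (-(2 * ρ)) (2 * ρ)
      · rw [Set.indicator_of_mem h, Set.indicator_of_mem h, one_mul]
      · rw [Set.indicator_of_notMem h, Set.indicator_of_notMem h, zero_mul]
    · by_cases h : p ∈ Icc (-(2 * ρ)) (2 * ρ)
      · rw [Set.indicator_of_mem h]; exact ENNReal.one_ne_top
      · rw [Set.indicator_of_notMem h]; exact ENNReal.zero_ne_top
    · by_cases h : μ ∈ Icc (-ρ) ρ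
      · rw [Set.indicator_of_mem h]; exact ENNReal.one_ne_top
      · rw [Set.indicator_of_notMem h]; exact ENNReal.zero_ne_top
  have step3 : ∀ μ : ℝ, ∫⁻ p : ℝ, ∫⁻ q : ℝ, F (μ, p, q) ≤
      (Icc (-ρ) ρ).indicator (fun _ => ENNReal.ofReal (C * (1 + Real.log R) / R)) μ := by
    intro μ
    simp_rw [step2]
    by_cases h : μ ∈ Icc (-ρ) ρ
    · rw [Set.indicator_of_mem h, Set.indicator_of_mem h]
      simp only [one_mul]
      have e : ∀ p : ℝ, (Icc (-(2 * ρ)) (2 * ρ)).indicator (fun _ => (1 : ℝ≥0∞)) p *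
          ∫⁻ q in Icc (-(2 * ρ)) (2 * ρ),
          ENNReal.ofReal (Real.exp (-(π * ((τ 0 + τ 1) / 4 * (p + 2 * μ * (τ 0 - τ 1) / (τ 0 + τ 1)) ^ 2
          - (τ 2 + τ 3) / 4 * (q + -(2 * μ * (τ 2 - τ 3) / (τ 2 + τ 3))) ^ 2
          + (μ ^ 2 * (ss τ - (τ 0 - τ 1) ^ 2 / (τ 0 + τ 1) +
            (τ 2 - τ 3) ^ 2 / (τ 2 + τ 3)))) ^ 2))) =
          (Icc (-(2 * ρ)) (2 * ρ)).indicator (fun p => ∫⁻ q in Icc (-(2 * ρ)) (2 * ρ),
          ENNReal.ofReal (Real.exp (-(π * ((τ 0 + τ 1) / 4 * (p + 2 * μ * (τ 0 - τ 1) / (τ 0 + τ 1)) ^ 2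
          - (τ 2 + τ 3) / 4 * (q + -(2 * μ * (τ 2 - τ 3) / (τ 2 + τ 3))) ^ 2
          + (μ ^ 2 * (ss τ - (τ 0 - τ 1) ^ 2 / (τ 0 + τ 1) +
            (τ 2 - τ 3) ^ 2 / (τ 2 + τ 3)))) ^ 2)))) p := by
        intro p
        by_cases h : p ∈ Icc (-(2 * ρ)) (2 * ρ)
        · rw [Set.indicator_of_mem h, Set.indicator_of_mem h, one_mul]
        · rw [Set.indicator_of_notMem h, Set.indicator_of_notMem h, zero_mul]
      simp_rw [e]
      rw [lintegral_indicator measurableSet_Icc]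
      have hμ : |μ| ≤ ρ := abs_le.2 ⟨h.1, h.2⟩
      apply H R ((τ 0 + τ 1) / 4) ((τ 2 + τ 3) / 4) (2 * μ * (τ 0 - τ 1) / (τ 0 + τ 1))
        (-(2 * μ * (τ 2 - τ 3) / (τ 2 + τ 3))) _ hR
      · linarith [t0.1, t1.1]
      · linarith [t0.2, t1.2]
      · linarith [t2.1, t3.1]
      · linarith [t2.2, t3.2]
      · rw [abs_div, abs_mul, abs_mul, abs_two, abs_of_pos s01, div_le_iff₀ s01]
        have h5 : |τ 0 - τ 1| ≤ τ 0 + τ 1 := by
          rw [abs_le]; constructor <;> linarith [t0.1, t1.1]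
        have h6 : 0 ≤ |τ 0 - τ 1| := abs_nonneg _
        have h7 : 2 * |μ| ≤ 2 * ρ := by linarith
        exact mul_le_mul h7 h5 h6 (by linarith)
      · rw [abs_neg, abs_div, abs_mul, abs_mul, abs_two, abs_of_pos s23, div_le_iff₀ s23]
        have h5 : |τ 2 - τ 3| ≤ τ 2 + τ 3 := by
          rw [abs_le]; constructor <;> linarith [t2.1, t3.1]
        have h6 : 0 ≤ |τ 2 - τ 3| := abs_nonneg _
        have h7 : 2 * |μ| ≤ 2 * ρ := by linarith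
        exact mul_le_mul h7 h5 h6 (by linarith)
    · rw [Set.indicator_of_notMem h, Set.indicator_of_notMem h]
      simp
  calc ∫⁻ x : ℝ × ℝ × ℝ, fc ρ τ x ≤
      ∫⁻ x : ℝ × ℝ × ℝ, F (x.1 - (x.2.1 + x.2.2) / 2, x.2.1 + x.2.2, x.2.1 - x.2.2) := step1
    _ = ENNReal.ofReal (1 / 2) * ∫⁻ μ : ℝ, ∫⁻ p : ℝ, ∫⁻ q : ℝ, F (μ, p, q) := hpc2x_cv F hFm
    _ ≤ ENNReal.ofReal (1 / 2) * ∫⁻ μ : ℝ,
      (Icc (-ρ) ρ).indicator (fun _ => ENNReal.ofReal (C * (1 + Real.log R) / R)) μ :=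
        mul_le_mul_right (lintegral_mono step3) _
    _ = ENNReal.ofReal (ρ * C * (1 + Real.log R) / R) := by
        rw [lintegral_indicator measurableSet_Icc, setLIntegral_const, Real.volume_Icc,
          ← ENNReal.ofReal_mul, ← ENNReal.ofReal_mul (by norm_num)]
        · congr 1
          ring
        · have := Real.log_nonneg hR
          positivity

end Pool.Agent.AXD
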