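import Pool.Agent.AXD.PA2

namespace Pool.Agent.AXD

open MeasureTheory Set Pool.Agent.MP_6cbfb8_an Pool.Agent.MST
open scoped ENNReal Real

/-- the coefficients of the power series -/
noncomputable def hpex_co (ρ R : ℝ) (k : ℕ) : ℂ :=
  (((-(5 * π * R * ρ ^ 2) : ℝ) : ℂ)) ^ k / (k.factorial : ℂ)

theorem hpex_norm_co (ρ R : ℝ) (hR : 0 ≤ R) (k : ℕ) :
    ‖hpex_co ρ R k‖ = (5 * π * R * ρ ^ 2) ^ k / (k.factorial : ℝ) := by
  unfold hpex_co
  rw [norm_div, norm_pow, Complex.norm_real, Real.norm_eq_abs,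
    abs_neg, abs_of_nonneg (by positivity), Complex.norm_natCast]

theorem hpex_exp (z : ℂ) : HasSum (fun k : ℕ => z ^ k / (k.factorial : ℂ)) (Complex.exp z) := by
  rw [Complex.exp_eq_exp_ℂ]
  exact NormedSpace.expSeries_div_hasSum_exp z

theorem hpex_ex_norm (b : ℝ) : ‖ex b‖ = 1 := by
  unfold ex
  rw [Complex.norm_exp_ofReal_mul_I]

theorem hpex_cont_exp (v : ℝ) : Continuous fun τ : ℝ => Complex.exp (-(π * zt τ * (v : ℂ))) := by
  have h := continuous_zt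
  fun_prop

theorem hpex_cont_gg (t : ℝ) : Continuous fun τ : ℝ => gg τ t := by
  have h1 : Continuous fun τ : ℝ => ((τ, t) : ℝ × ℝ) := continuous_id.prodMk continuous_const
  have h2 := continuous_gg.comp h1
  exact h2

/-- the series for the integral over the frequency variable -/
theorem hpex_ps (ρ R : ℝ) (hR : 1 ≤ R) (t v v' r : ℝ) (hv : v = v' + ρ ^ 2 * r) :
    HasSum (fun k : ℕ => hpex_co ρ R k * (r : ℂ) ^ k *
        ∫ τ in R..(2 * R), pw R k τ * gg τ t * Complex.exp (-(π * zt τ * (v' : ℂ))))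
      (∫ τ in R..(2 * R), one τ * gg τ t * Complex.exp (-(π * zt τ * (v : ℂ)))) := by
  have hR0' : 0 < R := lt_of_lt_of_le one_pos hR
  set F : ℕ → ℝ → ℂ := fun k τ => hpex_co ρ R k * (r : ℂ) ^ k *
    (pw R k τ * gg τ t * Complex.exp (-(π * zt τ * (v' : ℂ)))) with hF
  have hFz : ∀ k τ, F k τ = (-(π * zt τ * ((ρ ^ 2 * r : ℝ) : ℂ))) ^ k /
      (k.factorial : ℂ) * (gg τ t * Complex.exp (-(π * zt τ * (v' : ℂ)))) := by
    intro k τ
    show hpex_co ρ R k * (r : ℂ) ^ k *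
      (pw R k τ * gg τ t * Complex.exp (-(π * zt τ * (v' : ℂ)))) = _
    unfold hpex_co pw
    have hR2 : (R : ℂ) ≠ 0 := by exact_mod_cast hR0'.ne'
    have e1 : -(π * zt τ * ((ρ ^ 2 * r : ℝ) : ℂ)) =
        ((-(5 * π * R * ρ ^ 2) : ℝ) : ℂ) * (r : ℂ) * (zt τ / ((5 * R : ℝ) : ℂ)) := by
      push_cast
      field_simp
    rw [e1, mul_pow, mul_pow]
    ring
  have hsum : ∀ τ, HasSum (fun k => F k τ)
      (one τ * gg τ t * Complex.exp (-(π * zt τ * (v : ℂ)))) := by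
    intro τ
    have h1 := (hpex_exp (-(π * zt τ * ((ρ ^ 2 * r : ℝ) : ℂ)))).mul_right
      (gg τ t * Complex.exp (-(π * zt τ * (v' : ℂ))))
    have e3 : one τ * gg τ t * Complex.exp (-(π * zt τ * (v : ℂ))) =
        Complex.exp (-(π * zt τ * ((ρ ^ 2 * r : ℝ) : ℂ))) *
        (gg τ t * Complex.exp (-(π * zt τ * (v' : ℂ)))) := by
      have e4 : Complex.exp (-(π * zt τ * (v : ℂ))) =
          Complex.exp (-(π * zt τ * ((ρ ^ 2 * r : ℝ) : ℂ))) *
            Complex.exp (-(π * zt τ * (v' : ℂ))) := by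
        rw [← Complex.exp_add, hv]
        congr 1
        push_cast
        ring
      rw [e4]
      unfold one
      ring
    rw [e3]
    simpa only [hFz] using h1
  have hbd : ∀ k τ, τ ∈ Set.uIoc R (2 * R) → ‖F k τ‖ ≤
      (5 * π * R * ρ ^ 2 * |r|) ^ k / (k.factorial : ℝ) * Real.exp (-(π * v')) := by
    intro k τ hτ
    rw [Set.uIoc_of_le (by linarith)] at hτ
    show ‖hpex_co ρ R k * (r : ℂ) ^ k *
      (pw R k τ * gg τ t * Complex.exp (-(π * zt τ * (v' : ℂ))))‖ ≤ _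
    rw [norm_mul, norm_mul, norm_mul, norm_mul, hpex_norm_co ρ R hR0'.le, norm_exp_zt, norm_pow,
      Complex.norm_real, Real.norm_eq_abs]
    have h1 : ‖pw R k τ‖ ≤ 1 := norm_pw_le R hR k τ ⟨hτ.1.le, hτ.2⟩
    have h2 : ‖gg τ t‖ ≤ 1 := norm_gg_le_one τ t
    have h3 : ‖pw R k τ‖ * ‖gg τ t‖ ≤ 1 * 1 :=
      mul_le_mul h1 h2 (norm_nonneg _) zero_le_one
    calc (5 * π * R * ρ ^ 2) ^ k / (k.factorial : ℝ) * |r| ^ k *
          (‖pw R k τ‖ * ‖gg τ t‖ * Real.exp (-(π * v')))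
        ≤ (5 * π * R * ρ ^ 2) ^ k / (k.factorial : ℝ) * |r| ^ k *
          (1 * 1 * Real.exp (-(π * v'))) := by gcongr
      _ = (5 * π * R * ρ ^ 2 * |r|) ^ k / (k.factorial : ℝ) * Real.exp (-(π * v')) := by
          rw [mul_pow (5 * π * R * ρ ^ 2)]
          ring
  have h2 := intervalIntegral.hasSum_integral_of_dominated_convergence (μ := volume) (a := R)
    (b := 2 * R) (F := F)
    (f := fun τ => one τ * gg τ t * Complex.exp (-(π * zt τ * (v : ℂ))))
    (fun k _ => (5 * π * R * ρ ^ 2 * |r|) ^ k / (k.factorial : ℝ) * Real.exp (-(π * v')))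
    (fun k => ?_) (fun k => Filter.Eventually.of_forall fun τ hτ => hbd k τ hτ)
    (Filter.Eventually.of_forall fun τ _ => (Real.summable_pow_div_factorial _).mul_right _)
    intervalIntegrable_const (Filter.Eventually.of_forall fun τ _ => hsum τ)
  · have e4 : ∀ k, ∫ τ in R..(2 * R), F k τ =
        hpex_co ρ R k * (r : ℂ) ^ k *
          ∫ τ in R..(2 * R), pw R k τ * gg τ t * Complex.exp (-(π * zt τ * (v' : ℂ))) :=
      fun k => intervalIntegral.integral_const_mul _ _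
    simpa only [e4] using h2
  · have hc : Continuous (F k) :=
      continuous_const.mul (((continuous_pw R k).mul (hpex_cont_gg t)).mul (hpex_cont_exp v'))
    exact hc.aestronglyMeasurable

/-- the linear form in the difference of the parameters -/
noncomputable def hpex_rho {m : ℕ} (ρ : ℝ) (D : Fin m → ℝ) (w : E m) : ℝ :=
  ∑ i, D i * (w i ^ 2 / ρ ^ 2)

theorem hpex_rho_cont {m : ℕ} (ρ : ℝ) (D : Fin m → ℝ) : Continuous (hpex_rho ρ D) := by
  unfold hpex_rho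
  fun_prop

theorem hpex_u_le {m : ℕ} (ρ : ℝ) (hρ : 1 ≤ ρ) (w : E m) (hw : ∀ i, |w i| ≤ ρ) (i : Fin m) :
    |w i ^ 2 / ρ ^ 2| ≤ 1 := by
  have h0 : 0 < ρ := lt_of_lt_of_le one_pos hρ
  rw [abs_div, abs_of_pos (by positivity : 0 < ρ ^ 2), div_le_one (by positivity), abs_pow]
  exact pow_le_pow_left₀ (abs_nonneg _) (hw i) 2

theorem hpex_rho_le {m : ℕ} (ρ R : ℝ) (hρ : 1 ≤ ρ) (hR : 1 ≤ R) (D : Fin m → ℝ)
    (hD : ∀ i, |D i| ≤ 2 / R) (w : E m) (hw : ∀ i, |w i| ≤ ρ) :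
    |hpex_rho ρ D w| ≤ 2 * (m : ℝ) / R := by
  unfold hpex_rho
  refine (Finset.abs_sum_le_sum_abs _ _).trans ?_
  calc ∑ i, |D i * (w i ^ 2 / ρ ^ 2)| ≤ ∑ _i : Fin m, 2 / R := by
        refine Finset.sum_le_sum fun i _ => ?_
        rw [abs_mul]
        calc |D i| * |w i ^ 2 / ρ ^ 2| ≤ (2 / R) * 1 :=
              mul_le_mul (hD i) (hpex_u_le ρ hρ w hw i) (abs_nonneg _) (by positivity)
          _ = 2 / R := mul_one _
    _ = 2 * (m : ℝ) / R := by
        rw [Finset.sum_const, Finset.card_univ, Fintype.card_fin, nsmul_eq_mul]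
        ring

theorem hpex_ql {m : ℕ} (ρ : ℝ) (hρ : 1 ≤ ρ) (l l' : Fin m → ℝ) (c : ℝ) (w : E m) :
    ql l w - c = (ql l' w - c) + ρ ^ 2 * hpex_rho ρ (fun i => l i - l' i) w := by
  have h0 : ρ ≠ 0 := (lt_of_lt_of_le one_pos hρ).ne'
  unfold hpex_rho ql
  rw [Finset.mul_sum]
  have e1 : ∑ i, l i * w i ^ 2 = (∑ i, l' i * w i ^ 2) +
      ∑ i, ρ ^ 2 * ((l i - l' i) * (w i ^ 2 / ρ ^ 2)) := by
    rw [← Finset.sum_add_distrib]
    refine Finset.sum_congr rfl fun i _ => ?_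
    field_simp
    ring
  rw [e1]
  ring

/-- the cube -/
def hpex_cube (m : ℕ) (ρ : ℝ) : Set (E m) := {w | ∀ i, |w i| ≤ ρ}

theorem hpex_cube_closed (m : ℕ) (ρ : ℝ) : IsClosed (hpex_cube m ρ) := by
  have h : hpex_cube m ρ = ⋂ i, {w : E m | |w i| ≤ ρ} := by
    ext w
    simp [hpex_cube]
  rw [h]
  refine isClosed_iInter fun i => ?_
  refine isClosed_le ?_ continuous_const
  fun_prop

theorem hpex_cube_fin (m : ℕ) (ρ : ℝ) : volume (hpex_cube m ρ) < ⊤ := by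
  have h : hpex_cube m ρ ⊆ Metric.closedBall (0 : E m) (√(m * ρ ^ 2)) := by
    intro w hw
    rw [mem_closedBall_zero_iff, EuclideanSpace.norm_eq]
    refine Real.sqrt_le_sqrt ?_
    calc ∑ i, ‖w i‖ ^ 2 ≤ ∑ _i : Fin m, ρ ^ 2 :=
          Finset.sum_le_sum fun i _ => pow_le_pow_left₀ (norm_nonneg _) (hw i) 2
      _ = m * ρ ^ 2 := by
          rw [Finset.sum_const, Finset.card_univ, Fintype.card_fin, nsmul_eq_mul]
  exact (measure_mono h).trans_lt measure_closedBall_lt_top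

theorem hpex_ind (m : ℕ) (ρ B : ℝ) :
    Integrable (fun w : E m => (hpex_cube m ρ).indicator (fun _ => B) w) := by
  have h := (integrable_indicator_iff (f := fun _ : E m => B) (μ := volume)
    (hpex_cube_closed m ρ).measurableSet).2 (integrableOn_const (hpex_cube_fin m ρ).ne)
  exact h

/-- bound of the exponential on the cube -/
noncomputable def hpex_bl {m : ℕ} (ρ : ℝ) (l : (Fin m → ℝ) × ℝ) : ℝ :=
  Real.exp (π * ((∑ i, |l.1 i| * ρ ^ 2) + |l.2|))

theorem hpex_exp_le {m : ℕ} (ρ : ℝ) (l : (Fin m → ℝ) × ℝ) (w : E m) (hw : ∀ i, |w i| ≤ ρ) :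
    Real.exp (-(π * (ql l.1 w - l.2))) ≤ hpex_bl ρ l := by
  unfold hpex_bl
  refine Real.exp_le_exp.2 ?_
  rw [← mul_neg]
  refine mul_le_mul_of_nonneg_left ?_ Real.pi_pos.le
  have h1 : -(∑ i, |l.1 i| * ρ ^ 2) ≤ ql l.1 w := by
    unfold ql
    rw [← Finset.sum_neg_distrib]
    refine Finset.sum_le_sum fun i _ => ?_
    have h2 : w i ^ 2 ≤ ρ ^ 2 := by
      rw [← sq_abs (w i)]
      exact pow_le_pow_left₀ (abs_nonneg _) (hw i) 2
    have h3 : |l.1 i| * w i ^ 2 ≤ |l.1 i| * ρ ^ 2 :=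
      mul_le_mul_of_nonneg_left h2 (abs_nonneg _)
    have h4 : -|l.1 i| * w i ^ 2 ≤ l.1 i * w i ^ 2 :=
      mul_le_mul_of_nonneg_right (neg_abs_le _) (sq_nonneg _)
    linarith
  have h5 := le_abs_self l.2
  linarith

/-- integrability of the pieces -/
theorem hpex_bd {m : ℕ} (ρ R : ℝ) (hR : 1 ≤ R) (k : ℕ) (l : (Fin m → ℝ) × ℝ) (t : ℝ)
    (H : E m → ℂ) (hb : ∀ w, ‖H w‖ ≤ 1) (y w : E m) :
    ‖H w * am ρ (pw R k) R (2 * R) l t w * ex (inner ℝ w y)‖ ≤
      (hpex_cube m ρ).indicator (fun _ => R * hpex_bl ρ l) w := by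
  have hR' : 0 < R := lt_of_lt_of_le one_pos hR
  have hbl : 0 ≤ hpex_bl ρ l := (Real.exp_pos _).le
  rw [norm_mul, hpex_ex_norm, mul_one, norm_mul]
  by_cases hw : ∀ i, |w i| ≤ ρ
  · have hw' : w ∈ hpex_cube m ρ := hw
    rw [indicator_of_mem hw']
    have h1 := norm_am_le ρ (pw R k) R (2 * R) (by linarith)
      (fun τ hτ => norm_pw_le R hR k τ hτ) l t w
    have h2 : (2 * R - R) * Real.exp (-(π * (ql l.1 w - l.2))) ≤ R * hpex_bl ρ l :=
      mul_le_mul (by linarith) (hpex_exp_le ρ l w hw) (Real.exp_pos _).le hR'.le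
    calc ‖H w‖ * ‖am ρ (pw R k) R (2 * R) l t w‖ ≤ 1 * (R * hpex_bl ρ l) :=
          mul_le_mul (hb w) (h1.trans h2) (norm_nonneg _) zero_le_one
      _ = R * hpex_bl ρ l := one_mul _
  · rw [am_zero ρ _ _ _ l t w hw, norm_zero, mul_zero]
    exact indicator_nonneg (fun _ _ => mul_nonneg hR'.le hbl) w

theorem hpex_meas {m : ℕ} (ρ R : ℝ) (k : ℕ) (l : (Fin m → ℝ) × ℝ) (t : ℝ) (H : E m → ℂ)
    (hH : Measurable H) (y : E m) : Measurable fun w : E m =>
      H w * am ρ (pw R k) R (2 * R) l t w * ex (inner ℝ w y) := by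
  have h1 : Measurable fun w : E m => am ρ (pw R k) R (2 * R) l t w :=
    (measurable_am (m := m) ρ (pw R k) (continuous_pw R k) R (2 * R)).comp
      (measurable_prodMk_left (x := (l, t)))
  have h2 : Measurable fun w : E m => ex (inner ℝ w y) :=
    hkf_cont_ex.measurable.comp (measurable_id.inner measurable_const)
  exact (hH.mul h1).mul h2

theorem hpex_int {m : ℕ} (ρ R : ℝ) (hR : 1 ≤ R) (k : ℕ) (l : (Fin m → ℝ) × ℝ) (t : ℝ)
    (H : E m → ℂ) (hH : Measurable H) (hb : ∀ w, ‖H w‖ ≤ 1) (y : E m) :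
    Integrable fun w : E m => H w * am ρ (pw R k) R (2 * R) l t w * ex (inner ℝ w y) :=
  (hpex_ind m ρ (R * hpex_bl ρ l)).mono' (hpex_meas ρ R k l t H hH y).aestronglyMeasurable
    (Filter.Eventually.of_forall fun w => hpex_bd ρ R hR k l t H hb y w)

/-- the term of order `k` -/
theorem hpex_term {m : ℕ} (ρ R : ℝ) (hρ : 1 ≤ ρ) (hR : 1 ≤ R) (G : E m → ℂ) (hG : Measurable G)
    (hb : ∀ w, ‖G w‖ ≤ 1) (D : Fin m → ℝ) (l' : Fin m → ℝ) (c t : ℝ) (y : E m) (k : ℕ) :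
    ∫ w : E m, (hpex_co ρ R k * (hpex_rho ρ D w : ℂ) ^ k) *
      (G w * am ρ (pw R k) R (2 * R) (l', c) t w * ex (inner ℝ w y)) =
    ∑ s : Fin k → Fin m, (hpex_co ρ R k * ((∏ r, D (s r) : ℝ) : ℂ)) *
      op ρ (pw R k) R (2 * R) (l', c) t (Gs ρ G k s) y := by
  have hρ' : 0 < ρ := lt_of_lt_of_le one_pos hρ
  have h1 : ∀ w : E m, (hpex_co ρ R k * (hpex_rho ρ D w : ℂ) ^ k) *
      (G w * am ρ (pw R k) R (2 * R) (l', c) t w * ex (inner ℝ w y)) =
      ∑ s : Fin k → Fin m, (hpex_co ρ R k * ((∏ r, D (s r) : ℝ) : ℂ)) *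
        (Gs ρ G k s w * am ρ (pw R k) R (2 * R) (l', c) t w * ex (inner ℝ w y)) := by
    intro w
    by_cases hw : ∀ i, |w i| ≤ ρ
    · have e1 : (hpex_rho ρ D w : ℂ) ^ k = ∑ s : Fin k → Fin m,
          ((∏ r, D (s r) : ℝ) : ℂ) * ((∏ r, (w (s r) ^ 2 / ρ ^ 2) : ℝ) : ℂ) := by
        rw [← Complex.ofReal_pow]
        unfold hpex_rho
        rw [Fintype.sum_pow, Complex.ofReal_sum]
        refine Finset.sum_congr rfl fun s _ => ?_
        rw [Finset.prod_mul_distrib, Complex.ofReal_mul]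
      rw [e1, Finset.mul_sum, Finset.sum_mul]
      refine Finset.sum_congr rfl fun s _ => ?_
      unfold Gs
      rw [if_pos hw]
      ring
    · have e2 : am ρ (pw R k) R (2 * R) (l', c) t w = 0 := am_zero ρ _ _ _ _ t w hw
      simp only [e2, mul_zero, zero_mul, Finset.sum_const_zero]
  simp only [h1]
  rw [integral_finsetSum]
  · refine Finset.sum_congr rfl fun s _ => ?_
    rw [integral_const_mul]
    rfl
  · intro s _
    exact (hpex_int ρ R hR k (l', c) t (Gs ρ G k s) (measurable_Gs ρ G hG k s)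
      (fun w => norm_Gs_le ρ hρ' G hb k s w) y).const_mul _

/-- the power series of the operator -/
theorem hpex_hasSum {m : ℕ} (ρ R : ℝ) (hρ : 1 ≤ ρ) (hR : 1 ≤ R) (G : E m → ℂ)
    (hG : Measurable G) (hb : ∀ w, ‖G w‖ ≤ 1) (l l' : Fin m → ℝ)
    (hl : ∀ i, |l i - l' i| ≤ 2 / R) (c t : ℝ) (y : E m) :
    HasSum (fun k : ℕ => ∫ w : E m, (hpex_co ρ R k *
        (hpex_rho ρ (fun i => l i - l' i) w : ℂ) ^ k) *
      (G w * am ρ (pw R k) R (2 * R) (l', c) t w * ex (inner ℝ w y)))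
      (op ρ one R (2 * R) (l, c) t G y) := by
  have hR' : 0 < R := lt_of_lt_of_le one_pos hR
  have hρ' : 0 < ρ := lt_of_lt_of_le one_pos hρ
  set D : Fin m → ℝ := fun i => l i - l' i with hD
  set F : ℕ → E m → ℂ := fun k w => (hpex_co ρ R k * (hpex_rho ρ D w : ℂ) ^ k) *
    (G w * am ρ (pw R k) R (2 * R) (l', c) t w * ex (inner ℝ w y)) with hF
  set B : ℕ → ℝ := fun k => (10 * π * ρ ^ 2 * (m : ℝ)) ^ k / (k.factorial : ℝ) with hB
  have hBs : Summable B := Real.summable_pow_div_factorial _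
  have hB0 : ∀ k, 0 ≤ B k := fun k => by
    show 0 ≤ (10 * π * ρ ^ 2 * (m : ℝ)) ^ k / (k.factorial : ℝ)
    positivity
  have hbl : 0 ≤ hpex_bl ρ (l', c) := (Real.exp_pos _).le
  unfold op
  refine hasSum_integral_of_dominated_convergence (F := F)
    (fun k w => B k * (hpex_cube m ρ).indicator (fun _ => R * hpex_bl ρ (l', c)) w)
    (fun k => ?_) (fun k => Filter.Eventually.of_forall fun w => ?_)
    (Filter.Eventually.of_forall fun w => ?_) ?_ (Filter.Eventually.of_forall fun w => ?_)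
  · have h1 : Measurable fun w : E m => hpex_co ρ R k * (hpex_rho ρ D w : ℂ) ^ k :=
      ((Complex.measurable_ofReal.comp (hpex_rho_cont ρ D).measurable).pow_const k).const_mul _
    exact (h1.mul (hpex_meas ρ R k (l', c) t G hG y)).aestronglyMeasurable
  · show ‖(hpex_co ρ R k * (hpex_rho ρ D w : ℂ) ^ k) *
      (G w * am ρ (pw R k) R (2 * R) (l', c) t w * ex (inner ℝ w y))‖ ≤ _
    rw [norm_mul]
    have h2 := hpex_bd ρ R hR k (l', c) t G hb y w
    by_cases hw : ∀ i, |w i| ≤ ρ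
    · have h1 : ‖hpex_co ρ R k * (hpex_rho ρ D w : ℂ) ^ k‖ ≤ B k := by
        rw [norm_mul, norm_pow, hpex_norm_co ρ R hR'.le, Complex.norm_real, Real.norm_eq_abs]
        have h3 := hpex_rho_le ρ R hρ hR D hl w hw
        calc (5 * π * R * ρ ^ 2) ^ k / (k.factorial : ℝ) * |hpex_rho ρ D w| ^ k
            ≤ (5 * π * R * ρ ^ 2) ^ k / (k.factorial : ℝ) * (2 * (m : ℝ) / R) ^ k := by gcongr
          _ = B k := by
              show _ = (10 * π * ρ ^ 2 * (m : ℝ)) ^ k / (k.factorial : ℝ)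
              rw [div_mul_eq_mul_div, ← mul_pow]
              congr 2
              field_simp
              ring
      exact mul_le_mul h1 h2 (norm_nonneg _) (hB0 k)
    · have e2 : am ρ (pw R k) R (2 * R) (l', c) t w = 0 := am_zero ρ _ _ _ _ t w hw
      rw [e2, mul_zero, zero_mul, norm_zero, mul_zero]
      exact mul_nonneg (hB0 k) (indicator_nonneg (fun _ _ => mul_nonneg hR'.le hbl) w)
  · exact hBs.mul_right _
  · simp only [tsum_mul_right]
    exact (hpex_ind m ρ (R * hpex_bl ρ (l', c))).const_mul _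
  · show HasSum (fun k => (hpex_co ρ R k * (hpex_rho ρ D w : ℂ) ^ k) *
      (G w * am ρ (pw R k) R (2 * R) (l', c) t w * ex (inner ℝ w y)))
      (G w * am ρ one R (2 * R) (l, c) t w * ex (inner ℝ w y))
    by_cases hw : ∀ i, |w i| ≤ ρ
    · have h1 := hpex_ps ρ R hR t (ql l w - c) (ql l' w - c) (hpex_rho ρ D w)
        (hpex_ql ρ hρ l l' c w)
      have h2 := h1.mul_left (G w * ex (inner ℝ w y))
      unfold am
      simp only [if_pos hw]
      have e3 : (G w * ex (inner ℝ w y)) *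
          (∫ τ in R..(2 * R), one τ * gg τ t *
            Complex.exp (-(π * zt τ * ((ql l w - c : ℝ) : ℂ)))) =
          G w * (∫ τ in R..(2 * R), one τ * gg τ t *
            Complex.exp (-(π * zt τ * ((ql l w - c : ℝ) : ℂ)))) * ex (inner ℝ w y) := by ring
      rw [e3] at h2
      refine h2.congr_fun ?_
      intro k
      ring
    · unfold am
      simp only [if_neg hw, mul_zero, zero_mul]
      exact hasSum_zero

/-
ROW PE (1 h). Power series in the change of the quadratic form (copy of Pool.Agent.AEE.XE op_expand, adapt). D = l - l', |D i| ≤ 2/R: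
exp(-π zt τ (ql l w - c)) = exp(-π zt τ (ql l' w - c)) Σ_k (-π zt τ ql D w)^k / k!, and for w in the cube, u_i = w_i²/ρ² (0 ≤ u_i ≤ 1):
(-π zt τ ql D w)^k = (-π · 5R · ρ²)^k (zt τ/(5R))^k (Σ_i D_i u_i)^k, (Σ_i D_i u_i)^k = Σ_{s : Fin k → Fin m} Π_r D_(s r) u_(s r). Interchange the series with the interval integral
over τ and with the integral over w exactly as in XE (terms bounded by (10 π ρ² m)^k / k! times a fixed bound: on the cube everything is bounded; ‖zt τ/(5R)‖ ≤ 1).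
Norms: (π 5 R ρ²)^k/k! · (2/R)^k = (10 π ρ²)^k / k!. Here one is the constant weight 1.
-/
theorem op_expand {m : ℕ} (ρ R : ℝ) (hρ : 1 ≤ ρ) (hR : 1 ≤ R) (G : E m → ℂ) (hG : Measurable G)
    (hb : ∀ w, ‖G w‖ ≤ 1) (l l' : Fin m → ℝ) (hl : ∀ i, |l i - l' i| ≤ 2 / R) (c t : ℝ) (y : E m) :
    ‖op ρ one R (2 * R) (l, c) t G y‖ₑ ≤
      ∑' k : ℕ, ENNReal.ofReal ((10 * π * ρ ^ 2) ^ k / (k.factorial : ℝ)) *
        ∑ s : Fin k → Fin m, ‖op ρ (pw R k) R (2 * R) (l', c) t (Gs ρ G k s) y‖ₑ := by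
  have hR' : 0 < R := lt_of_lt_of_le one_pos hR
  have h1 := hpex_hasSum ρ R hρ hR G hG hb l l' hl c t y
  rw [← h1.tsum_eq]
  refine enorm_tsum_le_tsum_enorm.trans (ENNReal.tsum_le_tsum fun k => ?_)
  rw [hpex_term ρ R hρ hR G hG hb, Finset.mul_sum]
  refine (enorm_sum_le _ _).trans (Finset.sum_le_sum fun s _ => ?_)
  rw [enorm_mul]
  refine mul_le_mul_left ?_ _
  rw [← ofReal_norm]
  refine ENNReal.ofReal_le_ofReal ?_
  rw [norm_mul, hpex_norm_co ρ R hR'.le, Complex.norm_real, Real.norm_eq_abs, Finset.abs_prod]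
  have h2 : ∏ r : Fin k, |l (s r) - l' (s r)| ≤ (2 / R) ^ k := by
    calc ∏ r : Fin k, |l (s r) - l' (s r)| ≤ ∏ _r : Fin k, 2 / R :=
          Finset.prod_le_prod (fun r _ => abs_nonneg _) fun r _ => hl _
      _ = (2 / R) ^ k := by rw [Finset.prod_const, Finset.card_univ, Fintype.card_fin]
  calc (5 * π * R * ρ ^ 2) ^ k / (k.factorial : ℝ) *
        ∏ r : Fin k, |l (s r) - l' (s r)|
      ≤ (5 * π * R * ρ ^ 2) ^ k / (k.factorial : ℝ) * (2 / R) ^ k := by gcongr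
    _ = (10 * π * ρ ^ 2) ^ k / (k.factorial : ℝ) := by
        rw [div_mul_eq_mul_div, ← mul_pow]
        congr 2
        field_simp
        ring

end Pool.Agent.AXD
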