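import Pool.Agent.AXD.Defs

namespace Pool.Agent.AXD

open MeasureTheory Set Pool.Agent.MP_6cbfb8_an Pool.Agent.MST
open scoped ENNReal Real

/-! ### reflection in the last coordinate -/

/-- reflection in the last coordinate. -/
noncomputable def hphx_R (n : ℕ) : E (n + 1) ≃ₗᵢ[ℝ] E (n + 1) :=
  LinearIsometryEquiv.piLpCongrRight 2
    (fun i : Fin (n + 1) => if i = Fin.last n then LinearIsometryEquiv.neg ℝ
      else LinearIsometryEquiv.refl ℝ ℝ)

lemma hphx_R_last {n : ℕ} (x : E (n + 1)) : hphx_R n x (Fin.last n) = - x (Fin.last n) := by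
  simp [hphx_R]

lemma hphx_R_cast {n : ℕ} (x : E (n + 1)) (i : Fin n) :
    hphx_R n x i.castSucc = x i.castSucc := by
  have h : i.castSucc ≠ Fin.last n := (Fin.castSucc_lt_last i).ne
  simp only [hphx_R, LinearIsometryEquiv.piLpCongrRight_apply]
  rw [if_neg h]
  rfl

lemma hphx_R_join {n : ℕ} (X : E n) (t : ℝ) : hphx_R n (join X t) = join X (-t) := by
  ext i
  refine Fin.lastCases ?_ (fun j => ?_) i
  · rw [hphx_R_last, join_last, join_last]
  · rw [hphx_R_cast, join_castSucc, join_castSucc]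

lemma hphx_null (n : ℕ) :
    (sm (n + 2)) {x : S (n + 2) | (x : E (n + 2)) (Fin.last (n + 1)) = 0} = 0 := by
  have hm : MeasurableSet {x : E (n + 2) | x (Fin.last (n + 1)) = 0} :=
    measurableSet_eq_fun (by fun_prop) measurable_const
  have h := lintegral_slice n ({x : E (n + 2) | x (Fin.last (n + 1)) = 0}.indicator 1)
    (measurable_const.indicator hm)
  have h1 : ∫⁻ x : S (n + 2),
      ({x : E (n + 2) | x (Fin.last (n + 1)) = 0}.indicator (1 : E (n + 2) → ℝ≥0∞)) x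
        ∂(sm (n + 2)) = (sm (n + 2)) {x : S (n + 2) | (x : E (n + 2)) (Fin.last (n + 1)) = 0} := by
    have hm' : MeasurableSet {x : S (n + 2) | (x : E (n + 2)) (Fin.last (n + 1)) = 0} :=
      hm.preimage measurable_subtype_coe
    rw [← lintegral_indicator_one hm']
    rfl
  rw [← h1, h]
  rw [lintegral_eq_zero_iff']
  swap
  · refine Measurable.aemeasurable ?_
    refine Measurable.mul (by fun_prop) ?_
    have hm2 : Measurable fun q : ℝ × S (n + 1) =>
        ({x : E (n + 2) | x (Fin.last (n + 1)) = 0}.indicator (1 : E (n + 2) → ℝ≥0∞))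
          (pt q.1 (q.2 : E (n + 1))) := by
      refine (measurable_const.indicator hm).comp
        (measurable_pt.comp (f := fun q : ℝ × S (n + 1) => (q.1, (q.2 : E (n + 1)))) ?_)
      fun_prop
    exact hm2.lintegral_prod_right' (ν := sm (n + 1))
  have h2 : ∀ᵐ θ : ℝ ∂(volume.restrict (Ioo 0 π)), θ ≠ π / 2 := by
    refine ae_restrict_of_ae ?_
    rw [ae_iff]
    simp
  filter_upwards [h2, ae_restrict_mem measurableSet_Ioo] with θ hθ hθ'
  simp only [Pi.zero_apply]
  have h3 : ∀ ω : S (n + 1), ({x : E (n + 2) | x (Fin.last (n + 1)) = 0}.indicator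
      (1 : E (n + 2) → ℝ≥0∞)) (pt θ (ω : E (n + 1))) = 0 := by
    intro ω
    rw [indicator_of_notMem]
    simp only [mem_ofPred_eq]
    unfold pt
    rw [join_last]
    intro hc
    apply hθ
    exact (Real.injOn_cos.eq_iff ⟨hθ'.1.le, hθ'.2.le⟩ ⟨by positivity, by linarith [Real.pi_pos]⟩).mp
      (by rw [hc, Real.cos_pi_div_two])
  rw [lintegral_congr h3]
  simp

/-- a density which is symmetric in the last coordinate -/
lemma hphx_split (n : ℕ) (g : E (n + 2) → ℂ) (hg : Measurable g) (hb : ∀ x, ‖g x‖ ≤ 1)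
    (hR : ∀ x, g (hphx_R (n + 1) x) = g x) (X : E (n + 1)) (t : ℝ) :
    extn g (join X t) =
      extn (fun x : E (n + 2) => if 0 < x (Fin.last (n + 1)) then g x else 0) (join X t) +
      extn (fun x : E (n + 2) => if 0 < x (Fin.last (n + 1)) then g x else 0)
        (join X (-t)) := by
  set u : E (n + 2) → ℂ := fun x => if 0 < x (Fin.last (n + 1)) then g x else 0 with hu
  have hum : Measurable u :=
    Measurable.ite (measurableSet_lt measurable_const (by fun_prop)) hg measurable_const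
  have hub : ∀ x, ‖u x‖ ≤ 1 := by
    intro x
    rw [hu]
    simp only
    split_ifs
    · exact hb _
    · simp
  have hiso := extn_isometry u (hphx_R (n + 1)) (join X t)
  rw [← hphx_R_join, ← hiso]
  unfold extn
  have hphase : ∀ x : S (n + 2),
      ‖Complex.exp (((-(2 * π * inner ℝ (x : E (n + 2)) (join X t)) : ℝ) : ℂ) *
        Complex.I)‖ = 1 := fun x => Complex.norm_exp_ofReal_mul_I _
  have hem : Measurable fun x : S (n + 2) =>
      Complex.exp (((-(2 * π * inner ℝ (x : E (n + 2)) (join X t)) : ℝ) : ℂ) * Complex.I) := by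
    have : Measurable fun x : S (n + 2) => (inner ℝ (x : E (n + 2)) (join X t) : ℝ) := by
      have h4 : Measurable fun x : S (n + 2) => (x : E (n + 2)) := measurable_subtype_coe
      exact h4.inner measurable_const
    fun_prop
  rw [← integral_add]
  · refine integral_congr_ae ?_
    have hnull : ∀ᵐ x : S (n + 2) ∂(sm (n + 2)), (x : E (n + 2)) (Fin.last (n + 1)) ≠ 0 := by
      rw [ae_iff]
      simpa using hphx_null n
    filter_upwards [hnull] with x hx
    rw [← add_mul]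
    congr 1
    rw [hu]
    simp only
    rw [hphx_R_last, hR]
    rcases lt_or_gt_of_ne hx with h | h
    · rw [if_neg (by linarith), if_pos (by linarith), zero_add]
    · rw [if_pos h, if_neg (by linarith), add_zero]
  · refine Integrable.of_bound
      ((hum.comp measurable_subtype_coe).mul hem).aestronglyMeasurable 1
      (Filter.Eventually.of_forall fun x => ?_)
    rw [norm_mul, hphase, mul_one]
    exact hub _
  · refine Integrable.of_bound
      (((hum.comp (hphx_R (n + 1)).continuous.measurable).comp measurable_subtype_coe).mul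
        hem).aestronglyMeasurable 1 (Filter.Eventually.of_forall fun x => ?_)
    rw [norm_mul, hphase, mul_one]
    exact hub _

/-! ### diagonal substitution -/

/-- diagonal map of `Fin m → ℝ` -/
noncomputable def hphx_D {m : ℕ} (a : Fin m → ℝ) (ha : ∀ i, 0 < a i) :
    (Fin m → ℝ) ≃ᵐ (Fin m → ℝ) :=
  MeasurableEquiv.piCongrRight fun i => MeasurableEquiv.mulLeft₀ (a i) (ha i).ne'

lemma hphx_D_apply {m : ℕ} (a : Fin m → ℝ) (ha : ∀ i, 0 < a i) (v : Fin m → ℝ) :
    hphx_D a ha v = fun i => a i * v i := rfl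

lemma hphx_D_map {m : ℕ} (a : Fin m → ℝ) (ha : ∀ i, 0 < a i) :
    (volume : Measure (Fin m → ℝ)).map (hphx_D a ha) =
      ENNReal.ofReal (∏ i, a i)⁻¹ • (volume : Measure (Fin m → ℝ)) := by
  have hdet : (Matrix.diagonal a).det ≠ 0 := by
    rw [Matrix.det_diagonal]
    exact Finset.prod_ne_zero_iff.2 fun i _ => (ha i).ne'
  have h := Real.map_matrix_volume_pi_eq_smul_volume_pi hdet
  have h1 : (Matrix.toLin' (Matrix.diagonal a) : (Fin m → ℝ) → (Fin m → ℝ)) = hphx_D a ha := by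
    funext v
    rw [Matrix.toLin'_apply, hphx_D_apply]
    funext i
    rw [Matrix.mulVec_diagonal]
  rw [h1] at h
  rw [h, Matrix.det_diagonal, abs_of_pos (inv_pos.2 (Finset.prod_pos fun i _ => ha i))]

/-- diagonal map of `E m` -/
noncomputable def hphx_DE {m : ℕ} (a : Fin m → ℝ) (ha : ∀ i, 0 < a i) : E m ≃ᵐ E m :=
  ((MeasurableEquiv.toLp 2 (Fin m → ℝ)).symm.trans (hphx_D a ha)).trans
    (MeasurableEquiv.toLp 2 (Fin m → ℝ))

lemma hphx_DE_apply {m : ℕ} (a : Fin m → ℝ) (ha : ∀ i, 0 < a i) (v : E m) :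
    hphx_DE a ha v = WithLp.toLp 2 fun i => a i * v i := rfl

lemma hphx_DE_map {m : ℕ} (a : Fin m → ℝ) (ha : ∀ i, 0 < a i) :
    (volume : Measure (E m)).map (hphx_DE a ha) =
      ENNReal.ofReal (∏ i, a i)⁻¹ • (volume : Measure (E m)) := by
  have h1 := PiLp.volume_preserving_toLp (Fin m)
  have h2 := PiLp.volume_preserving_ofLp (Fin m)
  have e : (hphx_DE a ha : E m → E m) = (WithLp.toLp 2) ∘ ((hphx_D a ha) ∘ WithLp.ofLp) := rfl
  rw [e, ← Measure.map_map h1.measurable ((hphx_D a ha).measurable.comp h2.measurable),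
    ← Measure.map_map (hphx_D a ha).measurable h2.measurable, h2.map_eq, hphx_D_map,
    Measure.map_smul, h1.map_eq]

lemma hphx_int {m : ℕ} (a : Fin m → ℝ) (ha : ∀ i, 0 < a i) (φ : E m → ℂ) :
    ∫ u : E m, φ (WithLp.toLp 2 fun i => a i * u i) = (((∏ i, a i)⁻¹ : ℝ) : ℂ) * ∫ w, φ w := by
  have h := (hphx_DE a ha).measurableEmbedding.integral_map (μ := (volume : Measure (E m))) φ
  rw [hphx_DE_map, integral_smul_measure] at h
  have h1 : 0 ≤ (∏ i, a i)⁻¹ := (inv_pos.2 (Finset.prod_pos fun i _ => ha i)).le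
  rw [ENNReal.toReal_ofReal h1] at h
  simp only [hphx_DE_apply] at h
  rw [← h, Complex.real_smul]

lemma hphx_lint {m : ℕ} (a : Fin m → ℝ) (ha : ∀ i, 0 < a i) (φ : E m → ℝ≥0∞) :
    ∫⁻ u : E m, φ (WithLp.toLp 2 fun i => a i * u i) =
      ENNReal.ofReal (∏ i, a i)⁻¹ * ∫⁻ w, φ w := by
  have h := lintegral_map_equiv (μ := (volume : Measure (E m))) φ (hphx_DE a ha)
  rw [hphx_DE_map, lintegral_smul_measure] at h
  simp only [hphx_DE_apply] at h
  rw [← h, smul_eq_mul]

/-! ### the chart -/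

lemma hphx_dd_meas {m : ℕ} (a : Fin m → ℝ) (G : E m → ℂ) (hG : Measurable G) :
    Measurable (dd a G) := by
  unfold dd
  refine hG.comp ?_
  refine (WithLp.measurable_toLp 2 _).comp ?_
  exact measurable_pi_lambda _ fun i => by fun_prop

lemma hphx_dd_join {m : ℕ} (a : Fin m → ℝ) (G : E m → ℂ) (u : E m) (h : ℝ) :
    dd a G (join u h) = G (WithLp.toLp 2 fun i => a i * u i) := by
  unfold dd
  simp only [join_castSucc]

lemma hphx_ql {m : ℕ} (a : Fin m → ℝ) (ha : ∀ i, 0 < a i) (u : E m) :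
    ql (fun i => (a i ^ 2)⁻¹) (WithLp.toLp 2 fun i => a i * u i) = ‖u‖ ^ 2 := by
  unfold ql
  rw [EuclideanSpace.norm_sq_eq]
  refine Finset.sum_congr rfl fun i _ => ?_
  have h := (ha i).ne'
  rw [Real.norm_eq_abs, sq_abs]
  simp only
  field_simp

lemma hphx_inner {m : ℕ} (a : Fin m → ℝ) (ha : ∀ i, 0 < a i) (u X : E m) :
    inner ℝ (WithLp.toLp 2 fun i => a i * u i : E m) (WithLp.toLp 2 fun i => X i / a i : E m) =
      inner ℝ u X := by
  rw [PiLp.inner_apply, PiLp.inner_apply]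
  refine Finset.sum_congr rfl fun i _ => ?_
  have h := (ha i).ne'
  simp only [RCLike.inner_apply, conj_trivial]
  field_simp

lemma hphx_ex_add (x y : ℝ) : ex (x + y) = ex x * ex y := by
  unfold ex
  rw [← Complex.exp_add]
  congr 1
  push_cast
  ring

lemma hphx_ex_cos (x : ℝ) : ex x + ex (-x) = ((2 * Real.cos (2 * π * x) : ℝ) : ℂ) := by
  unfold ex
  push_cast
  rw [Complex.two_cos]
  rw [add_comm]
  congr 1
  · congr 1
    ring

/-
ROW PH (1.2 h). m = j + 1. hemi: `chart` (Pool.Agent.MST.CH) for the part x_n > 0 and, by the reflection of the last coordinate (it preserves sm; look for the reflection lemmas used for the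
lower hemisphere in Pool.Agent.MST (TR.lean) / Pool.Agent.AEL), for the part x_n < 0; the equator is a null set (see the same files). The density dd a G only depends on the first m coordinates
(join_castSucc or similar: (join u h) i.castSucc = u i). Sum: ex(A + B) + ex(A - B) = 2 cos(2πB) ex(A). So
extn (dd a G) (join X t) = ∫ over the ball of G(a u) 2 cos(2π t √(1-‖u‖²))/√(1-‖u‖²) ex⟨u, X⟩. Linear substitution w = a u (diagonal map on E m; determinant ∏ a i; e.g. through
Fin m → ℝ and Real.map_linearMap_volume_pi_eq_smul_volume_pi / integral_comp of a diagonal map, or MeasureTheory.Measure.integral_comp_smul coordinatewise): ‖u‖² = ql l w.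
hemi_fin: ∫⁻ ξ over E (j+2) = ∫⁻ t ∫⁻ X of join X t (lintegral_join or similar in Pool.Agent.MST/MP_6cbfb8_an), substitution X = a y.
-/
theorem hemi (j : ℕ) (a : Fin (j + 1) → ℝ) (ha : ∀ i, 0 < a i) (G : E (j + 1) → ℂ)
    (hG : Measurable G) (hb : ∀ w, ‖G w‖ ≤ 1) (X : E (j + 1)) (t : ℝ) :
    extn (dd a G) (join X t) = ((2 * (∏ i, a i)⁻¹ : ℝ) : ℂ) *
      EE (fun i => (a i ^ 2)⁻¹) G (WithLp.toLp 2 fun i => X i / a i) t := by
  have hdm := hphx_dd_meas a G hG
  have hdb : ∀ x, ‖dd a G x‖ ≤ 1 := fun x => hb _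
  have hdR : ∀ x, dd a G (hphx_R (j + 1) x) = dd a G x := by
    intro x
    unfold dd
    simp only [hphx_R_cast]
  rw [hphx_split j (dd a G) hdm hdb hdR X t, chart j (dd a G) hdm hdb X t,
    chart j (dd a G) hdm hdb X (-t)]
  set φ : E (j + 1) → ℂ := fun w => (if ql (fun i => (a i ^ 2)⁻¹) w < 1 then
    G w * ((Real.cos (2 * π * t * √(1 - ql (fun i => (a i ^ 2)⁻¹) w)) /
      √(1 - ql (fun i => (a i ^ 2)⁻¹) w) : ℝ) : ℂ) else 0) *
        ex (inner ℝ w (WithLp.toLp 2 fun i => X i / a i)) with hφ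
  have hEE : EE (fun i => (a i ^ 2)⁻¹) G (WithLp.toLp 2 fun i => X i / a i) t = ∫ w, φ w := rfl
  have hmain : ∀ s : ℝ, IntegrableOn (fun u : E (j + 1) => dd a G (join u √(1 - ‖u‖ ^ 2)) *
        ((1 / √(1 - ‖u‖ ^ 2) : ℝ) : ℂ) * ex (inner ℝ u X + √(1 - ‖u‖ ^ 2) * s))
        (Metric.ball (0 : E (j + 1)) 1) := by
    intro s
    have h1 := integrable_height j
    have hexm : Measurable ex := by
      unfold ex
      fun_prop
    have hm1 : Measurable fun u : E (j + 1) => dd a G (join u √(1 - ‖u‖ ^ 2)) :=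
      hdm.comp (hch_measurable_graph j)
    have hm2 : Measurable fun u : E (j + 1) => dd a G (join u √(1 - ‖u‖ ^ 2)) *
        ((1 / √(1 - ‖u‖ ^ 2) : ℝ) : ℂ) * ex (inner ℝ u X + √(1 - ‖u‖ ^ 2) * s) := by
      refine (hm1.mul (by fun_prop)).mul (hexm.comp ?_)
      fun_prop
    refine Integrable.mono' h1 hm2.aestronglyMeasurable (Filter.Eventually.of_forall fun u => ?_)
    have h2 : ‖ex (inner ℝ u X + √(1 - ‖u‖ ^ 2) * s)‖ = 1 := by
      unfold ex
      exact Complex.norm_exp_ofReal_mul_I _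
    have h3 : 0 ≤ 1 / √(1 - ‖u‖ ^ 2) := by positivity
    rw [norm_mul, h2, mul_one, norm_mul, Complex.norm_real, Real.norm_eq_abs, abs_of_nonneg h3]
    calc ‖dd a G (join u √(1 - ‖u‖ ^ 2))‖ * (1 / √(1 - ‖u‖ ^ 2)) ≤ 1 * (1 / √(1 - ‖u‖ ^ 2)) :=
          mul_le_mul_of_nonneg_right (hdb _) h3
      _ = 1 / √(1 - ‖u‖ ^ 2) := one_mul _
  rw [← integral_add (hmain t) (hmain (-t)), hEE]
  have hsum : ∫ u in Metric.ball (0 : E (j + 1)) 1,
      (dd a G (join u √(1 - ‖u‖ ^ 2)) * ((1 / √(1 - ‖u‖ ^ 2) : ℝ) : ℂ) *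
        ex (inner ℝ u X + √(1 - ‖u‖ ^ 2) * t) +
      dd a G (join u √(1 - ‖u‖ ^ 2)) * ((1 / √(1 - ‖u‖ ^ 2) : ℝ) : ℂ) *
        ex (inner ℝ u X + √(1 - ‖u‖ ^ 2) * (-t))) =
      ∫ u : E (j + 1), 2 * φ (WithLp.toLp 2 fun i => a i * u i) := by
    rw [← integral_indicator Metric.isOpen_ball.measurableSet]
    refine integral_congr_ae (Filter.Eventually.of_forall fun u => ?_)
    have hq := hphx_ql a ha u
    have hi := hphx_inner a ha u X
    have hmem : u ∈ Metric.ball (0 : E (j + 1)) 1 ↔ ‖u‖ ^ 2 < 1 := by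
      rw [mem_ball_zero_iff]
      constructor
      · intro h
        have := norm_nonneg u
        nlinarith
      · intro h
        have := norm_nonneg u
        nlinarith
    by_cases hu : ‖u‖ ^ 2 < 1
    · simp only
      rw [indicator_of_mem (hmem.2 hu), hφ]
      simp only
      rw [hq, hi, if_pos hu, hphx_dd_join]
      have e1 : inner ℝ u X + √(1 - ‖u‖ ^ 2) * (-t) = inner ℝ u X + (-(√(1 - ‖u‖ ^ 2) * t)) := by
        ring
      rw [e1, hphx_ex_add, hphx_ex_add]
      have e2 := hphx_ex_cos (√(1 - ‖u‖ ^ 2) * t)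
      have e3 : 2 * π * (√(1 - ‖u‖ ^ 2) * t) = 2 * π * t * √(1 - ‖u‖ ^ 2) := by ring
      rw [e3] at e2
      have e4 : ∀ A B C D D' : ℂ, A * B * (C * D) + A * B * (C * D') = A * B * C * (D + D') := by
        intros
        ring
      rw [e4, e2]
      push_cast
      ring
    · simp only
      rw [indicator_of_notMem (fun h => hu (hmem.1 h)), hφ]
      simp only
      rw [hq, if_neg hu, zero_mul, mul_zero]
  rw [hsum, integral_const_mul, hphx_int a ha φ]
  push_cast
  ring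

theorem hemi_fin (j : ℕ) (a : Fin (j + 1) → ℝ) (ha : ∀ i, 0 < a i) (G : E (j + 1) → ℂ)
    (hG : Measurable G) (hb : ∀ w, ‖G w‖ ≤ 1) (p : ℝ) (hp : 0 ≤ p)
    (h : ∫⁻ t, ∫⁻ y, ‖EE (fun i => (a i ^ 2)⁻¹) G y t‖ₑ ^ p < ∞) :
    ∫⁻ ξ, ‖extn (dd a G) ξ‖ₑ ^ p < ∞ := by
  have hdm := hphx_dd_meas a G hG
  have hem : Measurable (extn (dd a G)) := measurable_extn _ hdm
  set l : Fin (j + 1) → ℝ := fun i => (a i ^ 2)⁻¹ with hl
  set c : ℝ := 2 * (∏ i, a i)⁻¹ with hc
  have hprod : 0 < ∏ i, a i := Finset.prod_pos fun i _ => ha i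
  have hcpos : 0 < c := by positivity
  have ha' : ∀ i, 0 < (a i)⁻¹ := fun i => inv_pos.2 (ha i)
  -- EE in terms of the extension
  have hEEeq : ∀ (y : E (j + 1)) (t : ℝ), EE l G y t =
      ((c⁻¹ : ℝ) : ℂ) * extn (dd a G) (join (WithLp.toLp 2 fun i => a i * y i) t) := by
    intro y t
    rw [hemi j a ha G hG hb]
    have e1 : (WithLp.toLp 2 fun i => (WithLp.toLp 2 fun i => a i * y i : E (j + 1)) i / a i :
        E (j + 1)) = y := by
      ext i
      have := (ha i).ne'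
      simp only
      field_simp
    rw [e1, ← mul_assoc, ← Complex.ofReal_mul, inv_mul_cancel₀ hcpos.ne', Complex.ofReal_one,
      one_mul]
  have hEEm : Measurable fun q : E (j + 1) × ℝ => EE l G q.1 q.2 := by
    have e1 : (fun q : E (j + 1) × ℝ => EE l G q.1 q.2) = fun q : E (j + 1) × ℝ =>
        ((c⁻¹ : ℝ) : ℂ) * extn (dd a G) (join (WithLp.toLp 2 fun i => a i * q.1 i) q.2) := by
      funext q
      exact hEEeq q.1 q.2
    rw [e1]
    refine Measurable.const_mul (hem.comp (measurable_join.comp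
      (f := fun q : E (j + 1) × ℝ => ((WithLp.toLp 2 fun i => a i * q.1 i : E (j + 1)), q.2)) ?_)) _
    refine Measurable.prodMk ?_ measurable_snd
    refine (WithLp.measurable_toLp 2 _).comp ?_
    exact measurable_pi_lambda _ fun i => by fun_prop
  have hm2 : Measurable fun ξ : E (j + 2) => ‖extn (dd a G) ξ‖ₑ ^ p := hem.enorm.pow_const p
  rw [lintegral_join (j + 1) _ hm2]
  have e2 : ∀ (X : E (j + 1)) (t : ℝ), ‖extn (dd a G) (join X t)‖ₑ ^ p =
      ENNReal.ofReal c ^ p * ‖EE l G (WithLp.toLp 2 fun i => (a i)⁻¹ * X i) t‖ₑ ^ p := by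
    intro X t
    have e3 : (WithLp.toLp 2 fun i => X i / a i : E (j + 1)) =
        (WithLp.toLp 2 fun i => (a i)⁻¹ * X i : E (j + 1)) := by
      congr 1
      funext i
      rw [div_eq_inv_mul]
    have hce : ‖((c : ℝ) : ℂ)‖ₑ = ENNReal.ofReal c := by
      rw [← ofReal_norm, Complex.norm_real, Real.norm_of_nonneg hcpos.le]
    rw [hemi j a ha G hG hb X t, e3, enorm_mul, ENNReal.mul_rpow_of_nonneg _ _ hp, hce]
  simp only [e2]
  have hm3 : ∀ X : E (j + 1), Measurable fun t : ℝ =>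
      ‖EE l G (WithLp.toLp 2 fun i => (a i)⁻¹ * X i) t‖ₑ ^ p := fun X =>
    ((hEEm.comp (measurable_const.prodMk measurable_id)).enorm.pow_const p)
  have e4 : ∫⁻ X : E (j + 1), ∫⁻ t : ℝ, ENNReal.ofReal c ^ p *
      ‖EE l G (WithLp.toLp 2 fun i => (a i)⁻¹ * X i) t‖ₑ ^ p =
      ENNReal.ofReal c ^ p * ∫⁻ X : E (j + 1), ∫⁻ t : ℝ,
        ‖EE l G (WithLp.toLp 2 fun i => (a i)⁻¹ * X i) t‖ₑ ^ p := by
    have hcp : ENNReal.ofReal c ^ p ≠ ∞ := ENNReal.rpow_ne_top_of_nonneg hp ENNReal.ofReal_ne_top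
    rw [← lintegral_const_mul' _ _ hcp]
    refine lintegral_congr fun X => ?_
    rw [lintegral_const_mul' _ _ hcp]
  have e5 := hphx_lint (fun i => (a i)⁻¹) ha' (fun y => ∫⁻ t : ℝ, ‖EE l G y t‖ₑ ^ p)
  rw [e4, e5]
  have e6 : ∫⁻ y : E (j + 1), ∫⁻ t : ℝ, ‖EE l G y t‖ₑ ^ p =
      ∫⁻ t : ℝ, ∫⁻ y : E (j + 1), ‖EE l G y t‖ₑ ^ p :=
    lintegral_lintegral_swap (hEEm.enorm.pow_const p).aemeasurable
  rw [e6]
  exact ENNReal.mul_lt_top (ENNReal.rpow_lt_top_of_nonneg hp ENNReal.ofReal_ne_top)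
    (ENNReal.mul_lt_top ENNReal.ofReal_lt_top h)

end Pool.Agent.AXD
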