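import Pool.Agent.AXD.PB
import Pool.Agent.AXD.PH
import Pool.Agent.AEE.XG

namespace Pool.Agent.AXD

open MeasureTheory Set Pool.Agent.MP_6cbfb8_an Pool.Agent.MST
open scoped ENNReal NNReal Real

theorem hpf1x_meas {m : ℕ} (a : Fin m → ℝ) (G : E m → ℂ) (hG : Measurable G) :
    Measurable (dd a G) := by
  unfold dd
  refine hG.comp ?_
  have h1 : Continuous fun x : E (m + 1) => (WithLp.toLp 2 fun i => a i * x i.castSucc : E m) := by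
    fun_prop
  exact h1.measurable

theorem hpf1x_smooth (m : ℕ) : ContDiffOn ℝ 1 (fun l : Fin m → ℝ => fun i => (√(l i))⁻¹)
    {l | ∀ i, 0 < l i} := by
  rw [contDiffOn_pi]
  intro i
  have h1 : ContDiffOn ℝ 1 (fun l : Fin m → ℝ => l i) {l | ∀ i, 0 < l i} :=
    (contDiff_apply ℝ ℝ i).contDiffOn
  have h2 : ContDiffOn ℝ 1 (fun l : Fin m → ℝ => √(l i)) {l | ∀ i, 0 < l i} :=
    h1.sqrt fun l hl => (hl i).ne'
  exact h2.inv fun l hl => (Real.sqrt_pos.2 (hl i)).ne'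

theorem hpf1x_convex (m : ℕ) : Convex ℝ {l : Fin m → ℝ | ∀ i, 0 < l i} := by
  intro x hx y hy s t hs ht hst i
  show 0 < s * x i + t * y i
  have h1 := hx i
  have h2 := hy i
  rcases hs.lt_or_eq with h | h
  · have := mul_pos h h1
    have := mul_nonneg ht h2.le
    linarith
  · have h3 : t = 1 := by linarith
    rw [← h, h3]
    linarith

/-
ROW PF1 (0.8 h). For 2 < q < p, q < 4, max 2 (q-1)/(q-2) < d: if a_i > 0 and the q-th power integral of EE (a⁻²) G is finite, then (hemi_fin; m = j + 1) that of extn (dd a G) is, and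
hxf_cut (Pool.Agent.AEE.XF, n = m+1 ≥ 3) gives all N, v, c for p. So the set is contained in ⋃_j ψ '' {l | (∀ i, 1/(j+1) ≤ l i ∧ l i ≤ j+1) ∧ ∫∫ = ∞}, ψ l i = (√(l i))⁻¹, which is
Lipschitz on the box (LipschitzOnWith.dimH_image_le); dimH_iUnion, dim_l.
-/
theorem dim_pos {m : ℕ} (hm : 2 ≤ m) (q p : ℝ) (hq : 2 < q) (hq4 : q < 4) (hqp : q < p) (d : ℝ≥0)
    (hd : max 2 (q - 1) / (q - 2) < d) (G : E m → ℂ) (hG : Measurable G) (hb : ∀ w, ‖G w‖ ≤ 1) :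
    dimH {a : Fin m → ℝ | (∀ i, 0 < a i) ∧ ∃ (N : ℕ) (v : Fin N → E (m + 1)) (c : Fin N → ℝ),
      ∫⁻ ξ, ‖extn (fun x => dd a G x * ∏ i, hsn (c i) (v i) x) ξ‖ₑ ^ p = ∞} ≤ d := by
  set S : ℕ → Set (Fin m → ℝ) := fun j => {l | (∀ i, ((j : ℝ) + 1)⁻¹ ≤ l i ∧ l i ≤ (j : ℝ) + 1) ∧
    ∫⁻ t, ∫⁻ y, ‖EE l G y t‖ₑ ^ q = ∞} with hS
  set ψ : (Fin m → ℝ) → Fin m → ℝ := fun l i => (√(l i))⁻¹ with hψ
  have hSd : ∀ j, dimH (ψ '' S j) ≤ d := by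
    intro j
    have hj : (0 : ℝ) < (j : ℝ) + 1 := by positivity
    refine le_trans ((hpf1x_smooth m).dimH_image_le (hpf1x_convex m) (t := S j) ?_) ?_
    · rintro l ⟨hl, -⟩ i
      exact lt_of_lt_of_le (inv_pos.2 hj) (hl i).1
    · exact dim_l hm q hq hq4 d hd G hG hb _ _ (inv_pos.2 hj) hj.le
  have hsub : {a : Fin m → ℝ | (∀ i, 0 < a i) ∧ ∃ (N : ℕ) (v : Fin N → E (m + 1)) (c : Fin N → ℝ),
      ∫⁻ ξ, ‖extn (fun x => dd a G x * ∏ i, hsn (c i) (v i) x) ξ‖ₑ ^ p = ∞} ⊆ ⋃ j, ψ '' S j := by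
    rintro a ⟨ha, N, v, c, hinf⟩
    set l : Fin m → ℝ := fun i => (a i ^ 2)⁻¹ with hl
    have hl0 : ∀ i, 0 < l i := fun i => inv_pos.2 (pow_pos (ha i) 2)
    have hψl : ψ l = a := by
      funext i
      show (√((a i ^ 2)⁻¹))⁻¹ = a i
      rw [Real.sqrt_inv, inv_inv, Real.sqrt_sq (ha i).le]
    have hEE : ∫⁻ t, ∫⁻ y, ‖EE l G y t‖ₑ ^ q = ∞ := by
      by_contra hne
      have h1 : ∫⁻ t, ∫⁻ y, ‖EE l G y t‖ₑ ^ q < ∞ := lt_top_iff_ne_top.2 hne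
      obtain ⟨j, rfl⟩ : ∃ j, m = j + 1 := ⟨m - 1, by omega⟩
      have h2 := hemi_fin j a ha G hG hb q (by linarith) h1
      have h3 := Pool.Agent.AEE.hxf_cut (j + 1 + 1) (by omega) q p hq hqp (dd a G)
        (hpf1x_meas a G hG) (fun w => hb _) h2 N v c
      rw [hinf] at h3
      exact lt_irrefl _ h3
    obtain ⟨j, hj⟩ := exists_nat_ge (∑ i, l i + ∑ i, (l i)⁻¹)
    rw [mem_iUnion]
    refine ⟨j, l, ⟨fun i => ?_, hEE⟩, hψl⟩
    have h1 : l i ≤ ∑ i, l i := Finset.single_le_sum (fun i _ => (hl0 i).le) (Finset.mem_univ i)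
    have h2 : (l i)⁻¹ ≤ ∑ i, (l i)⁻¹ :=
      Finset.single_le_sum (f := fun i => (l i)⁻¹) (fun i _ => (inv_pos.2 (hl0 i)).le)
        (Finset.mem_univ i)
    have h3 : 0 ≤ ∑ i, l i := Finset.sum_nonneg fun i _ => (hl0 i).le
    have h4 : 0 ≤ ∑ i, (l i)⁻¹ := Finset.sum_nonneg fun i _ => (inv_pos.2 (hl0 i)).le
    constructor
    · rw [inv_le_comm₀ (by positivity) (hl0 i)]
      linarith
    · linarith
  calc dimH _ ≤ dimH (⋃ j, ψ '' S j) := dimH_mono hsub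
    _ = ⨆ j, dimH (ψ '' S j) := dimH_iUnion _
    _ ≤ d := iSup_le hSd

end Pool.Agent.AXD
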