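import Pool.Agent.AXD.PF1

namespace Pool.Agent.AXD

open MeasureTheory Set Pool.Agent.MP_6cbfb8_an Pool.Agent.MST
open scoped ENNReal NNReal Real

theorem hpf2x_cont {m : ℕ} (a : Fin m → ℝ) :
    Continuous fun x : E (m + 1) => (WithLp.toLp 2 fun i : Fin m => a i * x i.castSucc : E m) := by
  fun_prop

theorem hpf2x_meas {m : ℕ} (G : E m → ℂ) (hG : Measurable G) (a : Fin m → ℝ) {N : ℕ}
    (v : Fin N → E (m + 1)) (c : Fin N → ℝ) :
    Measurable fun x : E (m + 1) => dd a G x * ∏ i, hsn (c i) (v i) x := by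
  have h1 : Measurable fun x : E (m + 1) => dd a G x := hG.comp (hpf2x_cont a).measurable
  exact h1.mul (measurable_prod_hsn c v)

theorem hpf2x_scale {m : ℕ} (G : E m → ℂ) (hG : Measurable G) {K : ℝ} (hK0 : 0 < K)
    (a : Fin m → ℝ) {N : ℕ} (v : Fin N → E (m + 1)) (c : Fin N → ℝ) {p : ℝ} (hp0 : 0 ≤ p)
    (h2 : ∫⁻ ξ, ‖extn (fun x => dd a (fun w => (K : ℂ)⁻¹ * G w) x *
      ∏ i, hsn (c i) (v i) x) ξ‖ₑ ^ p < ∞) :
    ∫⁻ ξ, ‖extn (fun x => dd a G x * ∏ i, hsn (c i) (v i) x) ξ‖ₑ ^ p < ∞ := by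
  have hKc : (K : ℂ) ≠ 0 := by exact_mod_cast hK0.ne'
  have h3 : (fun x : E (m + 1) => dd a G x * ∏ i, hsn (c i) (v i) x)
      = fun x => (K : ℂ) * (dd a (fun w => (K : ℂ)⁻¹ * G w) x * ∏ i, hsn (c i) (v i) x) := by
    funext x
    unfold dd
    rw [← mul_assoc, ← mul_assoc, mul_inv_cancel₀ hKc, one_mul]
  rw [h3]
  simp only [AEL.hfn_extn_const_mul, enorm_mul]
  have hm : Measurable fun x : E (m + 1) =>
      dd a (fun w => (K : ℂ)⁻¹ * G w) x * ∏ i, hsn (c i) (v i) x :=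
    hpf2x_meas (fun w => (K : ℂ)⁻¹ * G w) (hG.const_mul _) a v c
  have hm2 : Measurable fun ξ : E (m + 1) =>
      ‖extn (fun x => dd a (fun w => (K : ℂ)⁻¹ * G w) x * ∏ i, hsn (c i) (v i) x) ξ‖ₑ ^ p :=
    (AEL.hfn_measurable_extn _ hm).enorm.pow_const p
  have h4 : ∀ ξ : E (m + 1), (‖(K : ℂ)‖ₑ *
      ‖extn (fun x => dd a (fun w => (K : ℂ)⁻¹ * G w) x * ∏ i, hsn (c i) (v i) x) ξ‖ₑ) ^ p
      = ‖(K : ℂ)‖ₑ ^ p *
        ‖extn (fun x => dd a (fun w => (K : ℂ)⁻¹ * G w) x * ∏ i, hsn (c i) (v i) x) ξ‖ₑ ^ p :=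
    fun ξ => ENNReal.mul_rpow_of_nonneg _ _ hp0
  simp only [h4]
  rw [lintegral_const_mul _ hm2]
  exact ENNReal.mul_lt_top (ENNReal.rpow_lt_top_of_nonneg hp0 enorm_ne_top) h2

theorem hpf2x_tomas {m : ℕ} (hm : 2 ≤ m) (G : E m → ℂ) (hG : Measurable G)
    (hb : ∀ w, ‖G w‖ ≤ 1) (p : ℝ) (hp : 4 < p) (a : Fin m → ℝ) (N : ℕ) (v : Fin N → E (m + 1))
    (c : Fin N → ℝ) :
    ∫⁻ ξ, ‖extn (fun x => dd a G x * ∏ i, hsn (c i) (v i) x) ξ‖ₑ ^ p < ∞ := by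
  obtain ⟨j, rfl⟩ : ∃ j, m = j + 1 := ⟨m - 1, by omega⟩
  have hj : (1 : ℝ) ≤ j := by
    have : 1 ≤ j := by omega
    exact_mod_cast this
  obtain ⟨C, hC, h⟩ := stein_tomas j p (by
    refine lt_of_le_of_lt ?_ hp
    rw [div_le_iff₀ (by linarith)]
    linarith)
  have hb1 : ∀ x : E (j + 2), ‖dd a G x * ∏ i, hsn (c i) (v i) x‖ ≤ 1 := by
    intro x
    rw [norm_mul]
    exact mul_le_one₀ (hb _) (norm_nonneg _) (norm_prod_hsn_le _ _ _)
  refine lt_of_le_of_lt (h _ (hpf2x_meas G hG a v c) (fun x => (hb1 x).trans (by norm_num))) ?_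
  refine ENNReal.mul_lt_top hC.lt_top ?_
  refine ENNReal.rpow_lt_top_of_nonneg (by linarith) ?_
  refine ne_top_of_le_ne_top (sm_univ_ne_top (j + 2)) ?_
  calc ∫⁻ x : S (j + 2), ‖dd a G (x : E (j + 2)) *
        ∏ i, hsn (c i) (v i) (x : E (j + 2))‖ₑ ^ (2:ℝ) ∂(sm (j + 2))
      ≤ ∫⁻ _ : S (j + 2), 1 ∂(sm (j + 2)) := by
        refine lintegral_mono fun x => ?_
        refine ENNReal.rpow_le_one ?_ (by norm_num)
        rw [← ofReal_norm]
        exact ENNReal.ofReal_le_one.2 (hb1 x)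
    _ = sm (j + 2) univ := by rw [lintegral_one]

theorem hpf2x_pos {m : ℕ} (hm : 2 ≤ m) (G : E m → ℂ) (hG : Measurable G)
    (hb : ∀ w, ‖G w‖ ≤ 1) (p : ℝ) (hp : 2 < p) :
    dimH {a : Fin m → ℝ | (∀ i, 0 < a i) ∧ ∃ (N : ℕ) (v : Fin N → E (m + 1)) (c : Fin N → ℝ),
      ∫⁻ ξ, ‖extn (fun x => dd a G x * ∏ i, hsn (c i) (v i) x) ξ‖ₑ ^ p = ∞} ≤
      ENNReal.ofReal (max 2 (p - 1) / (p - 2)) := by
  refine le_of_forall_gt_imp_ge_of_dense fun c hc => ?_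
  rcases eq_or_ne c ∞ with rfl | hct
  · exact le_top
  lift c to ℝ≥0 using hct
  rcases le_or_gt p 4 with hp4 | hp4
  · have hp2 : 0 < p - 2 := by linarith
    obtain ⟨M, hM⟩ : ∃ M : ℝ, M = max 2 (p - 1) := ⟨_, rfl⟩
    have hM2 : 2 ≤ M := hM ▸ le_max_left _ _
    have hMp : p - 1 ≤ M := hM ▸ le_max_right _ _
    rw [← hM] at hc
    have hb0 : 0 ≤ M / (p - 2) := div_nonneg (by linarith) hp2.le
    have hc' : M / (p - 2) < c := by
      have h2 := (ENNReal.ofReal_lt_iff_lt_toReal hb0 ENNReal.coe_ne_top).1 hc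
      simpa using h2
    have hc0 : 0 < (c : ℝ) := lt_of_le_of_lt hb0 hc'
    have h4 : M / c < p - 2 := by
      rw [div_lt_iff₀ hc0]
      rw [div_lt_iff₀ hp2] at hc'
      linarith
    have h5 : 0 < M / c := div_pos (by linarith) hc0
    obtain ⟨q, hq⟩ : ∃ q : ℝ, q = 2 + (M / c + (p - 2)) / 2 := ⟨_, rfl⟩
    have h6 : M / (q - 2) < c := by
      have h7 : M / c < q - 2 := by rw [hq]; linarith
      have h8 : 0 < q - 2 := h5.trans h7
      rw [div_lt_iff₀ h8]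
      rw [div_lt_iff₀ hc0] at h7
      linarith
    have hqp : q < p := by rw [hq]; linarith
    have hq2 : 2 < q := by rw [hq]; linarith
    have h7 : max 2 (q - 1) / (q - 2) < c := by
      refine lt_of_le_of_lt ?_ h6
      refine div_le_div_of_nonneg_right ?_ (by linarith)
      exact max_le hM2 (by linarith)
    exact dim_pos hm q p hq2 (by linarith) hqp c h7 G hG hb
  · have hempty : {a : Fin m → ℝ | (∀ i, 0 < a i) ∧ ∃ (N : ℕ) (v : Fin N → E (m + 1))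
        (c : Fin N → ℝ),
        ∫⁻ ξ, ‖extn (fun x => dd a G x * ∏ i, hsn (c i) (v i) x) ξ‖ₑ ^ p = ∞} = ∅ := by
      refine eq_empty_of_forall_notMem ?_
      rintro a ⟨-, N, v, c, hA⟩
      exact (hpf2x_tomas hm G hG hb p hp4 a N v c).ne hA
    rw [hempty, dimH_empty]
    exact zero_le

/-- the sign of a boolean -/
def hpf2x_s (b : Bool) : ℝ := if b then 1 else -1

/-- the change of signs -/
def hpf2x_flip {m : ℕ} (e : Fin m → Bool) (b : Fin m → ℝ) : Fin m → ℝ := fun i => hpf2x_s (e i) * b i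

theorem hpf2x_abs_s (b : Bool) : |hpf2x_s b| = 1 := by
  cases b <;> simp [hpf2x_s]

theorem hpf2x_lip {m : ℕ} (e : Fin m → Bool) : LipschitzWith 1 (hpf2x_flip e) := by
  refine LipschitzWith.of_dist_le_mul fun x y => ?_
  rw [NNReal.coe_one, one_mul, dist_pi_le_iff dist_nonneg]
  intro i
  have h1 : dist (hpf2x_flip e x i) (hpf2x_flip e y i) = dist (x i) (y i) := by
    rw [Real.dist_eq, Real.dist_eq]
    have h2 : hpf2x_flip e x i - hpf2x_flip e y i = hpf2x_s (e i) * (x i - y i) := by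
      unfold hpf2x_flip
      ring
    rw [h2, abs_mul, hpf2x_abs_s, one_mul]
  rw [h1]
  exact dist_le_pi_dist x y i

theorem hpf2x_one {m : ℕ} (hm : 2 ≤ m) (G : E m → ℂ) (hG : Measurable G)
    (hb : ∀ w, ‖G w‖ ≤ 1) (p : ℝ) (hp : 2 < p) :
    dimH {a : Fin m → ℝ | (∀ i, a i ≠ 0) ∧ ∃ (N : ℕ) (v : Fin N → E (m + 1)) (c : Fin N → ℝ),
      ∫⁻ ξ, ‖extn (fun x => dd a G x * ∏ i, hsn (c i) (v i) x) ξ‖ₑ ^ p = ∞} ≤
      ENNReal.ofReal (max 2 (p - 1) / (p - 2)) := by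
  obtain ⟨Ge, hGe⟩ : ∃ Ge : (Fin m → Bool) → E m → ℂ,
      Ge = fun e w => G (WithLp.toLp 2 fun i => hpf2x_s (e i) * w i) := ⟨_, rfl⟩
  have hGem : ∀ e, Measurable (Ge e) := by
    intro e
    rw [hGe]
    have h1 : Continuous fun w : E m => (WithLp.toLp 2 fun i : Fin m => hpf2x_s (e i) * w i : E m) := by
      fun_prop
    exact hG.comp h1.measurable
  have hGeb : ∀ e w, ‖Ge e w‖ ≤ 1 := by
    intro e w
    rw [hGe]
    exact hb _
  have hsub : {a : Fin m → ℝ | (∀ i, a i ≠ 0) ∧ ∃ (N : ℕ) (v : Fin N → E (m + 1))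
      (c : Fin N → ℝ),
      ∫⁻ ξ, ‖extn (fun x => dd a G x * ∏ i, hsn (c i) (v i) x) ξ‖ₑ ^ p = ∞} ⊆
      ⋃ e : Fin m → Bool, hpf2x_flip e '' {a : Fin m → ℝ | (∀ i, 0 < a i) ∧
        ∃ (N : ℕ) (v : Fin N → E (m + 1)) (c : Fin N → ℝ),
        ∫⁻ ξ, ‖extn (fun x => dd a (Ge e) x * ∏ i, hsn (c i) (v i) x) ξ‖ₑ ^ p = ∞} := by
    rintro a ⟨ha, N, v, c, h⟩
    have hs : ∀ i, hpf2x_s (decide (0 < a i)) * |a i| = a i := by
      intro i
      rcases lt_or_gt_of_ne (ha i) with h1 | h1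
      · have h2 : ¬ 0 < a i := not_lt.2 h1.le
        rw [abs_of_neg h1]
        simp [hpf2x_s, h2]
      · rw [abs_of_pos h1]
        simp [hpf2x_s, h1]
    rw [mem_iUnion]
    refine ⟨fun i => decide (0 < a i), fun i => |a i|, ⟨fun i => abs_pos.2 (ha i), N, v, c, ?_⟩, ?_⟩
    · have h3 : ∀ x : E (m + 1), dd (fun i => |a i|) (Ge fun i => decide (0 < a i)) x = dd a G x := by
        intro x
        have h5 : (fun i : Fin m => hpf2x_s (decide (0 < a i)) * (|a i| * x i.castSucc)) =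
            fun i => a i * x i.castSucc := by
          funext i
          rw [← mul_assoc, hs i]
        rw [hGe]
        exact congrArg (fun t => G (WithLp.toLp 2 t)) h5
      simp only [h3]
      exact h
    · funext i
      exact hs i
  refine (dimH_mono hsub).trans ?_
  rw [dimH_iUnion]
  refine iSup_le fun e => ?_
  exact ((hpf2x_lip e).dimH_image_le _).trans (hpf2x_pos hm (Ge e) (hGem e) (hGeb e) p hp)

/-
ROW PF2 (1 h). (1) scaling: divide G by max B 1 (as hxg_scale in Pool.Agent.AEE.XG). (2) signs: for a with all a i ≠ 0 put ε i = sign (a i) and G_ε w = G (ε w): dd a G = dd |a| G_ε;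
the set is in the finite union over ε : Fin m → Bool (or Fin m → ℤˣ, ...) of the images of the sets of `dim_pos` for G_ε under the isometry b ↦ ε b. (3) p ≤ 4: for every d > bound
choose 2 < q < p close to p (so q < 4; continuity of q ↦ max 2 (q-1)/(q-2)) as hxg_one in AEE.XG; p > 4: the set is empty by Stein–Tomas (hxg_tomas style, n = m+1 ≥ 3).
-/
theorem final_dim {m : ℕ} (hm : 2 ≤ m) (G : E m → ℂ) (hG : Measurable G)
    (hb : ∃ B : ℝ, ∀ w, ‖G w‖ ≤ B) (p : ℝ) (hp : 2 < p) :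
    dimH {a : Fin m → ℝ | (∀ i, a i ≠ 0) ∧ ∃ (N : ℕ) (v : Fin N → E (m + 1)) (c : Fin N → ℝ),
      ∫⁻ ξ, ‖extn (fun x => dd a G x * ∏ i, hsn (c i) (v i) x) ξ‖ₑ ^ p = ∞} ≤
      ENNReal.ofReal (max 2 (p - 1) / (p - 2)) := by
  obtain ⟨B, hB⟩ := hb
  obtain ⟨K, hKdef⟩ : ∃ K : ℝ, K = max B 1 := ⟨_, rfl⟩
  have hK1 : 1 ≤ K := hKdef ▸ le_max_right _ _
  have hKB : B ≤ K := hKdef ▸ le_max_left _ _
  have hK0 : 0 < K := by linarith
  have hp0 : 0 ≤ p := by linarith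
  have hG' : Measurable fun w => (K : ℂ)⁻¹ * G w := hG.const_mul _
  have hb' : ∀ w, ‖(fun w => (K : ℂ)⁻¹ * G w) w‖ ≤ 1 := by
    intro w
    beta_reduce
    rw [norm_mul, norm_inv, Complex.norm_real, Real.norm_of_nonneg hK0.le, inv_mul_eq_div,
      div_le_one hK0]
    exact (hB w).trans hKB
  refine (dimH_mono ?_).trans (hpf2x_one hm (fun w => (K : ℂ)⁻¹ * G w) hG' hb' p hp)
  rintro a ⟨ha1, N, v, c, ha2⟩
  refine ⟨ha1, N, v, c, ?_⟩
  by_contra h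
  exact (hpf2x_scale G hG hK0 a v c hp0 (lt_top_iff_ne_top.2 h)).ne ha2

end Pool.Agent.AXD
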