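import Pool.Agent.AXD.PF2

namespace Pool.Agent.AXD

open MeasureTheory Set Pool.Agent.MP_6cbfb8_an Pool.Agent.MST
open scoped ENNReal NNReal Real

/-
ROW PF3 (0.6 h). For p0 > 2(m+1)/m: max 2 (p0-1)/(p0-2) < m (p0 ≤ 3: 2/(p0-2) < m; p0 > 3: (p0-1)/(p0-2) < 2 ≤ m), so the set of final_dim has dimH < m, so its m-dimensional Hausdorff
measure is 0 (hausdorffMeasure_of_dimH_lt; Real/Mathlib: hausdorffMeasure_pi_real: μH[card] = volume), i.e. it is null; the a with some a i = 0 are null too (hyperplanes: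
Measure.pi / volume_pi, e.g. as ae of Fin m → ℝ: Measure.ae_eval_ne or `Measure.pi_hyperplane`). Countably many exponents p_j = p_crit + 1/(j+1) (ae_all_iff). For p > p_crit choose
j with p_j ≤ p; finiteness for p_j implies finiteness for p (lintegral_rpow_le_sup, enorm_extn_le as in hxf_cut; the density is bounded by B).
-/
theorem hpf3x_meas {m : ℕ} (a : Fin m → ℝ) (G : E m → ℂ) (hG : Measurable G) {N : ℕ}
    (v : Fin N → E (m + 1)) (c : Fin N → ℝ) :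
    Measurable fun x : E (m + 1) => dd a G x * ∏ i, hsn (c i) (v i) x := by
  have h1 : Measurable fun x : E (m + 1) => (WithLp.toLp 2 fun i : Fin m => a i * x i.castSucc : E m) := by
    have h2 : Continuous fun x : E (m + 1) => (WithLp.toLp 2 fun i : Fin m => a i * x i.castSucc : E m) := by
      fun_prop
    exact h2.measurable
  exact (hG.comp h1).mul (measurable_prod_hsn c v)

theorem hpf3x_num {m : ℕ} (hm : 2 ≤ m) {p : ℝ} (hp : 2 * ((m:ℝ) + 1) / m < p) :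
    2 < p ∧ max 2 (p - 1) / (p - 2) < m := by
  have hm' : (2:ℝ) ≤ m := by exact_mod_cast hm
  have hm0 : (0:ℝ) < m := by linarith
  rw [div_lt_iff₀ hm0] at hp
  have h1 : 2 < m * (p - 2) := by nlinarith
  have h2 : 2 < p := by
    by_contra h
    push Not at h
    nlinarith
  refine ⟨h2, ?_⟩
  rw [div_lt_iff₀ (by linarith)]
  refine max_lt h1 ?_
  nlinarith

/-- one exponent -/
theorem hpf3x_one {m : ℕ} (hm : 2 ≤ m) (G : E m → ℂ) (hG : Measurable G)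
    (hb : ∃ B : ℝ, ∀ w, ‖G w‖ ≤ B) (p : ℝ) (hp : 2 * ((m:ℝ) + 1) / m < p) :
    ∀ᵐ a : Fin m → ℝ, ∀ (N : ℕ) (v : Fin N → E (m + 1)) (c : Fin N → ℝ),
      ∫⁻ ξ, ‖extn (fun x => dd a G x * ∏ i, hsn (c i) (v i) x) ξ‖ₑ ^ p < ∞ := by
  obtain ⟨hp2, hlt⟩ := hpf3x_num hm hp
  have hdim := final_dim hm G hG hb p hp2
  have h1 : ENNReal.ofReal (max 2 (p - 1) / (p - 2)) < ((m : ℝ≥0) : ℝ≥0∞) := by
    rw [ENNReal.ofReal_lt_iff_lt_toReal (by
      apply div_nonneg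
      · exact le_trans (by norm_num) (le_max_left _ _)
      · linarith) ENNReal.coe_ne_top]
    simpa using hlt
  have h2 := hausdorffMeasure_of_dimH_lt (lt_of_le_of_lt hdim h1)
  have h3 : (volume : Measure (Fin m → ℝ)) = μH[((m : ℝ≥0) : ℝ)] := by
    rw [← hausdorffMeasure_pi_real, Fintype.card_fin]
    simp
  rw [← h3] at h2
  have h4 : ∀ᵐ a : Fin m → ℝ, ∀ i, a i ≠ 0 := by
    rw [ae_all_iff]
    intro i
    rw [ae_iff]
    have h5 : {a : Fin m → ℝ | ¬ a i ≠ 0} = {a : Fin m → ℝ | a i = 0} := by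
      ext a
      simp
    rw [h5, volume_pi]
    exact Measure.pi_hyperplane _ i 0
  have h6 : ∀ᵐ a : Fin m → ℝ, a ∉ {a : Fin m → ℝ | (∀ i, a i ≠ 0) ∧ ∃ (N : ℕ) (v : Fin N → E (m + 1))
      (c : Fin N → ℝ), ∫⁻ ξ, ‖extn (fun x => dd a G x * ∏ i, hsn (c i) (v i) x) ξ‖ₑ ^ p = ∞} :=
    measure_eq_zero_iff_ae_notMem.1 h2
  filter_upwards [h4, h6] with a ha hna N v c
  rw [lt_top_iff_ne_top]
  intro h7
  exact hna ⟨ha, N, v, c, h7⟩

theorem hpf3x_mono {m : ℕ} (G : E m → ℂ) (hG : Measurable G) {B : ℝ} (hb : ∀ w, ‖G w‖ ≤ B) (a : Fin m → ℝ)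
    {N : ℕ} (v : Fin N → E (m + 1)) (c : Fin N → ℝ) {p q : ℝ} (hq : 0 ≤ q) (hqp : q ≤ p)
    (h : ∫⁻ ξ, ‖extn (fun x => dd a G x * ∏ i, hsn (c i) (v i) x) ξ‖ₑ ^ q < ∞) :
    ∫⁻ ξ, ‖extn (fun x => dd a G x * ∏ i, hsn (c i) (v i) x) ξ‖ₑ ^ p < ∞ := by
  have hb1 : ∀ x : E (m + 1), ‖dd a G x * ∏ i, hsn (c i) (v i) x‖ ≤ B := by
    intro x
    rw [norm_mul]
    calc ‖dd a G x‖ * ‖∏ i, hsn (c i) (v i) x‖ ≤ ‖dd a G x‖ * 1 :=
          mul_le_mul_of_nonneg_left (norm_prod_hsn_le _ _ _) (norm_nonneg _)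
      _ ≤ B := by rw [mul_one]; exact hb _
  have hM : ∀ ξ, ‖extn (fun x => dd a G x * ∏ i, hsn (c i) (v i) x) ξ‖ₑ ≤
      ENNReal.ofReal B * sm (m + 1) univ := by
    intro ξ
    refine (lonG_enorm_extn_le _ ξ).trans ?_
    calc ∫⁻ x : S (m + 1), ‖dd a G x * ∏ i, hsn (c i) (v i) (x : E (m + 1))‖ₑ ∂(sm (m + 1))
        ≤ ∫⁻ _x : S (m + 1), ENNReal.ofReal B ∂(sm (m + 1)) := by
          refine lintegral_mono fun x => ?_
          rw [← ofReal_norm]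
          exact ENNReal.ofReal_le_ofReal (hb1 x)
      _ = _ := by rw [lintegral_const]
  refine lt_of_le_of_lt (lintegral_rpow_le_sup (μ := (volume : Measure (E (m + 1))))
    (fun ξ => ‖extn (fun x => dd a G x * ∏ i, hsn (c i) (v i) x) ξ‖ₑ)
    (AEL.hfn_measurable_extn _ (hpf3x_meas a G hG v c)).enorm hq hqp _ hM) ?_
  refine ENNReal.mul_lt_top ?_ h
  refine ENNReal.rpow_lt_top_of_nonneg (by linarith) ?_
  exact ENNReal.mul_ne_top ENNReal.ofReal_ne_top (sm_univ_ne_top (m + 1))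

/-- almost every dilation, all exponents of the conjecture -/
theorem final_ae {m : ℕ} (hm : 2 ≤ m) (G : E m → ℂ) (hG : Measurable G)
    (hb : ∃ B : ℝ, ∀ w, ‖G w‖ ≤ B) :
    ∀ᵐ a : Fin m → ℝ, ∀ p : ℝ, 2 * ((m:ℝ) + 1) / m < p →
      ∀ (N : ℕ) (v : Fin N → E (m + 1)) (c : Fin N → ℝ),
      ∫⁻ ξ, ‖extn (fun x => dd a G x * ∏ i, hsn (c i) (v i) x) ξ‖ₑ ^ p < ∞ := by
  have h1 : ∀ᵐ a : Fin m → ℝ, ∀ j : ℕ, ∀ (N : ℕ) (v : Fin N → E (m + 1)) (c : Fin N → ℝ),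
      ∫⁻ ξ, ‖extn (fun x => dd a G x * ∏ i, hsn (c i) (v i) x) ξ‖ₑ ^
        (2 * ((m:ℝ) + 1) / m + 1 / ((j : ℝ) + 1)) < ∞ := by
    rw [ae_all_iff]
    intro j
    refine hpf3x_one hm G hG hb _ ?_
    have : (0:ℝ) < 1 / ((j : ℝ) + 1) := by positivity
    linarith
  obtain ⟨B, hB⟩ := hb
  filter_upwards [h1] with a ha p hp N v c
  obtain ⟨j, hj⟩ := exists_nat_one_div_lt (sub_pos.2 hp)
  refine hpf3x_mono G hG hB a v c (by positivity) (by linarith) (ha j N v c)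

end Pool.Agent.AXD
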