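import Pool.Agent.AXD.PA

namespace Pool.Agent.AXD

open MeasureTheory Set Pool.Agent.MP_6cbfb8_an Pool.Agent.MST
open scoped ENNReal Real FourierTransform

theorem hpgx_norm_ex (a : ℝ) : ‖ex a‖ = 1 := by
  unfold ex
  rw [Complex.norm_exp_ofReal_mul_I]

theorem hpgx_cont_ex : Continuous ex := by
  unfold ex
  fun_prop

theorem hpgx_four (f : ℝ → ℂ) (w : ℝ) : 𝓕 f w = ∫ v, f v * ex (w * v) := by
  rw [Real.fourier_real_eq_integral_exp_smul]
  refine integral_congr_ae (Filter.Eventually.of_forall fun v => ?_)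
  simp only [smul_eq_mul]
  rw [mul_comm]
  unfold ex
  congr 3
  ring_nf

theorem hpgx_int (f : ℝ → ℂ) (hf : Integrable f) (τ : ℝ) :
    Integrable fun v : ℝ => f v * ex (τ * v) := by
  refine hf.mul_bdd (c := 1) ?_ ?_
  · exact (hpgx_cont_ex.comp (continuous_const.mul continuous_id)).aestronglyMeasurable
  · exact Filter.Eventually.of_forall fun v => (hpgx_norm_ex _).le

theorem hpgx_cont (f : ℝ → ℂ) (hf : Integrable f) :
    Continuous fun τ : ℝ => ∫ v, f v * ex (τ * v) := by
  refine continuous_of_dominated (bound := fun v => ‖f v‖)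
    (fun τ => (hpgx_int f hf τ).aestronglyMeasurable)
    (fun τ => Filter.Eventually.of_forall fun v => ?_) hf.norm
    (Filter.Eventually.of_forall fun v => ?_)
  · rw [norm_mul, hpgx_norm_ex, mul_one]
  · exact continuous_const.mul (hpgx_cont_ex.comp (continuous_id.mul continuous_const))

theorem hpgx_gauss (τ : ℝ) : ∫ v : ℝ, ((Real.exp (-(π * v ^ 2)) : ℝ) : ℂ) * ex (τ * v) =
    ((Real.exp (-(π * τ ^ 2)) : ℝ) : ℂ) := by
  rw [← hpgx_four]
  have h := congrFun (fourier_gaussian_pi (b := 1) (by simp)) τ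
  have e : (fun x : ℝ => Complex.exp (-π * 1 * x ^ 2)) =
      fun v : ℝ => ((Real.exp (-(π * v ^ 2)) : ℝ) : ℂ) := by
    funext v
    push_cast
    congr 1
    ring
  rw [e] at h
  rw [h]
  push_cast
  simp only [Complex.one_cpow, div_one, one_mul, neg_mul]

theorem hpgx_gint : Integrable fun v : ℝ => ((Real.exp (-(π * v ^ 2)) : ℝ) : ℂ) := by
  have h := integrable_exp_neg_mul_sq Real.pi_pos
  have h2 : Integrable fun v : ℝ => Real.exp (-(π * v ^ 2)) := by
    refine h.congr (Filter.Eventually.of_forall fun v => ?_)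
    simp only
    congr 1
    ring
  exact h2.ofReal

theorem hpgx_gauss_int : ∫ τ : ℝ, ((Real.exp (-(π * τ ^ 2)) : ℝ) : ℂ) = 1 := by
  have h := hpgx_gauss 0
  have e : ∀ v : ℝ, ex (0 * v) = 1 := by
    intro v
    unfold ex
    simp
  simp only [e, mul_one] at h
  rw [h]
  simp

theorem hpgx_r (r : ℝ → ℂ) (hi : Integrable r) (h0 : r 0 = 0) (L δ : ℝ) (hδ : 0 < δ)
    (hL : ∀ u, |u| ≤ δ → ‖r u‖ ≤ L * |u|) :
    Filter.Tendsto (fun T : ℝ => ∫ τ in (-T)..T, ∫ v, r v * ex (τ * v)) Filter.atTop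
      (nhds 0) := by
  have hL0 : 0 ≤ L := by
    have h1 := hL δ (by rw [abs_of_pos hδ])
    rw [abs_of_pos hδ] at h1
    have h2 : 0 ≤ L * δ := (norm_nonneg _).trans h1
    nlinarith
  obtain ⟨q, hq⟩ : ∃ q : ℝ → ℂ, q = fun u => r u * ((u : ℂ))⁻¹ := ⟨_, rfl⟩
  have hqm : AEStronglyMeasurable q volume := by
    rw [hq]
    exact hi.1.mul (Complex.measurable_ofReal.inv).aestronglyMeasurable
  have hqi : Integrable q := by
    have hb : Integrable fun u : ℝ => (Icc (-δ) δ).indicator (fun _ => L) u + δ⁻¹ * ‖r u‖ := by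
      refine Integrable.add ?_ (hi.norm.const_mul _)
      refine (integrable_indicator_iff measurableSet_Icc).2 ?_
      exact integrableOn_const (by simp)
    refine hb.mono' hqm (Filter.Eventually.of_forall fun u => ?_)
    rw [hq]
    simp only
    rw [norm_mul, norm_inv, Complex.norm_real, Real.norm_eq_abs]
    by_cases hu : |u| ≤ δ
    · rw [indicator_of_mem (by rw [mem_Icc]; exact abs_le.1 hu)]
      have h1 : ‖r u‖ * |u|⁻¹ ≤ L := by
        by_cases hu0 : u = 0
        · subst hu0
          simp [hL0]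
        · have hu1 : 0 < |u| := abs_pos.2 hu0
          rw [← div_eq_mul_inv, div_le_iff₀ hu1]
          exact hL u hu
      have h2 : 0 ≤ δ⁻¹ * ‖r u‖ := by positivity
      linarith
    · rw [indicator_of_notMem (by rw [mem_Icc]; exact fun h => hu (abs_le.2 h)), zero_add, mul_comm]
      refine mul_le_mul_of_nonneg_right ?_ (norm_nonneg _)
      exact inv_anti₀ hδ (not_le.1 hu).le
  have hxq : ∀ x : ℝ, (x : ℂ) * q x = r x := by
    intro x
    rw [hq]
    simp only
    by_cases hx : x = 0
    · subst hx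
      simp [h0]
    · have : (x : ℂ) ≠ 0 := by exact_mod_cast hx
      field_simp
  have hxi : Integrable fun x : ℝ => x • q x := by
    refine hi.congr (Filter.Eventually.of_forall fun x => ?_)
    simp only
    rw [Complex.real_smul, hxq]
  have hc : (-2 * π * Complex.I : ℂ) ≠ 0 := by
    simp [Real.pi_ne_zero, Complex.I_ne_zero]
  have hder : ∀ τ : ℝ, HasDerivAt (𝓕 q) ((-2 * π * Complex.I) * ∫ v, r v * ex (τ * v)) τ := by
    intro τ
    have h1 := Real.hasDerivAt_fourier hqi hxi τ
    have h2 : 𝓕 (fun x : ℝ => (-2 * π * Complex.I * x) • q x) τ =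
        (-2 * π * Complex.I) * ∫ v, r v * ex (τ * v) := by
      rw [hpgx_four, ← integral_const_mul]
      refine integral_congr_ae (Filter.Eventually.of_forall fun v => ?_)
      simp only [smul_eq_mul]
      rw [← hxq v]
      ring
    rw [h2] at h1
    exact h1
  have hcont := hpgx_cont r hi
  have hFTC : ∀ T : ℝ, ∫ τ in (-T)..T, ∫ v, r v * ex (τ * v) =
      (-2 * π * Complex.I)⁻¹ * (𝓕 q T - 𝓕 q (-T)) := by
    intro T
    have h1 := intervalIntegral.integral_eq_sub_of_hasDerivAt (a := -T) (b := T)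
      (fun τ _ => hder τ) ((continuous_const.mul hcont).intervalIntegrable _ _)
    rw [← h1, intervalIntegral.integral_const_mul, ← mul_assoc, inv_mul_cancel₀ hc, one_mul]
  simp only [hFTC]
  have hz := Real.zero_at_infty_fourier q
  have hz1 : Filter.Tendsto (fun T : ℝ => 𝓕 q T) Filter.atTop (nhds 0) :=
    hz.mono_left atTop_le_cocompact
  have hz2 : Filter.Tendsto (fun T : ℝ => 𝓕 q (-T)) Filter.atTop (nhds 0) :=
    (hz.mono_left atBot_le_cocompact).comp Filter.tendsto_neg_atTop_atBot
  have := (hz1.sub hz2).const_mul ((-2 * π * Complex.I)⁻¹)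
  simpa using this

theorem hpgx_zero (k : ℝ → ℂ) (hi : Integrable k) (L δ : ℝ) (hδ : 0 < δ)
    (hL : ∀ u, |u| ≤ δ → ‖k u - k 0‖ ≤ L * |u|) :
    Filter.Tendsto (fun T : ℝ => ∫ τ in (-T)..T, ∫ v, k v * ex (τ * v)) Filter.atTop
      (nhds (k 0)) := by
  obtain ⟨g, hg⟩ : ∃ g : ℝ → ℂ, g = fun v => ((Real.exp (-(π * v ^ 2)) : ℝ) : ℂ) := ⟨_, rfl⟩
  have hgi : Integrable g := hg ▸ hpgx_gint
  have hg0 : g 0 = 1 := by rw [hg]; simp
  have hri : Integrable fun u => k u - k 0 * g u := hi.sub (hgi.const_mul _)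
  have hr := hpgx_r (fun u => k u - k 0 * g u) hri (by simp [hg0]) (L + ‖k 0‖ * π) (min δ 1)
    (lt_min hδ one_pos) (fun u hu => by
      have hu1 : |u| ≤ δ := hu.trans (min_le_left _ _)
      have hu2 : |u| ≤ 1 := hu.trans (min_le_right _ _)
      have e : k u - k 0 * g u = (k u - k 0) + k 0 * (1 - g u) := by ring
      have h3 : ‖1 - g u‖ ≤ π * |u| := by
        rw [hg]
        simp only
        rw [← Complex.ofReal_one, ← Complex.ofReal_sub, Complex.norm_real, Real.norm_eq_abs]
        have h4 : Real.exp (-(π * u ^ 2)) ≤ 1 := Real.exp_le_one_iff.2 (by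
          have := Real.pi_pos
          have : 0 ≤ π * u ^ 2 := by positivity
          linarith)
        have h5 := Real.add_one_le_exp (-(π * u ^ 2))
        rw [abs_of_nonneg (by linarith)]
        have h6 : u ^ 2 ≤ |u| := by
          rw [← sq_abs]
          nlinarith [abs_nonneg u]
        nlinarith [Real.pi_pos]
      rw [e]
      refine (norm_add_le _ _).trans ?_
      rw [norm_mul]
      have h7 := hL u hu1
      have h8 := mul_le_mul_of_nonneg_left h3 (norm_nonneg (k 0))
      nlinarith)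
  have hgt : Filter.Tendsto (fun T : ℝ => ∫ τ in (-T)..T, ((Real.exp (-(π * τ ^ 2)) : ℝ) : ℂ))
      Filter.atTop (nhds 1) := by
    have := intervalIntegral_tendsto_integral (a := fun T : ℝ => -T) (b := fun T : ℝ => T)
      (l := Filter.atTop) hpgx_gint Filter.tendsto_neg_atTop_atBot Filter.tendsto_id
    rwa [hpgx_gauss_int] at this
  have hsum := hr.add (hgt.const_mul (k 0))
  rw [zero_add, mul_one] at hsum
  refine hsum.congr fun T => ?_
  have hgc : Continuous fun τ : ℝ => ((Real.exp (-(π * τ ^ 2)) : ℝ) : ℂ) := by fun_prop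
  have hgc2 : Continuous fun τ : ℝ => k 0 * ((Real.exp (-(π * τ ^ 2)) : ℝ) : ℂ) :=
    continuous_const.mul hgc
  rw [← intervalIntegral.integral_const_mul, ← intervalIntegral.integral_add
    ((hpgx_cont _ hri).intervalIntegrable _ _) (hgc2.intervalIntegrable _ _)]
  refine intervalIntegral.integral_congr fun τ _ => ?_
  have e1 : ∀ v : ℝ, (k v - k 0 * g v) * ex (τ * v) =
      k v * ex (τ * v) - k 0 * (g v * ex (τ * v)) := fun v => by ring
  simp only [e1]
  rw [integral_sub (hpgx_int k hi τ) ((hpgx_int g hgi τ).const_mul _), integral_const_mul, hg,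
    hpgx_gauss]
  ring

/-
ROW PG1 (0.8 h). dirichlet_pt. With D_T x = ∫ τ in (-T)..T, ex (τ x) = sin(2πT x)/(π x) (x ≠ 0): by Fubini the expression is ∫ h(u) D_T(u - v) du. Compare with the Gaussian
g(u) = exp(-π (u - v)²): for it the expression is ∫ τ in (-T)..T, exp(-π τ²) → 1 (Fourier transform of the Gaussian; intervalIntegral_tendsto_integral). The difference
r = h - h(v) g is integrable, r(v) = 0 and |r(u)| ≤ L'|u - v| near v, so r(u)/(u - v) is integrable and ∫ r(u)/(u-v) sin(2πT(u-v))/π du → 0 by Riemann–Lebesgue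
(Real.tendsto_integral_exp_smul_cocompact / Real.zero_at_infty_fourier; sin as combination of exponentials).
-/
theorem dirichlet_pt (h : ℝ → ℂ) (hi : Integrable h) (v : ℝ) (L δ : ℝ) (hδ : 0 < δ)
    (hL : ∀ u, |u - v| ≤ δ → ‖h u - h v‖ ≤ L * |u - v|) :
    Filter.Tendsto (fun T : ℝ => ∫ τ in (-T)..T, (∫ u, h u * ex (τ * u)) * ex (-(τ * v)))
      Filter.atTop (nhds (h v)) := by
  have hki : Integrable fun u : ℝ => h (u + v) := hi.comp_add_right v
  have key := hpgx_zero (fun u => h (u + v)) hki L δ hδ (fun u hu => by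
    have := hL (u + v) (by simpa using hu)
    simpa using this)
  simp only [zero_add] at key
  refine key.congr fun T => ?_
  refine intervalIntegral.integral_congr fun τ _ => ?_
  rw [← integral_mul_const]
  have e1 : ∀ u : ℝ, h (u + v) * ex (τ * u) =
      (fun z : ℝ => h z * ex (τ * z) * ex (-(τ * v))) (u + v) := by
    intro u
    simp only
    rw [mul_assoc, ← hkf_ex_add]
    congr 2
    ring
  simp only [e1]
  exact integral_add_right_eq_self (fun z : ℝ => h z * ex (τ * z) * ex (-(τ * v))) v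

end Pool.Agent.AXD
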