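import Pool.Agent.AXD.PG

namespace Pool.Agent.AXD

open MeasureTheory Set Pool.Agent.MP_6cbfb8_an Pool.Agent.MST
open scoped ENNReal Real

/-- the function on the half line whose Fourier transform is `gg` -/
noncomputable def hf (t u : ℝ) : ℂ :=
  if 0 < u then ((Real.exp (-(π * u)) * (Real.cos (2 * π * t * √u) / √u) : ℝ) : ℂ) else 0

/-
ROW PG2 (1 h). gg_eq: ∫ s exp(-π zt τ s²) ex(s t) ds = gg τ t (Mathlib fourierIntegral_gaussian with b = π zt τ: (π/b)^(1/2) = (1/zt τ)^(1/2) = (zt τ)^(-1/2), slit plane;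
 exponent -t'²/(4b) with t' = 2π t), then the even part: ex(s t) → cos(2π s t), and the substitution u = s² on (0, ∞).
PP_lim: exp(-π zt τ V) = exp(-πV) ex(τ V); dirichlet_pt for h = hf t at the point v = -V ≠ 0 (hf t is differentiable near v ≠ 0: for v < 0 it is 0 near v, for v > 0 it is smooth; get
the Lipschitz estimate from ContDiffAt.exists_lipschitzOnWith or HasDerivAt and continuity of the quotient), integrable (|hf| ≤ exp(-πu)/√u).
PP_bound: ‖PP T t V‖ ≤ C exp(-πV) |V|^(-1/2), C = C(t), for all T ≥ 0, V ≠ 0. By gg_neg the integral over (-T, 0) is similar to that over (0, T). On [0, min(T, 1/|V|)]: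
‖gg‖ ≤ (2τ)^(-1/2). On [1/|V|, T] (if 1/|V| < T) integrate by parts: ∫ gg(τ) ex(τV) dτ with ex(τV) = d/dτ ex(τV)/(-2πiV); ‖gg(τ)‖ ≤ (2τ)^(-1/2), ‖∂_τ gg(τ)‖ ≤ C(1+t²) τ^(-3/2)
(gg' = -(1/2) 2i zt^(-3/2) exp(..) + zt^(-1/2) exp(..) π t² 2i/zt²; ‖zt τ‖ ≥ 2τ, ≥ 1).
-/
theorem hpg2x_zt_exp (τ V : ℝ) : Complex.exp (-(π * zt τ * (V : ℂ))) =
    ((Real.exp (-(π * V)) : ℝ) : ℂ) * ex (τ * V) := by
  unfold ex zt
  rw [Complex.ofReal_exp, ← Complex.exp_add]
  congr 1
  push_cast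
  ring

theorem hpg2x_zt_inv (τ : ℝ) : ((π : ℂ) / (π * zt τ)) ^ (1 / 2 : ℂ) = (zt τ) ^ (-(1 / 2) : ℂ) := by
  have h1 : (π : ℂ) / (π * zt τ) = (zt τ)⁻¹ := by
    have h2 : (π : ℂ) ≠ 0 := by exact_mod_cast Real.pi_ne_zero
    have h3 := zt_ne τ
    field_simp
  have h2 : (zt τ).arg ≠ π := by
    intro h
    rw [Complex.arg_eq_pi_iff] at h
    have h3 := zt_re τ
    linarith [h.1]
  rw [h1, Complex.inv_cpow _ _ h2, Complex.cpow_neg]

theorem hpg2x_gauss (τ t : ℝ) :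
    ∫ x : ℝ, Complex.exp (Complex.I * ((2 * π * t : ℝ) : ℂ) * x) *
      Complex.exp (-((π : ℂ) * zt τ) * (x : ℂ) ^ 2) = gg τ t := by
  have hb : 0 < ((π : ℂ) * zt τ).re := by
    rw [Complex.re_ofReal_mul, zt_re, mul_one]
    exact Real.pi_pos
  rw [fourierIntegral_gaussian hb, hpg2x_zt_inv]
  unfold gg
  congr 2
  have h2 : (π : ℂ) ≠ 0 := by exact_mod_cast Real.pi_ne_zero
  have h3 := zt_ne τ
  push_cast
  field_simp
  ring

theorem hpg2x_integrable (τ t : ℝ) : Integrable fun x : ℝ =>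
    Complex.exp (Complex.I * ((2 * π * t : ℝ) : ℂ) * x) *
      Complex.exp (-((π : ℂ) * zt τ) * (x : ℂ) ^ 2) := by
  have h1 : Integrable fun x : ℝ => Real.exp (-π * x ^ 2) := integrable_exp_neg_mul_sq Real.pi_pos
  refine h1.mono' (Continuous.aestronglyMeasurable (by fun_prop)) (Filter.Eventually.of_forall fun x => ?_)
  rw [norm_mul, Complex.norm_exp, Complex.norm_exp]
  have h2 : (Complex.I * ((2 * π * t : ℝ) : ℂ) * x).re = 0 := by
    simp
  have h3 : (-((π : ℂ) * zt τ) * (x : ℂ) ^ 2).re = -π * x ^ 2 := by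
    have h4 : -((π : ℂ) * zt τ) * (x : ℂ) ^ 2 = ((-π * x ^ 2 : ℝ) : ℂ) * zt τ := by
      push_cast
      ring
    rw [h4, Complex.re_ofReal_mul, zt_re, mul_one]
  rw [h2, h3, Real.exp_zero, one_mul]

theorem hpg2x_hf (t u τ : ℝ) : hf t u * ex (τ * u) =
    (Ioi (0 : ℝ)).indicator (fun u => ((Real.exp (-(π * u)) *
      (Real.cos (2 * π * t * √u) / √u) : ℝ) : ℂ) * ex (τ * u)) u := by
  unfold hf
  by_cases h : 0 < u
  · rw [if_pos h, indicator_of_mem (show u ∈ Ioi (0 : ℝ) from h)]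
  · rw [if_neg h, indicator_of_notMem (show u ∉ Ioi (0 : ℝ) from h), zero_mul]

theorem hpg2x_even (F : ℝ → ℂ) (hF : Integrable F) :
    ∫ x, F x = ∫ x in Ioi (0 : ℝ), (F x + F (-x)) := by
  have h1 : ∫ x, F x = (∫ x in Iic (0 : ℝ), F x) + ∫ x in Ioi (0 : ℝ), F x :=
    (intervalIntegral.integral_Iic_add_Ioi hF.integrableOn hF.integrableOn).symm
  have h2 : ∫ x in Ioi (0 : ℝ), F (-x) = ∫ x in Iic (0 : ℝ), F x := by
    have h3 := integral_comp_neg_Ioi (0 : ℝ) F
    rw [neg_zero] at h3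
    exact h3
  rw [integral_add hF.integrableOn hF.comp_neg.integrableOn, h1, h2, add_comm]

theorem gg_eq (τ t : ℝ) : gg τ t = ∫ u, hf t u * ex (τ * u) := by
  simp only [hpg2x_hf]
  rw [integral_indicator measurableSet_Ioi, ← hpg2x_gauss, hpg2x_even _ (hpg2x_integrable τ t),
    ← integral_comp_rpow_Ioi_of_pos (g := fun u => ((Real.exp (-(π * u)) *
      (Real.cos (2 * π * t * √u) / √u) : ℝ) : ℂ) * ex (τ * u)) (p := 2) (by norm_num)]
  refine setIntegral_congr_fun measurableSet_Ioi fun x hx => ?_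
  have hx0 : (0 : ℝ) < x := hx
  have h1 : x ^ ((2 : ℝ) - 1) = x := by
    have : (2 : ℝ) - 1 = 1 := by norm_num
    rw [this, Real.rpow_one]
  have h2 : x ^ (2 : ℝ) = x ^ 2 := by exact_mod_cast Real.rpow_natCast x 2
  have h3 : √(x ^ 2) = x := Real.sqrt_sq hx0.le
  show _ = (2 * x ^ ((2 : ℝ) - 1)) • (((Real.exp (-(π * x ^ (2 : ℝ))) *
      (Real.cos (2 * π * t * √(x ^ (2 : ℝ))) / √(x ^ (2 : ℝ))) : ℝ) : ℂ) * ex (τ * x ^ (2 : ℝ)))
  rw [h1, h2, h3]
  have h4 : Complex.exp (-((π : ℂ) * zt τ) * (x : ℂ) ^ 2) =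
      ((Real.exp (-(π * x ^ 2)) : ℝ) : ℂ) * ex (τ * x ^ 2) := by
    rw [← hpg2x_zt_exp]
    congr 1
    push_cast
    ring
  have h5 : (((-x : ℝ)) : ℂ) ^ 2 = (x : ℂ) ^ 2 := by
    push_cast
    ring
  rw [h5, h4, ← add_mul]
  have h6 : Complex.exp (Complex.I * ((2 * π * t : ℝ) : ℂ) * x) +
      Complex.exp (Complex.I * ((2 * π * t : ℝ) : ℂ) * ((-x : ℝ) : ℂ)) =
      2 * ((Real.cos (2 * π * t * x) : ℝ) : ℂ) := by
    rw [Complex.ofReal_cos, Complex.two_cos]
    congr 2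
    · push_cast
      ring
    · push_cast
      ring
  rw [h6, Complex.real_smul]
  have h7 : (x : ℂ) ≠ 0 := by exact_mod_cast hx0.ne'
  push_cast
  field_simp

theorem hpg2x_meas (t : ℝ) : Measurable (hf t) := by
  unfold hf
  refine Measurable.ite measurableSet_Ioi ?_ measurable_const
  exact Complex.measurable_ofReal.comp (by fun_prop)

theorem integrable_hf (t : ℝ) : Integrable (hf t) := by
  have h1 : IntegrableOn (fun x : ℝ => x ^ (-(1 / 2) : ℝ) * Real.exp (-π * x ^ (1 : ℝ))) (Ioi 0) :=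
    integrableOn_rpow_mul_exp_neg_mul_rpow (by norm_num) one_pos Real.pi_pos
  have h2 := (integrable_indicator_iff measurableSet_Ioi).2 h1
  refine h2.mono' (hpg2x_meas t).aestronglyMeasurable (Filter.Eventually.of_forall fun u => ?_)
  unfold hf
  by_cases h : 0 < u
  · rw [if_pos h, indicator_of_mem (show u ∈ Ioi (0 : ℝ) from h), Complex.norm_real, norm_mul,
      Real.norm_eq_abs, Real.norm_eq_abs, abs_of_pos (Real.exp_pos _), abs_div,
      abs_of_nonneg (Real.sqrt_nonneg u), Real.rpow_one, mul_comm]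
    have h3 : u ^ (-(1 / 2) : ℝ) = 1 / √u := by
      rw [Real.rpow_neg h.le, Real.sqrt_eq_rpow, one_div, one_div]
    rw [h3]
    have h4 : Real.exp (-(π * u)) = Real.exp (-π * u) := by ring_nf
    rw [h4]
    refine mul_le_mul_of_nonneg_right ?_ (Real.exp_pos _).le
    exact div_le_div_of_nonneg_right (Real.abs_cos_le_one _) (Real.sqrt_nonneg u)
  · rw [if_neg h, indicator_of_notMem (show u ∉ Ioi (0 : ℝ) from h), norm_zero]

theorem hpg2x_diff (t v : ℝ) (hv : v ≠ 0) : DifferentiableAt ℝ (hf t) v := by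
  rcases lt_or_gt_of_ne hv with h | h
  · have h1 : hf t =ᶠ[nhds v] fun _ => 0 := by
      filter_upwards [Iio_mem_nhds h] with u hu
      unfold hf
      exact if_neg (not_lt.2 (le_of_lt hu))
    exact h1.differentiableAt_iff.2 (differentiableAt_const _)
  · have h1 : hf t =ᶠ[nhds v] fun u => ((Real.exp (-(π * u)) *
        (Real.cos (2 * π * t * √u) / √u) : ℝ) : ℂ) := by
      filter_upwards [Ioi_mem_nhds h] with u hu
      unfold hf
      exact if_pos hu
    rw [h1.differentiableAt_iff]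
    have h2 : DifferentiableAt ℝ (fun u : ℝ => √u) v := (Real.hasDerivAt_sqrt hv).differentiableAt
    have h3 : √v ≠ 0 := (Real.sqrt_pos.2 h).ne'
    have h4 : DifferentiableAt ℝ (fun u : ℝ => Real.exp (-(π * u)) *
        (Real.cos (2 * π * t * √u) / √u)) v := by
      refine DifferentiableAt.mul (by fun_prop) (DifferentiableAt.div ?_ h2 h3)
      exact (h2.const_mul (2 * π * t)).cos
    exact (Complex.ofRealCLM.differentiableAt (x := _)).comp v h4

theorem PP_lim (t V : ℝ) (hV : V ≠ 0) : Filter.Tendsto (fun T : ℝ => PP T t V) Filter.atTop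
    (nhds (if V < 0 then ((Real.cos (2 * π * t * √(-V)) / √(-V) : ℝ) : ℂ) else 0)) := by
  have h1 : (fun u => hf t u - hf t (-V)) =O[nhds (-V)] fun u => u - (-V) :=
    (hpg2x_diff t (-V) (neg_ne_zero.2 hV)).isBigO_sub
  obtain ⟨C, hC⟩ := h1.bound
  rw [Metric.eventually_nhds_iff] at hC
  obtain ⟨ε, hε, hC⟩ := hC
  have h2 := dirichlet_pt (hf t) (integrable_hf t) (-V) C (ε / 2) (half_pos hε) (fun u hu => by
    refine hC ?_
    rw [Real.dist_eq]
    linarith)
  have h3 : ∀ T : ℝ, PP T t V = ((Real.exp (-(π * V)) : ℝ) : ℂ) *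
      ∫ τ in (-T)..T, (∫ u, hf t u * ex (τ * u)) * ex (-(τ * (-V))) := by
    intro T
    unfold PP
    rw [← intervalIntegral.integral_const_mul]
    refine intervalIntegral.integral_congr fun τ _ => ?_
    show gg τ t * Complex.exp (-(π * zt τ * (V : ℂ))) = _
    rw [hpg2x_zt_exp, gg_eq, mul_neg, neg_neg]
    ring
  have h4 : (if V < 0 then ((Real.cos (2 * π * t * √(-V)) / √(-V) : ℝ) : ℂ) else 0) =
      ((Real.exp (-(π * V)) : ℝ) : ℂ) * hf t (-V) := by
    unfold hf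
    by_cases h5 : V < 0
    · rw [if_pos h5, if_pos (neg_pos.2 h5), ← Complex.ofReal_mul, ← mul_assoc, ← Real.exp_add]
      have h6 : -(π * V) + -(π * -V) = 0 := by ring
      rw [h6, Real.exp_zero, one_mul]
    · rw [if_neg h5, if_neg (fun h6 => h5 (neg_pos.1 h6)), mul_zero]
  rw [h4]
  simp only [h3]
  exact h2.const_mul _

end Pool.Agent.AXD
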