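import Pool.Agent.AXD.P2

namespace Pool.Agent.AXD

open MeasureTheory Set Pool.Agent.MP_6cbfb8_an Pool.Agent.MST
open scoped ENNReal Real

theorem hpix_meas {m : ℕ} (ρ a b : ℝ) (l : (Fin m → ℝ) × ℝ) (G : E m → ℂ) (hG : Measurable G) :
    Measurable fun q : ℝ × E m => ‖op ρ one a b l q.1 G q.2‖ₑ := by
  have h1 := measurable_op (m := m) ρ one continuous_const a b G hG
  have h2 : Measurable fun q : ℝ × E m => (((l, q.1) : ((Fin m → ℝ) × ℝ) × ℝ), q.2) :=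
    (measurable_const.prodMk measurable_fst).prodMk measurable_snd
  have h3 := (h1.comp h2).enorm
  simp only [Function.comp_def] at h3
  exact h3

theorem hpix_g (x C : ℝ) (hx : x < 1) (hC : 0 < C) :
    Integrable fun s : ℝ => |s| ^ (-x) * Real.exp (-(s ^ 2 / C)) := by
  have hI : IntegrableOn (fun s : ℝ => |s| ^ (-x) * Real.exp (-(s ^ 2 / C))) (Ioi 0) := by
    refine (integrableOn_rpow_mul_exp_neg_mul_sq (b := 1 / C) (s := -x) (by positivity)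
      (by linarith)).congr_fun (fun s hs => ?_) measurableSet_Ioi
    have hs' : (0:ℝ) < s := hs
    simp only
    rw [abs_of_pos hs']
    congr 2
    ring
  have hJ : IntegrableOn (fun s : ℝ => |s| ^ (-x) * Real.exp (-(s ^ 2 / C))) (Iic 0) := by
    rw [← Measure.map_neg_eq_self (volume : Measure ℝ)]
    let m : MeasurableEmbedding fun x : ℝ => -x := (Homeomorph.neg ℝ).measurableEmbedding
    rw [m.integrableOn_map_iff]
    simp_rw [Function.comp_def, abs_neg, neg_preimage, neg_Iic, neg_zero, neg_sq]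
    exact (integrableOn_Ici_iff_integrableOn_Ioi (by simp)).2 hI
  rw [← integrableOn_univ, ← Iic_union_Ioi (a := (0:ℝ))]
  exact hJ.union hI

theorem hpix_scale (x C : ℝ) (hx : x < 1) (hC : 0 < C) : ∃ K : ℝ, 0 < K ∧ ∀ R : ℝ, 0 < R →
    ∫⁻ t : ℝ, ENNReal.ofReal (|t| ^ (-x)) *
      ENNReal.ofReal (C * Real.exp (-(t ^ 2 / (C * R ^ 2)))) ≤
      ENNReal.ofReal (K * R ^ (1 - x)) := by
  have hg := hpix_g x C hx hC
  have hI0 : 0 ≤ ∫ s : ℝ, |s| ^ (-x) * Real.exp (-(s ^ 2 / C)) :=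
    integral_nonneg fun s => by positivity
  refine ⟨C * (∫ s : ℝ, |s| ^ (-x) * Real.exp (-(s ^ 2 / C))) + 1, by positivity, fun R hR => ?_⟩
  have e1 : ∀ t : ℝ, ENNReal.ofReal (|t| ^ (-x)) *
      ENNReal.ofReal (C * Real.exp (-(t ^ 2 / (C * R ^ 2)))) =
      ENNReal.ofReal (C * R ^ (-x) *
        (|R⁻¹ * t| ^ (-x) * Real.exp (-((R⁻¹ * t) ^ 2 / C)))) := by
    intro t
    rw [← ENNReal.ofReal_mul (by positivity)]
    congr 1
    have h1 : |R⁻¹ * t| ^ (-x) = R ^ x * |t| ^ (-x) := by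
      rw [abs_mul, abs_of_pos (inv_pos.2 hR), Real.mul_rpow (by positivity) (abs_nonneg _),
        Real.inv_rpow hR.le, Real.rpow_neg hR.le, inv_inv]
    have h2 : (R⁻¹ * t) ^ 2 / C = t ^ 2 / (C * R ^ 2) := by
      field_simp
    have h3 : R ^ (-x) * R ^ x = 1 := by
      rw [← Real.rpow_add hR]; simp
    rw [h1, h2]
    calc |t| ^ (-x) * (C * Real.exp (-(t ^ 2 / (C * R ^ 2))))
        = (R ^ (-x) * R ^ x) * (|t| ^ (-x) * (C * Real.exp (-(t ^ 2 / (C * R ^ 2))))) := by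
          rw [h3, one_mul]
      _ = _ := by ring
  simp only [e1]
  have hg' : Integrable fun t : ℝ => |R⁻¹ * t| ^ (-x) * Real.exp (-((R⁻¹ * t) ^ 2 / C)) :=
    hg.comp_mul_left' (inv_ne_zero hR.ne')
  rw [← ofReal_integral_eq_lintegral_ofReal (hg'.const_mul _)
    (Filter.Eventually.of_forall fun t => by positivity), integral_const_mul,
    Measure.integral_comp_inv_mul_left (fun s : ℝ => |s| ^ (-x) * Real.exp (-(s ^ 2 / C))) R,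
    abs_of_pos hR, smul_eq_mul]
  refine ENNReal.ofReal_le_ofReal ?_
  have h4 : R ^ (1 - x) = R ^ (-x) * R := by
    rw [sub_eq_add_neg, add_comm, Real.rpow_add hR, Real.rpow_one]
  rw [h4]
  have h5 : 0 ≤ R ^ (-x) * R := by positivity
  nlinarith [h5, hI0]


/-- the abstract interpolation -/
theorem hpix_core {m : ℕ} (F : ℝ → E m → ℝ≥0∞) (hFm : Measurable fun q : ℝ × E m => F q.1 q.2)
    (p θ a b x : ℝ) (ha0 : 0 < a) (hb0 : 0 < b) (hab : a + b = 1) (hpa : p = 2 * a + 4 * b)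
    (hxa : x * a = θ * b) :
    ∫⁻ t, ∫⁻ y, F t y ^ p ≤
      (∫⁻ t, ENNReal.ofReal (|t| ^ (-x)) * ∫⁻ y, F t y ^ (2:ℝ)) ^ a *
        (∫⁻ t, ENNReal.ofReal (|t| ^ θ) * ∫⁻ y, F t y ^ (4:ℝ)) ^ b := by
  have hb1 : b = 1 - a := by linarith
  have hFt : ∀ t, Measurable (F t) := fun t => hFm.comp measurable_prodMk_left
  have hFs : ∀ s : ℝ, Measurable fun t => ∫⁻ y, F t y ^ s := fun s =>
    Measurable.lintegral_prod_right' (f := fun q : ℝ × E m => F q.1 q.2 ^ s) (hFm.pow_const s)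
  have h1 : ∀ t, ∫⁻ y, F t y ^ p ≤ (∫⁻ y, F t y ^ (2:ℝ)) ^ a * (∫⁻ y, F t y ^ (4:ℝ)) ^ b := by
    intro t
    have := lintegral_interp (μ := (volume : Measure (E m))) (F t) (hFt t) (p := p) (q := 4)
      (a := a) ha0.le (by linarith) (by norm_num) (by rw [hpa, hb1])
    rwa [← hb1] at this
  have h2 : ∀ t : ℝ, t ≠ 0 → ∫⁻ y, F t y ^ p ≤
      (ENNReal.ofReal (|t| ^ (-x)) * ∫⁻ y, F t y ^ (2:ℝ)) ^ a *
      (ENNReal.ofReal (|t| ^ θ) * ∫⁻ y, F t y ^ (4:ℝ)) ^ b := by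
    intro t ht
    have ht0 : 0 < |t| := abs_pos.2 ht
    refine (h1 t).trans (le_of_eq ?_)
    rw [ENNReal.mul_rpow_of_nonneg _ _ ha0.le, ENNReal.mul_rpow_of_nonneg _ _ hb0.le,
      ENNReal.ofReal_rpow_of_nonneg (by positivity) ha0.le,
      ENNReal.ofReal_rpow_of_nonneg (by positivity) hb0.le, ← Real.rpow_mul ht0.le,
      ← Real.rpow_mul ht0.le]
    have h3 : ENNReal.ofReal (|t| ^ (-x * a)) * ENNReal.ofReal (|t| ^ (θ * b)) = 1 := by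
      rw [← ENNReal.ofReal_mul (by positivity), ← Real.rpow_add ht0]
      have : -x * a + θ * b = 0 := by rw [← hxa]; ring
      rw [this, Real.rpow_zero, ENNReal.ofReal_one]
    calc (∫⁻ y, F t y ^ (2:ℝ)) ^ a * (∫⁻ y, F t y ^ (4:ℝ)) ^ b
        = (ENNReal.ofReal (|t| ^ (-x * a)) * ENNReal.ofReal (|t| ^ (θ * b))) *
          ((∫⁻ y, F t y ^ (2:ℝ)) ^ a * (∫⁻ y, F t y ^ (4:ℝ)) ^ b) := by rw [h3, one_mul]
      _ = _ := by ring
  have hw : Measurable fun t : ℝ => ENNReal.ofReal (|t| ^ (-x)) := by fun_prop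
  have hw' : Measurable fun t : ℝ => ENNReal.ofReal (|t| ^ θ) := by fun_prop
  calc ∫⁻ t, ∫⁻ y, F t y ^ p
      ≤ ∫⁻ t, (ENNReal.ofReal (|t| ^ (-x)) * ∫⁻ y, F t y ^ (2:ℝ)) ^ a *
          (ENNReal.ofReal (|t| ^ θ) * ∫⁻ y, F t y ^ (4:ℝ)) ^ b := by
        refine lintegral_mono_ae ?_
        have h0' : ∀ᵐ t : ℝ, t ≠ 0 := by
          rw [ae_iff]
          simp
        filter_upwards [h0'] with t ht
        exact h2 t ht
    _ ≤ _ := ENNReal.lintegral_mul_norm_pow_le (hw.mul (hFs 2)).aemeasurable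
          (hw'.mul (hFs 4)).aemeasurable ha0.le hb0.le hab

/-
ROW PI1 (1 h). One dyadic piece. a = (4-p)/2, b = (p-2)/2 (a + b = 1, 2a + 4b = p, a, b > 0), σ = (4-p)/(p-2) = a/b, x = θ/σ < 1 (x a = θ b). Pointwise in (t, y) for t ≠ 0:
 ‖F‖^p = (|t|^(-x) ‖F‖²)^a (|t|^θ ‖F‖⁴)^b. Hölder (ENNReal.lintegral_mul_le_Lp_mul_Lq with exponents 1/a, 1/b on the product measure; or the form lintegral_mul_rpow / the
 lemma `interp` used in Pool.Agent.AEL.IP): ∫∫ ‖F‖^p ≤ (∫∫ |t|^(-x) ‖F‖²)^a (∫∫ |t|^θ ‖F‖⁴)^b; the first is ≤ C ∫ |t|^(-x) exp(-t²/(C 4^k)) dt = C' (2^k)^(1-x) (scaling t = 2^k s),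
 the second is L4.
-/
theorem interp {m : ℕ} (hm : 2 ≤ m) (ρ : ℝ) (p θ : ℝ) (hp : 2 < p) (hp4 : p < 4)
    (h0 : 0 ≤ θ) (hθ : θ < (4 - p) / (p - 2)) (l : Fin m → ℝ) (hl : ∀ i, 0 < l i) :
    ∃ C : ℝ, 0 < C ∧ ∀ κ ∈ Icc (1:ℝ) 2, ∀ (k : ℕ) (G : E m → ℂ), Measurable G →
      (∀ w, ‖G w‖ ≤ 1) →
      ∫⁻ t, ∫⁻ y, ‖op ρ one ((2:ℝ) ^ k) (2 * (2:ℝ) ^ k) (κ • l, κ) t G y‖ₑ ^ p ≤
        ENNReal.ofReal (C * ((2:ℝ) ^ k) ^ (((4 - p) - θ * (p - 2)) / 2)) *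
          (L4 ρ θ one ((2:ℝ) ^ k) (2 * (2:ℝ) ^ k) G (κ • l, κ)) ^ ((p - 2) / 2) := by
  obtain ⟨C, hC, hL2⟩ := L2_bound hm ρ l hl
  obtain ⟨a, ha⟩ : ∃ a : ℝ, a = (4 - p) / 2 := ⟨_, rfl⟩
  obtain ⟨b, hb⟩ : ∃ b : ℝ, b = (p - 2) / 2 := ⟨_, rfl⟩
  have ha0 : 0 < a := by rw [ha]; linarith
  have hb0 : 0 < b := by rw [hb]; linarith
  have hab : a + b = 1 := by rw [ha, hb]; ring
  obtain ⟨x, hx⟩ : ∃ x : ℝ, x = θ * b / a := ⟨_, rfl⟩
  have hxa : x * a = θ * b := by rw [hx]; field_simp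
  have hx1 : x < 1 := by
    rw [hx, div_lt_one ha0]
    rw [lt_div_iff₀ (by linarith)] at hθ
    rw [ha, hb]
    linarith
  obtain ⟨K, hK, hsc⟩ := hpix_scale x C hx1 hC
  refine ⟨K ^ a, by positivity, fun κ hκ k G hG hGb => ?_⟩
  have hR0 : (0:ℝ) < (2:ℝ) ^ k := by positivity
  have hFm := hpix_meas ρ ((2:ℝ) ^ k) (2 * (2:ℝ) ^ k) (κ • l, κ) G hG
  have h5 := hpix_core (fun t y => ‖op ρ one ((2:ℝ) ^ k) (2 * (2:ℝ) ^ k) (κ • l, κ) t G y‖ₑ) hFm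
    p θ a b x ha0 hb0 hab (by rw [ha, hb]; ring) hxa
  have h4 : ∫⁻ t, ENNReal.ofReal (|t| ^ (-x)) *
      ∫⁻ y, ‖op ρ one ((2:ℝ) ^ k) (2 * (2:ℝ) ^ k) (κ • l, κ) t G y‖ₑ ^ (2:ℝ) ≤
      ENNReal.ofReal (K * ((2:ℝ) ^ k) ^ (1 - x)) := by
    refine le_trans (lintegral_mono fun t => ?_) (hsc ((2:ℝ) ^ k) hR0)
    exact mul_le_mul' le_rfl (hL2 κ hκ k t G hG hGb)
  have h6 : ENNReal.ofReal (K * ((2:ℝ) ^ k) ^ (1 - x)) ^ a =
      ENNReal.ofReal (K ^ a * ((2:ℝ) ^ k) ^ (((4 - p) - θ * (p - 2)) / 2)) := by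
    rw [ENNReal.ofReal_rpow_of_nonneg (by positivity) ha0.le,
      Real.mul_rpow hK.le (by positivity), ← Real.rpow_mul hR0.le]
    have e : (1 - x) * a = ((4 - p) - θ * (p - 2)) / 2 := by
      rw [sub_mul, one_mul, hxa, ha, hb]
      ring
    rw [e]
  rw [← hb, ← h6]
  exact h5.trans (mul_le_mul' (ENNReal.rpow_le_rpow h4 ha0.le) le_rfl)

end Pool.Agent.AXD
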