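import Pool.Agent.AXD.PK1

namespace Pool.Agent.AXD

open MeasureTheory Set Pool.Agent.MP_6cbfb8_an Pool.Agent.MST
open scoped ENNReal Real

/-
ROW PK2 (1 h). The averaged kernel. If one of the four points is outside of the cube the product of the amG's is 0 (am_zero). Otherwise each amG is the integral over
τ_j ∈ [R, 2R] of jj (intervalIntegral.integral_of_le, Icc/Ioc), the product is the integral over Box R (volume.restrict (Box R) = Measure.pi ..., hkr_meas in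
Pool.Agent.AEL.KR is the same computation; integral_fintype_prod_eq_prod with factors depending on j), exchange with ∫ ∂nu (integral_integral_swap: the integrand is
measurable and bounded on Box R (bound as in amG_bound), nu finite), norm_integral_le.. (enorm_integral_le_lintegral_enorm) and kern_fixed for every τ ∈ Box R.
-/

theorem hpkx_box (R : ℝ) : Box R = Set.univ.pi fun _ : Fin 4 => Icc R (2 * R) := by
  ext t
  rw [Set.mem_univ_pi]
  rfl

theorem hpkx_meas (R : ℝ) : (volume : Measure (Fin 4 → ℝ)).restrict (Box R) =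
    Measure.pi fun _ : Fin 4 => (volume : Measure ℝ).restrict (Icc R (2 * R)) := by
  rw [hpkx_box, volume_pi, Measure.restrict_pi_pi]

theorem hpkx_mbox (R : ℝ) : MeasurableSet (Box R) := by
  rw [hpkx_box]
  exact MeasurableSet.univ_pi fun _ => measurableSet_Icc

/-- the amplitude as an integral over the frequencies -/
theorem hpkx_amG {m : ℕ} (ρ : ℝ) (A : ℝ → ℂ) (R : ℝ) (hR : 0 ≤ R) (p : ((Fin m → ℝ) × ℝ) × ℝ)
    (w : E m) (hw : ∀ i, |w i| ≤ ρ) : amG ρ A R (2 * R) p w =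
      ∫ τ, jj A τ p w ∂(volume.restrict (Icc R (2 * R))) := by
  unfold amG am jj
  rw [if_pos hw, intervalIntegral.integral_of_le (by linarith), integral_Icc_eq_integral_Ioc,
    ← integral_const_mul]

theorem hpkx_norm_jj {m : ℕ} (ρ : ℝ) (A : ℝ → ℂ) (τ : ℝ) (hA : ‖A τ‖ ≤ 1)
    (p : ((Fin m → ℝ) × ℝ) × ℝ) (w : E m) (hw : ∀ i, |w i| ≤ ρ) :
    ‖jj A τ p w‖ ≤ Real.exp (π * (2 * ρ ^ 4 * m + 2)) := by
  unfold jj
  rw [norm_mul, norm_mul, norm_mul, norm_exp_zt, Complex.norm_real, Real.norm_eq_abs,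
    abs_of_pos (Real.exp_pos _)]
  have h1 : ‖A τ‖ * ‖gg τ p.2‖ ≤ 1 := by
    calc _ ≤ 1 * 1 := mul_le_mul hA (norm_gg_le_one _ _) (norm_nonneg _) zero_le_one
      _ = 1 := one_mul _
  calc Real.exp (-(π / 8 * ((∑ i, p.1.1 i ^ 2) + p.1.2 ^ 2))) *
        (‖A τ‖ * ‖gg τ p.2‖ * Real.exp (-(π * (ql p.1.1 w - p.1.2))))
      ≤ Real.exp (-(π / 8 * ((∑ i, p.1.1 i ^ 2) + p.1.2 ^ 2))) *
        (1 * Real.exp (-(π * (ql p.1.1 w - p.1.2)))) := by gcongr
    _ = Real.exp (-(π / 8 * ((∑ i, p.1.1 i ^ 2) + p.1.2 ^ 2)) + -(π * (ql p.1.1 w - p.1.2))) := by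
        rw [one_mul, Real.exp_add]
    _ ≤ _ := by
        apply Real.exp_le_exp.2
        have h2 : ∀ i, -(1 / 8 * p.1.1 i ^ 2) - p.1.1 i * w i ^ 2 ≤ 2 * ρ ^ 4 := by
          intro i
          have h3 : w i ^ 2 ≤ ρ ^ 2 := by
            rw [← sq_abs]
            exact pow_le_pow_left₀ (abs_nonneg _) (hw i) 2
          have h4 : (w i ^ 2) ^ 2 ≤ (ρ ^ 2) ^ 2 := pow_le_pow_left₀ (sq_nonneg _) h3 2
          nlinarith [sq_nonneg (p.1.1 i + 4 * w i ^ 2)]
        have h5 : ∑ i, (-(1 / 8 * p.1.1 i ^ 2) - p.1.1 i * w i ^ 2) ≤ 2 * ρ ^ 4 * m := by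
          calc _ ≤ ∑ i : Fin m, 2 * ρ ^ 4 := Finset.sum_le_sum fun i _ => h2 i
            _ = _ := by
              rw [Finset.sum_const, Finset.card_univ, Fintype.card_fin, nsmul_eq_mul]
              ring
        have h6 : ∑ i, (-(1 / 8 * p.1.1 i ^ 2) - p.1.1 i * w i ^ 2) =
            -(1 / 8 * ∑ i, p.1.1 i ^ 2) - ql p.1.1 w := by
          unfold ql
          rw [Finset.sum_sub_distrib, Finset.sum_neg_distrib, Finset.mul_sum]
        rw [h6] at h5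
        have h7 : -(1 / 8 * p.1.2 ^ 2) + p.1.2 ≤ 2 := by
          nlinarith [sq_nonneg (p.1.2 - 4)]
        have h8 : -(π / 8 * ((∑ i, p.1.1 i ^ 2) + p.1.2 ^ 2)) + -(π * (ql p.1.1 w - p.1.2)) =
            π * ((-(1 / 8 * ∑ i, p.1.1 i ^ 2) - ql p.1.1 w) +
              (-(1 / 8 * p.1.2 ^ 2) + p.1.2)) := by ring
        rw [h8]
        exact mul_le_mul_of_nonneg_left (add_le_add h5 h7) Real.pi_pos.le

theorem hpkx_cont_jj {m : ℕ} (A : ℝ → ℂ) (hA : Continuous A) (w : E m) :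
    Continuous fun q : ((((Fin m → ℝ) × ℝ) × ℝ)) × ℝ => jj A q.2 q.1 w := by
  unfold jj
  have h1 : Continuous fun q : ((((Fin m → ℝ) × ℝ) × ℝ)) × ℝ => gg q.2 q.1.2 :=
    Continuous.comp (g := fun q : ℝ × ℝ => gg q.1 q.2)
      (f := fun q : ((((Fin m → ℝ) × ℝ) × ℝ)) × ℝ => (q.2, q.1.2)) continuous_gg (by fun_prop)
  have h2 : Continuous fun q : ((((Fin m → ℝ) × ℝ) × ℝ)) × ℝ => zt q.2 :=
    continuous_zt.comp continuous_snd
  have h3 : Continuous fun q : ((((Fin m → ℝ) × ℝ) × ℝ)) × ℝ => ql q.1.1.1 w := by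
    unfold ql
    fun_prop
  have h4 : Continuous fun q : ((((Fin m → ℝ) × ℝ) × ℝ)) × ℝ =>
      ((ql q.1.1.1 w - q.1.1.2 : ℝ) : ℂ) :=
    Complex.continuous_ofReal.comp (h3.sub (by fun_prop))
  have h5 : Continuous fun q : ((((Fin m → ℝ) × ℝ) × ℝ)) × ℝ =>
      ((Real.exp (-(π / 8 * ((∑ i, q.1.1.1 i ^ 2) + q.1.1.2 ^ 2))) : ℝ) : ℂ) :=
    Complex.continuous_ofReal.comp (by fun_prop)
  have h6 : Continuous fun q : ((((Fin m → ℝ) × ℝ) × ℝ)) × ℝ => A q.2 :=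
    hA.comp continuous_snd
  exact h5.mul ((h6.mul h1).mul (Complex.continuous_exp.comp
    ((continuous_const.mul h2).mul h4).neg))

theorem kern {m : ℕ} (ρ θ : ℝ) (hρ : 1 ≤ ρ) (h0 : 0 ≤ θ) (h1 : θ ≤ 1) : ∃ C : ℝ, 0 < C ∧
    ∀ (R T : ℝ), 1 ≤ R → R ≤ T → ∀ A : ℝ → ℂ, Continuous A → (∀ τ ∈ Icc R (2 * R), ‖A τ‖ ≤ 1) →
    ∀ q : E m × E m × E m,
    ‖∫ p, amG ρ A R (2 * R) p q.1 * amG ρ A R (2 * R) p (q.1 - q.2.1 - q.2.2) *
      (starRingEnd ℂ) (amG ρ A R (2 * R) p (q.1 - q.2.1)) *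
      (starRingEnd ℂ) (amG ρ A R (2 * R) p (q.1 - q.2.2)) ∂(nu m θ T)‖ₑ ≤
    ∫⁻ τ in Box R, ENNReal.ofReal (C * R ^ (-((1 - θ) / 2)) * kw R τ) *
      ∏ i, fc ρ τ (q.1 i, q.2.1 i, q.2.2 i) := by
  obtain ⟨C, hC, hk⟩ := kern_fixed (m := m) ρ θ hρ h0 h1
  refine ⟨C, hC, fun R T hR hRT A hA hA1 q => ?_⟩
  obtain ⟨w, y, z⟩ := q
  simp only
  have hR0 : 0 ≤ R := by linarith
  have hfin : IsFiniteMeasure (nu m θ T) := finite_nu m θ T h0 (by linarith)
  have hfin2 : IsFiniteMeasure ((volume : Measure (Fin 4 → ℝ)).restrict (Box R)) := by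
    rw [hpkx_meas]
    infer_instance
  by_cases h : ∀ i, inC ρ (w i) (y i) (z i)
  · have hw1 : ∀ i, |w i| ≤ ρ := fun i => (h i).1
    have hw2 : ∀ i, |(w - y - z) i| ≤ ρ := fun i => (h i).2.1
    have hw3 : ∀ i, |(w - y) i| ≤ ρ := fun i => (h i).2.2.1
    have hw4 : ∀ i, |(w - z) i| ≤ ρ := fun i => (h i).2.2.2
    set J : Fin 4 → (((Fin m → ℝ) × ℝ) × ℝ) → ℝ → ℂ := fun k p τ =>
      ![jj A τ p w, jj A τ p (w - y - z), (starRingEnd ℂ) (jj A τ p (w - y)),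
        (starRingEnd ℂ) (jj A τ p (w - z))] k with hJ
    have e1 : ∀ p : ((Fin m → ℝ) × ℝ) × ℝ,
        amG ρ A R (2 * R) p w * amG ρ A R (2 * R) p (w - y - z) *
        (starRingEnd ℂ) (amG ρ A R (2 * R) p (w - y)) *
        (starRingEnd ℂ) (amG ρ A R (2 * R) p (w - z)) = ∫ τ in Box R, ∏ k, J k p (τ k) := by
      intro p
      rw [hpkx_meas, integral_fintype_prod_eq_prod (fun k (τ : ℝ) => J k p τ), Fin.prod_univ_four,
        hpkx_amG ρ A R hR0 p w hw1, hpkx_amG ρ A R hR0 p _ hw2, hpkx_amG ρ A R hR0 p _ hw3,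
        hpkx_amG ρ A R hR0 p _ hw4, ← integral_conj, ← integral_conj]
      rfl
    simp only [e1]
    have hJc : ∀ k, Continuous fun q : ((((Fin m → ℝ) × ℝ) × ℝ)) × ℝ => J k q.1 q.2 := by
      intro k
      fin_cases k
      · exact hpkx_cont_jj A hA w
      · exact hpkx_cont_jj A hA (w - y - z)
      · exact Complex.continuous_conj.comp (hpkx_cont_jj A hA (w - y))
      · exact Complex.continuous_conj.comp (hpkx_cont_jj A hA (w - z))
    have hJb : ∀ k p, ∀ τ ∈ Icc R (2 * R), ‖J k p τ‖ ≤ Real.exp (π * (2 * ρ ^ 4 * m + 2)) := by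
      intro k p τ hτ
      fin_cases k
      · exact hpkx_norm_jj ρ A τ (hA1 τ hτ) p w hw1
      · exact hpkx_norm_jj ρ A τ (hA1 τ hτ) p _ hw2
      · show ‖(starRingEnd ℂ) (jj A τ p (w - y))‖ ≤ _
        rw [RCLike.norm_conj]
        exact hpkx_norm_jj ρ A τ (hA1 τ hτ) p _ hw3
      · show ‖(starRingEnd ℂ) (jj A τ p (w - z))‖ ≤ _
        rw [RCLike.norm_conj]
        exact hpkx_norm_jj ρ A τ (hA1 τ hτ) p _ hw4
    have h4 : ∀ (p : ((Fin m → ℝ) × ℝ) × ℝ) (τ : Fin 4 → ℝ), ∏ k, J k p (τ k) =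
        jj A (τ 0) p w * jj A (τ 1) p (w - y - z) *
        (starRingEnd ℂ) (jj A (τ 2) p (w - y)) * (starRingEnd ℂ) (jj A (τ 3) p (w - z)) := by
      intro p τ
      rw [Fin.prod_univ_four]
      rfl
    clear_value J
    have hc : Continuous fun q : (((Fin m → ℝ) × ℝ) × ℝ) × (Fin 4 → ℝ) =>
        ∏ k, J k q.1 (q.2 k) := by
      refine continuous_finsetProd _ fun k _ => ?_
      have h6 : Continuous fun q : (((Fin m → ℝ) × ℝ) × ℝ) × (Fin 4 → ℝ) =>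
          ((q.1, q.2 k) : (((Fin m → ℝ) × ℝ) × ℝ) × ℝ) := by fun_prop
      exact (hJc k).comp h6
    have hb : ∀ᵐ q ∂((nu m θ T).prod ((volume : Measure (Fin 4 → ℝ)).restrict (Box R))),
        ‖∏ k, J k q.1 (q.2 k)‖ ≤ Real.exp (π * (2 * ρ ^ 4 * m + 2)) ^ 4 := by
      have h5 : ∀ᵐ q ∂((nu m θ T).prod ((volume : Measure (Fin 4 → ℝ)).restrict (Box R))),
          q.2 ∈ Box R :=
        Measure.quasiMeasurePreserving_snd.ae (ae_restrict_mem (hpkx_mbox R))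
      filter_upwards [h5] with q hq
      rw [norm_prod]
      calc ∏ k, ‖J k q.1 (q.2 k)‖ ≤ ∏ k : Fin 4, Real.exp (π * (2 * ρ ^ 4 * m + 2)) :=
            Finset.prod_le_prod (fun k _ => norm_nonneg _) fun k _ => hJb k q.1 (q.2 k) (hq k)
        _ = _ := by
            rw [Finset.prod_const, Finset.card_univ, Fintype.card_fin]
    have hint : Integrable (fun q : (((Fin m → ℝ) × ℝ) × ℝ) × (Fin 4 → ℝ) =>
        ∏ k, J k q.1 (q.2 k))
        ((nu m θ T).prod ((volume : Measure (Fin 4 → ℝ)).restrict (Box R))) :=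
      Integrable.of_bound hc.aestronglyMeasurable _ hb
    have hsw : ∫ p, (∫ τ in Box R, ∏ k, J k p (τ k)) ∂(nu m θ T) =
        ∫ τ in Box R, (∫ p, ∏ k, J k p (τ k) ∂(nu m θ T)) :=
      integral_integral_swap hint
    rw [hsw]
    refine (enorm_integral_le_lintegral_enorm _).trans ?_
    refine setLIntegral_mono' (hpkx_mbox R) fun τ hτ => ?_
    have h3 := hk R T hR hRT A hA1 τ hτ w y z h
    simp only [h4]
    exact h3
  · have e1 : ∀ p : ((Fin m → ℝ) × ℝ) × ℝ,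
        amG ρ A R (2 * R) p w * amG ρ A R (2 * R) p (w - y - z) *
        (starRingEnd ℂ) (amG ρ A R (2 * R) p (w - y)) *
        (starRingEnd ℂ) (amG ρ A R (2 * R) p (w - z)) = 0 := by
      intro p
      have hz : ∀ v : E m, (¬ ∀ i, |v i| ≤ ρ) → amG ρ A R (2 * R) p v = 0 := by
        intro v hv
        unfold amG
        rw [am_zero ρ A R (2 * R) p.1 p.2 v hv, mul_zero]
      by_cases h2 : ∀ i, |w i| ≤ ρ
      · by_cases h3 : ∀ i, |(w - y - z) i| ≤ ρ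
        · by_cases h4 : ∀ i, |(w - y) i| ≤ ρ
          · by_cases h5 : ∀ i, |(w - z) i| ≤ ρ
            · exact absurd (fun i => ⟨h2 i, h3 i, h4 i, h5 i⟩) h
            · rw [hz _ h5, map_zero, mul_zero]
          · rw [hz _ h4, map_zero, mul_zero, zero_mul]
        · rw [hz _ h3, mul_zero, zero_mul, zero_mul]
      · rw [hz _ h2, zero_mul, zero_mul, zero_mul]
    simp only [e1, integral_zero, enorm_zero]
    exact zero_le

end Pool.Agent.AXD
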