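import Pool.Agent.AXD.Defs

namespace Pool.Agent.AXD

open MeasureTheory Set Pool.Agent.MP_6cbfb8_an Pool.Agent.MST
open scoped ENNReal Real

/-
ROW PK0 (0.8 h). gauss_lin: Mathlib `fourierIntegral_gaussian` / `integral_cexp_quadratic` (∫ cexp (b x² + c x + d)). abs_gauss: the integral is 2 ∫ over t > 0 (even);
analytic continuation of the real formula.
-/
/-- one-dimensional Gaussian integral with a complex linear term -/
theorem gauss_lin (Z : ℂ) : ∫ x : ℝ, Complex.exp (-(π * (x : ℂ) ^ 2)) * Complex.exp (-(π * Z * x)) =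
    Complex.exp (π * Z ^ 2 / 4) := by
  have h := fourierIntegral_gaussian (b := (π : ℂ)) (by simpa using Real.pi_pos)
    (Complex.I * π * Z)
  have hpi : (π : ℂ) ≠ 0 := by exact_mod_cast Real.pi_ne_zero
  rw [div_self hpi, Complex.one_cpow, one_mul] at h
  have e1 : -(Complex.I * π * Z) ^ 2 / (4 * π) = π * Z ^ 2 / 4 := by
    field_simp
    rw [Complex.I_sq]
    ring
  rw [e1] at h
  rw [← h]
  refine integral_congr_ae (Filter.Eventually.of_forall fun x => ?_)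
  show Complex.exp (-(π * (x : ℂ) ^ 2)) * Complex.exp (-(π * Z * x)) =
    Complex.exp (Complex.I * (Complex.I * π * Z) * x) * Complex.exp (-π * (x : ℂ) ^ 2)
  rw [mul_comm]
  congr 2
  · have : Complex.I * (Complex.I * π * Z) * x = (Complex.I ^ 2) * (π * Z * x) := by ring
    rw [this, Complex.I_sq]
    ring
  · ring

/-- the measure `t ^ θ dt` on the half line -/
noncomputable def hpk0x_mu (θ : ℝ) : Measure ℝ :=
  (volume.restrict (Ioi (0:ℝ))).withDensity fun t => ENNReal.ofReal (|t| ^ θ)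

theorem hpk0x_meas (θ : ℝ) : Measurable fun t : ℝ => ENNReal.ofReal (|t| ^ θ) := by
  fun_prop

theorem hpk0x_fin (θ : ℝ) : ∀ᵐ t ∂(volume.restrict (Ioi (0:ℝ))), ENNReal.ofReal (|t| ^ θ) < ⊤ :=
  Filter.Eventually.of_forall fun _ => ENNReal.ofReal_lt_top

theorem hpk0x_mgf (θ : ℝ) (Z : ℂ) :
    ProbabilityTheory.complexMGF (fun t : ℝ => -(π * t ^ 2)) (hpk0x_mu θ) Z =
      ∫ t in Ioi (0:ℝ), ((|t| ^ θ : ℝ) : ℂ) * Complex.exp (-(π * (t : ℂ) ^ 2 * Z)) := by
  unfold ProbabilityTheory.complexMGF hpk0x_mu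
  rw [integral_withDensity_eq_integral_toReal_smul (hpk0x_meas θ) (hpk0x_fin θ)]
  refine setIntegral_congr_fun measurableSet_Ioi fun t _ => ?_
  show (ENNReal.ofReal (|t| ^ θ)).toReal • Complex.exp (Z * ((-(π * t ^ 2) : ℝ) : ℂ)) = _
  rw [ENNReal.toReal_ofReal (by positivity), Complex.real_smul]
  congr 2
  push_cast
  ring

theorem hpk0x_set (θ : ℝ) (h0 : 0 ≤ θ) : Ioi (0:ℝ) ⊆
    ProbabilityTheory.integrableExpSet (fun t : ℝ => -(π * t ^ 2)) (hpk0x_mu θ) := by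
  intro r hr
  have hr : 0 < r := hr
  show Integrable (fun t : ℝ => Real.exp (r * -(π * t ^ 2))) (hpk0x_mu θ)
  unfold hpk0x_mu
  rw [integrable_withDensity_iff_integrable_smul₀' (hpk0x_meas θ).aemeasurable (hpk0x_fin θ)]
  have h1 : IntegrableOn (fun x : ℝ => x ^ θ * Real.exp (-(r * π) * x ^ 2)) (Ioi 0) :=
    integrableOn_rpow_mul_exp_neg_mul_sq (mul_pos hr Real.pi_pos) (by linarith)
  refine IntegrableOn.congr_fun h1 (fun t ht => ?_) measurableSet_Ioi
  have ht : 0 < t := ht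
  show t ^ θ * Real.exp (-(r * π) * t ^ 2) =
    (ENNReal.ofReal (|t| ^ θ)).toReal • Real.exp (r * -(π * t ^ 2))
  rw [ENNReal.toReal_ofReal (by positivity), abs_of_pos ht, smul_eq_mul]
  congr 2
  ring

theorem hpk0x_real (θ : ℝ) (h0 : 0 ≤ θ) (r : ℝ) (hr : 0 < r) :
    ProbabilityTheory.complexMGF (fun t : ℝ => -(π * t ^ 2)) (hpk0x_mu θ) (r : ℂ) =
      (π * (r : ℂ)) ^ ((-((1 + θ) / 2) : ℝ) : ℂ) * ((1 / 2 * Real.Gamma ((1 + θ) / 2) : ℝ) : ℂ) := by
  rw [hpk0x_mgf]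
  have h1 := integral_rpow_mul_exp_neg_mul_rpow (p := 2) (q := θ) (b := π * r) two_pos
    (by linarith) (mul_pos Real.pi_pos hr)
  have h2 : ∫ t in Ioi (0:ℝ), ((|t| ^ θ : ℝ) : ℂ) * Complex.exp (-(π * (t : ℂ) ^ 2 * r)) =
      ((∫ x in Ioi (0 : ℝ), x ^ θ * Real.exp (-(π * r) * x ^ (2:ℝ)) : ℝ) : ℂ) := by
    rw [← integral_complex_ofReal]
    refine setIntegral_congr_fun measurableSet_Ioi fun t ht => ?_
    have ht : 0 < t := ht
    have e3 : t ^ (2:ℝ) = t ^ 2 := by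
      exact_mod_cast Real.rpow_natCast t 2
    show ((|t| ^ θ : ℝ) : ℂ) * Complex.exp (-(π * (t : ℂ) ^ 2 * r)) =
      ((t ^ θ * Real.exp (-(π * r) * t ^ (2:ℝ)) : ℝ) : ℂ)
    rw [e3, abs_of_pos ht, Complex.ofReal_mul, Complex.ofReal_exp]
    congr 2
    push_cast
    ring
  rw [h2, h1]
  have e1 : -(θ + 1) / 2 = -((1 + θ) / 2) := by ring
  have e2 : (θ + 1) / 2 = (1 + θ) / 2 := by ring
  rw [e1, e2, ← Complex.ofReal_mul π r, ← Complex.ofReal_cpow (by positivity),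
    ← Complex.ofReal_mul, mul_assoc]

theorem hpk0x_half (θ : ℝ) (h0 : 0 ≤ θ) (Z : ℂ) (hZ : 0 < Z.re) :
    ∫ t in Ioi (0:ℝ), ((|t| ^ θ : ℝ) : ℂ) * Complex.exp (-(π * (t : ℂ) ^ 2 * Z)) =
      (π * Z) ^ ((-((1 + θ) / 2) : ℝ) : ℂ) * ((1 / 2 * Real.Gamma ((1 + θ) / 2) : ℝ) : ℂ) := by
  rw [← hpk0x_mgf]
  have hU : IsPreconnected {z : ℂ | 0 < z.re} := (convex_halfSpace_re_gt 0).isPreconnected
  have hf : AnalyticOnNhd ℂ (ProbabilityTheory.complexMGF (fun t : ℝ => -(π * t ^ 2))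
      (hpk0x_mu θ)) {z : ℂ | 0 < z.re} := by
    refine ProbabilityTheory.analyticOnNhd_complexMGF.mono fun z hz => ?_
    exact interior_maximal (hpk0x_set θ h0) isOpen_Ioi hz
  have hg : AnalyticOnNhd ℂ (fun z : ℂ => (π * z) ^ ((-((1 + θ) / 2) : ℝ) : ℂ) *
      ((1 / 2 * Real.Gamma ((1 + θ) / 2) : ℝ) : ℂ)) {z : ℂ | 0 < z.re} := by
    refine DifferentiableOn.analyticOnNhd ?_ (isOpen_lt continuous_const Complex.continuous_re)
    intro z hz
    have hz : 0 < z.re := hz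
    refine DifferentiableAt.differentiableWithinAt ?_
    refine DifferentiableAt.mul_const ?_ _
    refine DifferentiableAt.cpow_const (by fun_prop) ?_
    left
    rw [Complex.re_ofReal_mul]
    exact mul_pos Real.pi_pos hz
  refine hf.eqOn_of_preconnected_of_frequently_eq hg hU (z₀ := 1) ?_ ?_ hZ
  · show 0 < (1:ℂ).re
    simp
  · have ht : Filter.Tendsto (fun r : ℝ => (r : ℂ)) (nhdsWithin 1 {1}ᶜ) (nhdsWithin 1 {1}ᶜ) := by
      refine tendsto_nhdsWithin_of_tendsto_nhds_of_eventually_within _ ?_ ?_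
      · have : Filter.Tendsto (fun r : ℝ => (r : ℂ)) (nhds 1) (nhds ((1:ℝ) : ℂ)) :=
          Complex.continuous_ofReal.tendsto 1
        rw [Complex.ofReal_one] at this
        exact this.mono_left nhdsWithin_le_nhds
      · filter_upwards [self_mem_nhdsWithin] with r hr
        intro h
        apply hr
        have : (r : ℂ) = 1 := h
        exact_mod_cast this
    refine ht.frequently (Filter.Eventually.frequently ?_)
    have h1 : ∀ᶠ r : ℝ in nhdsWithin (1:ℝ) {1}ᶜ, 0 < r :=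
      nhdsWithin_le_nhds (lt_mem_nhds one_pos)
    filter_upwards [h1] with r hr
    exact hpk0x_real θ h0 r hr

theorem hpk0x_norm (θ : ℝ) (Z : ℂ) :
    ‖(π * Z) ^ ((-((1 + θ) / 2) : ℝ) : ℂ)‖ = π ^ (-((1 + θ) / 2)) * ‖Z‖ ^ (-((1 + θ) / 2)) := by
  rw [Complex.norm_cpow_real, norm_mul, Complex.norm_real, Real.norm_eq_abs,
    abs_of_pos Real.pi_pos, Real.mul_rpow Real.pi_pos.le (norm_nonneg Z)]

theorem hpk0x_even (f : ℝ → ℂ) : ∫ t : ℝ, f |t| = 2 * ∫ t in Ioi (0:ℝ), f t := by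
  have eq : ∫ (x : ℝ) in Ioi 0, f |x| = ∫ (x : ℝ) in Ioi 0, f x := by
    refine setIntegral_congr_fun measurableSet_Ioi (fun x hx => ?_)
    have hx : 0 < x := hx
    show f |x| = f x
    rw [abs_of_pos hx]
  by_cases hf : IntegrableOn (fun x => f |x|) (Ioi 0)
  · have int_Iic : IntegrableOn (fun x ↦ f |x|) (Iic 0) := by
      rw [← Measure.map_neg_eq_self (volume : Measure ℝ)]
      let m : MeasurableEmbedding fun x : ℝ => -x := (Homeomorph.neg ℝ).measurableEmbedding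
      rw [m.integrableOn_map_iff]
      simp_rw [Function.comp_def, abs_neg, neg_preimage, neg_Iic, neg_zero]
      exact Iff.mpr integrableOn_Ici_iff_integrableOn_Ioi hf
    calc
      _ = (∫ x in Iic 0, f |x|) + ∫ x in Ioi 0, f |x| := by
        rw [← setIntegral_union (Iic_disjoint_Ioi le_rfl) measurableSet_Ioi int_Iic hf,
          Iic_union_Ioi, Measure.restrict_univ]
      _ = 2 * ∫ x in Ioi 0, f x := by
        rw [two_mul, eq]
        congr! 1
        rw [← neg_zero, ← integral_comp_neg_Iic, neg_zero]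
        refine setIntegral_congr_fun measurableSet_Iic (fun x hx => ?_)
        have hx : x ≤ 0 := hx
        show f |x| = f (-x)
        rw [abs_of_nonpos hx]
  · have : ¬ Integrable (fun x => f |x|) := by
      contrapose hf
      exact hf.integrableOn
    rw [← eq, integral_undef hf, integral_undef this, mul_zero]

/-- the integral in the height variable -/
theorem abs_gauss (θ : ℝ) (h0 : 0 ≤ θ) : ∃ C : ℝ, 0 < C ∧ ∀ Z : ℂ, 0 < Z.re →
    ‖∫ t : ℝ, ((|t| ^ θ : ℝ) : ℂ) * Complex.exp (-(π * (t : ℂ) ^ 2 * Z))‖ ≤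
      C * ‖Z‖ ^ (-((1 + θ) / 2)) := by
  have hG : 0 < Real.Gamma ((1 + θ) / 2) := Real.Gamma_pos_of_pos (by linarith)
  refine ⟨π ^ (-((1 + θ) / 2)) * Real.Gamma ((1 + θ) / 2), by positivity,
    fun Z hZ => ?_⟩
  have e1 : ∫ t : ℝ, ((|t| ^ θ : ℝ) : ℂ) * Complex.exp (-(π * (t : ℂ) ^ 2 * Z)) =
      2 * ∫ t in Ioi (0:ℝ), ((|t| ^ θ : ℝ) : ℂ) * Complex.exp (-(π * (t : ℂ) ^ 2 * Z)) := by
    rw [← hpk0x_even]
    refine integral_congr_ae (Filter.Eventually.of_forall fun t => ?_)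
    show _ = (((|(|t|)|) ^ θ : ℝ) : ℂ) * Complex.exp (-(π * ((|t| : ℝ) : ℂ) ^ 2 * Z))
    rw [← Complex.ofReal_pow, sq_abs, abs_abs]
    push_cast
    rfl
  rw [e1, hpk0x_half θ h0 Z hZ]
  rw [norm_mul, norm_mul, hpk0x_norm θ Z, Complex.norm_real, Real.norm_eq_abs,
    abs_of_pos (by positivity)]
  have h2 : ‖(2 : ℂ)‖ = 2 := by norm_num
  rw [h2]
  apply le_of_eq
  ring

end Pool.Agent.AXD
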