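import Pool.Agent.AXD.PA2
import Pool.Agent.AXD.PK0
import Pool.Agent.AEL.KR

namespace Pool.Agent.AXD

open MeasureTheory Set Pool.Agent.MP_6cbfb8_an Pool.Agent.MST
open scoped ENNReal Real

/-
ROW PK1 (1 h). The integral over all parameters for fixed frequencies. Z_i = Σ_j z_j w_{j,i}², Z_0 = Σ z_j, where z_j = zt τ_j for j = 0, 1 and conj (zt τ_j) for j = 2, 3:
the product of the four factors  exp(-π/8(|l|²+c²)) · A τ_j · gg τ_j t · exp(-π zt τ_j (ql l w_j - c))  (conjugated for j = 2, 3) equals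
 (Π A's) (Π prefactors z_j^(-1/2)) exp(-π t² Σ 1/z_j) exp(-(π/2)(|l|²+c²)) Π_i exp(-π l_i Z_i) exp(π c Z_0).
With nu the integral over (l, c, t) factorises (integral_prod_mul, integral_fintype_prod_eq_prod; measures withDensity: integral_withDensity_eq_integral_smul):
 * t: ∫ |t|^θ exp(-π t² Z) dt, Z = T⁻² + Σ 1/z_j: Re Z ≥ Σ 1/(1+4τ_j²) ≥ 4/(17R²), |Im Z| = |sg τ|, |Z| ≤ T⁻² + 4/(2R) ≤ 3/R (T ≥ R ≥ 1). By abs_gauss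
   ≤ C ‖Z‖^(-(1+θ)/2) = C ‖Z‖^((1-θ)/2) ‖Z‖^(-1) ≤ C' R^(-(1-θ)/2) ((R²)⁻¹ + |sg τ|)⁻¹;
 * prefactors: ‖zt τ_j‖^(-1/2) ≤ R^(-1/2), four of them (R²)⁻¹ ; ‖A τ_j‖ ≤ 1;
 * l_i: ∫ exp(-π l² - π l Z_i) dl = exp(π Z_i²/4), Z_i = a_i + 2 i b_i with 0 ≤ a_i ≤ 4ρ², b_i = bb τ (w i) (y i) (z i): norm ≤ exp(4πρ⁴) exp(-π b_i²);
 * c: exp(π Z_0²/4), Z_0 = 4 + 2 i ss τ: norm = exp(4π - π ss²).
C = C(m, ρ, θ). J below is the integrand for the four frequencies τ.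
-/
/-- the integrand of the amplitude with its Gaussian factor -/
noncomputable def jj {m : ℕ} (A : ℝ → ℂ) (τ : ℝ) (p : ((Fin m → ℝ) × ℝ) × ℝ) (w : E m) : ℂ :=
  ((Real.exp (-(π / 8 * ((∑ i, p.1.1 i ^ 2) + p.1.2 ^ 2))) : ℝ) : ℂ) *
    (A τ * gg τ p.2 * Complex.exp (-(π * zt τ * ((ql p.1.1 w - p.1.2 : ℝ) : ℂ))))

/-- the conjugate of `zt` -/
noncomputable def hpk1x_zc (τ : ℝ) : ℂ := (starRingEnd ℂ) (zt τ)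

theorem hpk1x_gg (τ t : ℝ) : gg τ t = gg τ 0 * Complex.exp (-(π * (t : ℂ) ^ 2 * (zt τ)⁻¹)) := by
  unfold gg
  simp only [Complex.ofReal_zero]
  norm_num
  left
  rfl

/-- the factor of the parameters -/
noncomputable def hpk1x_f {m : ℕ} (z : ℂ) (p : ((Fin m → ℝ) × ℝ) × ℝ) (w : E m) : ℂ :=
  ((Real.exp (-(π / 8 * ((∑ i, p.1.1 i ^ 2) + p.1.2 ^ 2))) : ℝ) : ℂ) *
    (Complex.exp (-(π * (p.2 : ℂ) ^ 2 * z⁻¹)) *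
      Complex.exp (-(π * z * ((ql p.1.1 w - p.1.2 : ℝ) : ℂ))))

theorem hpk1x_jj {m : ℕ} (A : ℝ → ℂ) (τ : ℝ) (p : ((Fin m → ℝ) × ℝ) × ℝ) (w : E m) :
    jj A τ p w = (A τ * gg τ 0) * hpk1x_f (zt τ) p w := by
  unfold jj hpk1x_f
  rw [hpk1x_gg τ p.2]
  ring

theorem hpk1x_jjc {m : ℕ} (A : ℝ → ℂ) (τ : ℝ) (p : ((Fin m → ℝ) × ℝ) × ℝ) (w : E m) :
    (starRingEnd ℂ) (jj A τ p w) =
      (starRingEnd ℂ) (A τ * gg τ 0) * hpk1x_f (hpk1x_zc τ) p w := by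
  rw [hpk1x_jj, map_mul]
  congr 1
  unfold hpk1x_f hpk1x_zc
  rw [map_mul, map_mul, ← Complex.exp_conj, ← Complex.exp_conj, Complex.conj_ofReal]
  simp only [map_neg, map_mul, map_pow, map_inv₀, Complex.conj_ofReal]

/-- the sum of the complex coefficients at a coordinate -/
noncomputable def hpk1x_Z (z0 z1 z2 z3 : ℂ) (w y z : ℝ) : ℂ :=
  z0 * (w : ℂ) ^ 2 + z1 * ((w - y - z : ℝ) : ℂ) ^ 2 + z2 * ((w - y : ℝ) : ℂ) ^ 2 +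
    z3 * ((w - z : ℝ) : ℂ) ^ 2

theorem hpk1x_exp_add4 (a b c d : ℂ) : Complex.exp a * Complex.exp b * Complex.exp c *
    Complex.exp d = Complex.exp (a + b + c + d) := by
  rw [Complex.exp_add, Complex.exp_add, Complex.exp_add]

theorem hpk1x_sum {m : ℕ} (z0 z1 z2 z3 : ℂ) (l : Fin m → ℝ) (c : ℝ) (w y z : E m) :
    -(π * z0 * ((ql l w - c : ℝ) : ℂ)) + -(π * z1 * ((ql l (w - y - z) - c : ℝ) : ℂ)) +
      -(π * z2 * ((ql l (w - y) - c : ℝ) : ℂ)) + -(π * z3 * ((ql l (w - z) - c : ℝ) : ℂ)) =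
    (∑ i, -(π * hpk1x_Z z0 z1 z2 z3 (w i) (y i) (z i) * (l i : ℂ))) +
      -(π * (-(z0 + z1 + z2 + z3)) * (c : ℂ)) := by
  have h1 : ∀ v : E m, ((ql l v : ℝ) : ℂ) = ∑ i, (l i : ℂ) * (v i : ℂ) ^ 2 := by
    intro v
    unfold ql
    push_cast
    rfl
  simp only [Complex.ofReal_sub, h1]
  have h2 : ∑ i, -(π * hpk1x_Z z0 z1 z2 z3 (w i) (y i) (z i) * (l i : ℂ)) =
      -(π * z0 * ∑ i, (l i : ℂ) * (w i : ℂ) ^ 2) +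
      -(π * z1 * ∑ i, (l i : ℂ) * (((w - y - z) i : ℝ) : ℂ) ^ 2) +
      -(π * z2 * ∑ i, (l i : ℂ) * (((w - y) i : ℝ) : ℂ) ^ 2) +
      -(π * z3 * ∑ i, (l i : ℂ) * (((w - z) i : ℝ) : ℂ) ^ 2) := by
    simp only [Finset.mul_sum, ← Finset.sum_neg_distrib, ← Finset.sum_add_distrib]
    refine Finset.sum_congr rfl fun i _ => ?_
    unfold hpk1x_Z
    have e1 : (w - y - z) i = w i - y i - z i := rfl
    have e2 : (w - y) i = w i - y i := rfl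
    have e3 : (w - z) i = w i - z i := rfl
    rw [e1, e2, e3]
    ring
  rw [h2]
  ring

/-- the `(l, c)` factor -/
noncomputable def hpk1x_F1 {m : ℕ} (z0 z1 z2 z3 : ℂ) (w y z : E m) (l : (Fin m → ℝ) × ℝ) : ℂ :=
  ((Real.exp (-(π / 2 * ((∑ i, l.1 i ^ 2) + l.2 ^ 2))) : ℝ) : ℂ) *
    ((∏ i, Complex.exp (-(π * hpk1x_Z z0 z1 z2 z3 (w i) (y i) (z i) * (l.1 i : ℂ)))) *
      Complex.exp (-(π * (-(z0 + z1 + z2 + z3)) * (l.2 : ℂ))))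

/-- the `t` factor -/
noncomputable def hpk1x_F2 (z0 z1 z2 z3 : ℂ) (t : ℝ) : ℂ :=
  Complex.exp (-(π * (t : ℂ) ^ 2 * (z0⁻¹ + z1⁻¹ + z2⁻¹ + z3⁻¹)))

theorem hpk1x_prod {m : ℕ} (z0 z1 z2 z3 : ℂ) (w y z : E m) (p : ((Fin m → ℝ) × ℝ) × ℝ) :
    hpk1x_f z0 p w * hpk1x_f z1 p (w - y - z) * hpk1x_f z2 p (w - y) * hpk1x_f z3 p (w - z) =
      hpk1x_F1 z0 z1 z2 z3 w y z p.1 * hpk1x_F2 z0 z1 z2 z3 p.2 := by
  unfold hpk1x_f hpk1x_F1 hpk1x_F2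
  have e3 : (∏ i, Complex.exp (-(π * hpk1x_Z z0 z1 z2 z3 (w i) (y i) (z i) * (p.1.1 i : ℂ)))) *
      Complex.exp (-(π * (-(z0 + z1 + z2 + z3)) * (p.1.2 : ℂ))) =
      Complex.exp (-(π * z0 * ((ql p.1.1 w - p.1.2 : ℝ) : ℂ))) *
      Complex.exp (-(π * z1 * ((ql p.1.1 (w - y - z) - p.1.2 : ℝ) : ℂ))) *
      Complex.exp (-(π * z2 * ((ql p.1.1 (w - y) - p.1.2 : ℝ) : ℂ))) *
      Complex.exp (-(π * z3 * ((ql p.1.1 (w - z) - p.1.2 : ℝ) : ℂ))) := by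
    rw [← Complex.exp_sum, ← Complex.exp_add, ← hpk1x_sum z0 z1 z2 z3 p.1.1 p.1.2 w y z,
      hpk1x_exp_add4]
  have e1 : ((Real.exp (-(π / 2 * ((∑ i, p.1.1 i ^ 2) + p.1.2 ^ 2))) : ℝ) : ℂ) =
      ((Real.exp (-(π / 8 * ((∑ i, p.1.1 i ^ 2) + p.1.2 ^ 2))) : ℝ) : ℂ) ^ 4 := by
    rw [← Complex.ofReal_pow, ← Real.exp_nat_mul]
    congr 2
    push_cast
    ring
  have e2 : Complex.exp (-(π * (p.2 : ℂ) ^ 2 * (z0⁻¹ + z1⁻¹ + z2⁻¹ + z3⁻¹))) =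
      Complex.exp (-(π * (p.2 : ℂ) ^ 2 * z0⁻¹)) * Complex.exp (-(π * (p.2 : ℂ) ^ 2 * z1⁻¹)) *
      Complex.exp (-(π * (p.2 : ℂ) ^ 2 * z2⁻¹)) * Complex.exp (-(π * (p.2 : ℂ) ^ 2 * z3⁻¹)) := by
    rw [hpk1x_exp_add4]
    congr 1
    ring
  rw [e1, e2, e3]
  ring

theorem hpk1x_int1 {m : ℕ} (z0 z1 z2 z3 : ℂ) (w y z : E m) :
    ∫ l, hpk1x_F1 z0 z1 z2 z3 w y z l ∂((volume : Measure ((Fin m → ℝ) × ℝ)).withDensity fun l =>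
      ENNReal.ofReal (Real.exp (-(π / 2 * ((∑ i, l.1 i ^ 2) + l.2 ^ 2))))) =
    (∏ i, Complex.exp (π * (hpk1x_Z z0 z1 z2 z3 (w i) (y i) (z i)) ^ 2 / 4)) *
      Complex.exp (π * (z0 + z1 + z2 + z3) ^ 2 / 4) := by
  rw [integral_withDensity_eq_integral_toReal_smul (by fun_prop)
    (Filter.Eventually.of_forall fun _ => ENNReal.ofReal_lt_top)]
  have e1 : ∀ l : (Fin m → ℝ) × ℝ,
      (ENNReal.ofReal (Real.exp (-(π / 2 * ((∑ i, l.1 i ^ 2) + l.2 ^ 2))))).toReal •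
        hpk1x_F1 z0 z1 z2 z3 w y z l =
      (∏ i, (Complex.exp (-(π * (l.1 i : ℂ) ^ 2)) *
        Complex.exp (-(π * hpk1x_Z z0 z1 z2 z3 (w i) (y i) (z i) * (l.1 i : ℂ))))) *
      (Complex.exp (-(π * (l.2 : ℂ) ^ 2)) *
        Complex.exp (-(π * (-(z0 + z1 + z2 + z3)) * (l.2 : ℂ)))) := by
    intro l
    rw [ENNReal.toReal_ofReal (Real.exp_pos _).le, Complex.real_smul, Finset.prod_mul_distrib]
    unfold hpk1x_F1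
    have e2 : ((Real.exp (-(π / 2 * ((∑ i, l.1 i ^ 2) + l.2 ^ 2))) : ℝ) : ℂ) *
        ((Real.exp (-(π / 2 * ((∑ i, l.1 i ^ 2) + l.2 ^ 2))) : ℝ) : ℂ) =
        (∏ i, Complex.exp (-(π * (l.1 i : ℂ) ^ 2))) * Complex.exp (-(π * (l.2 : ℂ) ^ 2)) := by
      rw [← Complex.exp_sum, ← Complex.exp_add, ← Complex.ofReal_mul, ← Real.exp_add,
        Complex.ofReal_exp]
      congr 1
      push_cast
      rw [Finset.sum_neg_distrib, ← Finset.mul_sum]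
      ring
    rw [← mul_assoc, e2]
    ring
  simp only [e1]
  rw [Measure.volume_eq_prod]
  rw [integral_prod_mul (fun l : Fin m → ℝ => ∏ i, (Complex.exp (-(π * (l i : ℂ) ^ 2)) *
        Complex.exp (-(π * hpk1x_Z z0 z1 z2 z3 (w i) (y i) (z i) * (l i : ℂ)))))
      (fun c : ℝ => Complex.exp (-(π * (c : ℂ) ^ 2)) *
        Complex.exp (-(π * (-(z0 + z1 + z2 + z3)) * (c : ℂ))))]
  rw [gauss_lin, integral_fintype_prod_volume_eq_prod (fun i (x : ℝ) =>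
    Complex.exp (-(π * (x : ℂ) ^ 2)) *
        Complex.exp (-(π * hpk1x_Z z0 z1 z2 z3 (w i) (y i) (z i) * (x : ℂ))))]
  simp only [gauss_lin]
  rw [neg_sq]

theorem hpk1x_int2 (z0 z1 z2 z3 : ℂ) (θ T : ℝ) :
    ∫ t, hpk1x_F2 z0 z1 z2 z3 t ∂((volume : Measure ℝ).withDensity fun t =>
      ENNReal.ofReal (|t| ^ θ * Real.exp (-(π * t ^ 2 / T ^ 2)))) =
    ∫ t : ℝ, ((|t| ^ θ : ℝ) : ℂ) * Complex.exp (-(π * (t : ℂ) ^ 2 *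
      (((T ^ 2)⁻¹ : ℝ) + (z0⁻¹ + z1⁻¹ + z2⁻¹ + z3⁻¹)))) := by
  rw [integral_withDensity_eq_integral_toReal_smul (by fun_prop)
    (Filter.Eventually.of_forall fun _ => ENNReal.ofReal_lt_top)]
  refine integral_congr_ae (Filter.Eventually.of_forall fun t => ?_)
  show (ENNReal.ofReal (|t| ^ θ * Real.exp (-(π * t ^ 2 / T ^ 2)))).toReal •
    hpk1x_F2 z0 z1 z2 z3 t = _
  rw [ENNReal.toReal_ofReal (by positivity), Complex.real_smul, Complex.ofReal_mul, mul_assoc]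
  congr 1
  unfold hpk1x_F2
  rw [Complex.ofReal_exp, ← Complex.exp_add]
  congr 1
  push_cast
  ring

theorem hpk1x_fact {m : ℕ} (θ T : ℝ) (A : ℝ → ℂ) (τ : Fin 4 → ℝ) (w y z : E m) :
    ∫ p, jj A (τ 0) p w * jj A (τ 1) p (w - y - z) *
      (starRingEnd ℂ) (jj A (τ 2) p (w - y)) * (starRingEnd ℂ) (jj A (τ 3) p (w - z))
        ∂(nu m θ T) =
    ((A (τ 0) * gg (τ 0) 0) * (A (τ 1) * gg (τ 1) 0) *
      (starRingEnd ℂ) (A (τ 2) * gg (τ 2) 0) * (starRingEnd ℂ) (A (τ 3) * gg (τ 3) 0)) *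
    (((∏ i, Complex.exp (π * (hpk1x_Z (zt (τ 0)) (zt (τ 1)) (hpk1x_zc (τ 2)) (hpk1x_zc (τ 3))
        (w i) (y i) (z i)) ^ 2 / 4)) *
      Complex.exp (π * (zt (τ 0) + zt (τ 1) + hpk1x_zc (τ 2) + hpk1x_zc (τ 3)) ^ 2 / 4)) *
    ∫ t : ℝ, ((|t| ^ θ : ℝ) : ℂ) * Complex.exp (-(π * (t : ℂ) ^ 2 *
      (((T ^ 2)⁻¹ : ℝ) + ((zt (τ 0))⁻¹ + (zt (τ 1))⁻¹ + (hpk1x_zc (τ 2))⁻¹ +
        (hpk1x_zc (τ 3))⁻¹))))) := by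
  rw [← hpk1x_int1, ← hpk1x_int2]
  unfold nu
  rw [← integral_prod_mul, ← integral_const_mul]
  refine integral_congr_ae (Filter.Eventually.of_forall fun p => ?_)
  show jj A (τ 0) p w * jj A (τ 1) p (w - y - z) *
      (starRingEnd ℂ) (jj A (τ 2) p (w - y)) * (starRingEnd ℂ) (jj A (τ 3) p (w - z)) =
    ((A (τ 0) * gg (τ 0) 0) * (A (τ 1) * gg (τ 1) 0) *
      (starRingEnd ℂ) (A (τ 2) * gg (τ 2) 0) * (starRingEnd ℂ) (A (τ 3) * gg (τ 3) 0)) *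
    (hpk1x_F1 (zt (τ 0)) (zt (τ 1)) (hpk1x_zc (τ 2)) (hpk1x_zc (τ 3)) w y z p.1 *
      hpk1x_F2 (zt (τ 0)) (zt (τ 1)) (hpk1x_zc (τ 2)) (hpk1x_zc (τ 3)) p.2)
  rw [hpk1x_jj, hpk1x_jj, hpk1x_jjc, hpk1x_jjc, ← hpk1x_prod]
  ring

theorem hpk1x_pre (R : ℝ) (hR : 1 ≤ R) (A : ℝ → ℂ) (hA : ∀ τ ∈ Icc R (2 * R), ‖A τ‖ ≤ 1)
    (τ : ℝ) (hτ : τ ∈ Icc R (2 * R)) : ‖A τ * gg τ 0‖ ≤ R ^ (-(1 / 2) : ℝ) := by
  have h1 := norm_gg_le R hR τ 0 hτ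
  have h2 : Real.exp (-(π * (0:ℝ) ^ 2 / (17 * R ^ 2))) = 1 := by
    rw [Real.exp_eq_one_iff]
    ring
  rw [h2, mul_one] at h1
  rw [norm_mul]
  calc ‖A τ‖ * ‖gg τ 0‖ ≤ 1 * ‖gg τ 0‖ :=
        mul_le_mul_of_nonneg_right (hA τ hτ) (norm_nonneg _)
    _ ≤ _ := by rw [one_mul]; exact h1

theorem hpk1x_pow4 (R : ℝ) (hR : 1 ≤ R) : R ^ (-(1 / 2) : ℝ) * R ^ (-(1 / 2) : ℝ) *
    R ^ (-(1 / 2) : ℝ) * R ^ (-(1 / 2) : ℝ) = (R ^ 2)⁻¹ := by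
  have hR0 : 0 < R := by linarith
  rw [← Real.rpow_add hR0, ← Real.rpow_add hR0, ← Real.rpow_add hR0, ← Real.rpow_natCast,
    ← Real.rpow_neg hR0.le]
  congr 1
  push_cast
  ring

theorem hpk1x_zc_eq (τ : ℝ) : hpk1x_zc τ = 1 - 2 * (τ : ℂ) * Complex.I := by
  unfold hpk1x_zc zt
  rw [map_add, map_one, map_mul, map_mul, Complex.conj_ofReal, Complex.conj_I, Complex.conj_ofNat]
  ring

theorem hpk1x_normsq (x y : ℝ) : ‖Complex.exp (π * ((x : ℂ) + 2 * (y : ℂ) * Complex.I) ^ 2 / 4)‖ =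
    Real.exp (π * x ^ 2 / 4) * Real.exp (-(π * y ^ 2)) := by
  rw [Complex.norm_exp, ← Real.exp_add]
  congr 1
  have : (π : ℂ) * ((x : ℂ) + 2 * (y : ℂ) * Complex.I) ^ 2 / 4 =
      ((π * (x ^ 2 - 4 * y ^ 2) / 4 : ℝ) : ℂ) + ((π * x * y : ℝ) : ℂ) * Complex.I := by
    push_cast
    linear_combination (π : ℂ) * (y : ℂ) ^ 2 * Complex.I_sq
  rw [this, Complex.add_re, Complex.ofReal_re, Complex.re_ofReal_mul, Complex.I_re]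
  ring

theorem hpk1x_Zval (τ : Fin 4 → ℝ) (w y z : ℝ) :
    hpk1x_Z (zt (τ 0)) (zt (τ 1)) (hpk1x_zc (τ 2)) (hpk1x_zc (τ 3)) w y z =
      ((w ^ 2 + (w - y - z) ^ 2 + (w - y) ^ 2 + (w - z) ^ 2 : ℝ) : ℂ) +
        2 * ((bb τ w y z : ℝ) : ℂ) * Complex.I := by
  unfold hpk1x_Z bb
  rw [hpk1x_zc_eq, hpk1x_zc_eq]
  unfold zt
  push_cast
  ring

theorem hpk1x_sqle {ρ x : ℝ} (h : |x| ≤ ρ) : x ^ 2 ≤ ρ ^ 2 := by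
  rw [← sq_abs]
  exact pow_le_pow_left₀ (abs_nonneg _) h 2

theorem hpk1x_coord (ρ : ℝ) (τ : Fin 4 → ℝ) (w y z : ℝ) (h : inC ρ w y z) :
    ‖Complex.exp (π * (hpk1x_Z (zt (τ 0)) (zt (τ 1)) (hpk1x_zc (τ 2)) (hpk1x_zc (τ 3))
        w y z) ^ 2 / 4)‖ ≤ Real.exp (4 * π * ρ ^ 4) * Real.exp (-(π * bb τ w y z ^ 2)) := by
  rw [hpk1x_Zval, hpk1x_normsq]
  refine mul_le_mul_of_nonneg_right ?_ (Real.exp_pos _).le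
  rw [Real.exp_le_exp]
  obtain ⟨h1, h2, h3, h4⟩ := h
  have a1 := hpk1x_sqle h1
  have a2 := hpk1x_sqle h2
  have a3 := hpk1x_sqle h3
  have a4 := hpk1x_sqle h4
  have b : (w ^ 2 + (w - y - z) ^ 2 + (w - y) ^ 2 + (w - z) ^ 2) ^ 2 ≤ (4 * ρ ^ 2) ^ 2 := by
    apply pow_le_pow_left₀ (by positivity)
    linarith
  have hpi := Real.pi_pos
  nlinarith [mul_le_mul_of_nonneg_left b hpi.le]

theorem hpk1x_zero (τ : Fin 4 → ℝ) :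
    ‖Complex.exp (π * (zt (τ 0) + zt (τ 1) + hpk1x_zc (τ 2) + hpk1x_zc (τ 3)) ^ 2 / 4)‖ =
      Real.exp (4 * π) * Real.exp (-(π * ss τ ^ 2)) := by
  have : zt (τ 0) + zt (τ 1) + hpk1x_zc (τ 2) + hpk1x_zc (τ 3) =
      ((4 : ℝ) : ℂ) + 2 * ((ss τ : ℝ) : ℂ) * Complex.I := by
    rw [hpk1x_zc_eq, hpk1x_zc_eq]
    unfold zt ss
    push_cast
    ring
  rw [this, hpk1x_normsq]
  congr 2
  ring

theorem hpk1x_inv (τ : ℝ) : (zt τ)⁻¹ = ((1 / (1 + 4 * τ ^ 2) : ℝ) : ℂ) -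
    ((2 * τ / (1 + 4 * τ ^ 2) : ℝ) : ℂ) * Complex.I := by
  have h1 : (1 + 4 * τ ^ 2 : ℝ) ≠ 0 := by positivity
  have h2 : ((1 + 4 * τ ^ 2 : ℝ) : ℂ) ≠ 0 := by exact_mod_cast h1
  refine inv_eq_of_mul_eq_one_right ?_
  unfold zt
  push_cast at h2 ⊢
  have h3 : (1 + 4 * (τ : ℂ) ^ 2) * (1 + 4 * (τ : ℂ) ^ 2)⁻¹ = 1 := mul_inv_cancel₀ h2
  rw [div_eq_mul_inv, div_eq_mul_inv]
  linear_combination h3 - 4 * (τ : ℂ) ^ 2 * (1 + 4 * (τ : ℂ) ^ 2)⁻¹ * Complex.I_sq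

theorem hpk1x_invc (τ : ℝ) : (hpk1x_zc τ)⁻¹ = ((1 / (1 + 4 * τ ^ 2) : ℝ) : ℂ) +
    ((2 * τ / (1 + 4 * τ ^ 2) : ℝ) : ℂ) * Complex.I := by
  unfold hpk1x_zc
  rw [← map_inv₀, hpk1x_inv, map_sub, map_mul, Complex.conj_ofReal, Complex.conj_ofReal,
    Complex.conj_I]
  ring

/-- the coefficient of the height variable -/
noncomputable def hpk1x_W (T : ℝ) (τ : Fin 4 → ℝ) : ℂ :=
  ((T ^ 2)⁻¹ : ℝ) + ((zt (τ 0))⁻¹ + (zt (τ 1))⁻¹ + (hpk1x_zc (τ 2))⁻¹ + (hpk1x_zc (τ 3))⁻¹)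

theorem hpk1x_Wval (T : ℝ) (τ : Fin 4 → ℝ) : hpk1x_W T τ =
    (((T ^ 2)⁻¹ + (1 / (1 + 4 * τ 0 ^ 2) + 1 / (1 + 4 * τ 1 ^ 2) + 1 / (1 + 4 * τ 2 ^ 2) +
      1 / (1 + 4 * τ 3 ^ 2)) : ℝ) : ℂ) + ((-sg τ : ℝ) : ℂ) * Complex.I := by
  unfold hpk1x_W sg
  rw [hpk1x_inv, hpk1x_inv, hpk1x_invc, hpk1x_invc]
  push_cast
  ring

theorem hpk1x_Wre (T : ℝ) (τ : Fin 4 → ℝ) : (hpk1x_W T τ).re =
    (T ^ 2)⁻¹ + (1 / (1 + 4 * τ 0 ^ 2) + 1 / (1 + 4 * τ 1 ^ 2) + 1 / (1 + 4 * τ 2 ^ 2) +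
      1 / (1 + 4 * τ 3 ^ 2)) := by
  rw [hpk1x_Wval, Complex.add_re, Complex.ofReal_re, Complex.re_ofReal_mul, Complex.I_re]
  ring

theorem hpk1x_Wim (T : ℝ) (τ : Fin 4 → ℝ) : (hpk1x_W T τ).im = -sg τ := by
  rw [hpk1x_Wval, Complex.add_im, Complex.ofReal_im, Complex.im_ofReal_mul, Complex.I_im]
  ring

theorem hpk1x_frac (R τ : ℝ) (hR : 1 ≤ R) (hτ : R ≤ τ ∧ τ ≤ 2 * R) :
    1 / (17 * R ^ 2) ≤ 1 / (1 + 4 * τ ^ 2) := by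
  obtain ⟨h1, h2⟩ := hτ
  apply one_div_le_one_div_of_le (by positivity)
  nlinarith

theorem hpk1x_Wlow (R T : ℝ) (hR : 1 ≤ R) (τ : Fin 4 → ℝ) (hτ : τ ∈ Box R) :
    2 / 17 * ((R ^ 2)⁻¹ + |sg τ|) ≤ ‖hpk1x_W T τ‖ := by
  have h1 : 4 * (1 / (17 * R ^ 2)) ≤ (hpk1x_W T τ).re := by
    rw [hpk1x_Wre]
    have a0 := hpk1x_frac R (τ 0) hR (hτ 0)
    have a1 := hpk1x_frac R (τ 1) hR (hτ 1)
    have a2 := hpk1x_frac R (τ 2) hR (hτ 2)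
    have a3 := hpk1x_frac R (τ 3) hR (hτ 3)
    have a4 : 0 ≤ (T ^ 2)⁻¹ := by positivity
    linarith
  have h2 : (hpk1x_W T τ).re ≤ ‖hpk1x_W T τ‖ := Complex.re_le_norm _
  have h3 : |sg τ| ≤ ‖hpk1x_W T τ‖ := by
    have := Complex.abs_im_le_norm (hpk1x_W T τ)
    rwa [hpk1x_Wim, abs_neg] at this
  have h4 : 4 * (1 / (17 * R ^ 2)) = 4 / 17 * (R ^ 2)⁻¹ := by
    have : R ≠ 0 := by linarith
    field_simp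
  have h5 : 0 ≤ |sg τ| := abs_nonneg _
  rw [h4] at h1
  linarith

theorem hpk1x_ztlow (R τ : ℝ) (hR : 1 ≤ R) (hτ : R ≤ τ) : 2 * R ≤ ‖zt τ‖ := by
  have h := Complex.abs_im_le_norm (zt τ)
  have h2 : (zt τ).im = 2 * τ := by
    unfold zt
    simp
  rw [h2, abs_of_nonneg (by linarith)] at h
  linarith

theorem hpk1x_ninv (R τ : ℝ) (hR : 1 ≤ R) (hτ : R ≤ τ) : ‖(zt τ)⁻¹‖ ≤ (2 * R)⁻¹ := by
  rw [norm_inv]
  exact inv_anti₀ (by linarith) (hpk1x_ztlow R τ hR hτ)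

theorem hpk1x_ninvc (R τ : ℝ) (hR : 1 ≤ R) (hτ : R ≤ τ) : ‖(hpk1x_zc τ)⁻¹‖ ≤ (2 * R)⁻¹ := by
  have : ‖(hpk1x_zc τ)⁻¹‖ = ‖(zt τ)⁻¹‖ := by
    unfold hpk1x_zc
    rw [norm_inv, norm_inv, RCLike.norm_conj]
  rw [this]
  exact hpk1x_ninv R τ hR hτ

theorem hpk1x_Wup (R T : ℝ) (hR : 1 ≤ R) (hT : R ≤ T) (τ : Fin 4 → ℝ) (hτ : τ ∈ Box R) :
    ‖hpk1x_W T τ‖ ≤ 3 / R := by
  have b0 := hpk1x_ninv R (τ 0) hR (hτ 0).1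
  have b1 := hpk1x_ninv R (τ 1) hR (hτ 1).1
  have b2 := hpk1x_ninvc R (τ 2) hR (hτ 2).1
  have b3 := hpk1x_ninvc R (τ 3) hR (hτ 3).1
  have b4 : ‖(((T ^ 2)⁻¹ : ℝ) : ℂ)‖ ≤ R⁻¹ := by
    rw [Complex.norm_real, Real.norm_eq_abs, abs_of_nonneg (by positivity)]
    apply inv_anti₀ (by linarith)
    nlinarith
  unfold hpk1x_W
  refine (norm_add_le _ _).trans ?_
  refine (add_le_add b4 ((norm_add_le _ _).trans (add_le_add ((norm_add_le _ _).trans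
    (add_le_add ((norm_add_le _ _).trans (add_le_add b0 b1)) b2)) b3))).trans ?_
  have : R ≠ 0 := by linarith
  apply le_of_eq
  field_simp
  ring

theorem hpk1x_Wbound (θ R T : ℝ) (h0 : 0 ≤ θ) (h1 : θ ≤ 1) (hR : 1 ≤ R) (hT : R ≤ T)
    (τ : Fin 4 → ℝ) (hτ : τ ∈ Box R) :
    ‖hpk1x_W T τ‖ ^ (-((1 + θ) / 2)) ≤
      3 * (17 / 2) * (R ^ (-((1 - θ) / 2)) * ((R ^ 2)⁻¹ + |sg τ|)⁻¹) := by
  have hR0 : 0 < R := by linarith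
  have hl := hpk1x_Wlow R T hR τ hτ
  have hu := hpk1x_Wup R T hR hT τ hτ
  have hp : 0 < (R ^ 2)⁻¹ + |sg τ| := by positivity
  have hW : 0 < ‖hpk1x_W T τ‖ := lt_of_lt_of_le (by positivity) hl
  have e1 : ‖hpk1x_W T τ‖ ^ (-((1 + θ) / 2)) = ‖hpk1x_W T τ‖ ^ ((1 - θ) / 2) *
      ‖hpk1x_W T τ‖⁻¹ := by
    rw [← Real.rpow_neg_one, ← Real.rpow_add hW]
    congr 1
    ring
  rw [e1]
  have e2 : ‖hpk1x_W T τ‖ ^ ((1 - θ) / 2) ≤ 3 * R ^ (-((1 - θ) / 2)) := by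
    calc ‖hpk1x_W T τ‖ ^ ((1 - θ) / 2) ≤ (3 / R) ^ ((1 - θ) / 2) :=
          Real.rpow_le_rpow hW.le hu (by linarith)
      _ = 3 ^ ((1 - θ) / 2) * R ^ (-((1 - θ) / 2)) := by
          rw [Real.div_rpow (by norm_num) hR0.le, Real.rpow_neg hR0.le, div_eq_mul_inv]
      _ ≤ 3 * R ^ (-((1 - θ) / 2)) := by
          refine mul_le_mul_of_nonneg_right ?_ (by positivity)
          calc (3:ℝ) ^ ((1 - θ) / 2) ≤ 3 ^ (1:ℝ) :=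
                Real.rpow_le_rpow_of_exponent_le (by norm_num) (by linarith)
            _ = 3 := Real.rpow_one 3
  have e3 : ‖hpk1x_W T τ‖⁻¹ ≤ 17 / 2 * ((R ^ 2)⁻¹ + |sg τ|)⁻¹ := by
    have := inv_anti₀ (by positivity) hl
    refine this.trans (le_of_eq ?_)
    rw [mul_inv]
    norm_num
  calc _ ≤ (3 * R ^ (-((1 - θ) / 2))) * (17 / 2 * ((R ^ 2)⁻¹ + |sg τ|)⁻¹) :=
        mul_le_mul e2 e3 (by positivity) (by positivity)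
    _ = _ := by ring

theorem hpk1x_fc {m : ℕ} (ρ : ℝ) (τ : Fin 4 → ℝ) (w y z : E m)
    (h : ∀ i, inC ρ (w i) (y i) (z i)) : ∏ i, fc ρ τ (w i, y i, z i) =
      ENNReal.ofReal (∏ i, Real.exp (-(π * bb τ (w i) (y i) (z i) ^ 2))) := by
  rw [ENNReal.ofReal_prod_of_nonneg (fun i _ => (Real.exp_pos _).le)]
  refine Finset.prod_congr rfl fun i _ => ?_
  unfold fc
  rw [Set.indicator_of_mem]
  exact h i

theorem hpk1x_norm7 (a b c d e f g : ℂ) : ‖a * b * c * d * (e * f * g)‖ =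
    ‖a‖ * ‖b‖ * ‖c‖ * ‖d‖ * (‖e‖ * ‖f‖ * ‖g‖) := by
  simp only [norm_mul]

theorem kern_fixed {m : ℕ} (ρ θ : ℝ) (hρ : 1 ≤ ρ) (h0 : 0 ≤ θ) (h1 : θ ≤ 1) : ∃ C : ℝ, 0 < C ∧
    ∀ (R T : ℝ), 1 ≤ R → R ≤ T → ∀ A : ℝ → ℂ, (∀ τ ∈ Icc R (2 * R), ‖A τ‖ ≤ 1) →
    ∀ τ ∈ Box R, ∀ w y z : E m, (∀ i, inC ρ (w i) (y i) (z i)) →
    ‖∫ p, jj A (τ 0) p w * jj A (τ 1) p (w - y - z) *
      (starRingEnd ℂ) (jj A (τ 2) p (w - y)) * (starRingEnd ℂ) (jj A (τ 3) p (w - z))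
        ∂(nu m θ T)‖ₑ ≤
    ENNReal.ofReal (C * R ^ (-((1 - θ) / 2)) * kw R τ) * ∏ i, fc ρ τ (w i, y i, z i) := by
  obtain ⟨C0, hC0, hC⟩ := abs_gauss θ h0
  refine ⟨C0 * (3 * (17 / 2)) * (Real.exp (4 * π) * Real.exp (4 * π * ρ ^ 4) ^ m), by positivity,
    fun R T hR hT A hA τ hτ w y z hin => ?_⟩
  have hR0 : 0 < R := by linarith
  have hsg : 0 < (R ^ 2)⁻¹ + |sg τ| := by positivity
  rw [hpk1x_fc ρ τ w y z hin, ← ENNReal.ofReal_mul (by unfold kw; positivity),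
    ← ofReal_norm]
  refine ENNReal.ofReal_le_ofReal ?_
  rw [hpk1x_fact]
  have hW : 0 < (hpk1x_W T τ).re := by
    rw [hpk1x_Wre]
    have a4 : 0 ≤ (T ^ 2)⁻¹ := by positivity
    positivity
  have hg := hC (hpk1x_W T τ) hW
  have hb := hpk1x_Wbound θ R T h0 h1 hR hT τ hτ
  rw [hpk1x_norm7, hpk1x_zero]
  have p0 := hpk1x_pre R hR A hA (τ 0) (hτ 0)
  have p1 := hpk1x_pre R hR A hA (τ 1) (hτ 1)
  have p2 : ‖(starRingEnd ℂ) (A (τ 2) * gg (τ 2) 0)‖ ≤ R ^ (-(1 / 2) : ℝ) := by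
    rw [RCLike.norm_conj]
    exact hpk1x_pre R hR A hA (τ 2) (hτ 2)
  have p3 : ‖(starRingEnd ℂ) (A (τ 3) * gg (τ 3) 0)‖ ≤ R ^ (-(1 / 2) : ℝ) := by
    rw [RCLike.norm_conj]
    exact hpk1x_pre R hR A hA (τ 3) (hτ 3)
  have hpre : ‖A (τ 0) * gg (τ 0) 0‖ * ‖A (τ 1) * gg (τ 1) 0‖ *
      ‖(starRingEnd ℂ) (A (τ 2) * gg (τ 2) 0)‖ * ‖(starRingEnd ℂ) (A (τ 3) * gg (τ 3) 0)‖ ≤
      (R ^ 2)⁻¹ := by
    rw [← hpk1x_pow4 R hR]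
    refine mul_le_mul (mul_le_mul (mul_le_mul p0 p1 (norm_nonneg _) (by positivity)) p2
      (norm_nonneg _) (by positivity)) p3 (norm_nonneg _) (by positivity)
  have hprod : ‖∏ i, Complex.exp (π * (hpk1x_Z (zt (τ 0)) (zt (τ 1)) (hpk1x_zc (τ 2))
      (hpk1x_zc (τ 3)) (w i) (y i) (z i)) ^ 2 / 4)‖ ≤
      Real.exp (4 * π * ρ ^ 4) ^ m * ∏ i, Real.exp (-(π * bb τ (w i) (y i) (z i) ^ 2)) := by
    rw [norm_prod]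
    have e : Real.exp (4 * π * ρ ^ 4) ^ m * ∏ i, Real.exp (-(π * bb τ (w i) (y i) (z i) ^ 2)) =
        ∏ i, (Real.exp (4 * π * ρ ^ 4) * Real.exp (-(π * bb τ (w i) (y i) (z i) ^ 2))) := by
      rw [Finset.prod_mul_distrib, Finset.prod_const, Finset.card_univ, Fintype.card_fin]
    rw [e]
    exact Finset.prod_le_prod (fun i _ => norm_nonneg _) fun i _ => hpk1x_coord ρ τ _ _ _ (hin i)
  have hint : ‖∫ t : ℝ, ((|t| ^ θ : ℝ) : ℂ) * Complex.exp (-(π * (t : ℂ) ^ 2 *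
      (((T ^ 2)⁻¹ : ℝ) + ((zt (τ 0))⁻¹ + (zt (τ 1))⁻¹ + (hpk1x_zc (τ 2))⁻¹ +
        (hpk1x_zc (τ 3))⁻¹))))‖ ≤
      C0 * (3 * (17 / 2) * (R ^ (-((1 - θ) / 2)) * ((R ^ 2)⁻¹ + |sg τ|)⁻¹)) :=
    hg.trans (mul_le_mul_of_nonneg_left hb hC0.le)
  have hbb : 0 ≤ ∏ i, Real.exp (-(π * bb τ (w i) (y i) (z i) ^ 2)) :=
    Finset.prod_nonneg fun i _ => (Real.exp_pos _).le
  refine (mul_le_mul hpre (mul_le_mul (mul_le_mul_of_nonneg_right hprod (by positivity)) hint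
    (norm_nonneg _) (by positivity)) (by positivity) (by positivity)).trans (le_of_eq ?_)
  unfold kw
  ring

end Pool.Agent.AXD
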