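import Pool.Agent.AXD.PS

namespace Pool.Agent.AXD

open MeasureTheory Set Pool.Agent.MP_6cbfb8_an Pool.Agent.MST
open scoped ENNReal Real

theorem hpmx_cb (m : ℕ) (K : ℝ) : MeasurableSet (cb m K) := by
  have h1 : cb m K = ⋂ i, {l : Fin m → ℝ | |l i| ≤ K} := by
    ext l
    simp [cb]
  rw [h1]
  refine MeasurableSet.iInter fun i => ?_
  have h2 : Measurable fun l : Fin m → ℝ => |l i| := (measurable_pi_apply i).abs
  exact h2 measurableSet_Iic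

theorem hpmx_scale {m : ℕ} {κ : ℝ} (hκ : 1 ≤ κ) (h : (Fin m → ℝ) → ℝ≥0∞) (hm : Measurable h) :
    ∫⁻ l, h (κ • l) ≤ ∫⁻ u, h u := by
  have h0 : (0:ℝ) < κ := by linarith
  have h1 := Measure.map_addHaar_smul (volume : Measure (Fin m → ℝ)) h0.ne'
  have h2 : ∫⁻ l, h (κ • l) = ∫⁻ u, h u ∂(Measure.map (κ • ·) (volume : Measure (Fin m → ℝ))) := by
    rw [lintegral_map hm (by fun_prop)]
  rw [h2, h1, lintegral_smul_measure, smul_eq_mul]
  have h3 : ENNReal.ofReal |(κ ^ Module.finrank ℝ (Fin m → ℝ))⁻¹| ≤ 1 := by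
    rw [← ENNReal.ofReal_one]
    apply ENNReal.ofReal_le_ofReal
    rw [abs_of_pos (by positivity)]
    exact inv_le_one_of_one_le₀ (one_le_pow₀ hκ)
  calc _ ≤ 1 * ∫⁻ u, h u := mul_le_mul_left h3 _
    _ = _ := one_mul _

theorem hpmx_gw (m : ℕ) : Measurable fun l : (Fin m → ℝ) × ℝ => ENNReal.ofReal (gw l) := by
  unfold gw
  refine ENNReal.measurable_ofReal.comp (Real.measurable_exp.comp ?_)
  have h1 : Measurable fun l : (Fin m → ℝ) × ℝ => ∑ i, l.1 i ^ 2 :=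
    Finset.measurable_sum _ fun i _ => ((measurable_pi_apply i).comp measurable_fst).pow_const 2
  exact ((h1.add (measurable_snd.pow_const 2)).const_mul π).neg

theorem hpmx_weight {m : ℕ} (K : ℝ) (W : (Fin m → ℝ) × ℝ → ℝ≥0∞) (hW : Measurable W) :
    ENNReal.ofReal (Real.exp (-(π * (m * (2 * K) ^ 2 + 4)))) *
      ∫⁻ p in (cb m (2 * K)) ×ˢ (Icc (1:ℝ) 2), W p ≤ ∫⁻ l, W l ∂(mu m) := by
  rw [mu, lintegral_withDensity_eq_lintegral_mul _ (hpmx_gw m) hW,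
    ← lintegral_const_mul _ hW]
  refine (setLIntegral_mono' ((hpmx_cb m _).prod measurableSet_Icc) fun p hp => ?_).trans
    (setLIntegral_le_lintegral _ _)
  rw [Pi.mul_apply]
  refine mul_le_mul_left (ENNReal.ofReal_le_ofReal ?_) _
  rw [gw]
  apply Real.exp_le_exp.2
  rw [neg_le_neg_iff]
  refine mul_le_mul_of_nonneg_left ?_ Real.pi_pos.le
  have h1 : ∑ i, p.1 i ^ 2 ≤ m * (2 * K) ^ 2 := by
    calc ∑ i, p.1 i ^ 2 ≤ ∑ _i : Fin m, (2 * K) ^ 2 := by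
          refine Finset.sum_le_sum fun i _ => ?_
          have := abs_le.1 (hp.1 i)
          exact sq_le_sq' this.1 this.2
      _ = m * (2 * K) ^ 2 := by
          rw [Finset.sum_const, Finset.card_univ, Fintype.card_fin, nsmul_eq_mul]
  have h2 : p.2 ^ 2 ≤ 4 := by
    have h3 := hp.2
    have h4 := h3.1
    have h5 := h3.2
    nlinarith
  linarith

/-
ROW PM (0.8 h). Take W of `stab` for R = 2^k and V l' := ∫⁻ κ in Icc 1 2, W (κ • l', κ). If |l i - l' i| ≤ 1/2^k then |(κ•l) i - (κ•l') i| ≤ 2/2^k. For the integral: Tonelli,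
for fixed κ ∈ [1, 2] the substitution u = κ • l (Measure.setLIntegral_comp_smul / lintegral_comp_smul; factor κ^(-m) ≤ 1, κ • cb m K ⊆ cb m (2K)), and
gw (u, κ) ≥ exp(-(π (4 m K² + 4))) =: g0 on cb m (2K) × [1, 2]; so g0 ∫⁻ l in cb m K, V l ≤ ∫⁻ W ∂(mu m) (mu m = withDensity gw, volume on (Fin m → ℝ) × ℝ is the product).
log (2^k) = k log 2 ≤ k.
-/
theorem HH_stab (m : ℕ) (ρ θ : ℝ) (hρ : 1 ≤ ρ) (h0 : 0 ≤ θ) (h1 : θ ≤ 1) (K : ℝ) (hK : 0 ≤ K) :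
    ∃ C : ℝ, 0 < C ∧ ∀ G : E m → ℂ, Measurable G → (∀ w, ‖G w‖ ≤ 1) → ∀ k : ℕ,
      ∃ V : (Fin m → ℝ) → ℝ≥0∞, Measurable V ∧
        (∀ l l' : Fin m → ℝ, (∀ i, |l i - l' i| ≤ 1 / (2:ℝ) ^ k) → HH ρ θ k l G ≤ V l') ∧
        ∫⁻ l in cb m K, V l ≤
          ENNReal.ofReal (C * (1 + k) ^ (m + 2) * ((2:ℝ) ^ k) ^ (2 - (m:ℝ) - (1 - θ) / 2)) := by
  obtain ⟨C, hC, h⟩ := stab m ρ θ hρ h0 h1
  set g0 : ℝ := Real.exp (-(π * (m * (2 * K) ^ 2 + 4))) with hg0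
  have hg : 0 < g0 := Real.exp_pos _
  refine ⟨g0⁻¹ * C, by positivity, fun G hG hG1 k => ?_⟩
  have hR : (1:ℝ) ≤ (2:ℝ) ^ k := one_le_pow₀ (by norm_num)
  obtain ⟨W, hW, hW1, hW2⟩ := h ((2:ℝ) ^ k) hR G hG hG1
  have hm1 : Measurable fun p : (Fin m → ℝ) × ℝ => W (p.2 • p.1, p.2) :=
    hW.comp ((measurable_snd.smul measurable_fst).prodMk measurable_snd)
  refine ⟨fun l' => ∫⁻ κ in Icc (1:ℝ) 2, W (κ • l', κ), hm1.lintegral_prod_right', ?_, ?_⟩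
  · intro l l' hl
    rw [HH]
    refine setLIntegral_mono' measurableSet_Icc fun κ hκ => ?_
    refine hW1 _ _ _ fun i => ?_
    rw [Pi.smul_apply, Pi.smul_apply, smul_eq_mul, smul_eq_mul, ← mul_sub, abs_mul,
      abs_of_pos (by linarith [hκ.1])]
    calc κ * |l i - l' i| ≤ 2 * (1 / (2:ℝ) ^ k) :=
          mul_le_mul hκ.2 (hl i) (abs_nonneg _) (by norm_num)
      _ = 2 / (2:ℝ) ^ k := by ring
  · have h2 : ∫⁻ l in cb m K, ∫⁻ κ in Icc (1:ℝ) 2, W (κ • l, κ) ≤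
        ∫⁻ p in (cb m (2 * K)) ×ˢ (Icc (1:ℝ) 2), W p := by
      rw [lintegral_lintegral_swap hm1.aemeasurable, Measure.volume_eq_prod,
        ← Measure.prod_restrict, lintegral_prod_symm _ hW.aemeasurable]
      refine setLIntegral_mono' measurableSet_Icc fun κ hκ => ?_
      have hm2 : Measurable fun u : Fin m → ℝ => W (u, κ) :=
        hW.comp (measurable_id.prodMk measurable_const)
      rw [← lintegral_indicator (hpmx_cb m K), ← lintegral_indicator (hpmx_cb m (2 * K))]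
      refine le_trans (lintegral_mono fun l => ?_)
        (hpmx_scale hκ.1 _ (hm2.indicator (hpmx_cb m (2 * K))))
      by_cases hl : l ∈ cb m K
      · rw [indicator_of_mem hl, indicator_of_mem]
        intro i
        rw [Pi.smul_apply, smul_eq_mul, abs_mul, abs_of_pos (by linarith [hκ.1])]
        exact mul_le_mul hκ.2 (hl i) (abs_nonneg _) (by norm_num)
      · rw [indicator_of_notMem hl]
        exact zero_le
    refine h2.trans ?_
    have h3 := (hpmx_weight K W hW).trans hW2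
    rw [← hg0] at h3
    have h4 : ∫⁻ p in (cb m (2 * K)) ×ˢ (Icc (1:ℝ) 2), W p ≤ (ENNReal.ofReal g0)⁻¹ *
        ENNReal.ofReal (C * (1 + Real.log ((2:ℝ) ^ k)) ^ (m + 2) *
          ((2:ℝ) ^ k) ^ (2 - (m:ℝ) - (1 - θ) / 2)) := by
      rw [mul_comm (ENNReal.ofReal g0)⁻¹, ← div_eq_mul_inv, ENNReal.le_div_iff_mul_le
        (Or.inl (by rw [Ne, ENNReal.ofReal_eq_zero, not_le]; exact hg))
        (Or.inl ENNReal.ofReal_ne_top), mul_comm _ (ENNReal.ofReal g0)]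
      exact h3
    refine h4.trans ?_
    rw [← ENNReal.ofReal_inv_of_pos hg, ← ENNReal.ofReal_mul (by positivity)]
    apply ENNReal.ofReal_le_ofReal
    have h5 : Real.log ((2:ℝ) ^ k) ≤ k := by
      rw [Real.log_pow]
      have := Real.log_two_lt_d9
      have h6 : (0:ℝ) ≤ k := Nat.cast_nonneg k
      nlinarith
    have h6 : 0 ≤ Real.log ((2:ℝ) ^ k) := Real.log_nonneg hR
    calc g0⁻¹ * (C * (1 + Real.log ((2:ℝ) ^ k)) ^ (m + 2) *
          ((2:ℝ) ^ k) ^ (2 - (m:ℝ) - (1 - θ) / 2))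
        = (g0⁻¹ * C) * (1 + Real.log ((2:ℝ) ^ k)) ^ (m + 2) *
          ((2:ℝ) ^ k) ^ (2 - (m:ℝ) - (1 - θ) / 2) := by ring
      _ ≤ (g0⁻¹ * C) * (1 + k) ^ (m + 2) * ((2:ℝ) ^ k) ^ (2 - (m:ℝ) - (1 - θ) / 2) := by
          gcongr

end Pool.Agent.AXD
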