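import Pool.Agent.AXD.PW
import Pool.Agent.AXD.PE
import Pool.Agent.AEE.XS

namespace Pool.Agent.AXD

open MeasureTheory Set Pool.Agent.MP_6cbfb8_an Pool.Agent.MST
open scoped ENNReal Real

/-- the weights of the index `(k, s)` -/
noncomputable def hpsx_c (m : ℕ) (ρ : ℝ) (i : Σ k : ℕ, (Fin k → Fin m)) : ℝ≥0∞ :=
  ENNReal.ofReal ((10 * π * ρ ^ 2) ^ i.1 / (i.1.factorial : ℝ))

theorem hpsx_sum (m : ℕ) (ρ : ℝ) :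
    ∑' i, hpsx_c m ρ i = ENNReal.ofReal (Real.exp (10 * π * ρ ^ 2 * m)) := by
  have h0 : 0 ≤ 10 * π * ρ ^ 2 := by positivity
  have h1 : ∀ k : ℕ, ∑' s : Fin k → Fin m, hpsx_c m ρ ⟨k, s⟩ =
      ENNReal.ofReal ((10 * π * ρ ^ 2 * m) ^ k / (k.factorial : ℝ)) := by
    intro k
    have h2 : ∀ s : Fin k → Fin m, hpsx_c m ρ ⟨k, s⟩ =
        ENNReal.ofReal ((10 * π * ρ ^ 2) ^ k / (k.factorial : ℝ)) := fun s => rfl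
    rw [tsum_congr h2, tsum_fintype, Finset.sum_const, Finset.card_univ, Fintype.card_fun,
      Fintype.card_fin, Fintype.card_fin, nsmul_eq_mul]
    have h3 : ((m ^ k : ℕ) : ℝ≥0∞) = ENNReal.ofReal ((m : ℝ) ^ k) := by
      rw [← ENNReal.ofReal_natCast]
      push_cast
      rfl
    rw [h3, ← ENNReal.ofReal_mul (by positivity)]
    congr 1
    rw [mul_pow (10 * π * ρ ^ 2)]
    ring
  rw [ENNReal.tsum_sigma', tsum_congr h1, ← ENNReal.ofReal_tsum_of_nonneg (fun k => by positivity)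
    (Real.summable_pow_div_factorial _), Real.exp_eq_exp_ℝ, NormedSpace.exp_eq_tsum_div]

theorem hpsx_m0 {m : ℕ} (ρ R : ℝ) (G : E m → ℂ) (hG : Measurable G) (k : ℕ)
    (s : Fin k → Fin m) :
    Measurable fun q : (((Fin m → ℝ) × ℝ) × ℝ) × E m =>
      ‖op ρ (pw R k) R (2 * R) q.1.1 q.1.2 (Gs ρ G k s) q.2‖ₑ ^ (4:ℝ) :=
  (measurable_op ρ (pw R k) (continuous_pw R k) R (2 * R) _ (measurable_Gs ρ G hG k s)).enorm.pow_const _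

theorem hpsx_m1 {m : ℕ} (ρ R : ℝ) (G : E m → ℂ) (hG : Measurable G) (k : ℕ)
    (s : Fin k → Fin m) (l : (Fin m → ℝ) × ℝ) :
    Measurable fun t : ℝ =>
      ∫⁻ y : E m, ‖op ρ (pw R k) R (2 * R) l t (Gs ρ G k s) y‖ₑ ^ (4:ℝ) := by
  have h := (hpsx_m0 ρ R G hG k s).lintegral_prod_right' (ν := volume)
  have h2 := h.comp (measurable_prodMk_left (x := l))
  exact h2

theorem hpsx_m2 {m : ℕ} (ρ R : ℝ) (G : E m → ℂ) (hG : Measurable G) (k : ℕ)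
    (s : Fin k → Fin m) (l : (Fin m → ℝ) × ℝ) (t : ℝ) : Measurable fun y : E m =>
      ‖op ρ (pw R k) R (2 * R) l t (Gs ρ G k s) y‖ₑ ^ (4:ℝ) := by
  have h := (hpsx_m0 ρ R G hG k s).comp (measurable_prodMk_left (x := (l, t)))
  exact h

theorem hpsx_wt (θ : ℝ) : Measurable fun t : ℝ => ENNReal.ofReal (|t| ^ θ) := by
  refine ENNReal.measurable_ofReal.comp ?_
  have h1 : Measurable fun t : ℝ => |t| := continuous_abs.measurable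
  exact h1.pow_const θ

/-- the controlling function -/
noncomputable def hpsx_W {m : ℕ} (ρ θ R : ℝ) (G : E m → ℂ) (l : (Fin m → ℝ) × ℝ) : ℝ≥0∞ :=
  (∑' i, hpsx_c m ρ i) ^ (3:ℝ) * ∑' i, hpsx_c m ρ i *
    L4 ρ θ (pw R i.1) R (2 * R) (Gs ρ G i.1 i.2) l

theorem hpsx_mL {m : ℕ} (ρ θ R : ℝ) (G : E m → ℂ) (hG : Measurable G)
    (i : Σ k : ℕ, (Fin k → Fin m)) :
    Measurable fun l : (Fin m → ℝ) × ℝ => L4 ρ θ (pw R i.1) R (2 * R) (Gs ρ G i.1 i.2) l :=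
  measurable_L4 ρ θ (pw R i.1) (continuous_pw R i.1) R (2 * R) _ (measurable_Gs ρ G hG i.1 i.2)

theorem hpsx_W_meas {m : ℕ} (ρ θ R : ℝ) (G : E m → ℂ) (hG : Measurable G) :
    Measurable (hpsx_W ρ θ R G) := by
  have h1 : Measurable fun l : (Fin m → ℝ) × ℝ => ∑' i, hpsx_c m ρ i *
      L4 ρ θ (pw R i.1) R (2 * R) (Gs ρ G i.1 i.2) l :=
    Measurable.ennreal_tsum fun i => (hpsx_mL ρ θ R G hG i).const_mul _
  exact h1.const_mul _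

theorem hpsx_point {m : ℕ} (ρ R : ℝ) (hρ : 1 ≤ ρ) (hR : 1 ≤ R) (G : E m → ℂ) (hG : Measurable G)
    (hb : ∀ w, ‖G w‖ ≤ 1) (l l' : Fin m → ℝ) (hl : ∀ i, |l i - l' i| ≤ 2 / R) (c t : ℝ)
    (y : E m) :
    ‖op ρ one R (2 * R) (l, c) t G y‖ₑ ^ (4:ℝ) ≤
        (∑' i, hpsx_c m ρ i) ^ (3:ℝ) * ∑' i, hpsx_c m ρ i *
          ‖op ρ (pw R i.1) R (2 * R) (l', c) t (Gs ρ G i.1 i.2) y‖ₑ ^ (4:ℝ) := by
  have h1 : ‖op ρ one R (2 * R) (l, c) t G y‖ₑ ≤ ∑' i, hpsx_c m ρ i *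
      ‖op ρ (pw R i.1) R (2 * R) (l', c) t (Gs ρ G i.1 i.2) y‖ₑ := by
    refine (op_expand ρ R hρ hR G hG hb l l' hl c t y).trans (le_of_eq ?_)
    rw [ENNReal.tsum_sigma']
    refine tsum_congr fun k => ?_
    rw [tsum_fintype, Finset.mul_sum]
    rfl
  exact le_trans (ENNReal.rpow_le_rpow h1 (by norm_num)) (Pool.Agent.AEE.wsum_four _ _)

/-- the integral over `y` -/
theorem hpsx_y {m : ℕ} (ρ R : ℝ) (hρ : 1 ≤ ρ) (hR : 1 ≤ R) (G : E m → ℂ) (hG : Measurable G)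
    (hb : ∀ w, ‖G w‖ ≤ 1) (l l' : Fin m → ℝ) (hl : ∀ i, |l i - l' i| ≤ 2 / R) (c t : ℝ) :
    ∫⁻ y : E m, ‖op ρ one R (2 * R) (l, c) t G y‖ₑ ^ (4:ℝ) ≤
        (∑' i, hpsx_c m ρ i) ^ (3:ℝ) * ∑' i, hpsx_c m ρ i *
          ∫⁻ y : E m, ‖op ρ (pw R i.1) R (2 * R) (l', c) t (Gs ρ G i.1 i.2) y‖ₑ ^ (4:ℝ) := by
  have h3 : ∀ i : Σ k : ℕ, (Fin k → Fin m), Measurable fun y : E m => hpsx_c m ρ i *
      ‖op ρ (pw R i.1) R (2 * R) (l', c) t (Gs ρ G i.1 i.2) y‖ₑ ^ (4:ℝ) := fun i =>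
    (hpsx_m2 ρ R G hG i.1 i.2 (l', c) t).const_mul _
  have h4 : Measurable fun y : E m => ∑' i, hpsx_c m ρ i *
      ‖op ρ (pw R i.1) R (2 * R) (l', c) t (Gs ρ G i.1 i.2) y‖ₑ ^ (4:ℝ) :=
    Measurable.ennreal_tsum h3
  refine (lintegral_mono (hpsx_point ρ R hρ hR G hG hb l l' hl c t)).trans (le_of_eq ?_)
  rw [lintegral_const_mul _ h4, lintegral_tsum fun i => (h3 i).aemeasurable]
  have h6 : ∀ i : Σ k : ℕ, (Fin k → Fin m), ∫⁻ y : E m, hpsx_c m ρ i *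
      ‖op ρ (pw R i.1) R (2 * R) (l', c) t (Gs ρ G i.1 i.2) y‖ₑ ^ (4:ℝ) = hpsx_c m ρ i *
        ∫⁻ y : E m, ‖op ρ (pw R i.1) R (2 * R) (l', c) t (Gs ρ G i.1 i.2) y‖ₑ ^ (4:ℝ) := fun i =>
    lintegral_const_mul _ (hpsx_m2 ρ R G hG i.1 i.2 (l', c) t)
  rw [tsum_congr h6]

theorem hpsx_le {m : ℕ} (ρ θ R : ℝ) (hρ : 1 ≤ ρ) (hR : 1 ≤ R) (G : E m → ℂ) (hG : Measurable G)
    (hb : ∀ w, ‖G w‖ ≤ 1) (l l' : Fin m → ℝ) (hl : ∀ i, |l i - l' i| ≤ 2 / R) (c : ℝ) :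
    L4 ρ θ one R (2 * R) G (l, c) ≤ hpsx_W ρ θ R G (l', c) := by
  have h3 : ∀ i : Σ k : ℕ, (Fin k → Fin m), Measurable fun t : ℝ => ENNReal.ofReal (|t| ^ θ) *
      ∫⁻ y : E m, ‖op ρ (pw R i.1) R (2 * R) (l', c) t (Gs ρ G i.1 i.2) y‖ₑ ^ (4:ℝ) := fun i =>
    (hpsx_wt θ).mul (hpsx_m1 ρ R G hG i.1 i.2 (l', c))
  have h4 : Measurable fun t : ℝ => ∑' i, hpsx_c m ρ i * (ENNReal.ofReal (|t| ^ θ) *
      ∫⁻ y : E m, ‖op ρ (pw R i.1) R (2 * R) (l', c) t (Gs ρ G i.1 i.2) y‖ₑ ^ (4:ℝ)) :=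
    Measurable.ennreal_tsum fun i => (h3 i).const_mul _
  have h5 : ∀ t : ℝ, ENNReal.ofReal (|t| ^ θ) *
      ∫⁻ y : E m, ‖op ρ one R (2 * R) (l, c) t G y‖ₑ ^ (4:ℝ) ≤
        (∑' i, hpsx_c m ρ i) ^ (3:ℝ) * ∑' i, hpsx_c m ρ i * (ENNReal.ofReal (|t| ^ θ) *
          ∫⁻ y : E m, ‖op ρ (pw R i.1) R (2 * R) (l', c) t (Gs ρ G i.1 i.2) y‖ₑ ^ (4:ℝ)) := by
    intro t
    refine (mul_le_mul' le_rfl (hpsx_y ρ R hρ hR G hG hb l l' hl c t)).trans (le_of_eq ?_)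
    rw [mul_left_comm, ← ENNReal.tsum_mul_left]
    congr 1
    refine tsum_congr fun i => ?_
    rw [mul_left_comm]
  unfold L4
  refine (lintegral_mono h5).trans (le_of_eq ?_)
  rw [lintegral_const_mul _ h4, lintegral_tsum fun i => ((h3 i).const_mul _).aemeasurable]
  unfold hpsx_W
  have h6 : ∀ i : Σ k : ℕ, (Fin k → Fin m), ∫⁻ t : ℝ, hpsx_c m ρ i * (ENNReal.ofReal (|t| ^ θ) *
      ∫⁻ y : E m, ‖op ρ (pw R i.1) R (2 * R) (l', c) t (Gs ρ G i.1 i.2) y‖ₑ ^ (4:ℝ)) =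
        hpsx_c m ρ i * L4 ρ θ (pw R i.1) R (2 * R) (Gs ρ G i.1 i.2) (l', c) := fun i =>
    lintegral_const_mul _ (h3 i)
  rw [tsum_congr h6]

theorem hpsx_int {m : ℕ} (ρ θ R : ℝ) (hρ : 1 ≤ ρ) (hR : 1 ≤ R) (G : E m → ℂ) (hG : Measurable G)
    (hb : ∀ w, ‖G w‖ ≤ 1) (B : ℝ≥0∞)
    (hB : ∀ A : ℝ → ℂ, Continuous A → (∀ τ ∈ Icc R (2 * R), ‖A τ‖ ≤ 1) →
      ∀ G : E m → ℂ, Measurable G → (∀ w, ‖G w‖ ≤ 1) →
      ∫⁻ l, L4 ρ θ A R (2 * R) G l ∂(mu m) ≤ B) :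
    ∫⁻ l, hpsx_W ρ θ R G l ∂(mu m) ≤
      (∑' i, hpsx_c m ρ i) ^ (3:ℝ) * ((∑' i, hpsx_c m ρ i) * B) := by
  have h3 : ∀ i : Σ k : ℕ, (Fin k → Fin m), Measurable fun l : (Fin m → ℝ) × ℝ => hpsx_c m ρ i *
      L4 ρ θ (pw R i.1) R (2 * R) (Gs ρ G i.1 i.2) l := fun i => (hpsx_mL ρ θ R G hG i).const_mul _
  have h4 : Measurable fun l : (Fin m → ℝ) × ℝ => ∑' i, hpsx_c m ρ i *
      L4 ρ θ (pw R i.1) R (2 * R) (Gs ρ G i.1 i.2) l := Measurable.ennreal_tsum h3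
  have h1 : ∀ i : Σ k : ℕ, (Fin k → Fin m), ∫⁻ l, hpsx_c m ρ i *
      L4 ρ θ (pw R i.1) R (2 * R) (Gs ρ G i.1 i.2) l ∂(mu m) ≤ hpsx_c m ρ i * B := by
    intro i
    rw [lintegral_const_mul _ (hpsx_mL ρ θ R G hG i)]
    have h2 := hB (pw R i.1) (continuous_pw R i.1) (fun τ hτ => norm_pw_le R hR i.1 τ hτ)
      (Gs ρ G i.1 i.2) (measurable_Gs ρ G hG i.1 i.2) (norm_Gs_le ρ (by linarith) G hb i.1 i.2)
    exact mul_le_mul' le_rfl h2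
  have h5 : ∫⁻ l, hpsx_W ρ θ R G l ∂(mu m) = (∑' i, hpsx_c m ρ i) ^ (3:ℝ) *
      ∑' i, ∫⁻ l, hpsx_c m ρ i * L4 ρ θ (pw R i.1) R (2 * R) (Gs ρ G i.1 i.2) l ∂(mu m) := by
    unfold hpsx_W
    rw [lintegral_const_mul _ h4, lintegral_tsum fun i => (h3 i).aemeasurable]
  rw [h5]
  refine mul_le_mul' le_rfl ((ENNReal.tsum_le_tsum h1).trans (le_of_eq ?_))
  rw [ENNReal.tsum_mul_right]

/-
ROW PS (0.8 h). Copy of Pool.Agent.AEE.XS stab (wsum_four is there: Pool.Agent.AEE.wsum_four). Index set Σ k, (Fin k → Fin m), weights c_(k,s) = ofReal((10πρ²)^k/k!), sum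
S = exp(10πρ² m) < ∞. W l := S³ Σ' c_(k,s) L4 ρ θ (pw R k) R (2R) (Gs ρ G k s) l. (1): op_expand pointwise in (t, y), wsum_four, lintegral_tsum twice. (2): L4_bound with
A = pw R k (continuous_pw, norm_pw_le), G = Gs (measurable_Gs, norm_Gs_le).
-/
theorem stab (m : ℕ) (ρ θ : ℝ) (hρ : 1 ≤ ρ) (h0 : 0 ≤ θ) (h1 : θ ≤ 1) : ∃ C : ℝ, 0 < C ∧
    ∀ R : ℝ, 1 ≤ R → ∀ G : E m → ℂ, Measurable G → (∀ w, ‖G w‖ ≤ 1) →
    ∃ W : (Fin m → ℝ) × ℝ → ℝ≥0∞, Measurable W ∧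
      (∀ (l l' : Fin m → ℝ) (c : ℝ), (∀ i, |l i - l' i| ≤ 2 / R) →
        L4 ρ θ one R (2 * R) G (l, c) ≤ W (l', c)) ∧
      ∫⁻ l, W l ∂(mu m) ≤
        ENNReal.ofReal (C * (1 + Real.log R) ^ (m + 2) * R ^ (2 - (m:ℝ) - (1 - θ) / 2)) := by
  obtain ⟨C, hC, hL4⟩ := L4_bound m ρ θ hρ h0 h1
  refine ⟨Real.exp (10 * π * ρ ^ 2 * m) ^ 4 * C, by positivity, ?_⟩
  intro R hR G hG hG1
  refine ⟨hpsx_W ρ θ R G, hpsx_W_meas ρ θ R G hG,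
    fun l l' c hl => hpsx_le ρ θ R hρ hR G hG hG1 l l' hl c, ?_⟩
  refine (hpsx_int ρ θ R hρ hR G hG hG1 _ (hL4 R hR)).trans (le_of_eq ?_)
  rw [hpsx_sum, ← mul_assoc, ENNReal.ofReal_rpow_of_nonneg (Real.exp_pos _).le (by norm_num),
    ← ENNReal.ofReal_mul (by positivity), ← ENNReal.ofReal_mul (by positivity)]
  congr 1
  have h2 : Real.exp (10 * π * ρ ^ 2 * m) ^ (3:ℝ) = Real.exp (10 * π * ρ ^ 2 * m) ^ 3 := by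
    rw [← Real.rpow_natCast]
    norm_num
  rw [h2]
  ring

end Pool.Agent.AXD
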