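import Pool.Agent.AXD.Defs
import Pool.Agent.AEL.LT

namespace Pool.Agent.AXD

open MeasureTheory Set Pool.Agent.MP_6cbfb8_an Pool.Agent.MST
open scoped ENNReal Real

theorem hptx_pair (u v : ℝ) : 2 * u / (1 + 4 * u ^ 2) + 2 * v / (1 + 4 * v ^ 2) =
    4 * ((u + v) / 2) * (1 + 4 * u * v) / ((4 * u * v - 1) ^ 2 + 16 * ((u + v) / 2) ^ 2) := by
  have h1 : (1 + 4 * u ^ 2) ≠ 0 := by positivity
  have h2 : (1 + 4 * v ^ 2) ≠ 0 := by positivity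
  have h3 : (4 * u * v - 1) ^ 2 + 16 * ((u + v) / 2) ^ 2 = (1 + 4 * u ^ 2) * (1 + 4 * v ^ 2) := by
    ring
  rw [h3]
  field_simp
  ring

/-- the change of the second variable -/
theorem hptx_first (h x x' : ℝ) (hD : (x - 1) ^ 2 + 16 * h ^ 2 ≠ 0)
    (hE : (x' - 1) ^ 2 + 16 * h ^ 2 ≠ 0) :
    4 * h * (1 + x) / ((x - 1) ^ 2 + 16 * h ^ 2) - 4 * h * (1 + x') / ((x' - 1) ^ 2 + 16 * h ^ 2) =
      4 * h * (x' - x) * ((x - 1) * (x' - 1) + 2 * (x - 1) + 2 * (x' - 1) - 16 * h ^ 2) /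
        (((x - 1) ^ 2 + 16 * h ^ 2) * ((x' - 1) ^ 2 + 16 * h ^ 2)) := by
  rw [div_sub_div _ _ hD hE]
  congr 1
  ring

/-- the change of the first variable -/
theorem hptx_second (h h' x : ℝ) (hD : (x - 1) ^ 2 + 16 * h ^ 2 ≠ 0)
    (hE : (x - 1) ^ 2 + 16 * h' ^ 2 ≠ 0) :
    4 * h * (1 + x) / ((x - 1) ^ 2 + 16 * h ^ 2) - 4 * h' * (1 + x) / ((x - 1) ^ 2 + 16 * h' ^ 2) =
      4 * (1 + x) * (h - h') * ((x - 1) ^ 2 - 16 * (h * h')) /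
        (((x - 1) ^ 2 + 16 * h ^ 2) * ((x - 1) ^ 2 + 16 * h' ^ 2)) := by
  rw [div_sub_div _ _ hD hE]
  congr 1
  ring

theorem hptx_prod {R u v : ℝ} (hR : 0 ≤ R) (hu : R ≤ u ∧ u ≤ 2 * R) (hv : R ≤ v ∧ v ≤ 2 * R) :
    4 * R ^ 2 ≤ 4 * u * v ∧ 4 * u * v ≤ 16 * R ^ 2 := by
  have h1 : R * R ≤ u * v := mul_le_mul hu.1 hv.1 hR (hR.trans hu.1)
  have h2 : u * v ≤ (2 * R) * (2 * R) := mul_le_mul hu.2 hv.2 (hR.trans hv.1) (by linarith)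
  constructor <;> nlinarith

theorem hptx_D {R h x : ℝ} (hR : 8 ≤ R) (hh : R ≤ h ∧ h ≤ 2 * R)
    (hx : 4 * R ^ 2 ≤ x ∧ x ≤ 16 * R ^ 2) :
    9 * R ^ 4 ≤ (x - 1) ^ 2 + 16 * h ^ 2 ∧ (x - 1) ^ 2 + 16 * h ^ 2 ≤ 257 * R ^ 4 := by
  have hR2 : 64 ≤ R ^ 2 := by nlinarith
  have hh2 : h ^ 2 ≤ (2 * R) ^ 2 := pow_le_pow_left₀ (by linarith) hh.2 2
  have hx1 : 3 * R ^ 2 ≤ x - 1 := by linarith
  have hx2 : x - 1 ≤ 16 * R ^ 2 := by linarith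
  have h1 : (3 * R ^ 2) ^ 2 ≤ (x - 1) ^ 2 := pow_le_pow_left₀ (by positivity) hx1 2
  have h2 : (x - 1) ^ 2 ≤ (16 * R ^ 2) ^ 2 := pow_le_pow_left₀ (by nlinarith) hx2 2
  constructor
  · nlinarith [sq_nonneg h]
  · nlinarith [mul_le_mul_of_nonneg_right hR2 (sq_nonneg R)]

theorem hptx_K {R h x x' : ℝ} (hR : 8 ≤ R) (hh : R ≤ h ∧ h ≤ 2 * R)
    (hx : 4 * R ^ 2 ≤ x ∧ x ≤ 16 * R ^ 2) (hx' : 4 * R ^ 2 ≤ x' ∧ x' ≤ 16 * R ^ 2) :
    8 * R ^ 4 ≤ (x - 1) * (x' - 1) + 2 * (x - 1) + 2 * (x' - 1) - 16 * h ^ 2 := by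
  have hR2 : 64 ≤ R ^ 2 := by nlinarith
  have hh2 : h ^ 2 ≤ (2 * R) ^ 2 := pow_le_pow_left₀ (by linarith) hh.2 2
  have h1 : (4 * R ^ 2 - 1) * (4 * R ^ 2 - 1) ≤ (x - 1) * (x' - 1) :=
    mul_le_mul (by linarith [hx.1]) (by linarith [hx'.1]) (by linarith) (by linarith [hx.1])
  nlinarith [mul_le_mul_of_nonneg_right hR2 (sq_nonneg R), hx.1, hx'.1]

theorem hptx_T1 {R h x x' : ℝ} (hR : 8 ≤ R) (hh : R ≤ h ∧ h ≤ 2 * R)
    (hx : 4 * R ^ 2 ≤ x ∧ x ≤ 16 * R ^ 2) (hx' : 4 * R ^ 2 ≤ x' ∧ x' ≤ 16 * R ^ 2) :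
    |x' - x| / (2065 * R ^ 3) ≤
      |4 * h * (x' - x) * ((x - 1) * (x' - 1) + 2 * (x - 1) + 2 * (x' - 1) - 16 * h ^ 2) /
        (((x - 1) ^ 2 + 16 * h ^ 2) * ((x' - 1) ^ 2 + 16 * h ^ 2))| := by
  have hR0 : 0 < R := by linarith
  obtain ⟨hD1, hD2⟩ := hptx_D hR hh hx
  obtain ⟨hE1, hE2⟩ := hptx_D hR hh hx'
  have hK := hptx_K hR hh hx hx'
  set K := (x - 1) * (x' - 1) + 2 * (x - 1) + 2 * (x' - 1) - 16 * h ^ 2 with hKdef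
  set D := (x - 1) ^ 2 + 16 * h ^ 2 with hDdef
  set F := (x' - 1) ^ 2 + 16 * h ^ 2 with hFdef
  have hR4 : 0 < R ^ 4 := by positivity
  have hD0 : 0 < D := by linarith
  have hF0 : 0 < F := by linarith
  have hK0 : 0 < K := by linarith
  have hh0 : 0 < h := by linarith [hh.1]
  rw [abs_div, abs_of_pos (mul_pos hD0 hF0), abs_mul, abs_mul, abs_of_pos hK0,
    abs_of_pos (by linarith : 0 < 4 * h), div_le_div_iff₀ (by positivity) (mul_pos hD0 hF0)]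
  have h1 : D * F ≤ (257 * R ^ 4) * (257 * R ^ 4) :=
    mul_le_mul hD2 hE2 hF0.le (by positivity)
  have h2 : (4 * R) * (8 * R ^ 4) ≤ (4 * h) * K :=
    mul_le_mul (by linarith [hh.1]) hK (by positivity) (by linarith)
  have h3 : (4 * R) * (8 * R ^ 4) * (2065 * R ^ 3) ≤ (4 * h) * K * (2065 * R ^ 3) :=
    mul_le_mul_of_nonneg_right h2 (by positivity)
  have h4 : D * F ≤ (4 * h) * K * (2065 * R ^ 3) := by
    have h5 : 0 < R ^ 8 := by positivity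
    nlinarith
  calc |x' - x| * (D * F) ≤ |x' - x| * ((4 * h) * K * (2065 * R ^ 3)) :=
        mul_le_mul_of_nonneg_left h4 (abs_nonneg _)
    _ = 4 * h * |x' - x| * K * (2065 * R ^ 3) := by ring

theorem hptx_T2 {R h h' x : ℝ} (hR : 8 ≤ R) (hh : R ≤ h ∧ h ≤ 2 * R) (hh' : R ≤ h' ∧ h' ≤ 2 * R)
    (hx : 4 * R ^ 2 ≤ x ∧ x ≤ 16 * R ^ 2) :
    |4 * (1 + x) * (h - h') * ((x - 1) ^ 2 - 16 * (h * h')) /
        (((x - 1) ^ 2 + 16 * h ^ 2) * ((x - 1) ^ 2 + 16 * h' ^ 2))| ≤ 8 * |h - h'| / R ^ 2 := by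
  have hR0 : 0 < R := by linarith
  have hR2 : 64 ≤ R ^ 2 := by nlinarith
  obtain ⟨hD1, hD2⟩ := hptx_D hR hh hx
  obtain ⟨hE1, hE2⟩ := hptx_D hR hh' hx
  have hR4 : 0 < R ^ 4 := by positivity
  have hhh0 : 0 ≤ h * h' := mul_nonneg (by linarith [hh.1]) (by linarith [hh'.1])
  have hhh : h * h' ≤ (2 * R) * (2 * R) :=
    mul_le_mul hh.2 hh'.2 (by linarith [hh'.1]) (by linarith)
  have hx1 : 3 * R ^ 2 ≤ x - 1 := by linarith [hx.1]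
  have hx2 : (3 * R ^ 2) ^ 2 ≤ (x - 1) ^ 2 := pow_le_pow_left₀ (by positivity) hx1 2
  have hN0 : 0 ≤ (x - 1) ^ 2 - 16 * (h * h') := by
    nlinarith [mul_le_mul_of_nonneg_right hR2 (sq_nonneg R)]
  have hN1 : (x - 1) ^ 2 - 16 * (h * h') ≤ (x - 1) ^ 2 + 16 * h' ^ 2 := by
    nlinarith [sq_nonneg h']
  set N := (x - 1) ^ 2 - 16 * (h * h') with hNdef
  set D := (x - 1) ^ 2 + 16 * h ^ 2 with hDdef
  set F := (x - 1) ^ 2 + 16 * h' ^ 2 with hFdef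
  have hD0 : 0 < D := by linarith
  have hF0 : 0 < F := by linarith
  have hx0 : 0 < 4 * (1 + x) := by nlinarith [hx.1]
  rw [abs_div, abs_of_pos (mul_pos hD0 hF0), abs_mul, abs_mul, abs_of_pos hx0,
    abs_of_nonneg hN0, div_le_div_iff₀ (mul_pos hD0 hF0) (by positivity)]
  have h1 : 4 * (1 + x) ≤ 68 * R ^ 2 := by nlinarith [hx.2]
  have h2 : 4 * (1 + x) * R ^ 2 ≤ 8 * D := by
    have h3 : 4 * (1 + x) * R ^ 2 ≤ 68 * R ^ 2 * R ^ 2 :=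
      mul_le_mul_of_nonneg_right h1 (by positivity)
    nlinarith
  calc 4 * (1 + x) * |h - h'| * N * R ^ 2 = (4 * (1 + x) * R ^ 2) * |h - h'| * N := by ring
    _ ≤ (8 * D) * |h - h'| * N := by
        apply mul_le_mul_of_nonneg_right _ hN0
        exact mul_le_mul_of_nonneg_right h2 (abs_nonneg _)
    _ ≤ (8 * D) * |h - h'| * F := by
        apply mul_le_mul_of_nonneg_left hN1
        exact mul_nonneg (by linarith) (abs_nonneg _)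
    _ = 8 * |h - h'| * (D * F) := by ring

theorem hptx_main {R u v w z : ℝ} (hR : 8 ≤ R) (hu : R ≤ u ∧ u ≤ 2 * R) (hv : R ≤ v ∧ v ≤ 2 * R)
    (hw : R ≤ w ∧ w ≤ 2 * R) (hz : R ≤ z ∧ z ≤ 2 * R) :
    1 / 1000 * |(((u - v) + (w - z)) / 2) * (((u - v) - (w - z)) / 2)| / R ^ 3 -
      5 * |u + v - w - z| / R ^ 2 ≤
      |2 * u / (1 + 4 * u ^ 2) + 2 * v / (1 + 4 * v ^ 2) - 2 * w / (1 + 4 * w ^ 2) -
        2 * z / (1 + 4 * z ^ 2)| := by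
  have hR0 : 0 < R := by linarith
  have hx := hptx_prod hR0.le hu hv
  have hx' := hptx_prod hR0.le hw hz
  have hh : R ≤ (u + v) / 2 ∧ (u + v) / 2 ≤ 2 * R := by
    constructor <;> linarith [hu.1, hu.2, hv.1, hv.2]
  have hh' : R ≤ (w + z) / 2 ∧ (w + z) / 2 ≤ 2 * R := by
    constructor <;> linarith [hw.1, hw.2, hz.1, hz.2]
  have e1 := hptx_pair u v
  have e2 := hptx_pair w z
  have hxx : (4 * w * z - 4 * u * v) =
      4 * ((((u - v) + (w - z)) / 2) * (((u - v) - (w - z)) / 2)) -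
        4 * (((u + v) / 2 + (w + z) / 2) * ((u + v) / 2 - (w + z) / 2)) := by ring
  have hss : u + v - w - z = 2 * ((u + v) / 2 - (w + z) / 2) := by ring
  generalize 4 * u * v = x at *
  generalize 4 * w * z = x' at *
  generalize (u + v) / 2 = h at *
  generalize (w + z) / 2 = h' at *
  generalize (((u - v) + (w - z)) / 2) * (((u - v) - (w - z)) / 2) = PQ at *
  have d1 : (x - 1) ^ 2 + 16 * h ^ 2 ≠ 0 := by
    have := (hptx_D hR hh hx).1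
    have : 0 < R ^ 4 := by positivity
    linarith
  have d2 : (x' - 1) ^ 2 + 16 * h ^ 2 ≠ 0 := by
    have := (hptx_D hR hh hx').1
    have : 0 < R ^ 4 := by positivity
    linarith
  have d3 : (x' - 1) ^ 2 + 16 * h' ^ 2 ≠ 0 := by
    have := (hptx_D hR hh' hx').1
    have : 0 < R ^ 4 := by positivity
    linarith
  have f1 := hptx_first h x x' d1 d2
  have f2 := hptx_second h h' x' d2 d3
  have t1 := hptx_T1 hR hh hx hx'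
  have t2 := hptx_T2 hR hh hh' hx'
  have e3 : 2 * u / (1 + 4 * u ^ 2) + 2 * v / (1 + 4 * v ^ 2) - 2 * w / (1 + 4 * w ^ 2) -
        2 * z / (1 + 4 * z ^ 2) =
      (4 * h * (1 + x) / ((x - 1) ^ 2 + 16 * h ^ 2) -
        4 * h * (1 + x') / ((x' - 1) ^ 2 + 16 * h ^ 2)) +
      (4 * h * (1 + x') / ((x' - 1) ^ 2 + 16 * h ^ 2) -
        4 * h' * (1 + x') / ((x' - 1) ^ 2 + 16 * h' ^ 2)) := by
    linarith
  rw [e3, f1, f2]
  have tri := abs_sub_abs_le_abs_sub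
    (4 * h * (x' - x) * ((x - 1) * (x' - 1) + 2 * (x - 1) + 2 * (x' - 1) - 16 * h ^ 2) /
        (((x - 1) ^ 2 + 16 * h ^ 2) * ((x' - 1) ^ 2 + 16 * h ^ 2)))
    (-(4 * (1 + x') * (h - h') * ((x' - 1) ^ 2 - 16 * (h * h')) /
        (((x' - 1) ^ 2 + 16 * h ^ 2) * ((x' - 1) ^ 2 + 16 * h' ^ 2))))
  rw [abs_neg, sub_neg_eq_add] at tri
  refine le_trans ?_ tri
  have hxa : 4 * |PQ| - 16 * R * |h - h'| ≤ |x' - x| := by
    rw [hxx]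
    have g1 := abs_sub_abs_le_abs_sub (4 * PQ) (4 * ((h + h') * (h - h')))
    have g2 : |4 * PQ| = 4 * |PQ| := by rw [abs_mul]; norm_num
    have g3 : |4 * ((h + h') * (h - h'))| ≤ 16 * R * |h - h'| := by
      rw [abs_mul, abs_mul, abs_of_pos (by norm_num : (0 : ℝ) < 4),
        abs_of_pos (by linarith [hh.1, hh'.1] : 0 < h + h')]
      have g4 : (h + h') * |h - h'| ≤ 4 * R * |h - h'| :=
        mul_le_mul_of_nonneg_right (by linarith [hh.2, hh'.2]) (abs_nonneg _)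
      linarith
    linarith
  have hss' : |u + v - w - z| = 2 * |h - h'| := by
    rw [hss, abs_mul]
    norm_num
  rw [hss']
  have k1 : (4 * |PQ| - 16 * R * |h - h'|) / (2065 * R ^ 3) ≤ |x' - x| / (2065 * R ^ 3) :=
    div_le_div_of_nonneg_right hxa (by positivity)
  have k2 : (4 * |PQ| - 16 * R * |h - h'|) / (2065 * R ^ 3) =
      4 / 2065 * (|PQ| / R ^ 3) - 16 / 2065 * (|h - h'| / R ^ 2) := by
    field_simp
  have k3 : 1 / 1000 * |PQ| / R ^ 3 = 1 / 1000 * (|PQ| / R ^ 3) := by ring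
  have k4 : 5 * (2 * |h - h'|) / R ^ 2 = 10 * (|h - h'| / R ^ 2) := by ring
  have k5 : 8 * |h - h'| / R ^ 2 = 8 * (|h - h'| / R ^ 2) := by ring
  have k6 : 0 ≤ |PQ| / R ^ 3 := by positivity
  have k7 : 0 ≤ |h - h'| / R ^ 2 := by positivity
  rw [k3, k4]
  rw [k5] at t2
  rw [k2] at k1
  linarith

/-
ROW PT1 (1 h). f τ = 2τ/(1+4τ²); B = (τ0-τ1)/2, h = (τ0+τ1)/2, B' = (τ2-τ3)/2, h' = (τ2+τ3)/2; P Q = B² - B'², ss = 2 (h - h').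
-/
/-- lower bound of the signed sum -/
theorem sg_lower : ∃ c C : ℝ, 0 < c ∧ 0 < C ∧ ∀ R : ℝ, 8 ≤ R → ∀ τ ∈ Box R,
    c * |(((τ 0 - τ 1) + (τ 2 - τ 3)) / 2) * (((τ 0 - τ 1) - (τ 2 - τ 3)) / 2)| / R ^ 3 -
      C * |ss τ| / R ^ 2 ≤ |sg τ| := by
  refine ⟨1 / 1000, 5, by norm_num, by norm_num, ?_⟩
  intro R hR τ hτ
  exact hptx_main hR (hτ 0) (hτ 1) (hτ 2) (hτ 3)

end Pool.Agent.AXD
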