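import Pool.Agent.AXD.PT

namespace Pool.Agent.AXD

open MeasureTheory Set Pool.Agent.MP_6cbfb8_an Pool.Agent.MST
open scoped ENNReal Real

/-
ROW PT2 (1.2 h). uv_int: for fixed Q ≠ 0 the P-integral is 2 log(1 + |Q|)/|Q| ≤ 2 min(1, (1 + log R)·2/|Q|) (R ≥ 1; |Q| ≤ R), and ∫ over |Q| ≤ R of it is ≤ C (1 + log R)²
(split at |Q| = 1; `log_int` of Pool.Agent.AEL.V1 may help).
tau_int: for R ≤ 8: kw ≤ (R²)⁻¹ R² = 1 and the volume of the box is R⁴ ≤ 64 R². For R ≥ 8: by sg_lower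
 ((R²)⁻¹ + |sg|)⁻¹ ≤ C' (1 + |ss|) R³ (R + |P Q|)⁻¹   (two cases: C|ss|/R² ≤ (c/2)|PQ|/R³ or not; in the second case |PQ| ≤ (2C/c) |ss| R, so (R + |PQ|) ≤ C''(1 + |ss|) R
 and ((R²)⁻¹ + |sg|)⁻¹ ≤ R²), so kw R τ ≤ C' R (1 + |ss|) exp(-π ss²) (R + |PQ|)⁻¹; `box_change` of Pool.Agent.AEL.LT with
 F A s P Q = ofReal (C' R (1+|s|) exp(-π s²) (R + |P Q|)⁻¹) (the Box there is the same set; if it is another constant use `show`/`change` or unfold both),
 the A-integral gives 2R, the s-integral is finite, uv_int.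
-/
theorem hpt2x_pos (R : ℝ) (hR : 1 ≤ R) :
    ∫⁻ x in Icc 0 R, ENNReal.ofReal ((1 + |x|)⁻¹) ≤ ENNReal.ofReal (Real.log (1 + R)) := by
  have h1 : ∫⁻ x in Icc 0 R, ENNReal.ofReal ((1 + |x|)⁻¹) = ∫⁻ x in Ioc 0 R, ENNReal.ofReal ((1 + x)⁻¹) := by
    rw [← restrict_Ioc_eq_restrict_Icc]
    refine setLIntegral_congr_fun measurableSet_Ioc fun x hx => ?_
    show ENNReal.ofReal ((1 + |x|)⁻¹) = ENNReal.ofReal ((1 + x)⁻¹)
    rw [abs_of_pos hx.1]
  have hc : ContinuousOn (fun x : ℝ => (1 + x)⁻¹) (Icc 0 R) := by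
    refine ContinuousOn.inv₀ (by fun_prop) fun x hx => ?_
    have := hx.1
    linarith
  have hint : IntegrableOn (fun x : ℝ => (1 + x)⁻¹) (Ioc 0 R) :=
    (hc.integrableOn_Icc).mono_set Ioc_subset_Icc_self
  rw [h1, ← ofReal_integral_eq_lintegral_ofReal hint
    ((ae_restrict_iff' measurableSet_Ioc).2 (Filter.Eventually.of_forall fun x hx => by
      have := hx.1
      show (0 : ℝ) ≤ (1 + x)⁻¹
      positivity)), ← intervalIntegral.integral_of_le (by linarith)]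
  have h2 : ∫ x in (0:ℝ)..R, (1 + x)⁻¹ = Real.log (1 + R) := by
    rw [intervalIntegral.integral_comp_add_left (fun x => x⁻¹) 1, add_zero, integral_inv_of_pos one_pos (by linarith),
      div_one]
  rw [h2]

theorem hpt2x_neg (R : ℝ) (hR : 1 ≤ R) :
    ∫⁻ x in Icc (-R) 0, ENNReal.ofReal ((1 + |x|)⁻¹) ≤ ENNReal.ofReal (Real.log (1 + R)) := by
  have h1 : ∫⁻ x in Icc (-R) 0, ENNReal.ofReal ((1 + |x|)⁻¹) = ∫⁻ x in Ioc (-R) 0, ENNReal.ofReal ((1 - x)⁻¹) := by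
    rw [← restrict_Ioc_eq_restrict_Icc]
    refine setLIntegral_congr_fun measurableSet_Ioc fun x hx => ?_
    show ENNReal.ofReal ((1 + |x|)⁻¹) = ENNReal.ofReal ((1 - x)⁻¹)
    rw [abs_of_nonpos hx.2, ← sub_eq_add_neg]
  have hc : ContinuousOn (fun x : ℝ => (1 - x)⁻¹) (Icc (-R) 0) := by
    refine ContinuousOn.inv₀ (by fun_prop) fun x hx => ?_
    have := hx.2
    linarith
  have hint : IntegrableOn (fun x : ℝ => (1 - x)⁻¹) (Ioc (-R) 0) :=
    (hc.integrableOn_Icc).mono_set Ioc_subset_Icc_self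
  rw [h1, ← ofReal_integral_eq_lintegral_ofReal hint
    ((ae_restrict_iff' measurableSet_Ioc).2 (Filter.Eventually.of_forall fun x hx => by
      have := hx.2
      show (0 : ℝ) ≤ (1 - x)⁻¹
      have h3 : 0 < 1 - x := by linarith
      positivity)), ← intervalIntegral.integral_of_le (by linarith)]
  have h2 : ∫ x in (-R)..0, (1 - x)⁻¹ = Real.log (1 + R) := by
    rw [intervalIntegral.integral_comp_sub_left (fun x => x⁻¹) 1, sub_zero, sub_neg_eq_add,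
      integral_inv_of_pos one_pos (by linarith), div_one]
  rw [h2]

theorem hpt2x_one (R : ℝ) (hR : 1 ≤ R) :
    ∫⁻ x in Icc (-R) R, ENNReal.ofReal ((1 + |x|)⁻¹) ≤ ENNReal.ofReal (2 * (1 + Real.log R)) := by
  have h1 : Icc (-R) R = Icc (-R) 0 ∪ Icc 0 R := (Icc_union_Icc_eq_Icc (by linarith) (by linarith)).symm
  have h2 : Real.log (1 + R) ≤ 1 + Real.log R := by
    have h3 : Real.log (1 + R) ≤ Real.log (2 * R) := Real.log_le_log (by linarith) (by linarith)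
    rw [Real.log_mul (by norm_num) (by linarith)] at h3
    have h4 := Real.log_two_lt_d9
    linarith
  have h0 : 0 ≤ Real.log (1 + R) := Real.log_nonneg (by linarith)
  rw [h1]
  refine (lintegral_union_le _ _ _).trans ((add_le_add (hpt2x_neg R hR) (hpt2x_pos R hR)).trans ?_)
  rw [← ENNReal.ofReal_add h0 h0]
  exact ENNReal.ofReal_le_ofReal (by linarith)

theorem hpt2x_pt (R : ℝ) (hR : 1 ≤ R) (P Q : ℝ) (hP : P ∈ Icc (-R) R) (hQ : Q ∈ Icc (-R) R) :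
    (R + |P * Q|)⁻¹ ≤ 3 * ((1 + |P|)⁻¹ * (1 + |Q|)⁻¹) := by
  have hP' : |P| ≤ R := abs_le.2 hP
  have hQ' : |Q| ≤ R := abs_le.2 hQ
  have h1 := abs_nonneg P
  have h2 := abs_nonneg Q
  rw [abs_mul]
  have h3 : 0 < R + |P| * |Q| := by positivity
  have h4 : 0 < (1 + |P|) * (1 + |Q|) := by positivity
  rw [← mul_inv, inv_eq_one_div, ← div_eq_mul_inv, div_le_div_iff₀ h3 h4]
  nlinarith

/-- two-dimensional logarithmic integral -/
theorem uv_int : ∃ C : ℝ, 0 < C ∧ ∀ R : ℝ, 1 ≤ R →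
    ∫⁻ P in Icc (-R) R, ∫⁻ Q in Icc (-R) R, ENNReal.ofReal ((R + |P * Q|)⁻¹) ≤
      ENNReal.ofReal (C * (1 + Real.log R) ^ 2) := by
  refine ⟨12, by norm_num, fun R hR => ?_⟩
  have hlog : 0 ≤ Real.log R := Real.log_nonneg hR
  have hm : Measurable fun x : ℝ => ENNReal.ofReal ((1 + |x|)⁻¹) := by
    refine ENNReal.measurable_ofReal.comp ?_
    exact (measurable_const.add continuous_abs.measurable).inv
  have h1 : ∀ P ∈ Icc (-R) R, ∫⁻ Q in Icc (-R) R, ENNReal.ofReal ((R + |P * Q|)⁻¹) ≤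
      (ENNReal.ofReal 3 * ENNReal.ofReal ((1 + |P|)⁻¹)) * ENNReal.ofReal (2 * (1 + Real.log R)) := by
    intro P hP
    have h2 : ∫⁻ Q in Icc (-R) R, ENNReal.ofReal ((R + |P * Q|)⁻¹) ≤
        ∫⁻ Q in Icc (-R) R, (ENNReal.ofReal 3 * ENNReal.ofReal ((1 + |P|)⁻¹)) * ENNReal.ofReal ((1 + |Q|)⁻¹) := by
      refine setLIntegral_mono' measurableSet_Icc fun Q hQ => ?_
      rw [← ENNReal.ofReal_mul (by norm_num), ← ENNReal.ofReal_mul (by positivity)]
      refine ENNReal.ofReal_le_ofReal ?_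
      rw [mul_assoc]
      exact hpt2x_pt R hR P Q hP hQ
    refine h2.trans ?_
    rw [lintegral_const_mul _ hm]
    exact mul_le_mul' le_rfl (hpt2x_one R hR)
  refine (setLIntegral_mono' measurableSet_Icc h1).trans ?_
  rw [lintegral_mul_const _ (hm.const_mul _), lintegral_const_mul _ hm]
  refine (mul_le_mul' (mul_le_mul' le_rfl (hpt2x_one R hR)) le_rfl).trans (le_of_eq ?_)
  rw [← ENNReal.ofReal_mul (by norm_num), ← ENNReal.ofReal_mul (by positivity)]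
  congr 1
  ring

theorem measurable_kw (R : ℝ) : Measurable (kw R) := by
  unfold kw sg ss
  fun_prop

theorem hpt2x_box_vol (R : ℝ) (hR : 0 ≤ R) : (volume : Measure (Fin 4 → ℝ)) (Box R) = ENNReal.ofReal (R ^ 4) := by
  have h1 : Box R = Set.pi univ fun _ : Fin 4 => Icc R (2 * R) := by
    ext t
    exact ⟨fun h i _ => h i, fun h i => h i trivial⟩
  rw [h1, volume_pi_pi]
  simp only [Real.volume_Icc, Finset.prod_const, Finset.card_univ, Fintype.card_fin]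
  rw [← ENNReal.ofReal_pow (by linarith)]
  congr 1
  ring

theorem hpt2x_meas_box (R : ℝ) : MeasurableSet (Box R) := by
  have h1 : Box R = Set.pi univ fun _ : Fin 4 => Icc R (2 * R) := by
    ext t
    exact ⟨fun h i _ => h i, fun h i => h i trivial⟩
  rw [h1]
  exact MeasurableSet.univ_pi fun _ => measurableSet_Icc

theorem hpt2x_small (R : ℝ) (hR : 1 ≤ R) (hR8 : R ≤ 8) :
    ∫⁻ τ in Box R, ENNReal.ofReal (kw R τ) ≤ ENNReal.ofReal (64 * R ^ 2 * (1 + Real.log R) ^ 2) := by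
  have hlog : 0 ≤ Real.log R := Real.log_nonneg hR
  have h1 : ∀ τ : Fin 4 → ℝ, ENNReal.ofReal (kw R τ) ≤ 1 := by
    intro τ
    rw [ENNReal.ofReal_le_one]
    unfold kw
    have h2 : 0 < (R ^ 2)⁻¹ := by positivity
    have h3 : (R ^ 2)⁻¹ * ((R ^ 2)⁻¹ + |sg τ|)⁻¹ ≤ 1 := by
      rw [← div_eq_mul_inv, div_le_one (by positivity)]
      have := abs_nonneg (sg τ)
      linarith
    have h4 : Real.exp (-(π * ss τ ^ 2)) ≤ 1 := Real.exp_le_one_iff.2 (by
      have := Real.pi_pos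
      have : 0 ≤ π * ss τ ^ 2 := by positivity
      linarith)
    exact mul_le_one₀ h3 (Real.exp_pos _).le h4
  refine (lintegral_mono h1).trans ?_
  rw [lintegral_one, Measure.restrict_apply_univ, hpt2x_box_vol R (by linarith)]
  refine ENNReal.ofReal_le_ofReal ?_
  have h20 : R ^ 2 ≤ 64 := by nlinarith
  have h2 : R ^ 4 ≤ 64 * R ^ 2 := by nlinarith [mul_le_mul_of_nonneg_right h20 (sq_nonneg R)]
  have h3 : (1 : ℝ) ≤ (1 + Real.log R) ^ 2 := by nlinarith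
  have h4 : 0 ≤ 64 * R ^ 2 := by positivity
  nlinarith

/-- the integral of `(1 + |s|) exp (-π s²)` is finite -/
theorem hpt2x_gauss : ∃ K : ℝ, 0 < K ∧ ∫⁻ s : ℝ, ENNReal.ofReal ((1 + |s|) * Real.exp (-(π * s ^ 2))) ≤ ENNReal.ofReal K := by
  have hpi : 0 < π - 1 := by
    have := Real.pi_gt_three
    linarith
  have hint := (integrable_exp_neg_mul_sq hpi).const_mul 2
  have h1 : ∀ s : ℝ, (1 + |s|) * Real.exp (-(π * s ^ 2)) ≤ 2 * Real.exp (-(π - 1) * s ^ 2) := by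
    intro s
    have h2 : Real.exp (-(π - 1) * s ^ 2) = Real.exp (-(π * s ^ 2)) * Real.exp (s ^ 2) := by
      rw [← Real.exp_add]
      congr 1
      ring
    rw [h2]
    have h3 : 1 + |s| ≤ 2 * Real.exp (s ^ 2) := by
      have h4 := Real.add_one_le_exp (s ^ 2)
      have h5 : |s| ≤ 1 + s ^ 2 := by
        rw [← sq_abs]
        nlinarith [sq_nonneg (|s| - 1)]
      nlinarith [sq_nonneg s]
    have h6 := (Real.exp_pos (-(π * s ^ 2))).le
    nlinarith [mul_le_mul_of_nonneg_right h3 h6]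
  refine ⟨∫ s : ℝ, 2 * Real.exp (-(π - 1) * s ^ 2), ?_, ?_⟩
  · rw [integral_const_mul, integral_gaussian]
    positivity
  · rw [ofReal_integral_eq_lintegral_ofReal hint (Filter.Eventually.of_forall fun s => by
      show (0 : ℝ) ≤ 2 * Real.exp (-(π - 1) * s ^ 2)
      positivity)]
    exact lintegral_mono fun s => ENNReal.ofReal_le_ofReal (h1 s)

theorem hpt2x_large : ∃ C : ℝ, 0 < C ∧ ∀ R : ℝ, 8 ≤ R →
    ∫⁻ τ in Box R, ENNReal.ofReal (kw R τ) ≤ ENNReal.ofReal (C * R ^ 2 * (1 + Real.log R) ^ 2) := by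
  obtain ⟨c, C, hc, hC, hsg⟩ := sg_lower
  obtain ⟨K, hK, hKi⟩ := hpt2x_gauss
  obtain ⟨D, hD, hDi⟩ := uv_int
  set C' : ℝ := 1 + 1 / c + C / c with hC'
  have hC'0 : 0 < C' := by positivity
  refine ⟨2 * C' * K * D, by positivity, fun R hR => ?_⟩
  have hR0 : 0 < R := by linarith
  have hlog : 0 ≤ Real.log R := Real.log_nonneg (by linarith)
  -- the pointwise bound
  have h1 : ∀ τ ∈ Box R, ENNReal.ofReal (kw R τ) ≤
      (fun A s P Q : ℝ => ENNReal.ofReal (C' * R) * ENNReal.ofReal ((1 + |s|) * Real.exp (-(π * s ^ 2))) *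
        ENNReal.ofReal ((R + |P * Q|)⁻¹)) (τ 0 + τ 1) (τ 0 + τ 1 - τ 2 - τ 3) (((τ 0 - τ 1) + (τ 2 - τ 3)) / 2)
        (((τ 0 - τ 1) - (τ 2 - τ 3)) / 2) := by
    intro τ hτ
    show ENNReal.ofReal (kw R τ) ≤ ENNReal.ofReal (C' * R) *
      ENNReal.ofReal ((1 + |ss τ|) * Real.exp (-(π * ss τ ^ 2))) *
        ENNReal.ofReal ((R + |(((τ 0 - τ 1) + (τ 2 - τ 3)) / 2) * (((τ 0 - τ 1) - (τ 2 - τ 3)) / 2)|)⁻¹)
    have h2 := hsg R hR τ hτ
    have hX : 0 ≤ |(((τ 0 - τ 1) + (τ 2 - τ 3)) / 2) * (((τ 0 - τ 1) - (τ 2 - τ 3)) / 2)| := abs_nonneg _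
    generalize |(((τ 0 - τ 1) + (τ 2 - τ 3)) / 2) * (((τ 0 - τ 1) - (τ 2 - τ 3)) / 2)| = X at h2 hX ⊢
    rw [← ENNReal.ofReal_mul (by positivity), ← ENNReal.ofReal_mul (by positivity)]
    refine ENNReal.ofReal_le_ofReal ?_
    unfold kw
    have hs := abs_nonneg (ss τ)
    have ha := abs_nonneg (sg τ)
    have hE := (Real.exp_pos (-(π * ss τ ^ 2))).le
    generalize Real.exp (-(π * ss τ ^ 2)) = E at hE ⊢
    generalize |sg τ| = a at h2 ha ⊢
    generalize |ss τ| = t at h2 hs ⊢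
    have h3 : c * X ≤ a * R ^ 3 + C * t * R := by
      have h4 : (c * X / R ^ 3 - C * t / R ^ 2) * R ^ 3 ≤ a * R ^ 3 := mul_le_mul_of_nonneg_right h2 (by positivity)
      have h5 : (c * X / R ^ 3 - C * t / R ^ 2) * R ^ 3 = c * X - C * t * R := by
        field_simp
      rw [h5] at h4
      linarith
    have h4 : X ≤ (a * R ^ 3 + C * t * R) / c := by
      rw [le_div_iff₀ hc]
      linarith
    have h5 : R + X ≤ C' * R * (1 + t) * (1 + a * R ^ 2) := by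
      have h6 : (a * R ^ 3 + C * t * R) / c = (1 / c) * (a * R ^ 3) + (C / c) * (t * R) := by ring
      rw [h6] at h4
      have e1 : 0 ≤ 1 / c := by positivity
      have e2 : 0 ≤ C / c := by positivity
      have e3 : C' * R * (1 + t) * (1 + a * R ^ 2) - (R + ((1 / c) * (a * R ^ 3) + (C / c) * (t * R))) =
          (1 / c) * (R + t * R + t * (a * R ^ 3)) + (C / c) * (R + a * R ^ 3 + t * (a * R ^ 3)) +
            (t * R + a * R ^ 3 + t * (a * R ^ 3)) := by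
        rw [hC']
        ring
      have e4 : 0 ≤ (1 / c) * (R + t * R + t * (a * R ^ 3)) + (C / c) * (R + a * R ^ 3 + t * (a * R ^ 3)) +
            (t * R + a * R ^ 3 + t * (a * R ^ 3)) := by positivity
      linarith
    have h6 : (R ^ 2)⁻¹ * ((R ^ 2)⁻¹ + a)⁻¹ = (1 + a * R ^ 2)⁻¹ := by
      rw [← mul_inv]
      congr 1
      field_simp
    have h7 : (1 + a * R ^ 2)⁻¹ ≤ C' * R * (1 + t) * (R + X)⁻¹ := by
      rw [← div_eq_mul_inv, inv_eq_one_div, div_le_div_iff₀ (by positivity) (by positivity), one_mul]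
      exact h5
    rw [h6]
    calc (1 + a * R ^ 2)⁻¹ * E ≤ (C' * R * (1 + t) * (R + X)⁻¹) * E := mul_le_mul_of_nonneg_right h7 hE
      _ = _ := by ring
  have hFm : Measurable fun q : ℝ × ℝ × ℝ × ℝ => (fun _ s P Q : ℝ => ENNReal.ofReal (C' * R) *
      ENNReal.ofReal ((1 + |s|) * Real.exp (-(π * s ^ 2))) *
        ENNReal.ofReal ((R + |P * Q|)⁻¹)) q.1 q.2.1 q.2.2.1 q.2.2.2 := by
    show Measurable fun q : ℝ × ℝ × ℝ × ℝ => ENNReal.ofReal (C' * R) *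
      ENNReal.ofReal ((1 + |q.2.1|) * Real.exp (-(π * q.2.1 ^ 2))) *
        ENNReal.ofReal ((R + |q.2.2.1 * q.2.2.2|)⁻¹)
    fun_prop
  have h2 := Pool.Agent.AEL.box_change R (fun _ s P Q : ℝ => ENNReal.ofReal (C' * R) *
      ENNReal.ofReal ((1 + |s|) * Real.exp (-(π * s ^ 2))) * ENNReal.ofReal ((R + |P * Q|)⁻¹)) hFm
  have h3 : ∫⁻ τ in Box R, ENNReal.ofReal (kw R τ) ≤
      ∫⁻ _ in Icc (2 * R) (4 * R), ∫⁻ s : ℝ, ∫⁻ P in Icc (-R) R, ∫⁻ Q in Icc (-R) R, ENNReal.ofReal (C' * R) *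
      ENNReal.ofReal ((1 + |s|) * Real.exp (-(π * s ^ 2))) * ENNReal.ofReal ((R + |P * Q|)⁻¹) :=
    (setLIntegral_mono' (hpt2x_meas_box R) h1).trans h2
  refine h3.trans ?_
  have hUm : ∀ P : ℝ, Measurable fun Q : ℝ => ENNReal.ofReal ((R + |P * Q|)⁻¹) := fun P => by fun_prop
  have hVm : Measurable fun P : ℝ => ∫⁻ Q in Icc (-R) R, ENNReal.ofReal ((R + |P * Q|)⁻¹) := by
    have h4 : Measurable fun q : ℝ × ℝ => ENNReal.ofReal ((R + |q.1 * q.2|)⁻¹) := by fun_prop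
    exact h4.lintegral_prod_right'
  have h4 : ∀ s : ℝ, ∫⁻ P in Icc (-R) R, ∫⁻ Q in Icc (-R) R, ENNReal.ofReal (C' * R) *
      ENNReal.ofReal ((1 + |s|) * Real.exp (-(π * s ^ 2))) * ENNReal.ofReal ((R + |P * Q|)⁻¹) ≤
      ENNReal.ofReal (C' * R) * ENNReal.ofReal ((1 + |s|) * Real.exp (-(π * s ^ 2))) *
        ENNReal.ofReal (D * (1 + Real.log R) ^ 2) := by
    intro s
    simp only [lintegral_const_mul _ (hUm _)]
    rw [lintegral_const_mul _ hVm]
    exact mul_le_mul' le_rfl (hDi R (by linarith))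
  have hgm : Measurable fun s : ℝ => ENNReal.ofReal ((1 + |s|) * Real.exp (-(π * s ^ 2))) := by fun_prop
  have h5 : ∫⁻ s : ℝ, ∫⁻ P in Icc (-R) R, ∫⁻ Q in Icc (-R) R, ENNReal.ofReal (C' * R) *
      ENNReal.ofReal ((1 + |s|) * Real.exp (-(π * s ^ 2))) * ENNReal.ofReal ((R + |P * Q|)⁻¹) ≤
      ENNReal.ofReal (C' * R) * ENNReal.ofReal K * ENNReal.ofReal (D * (1 + Real.log R) ^ 2) := by
    refine (lintegral_mono h4).trans ?_
    rw [lintegral_mul_const _ (hgm.const_mul _), lintegral_const_mul _ hgm]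
    exact mul_le_mul' (mul_le_mul' le_rfl hKi) le_rfl
  refine (lintegral_mono fun _ => h5).trans (le_of_eq ?_)
  rw [lintegral_const, Measure.restrict_apply_univ, Real.volume_Icc, ← ENNReal.ofReal_mul (by positivity),
    ← ENNReal.ofReal_mul (by positivity), ← ENNReal.ofReal_mul (by positivity)]
  congr 1
  ring

theorem tau_int : ∃ C : ℝ, 0 < C ∧ ∀ R : ℝ, 1 ≤ R →
    ∫⁻ τ in Box R, ENNReal.ofReal (kw R τ) ≤ ENNReal.ofReal (C * R ^ 2 * (1 + Real.log R) ^ 2) := by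
  obtain ⟨C, hC, h⟩ := hpt2x_large
  refine ⟨64 + C, by positivity, fun R hR => ?_⟩
  have hlog : 0 ≤ Real.log R := Real.log_nonneg hR
  have h0 : 0 ≤ R ^ 2 * (1 + Real.log R) ^ 2 := by positivity
  rcases le_total R 8 with h8 | h8
  · refine (hpt2x_small R hR h8).trans (ENNReal.ofReal_le_ofReal ?_)
    nlinarith [mul_nonneg hC.le h0]
  · refine (h R h8).trans (ENNReal.ofReal_le_ofReal ?_)
    nlinarith

end Pool.Agent.AXD
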