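import Pool.Agent.AXD.PK
import Pool.Agent.AXD.PC2
import Pool.Agent.AXD.PT2

namespace Pool.Agent.AXD

open MeasureTheory Set Pool.Agent.MP_6cbfb8_an Pool.Agent.MST
open scoped ENNReal Real

theorem hpwx_norm {m : ℕ} (ρ : ℝ) (hρ : 0 ≤ ρ) (w : E m) (h : ∀ i, |w i| ≤ ρ) :
    ‖w‖ ≤ ρ * √m + 1 := by
  have h1 : ‖w‖ ≤ √((m : ℝ) * ρ ^ 2) := by
    rw [EuclideanSpace.norm_eq]
    apply Real.sqrt_le_sqrt
    calc ∑ i, ‖w i‖ ^ 2 ≤ ∑ _i : Fin m, ρ ^ 2 := by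
          refine Finset.sum_le_sum fun i _ => ?_
          rw [Real.norm_eq_abs]
          exact pow_le_pow_left₀ (abs_nonneg _) (h i) 2
      _ = (m : ℝ) * ρ ^ 2 := by simp
  have h2 : √((m : ℝ) * ρ ^ 2) = ρ * √m := by
    rw [Real.sqrt_mul (Nat.cast_nonneg m), Real.sqrt_sq hρ]
    ring
  rw [h2] at h1
  linarith

/-- the fourth power of the operator with the Gaussian factor -/
theorem hpwx_op {m : ℕ} (ρ : ℝ) (A : ℝ → ℂ) (a b : ℝ) (G : E m → ℂ)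
    (p : ((Fin m → ℝ) × ℝ) × ℝ) (y : E m) :
    ‖∫ w : E m, G w * amG ρ A a b p w * ex (inner ℝ w y)‖ₑ ^ (4:ℝ) =
      ENNReal.ofReal (Real.exp (-(π / 2 * ((∑ i, p.1.1 i ^ 2) + p.1.2 ^ 2)))) *
        ‖op ρ A a b p.1 p.2 G y‖ₑ ^ (4:ℝ) := by
  have h1 : ∫ w : E m, G w * amG ρ A a b p w * ex (inner ℝ w y) =
      ((Real.exp (-(π / 8 * ((∑ i, p.1.1 i ^ 2) + p.1.2 ^ 2))) : ℝ) : ℂ) *
        op ρ A a b p.1 p.2 G y := by
    unfold op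
    rw [← integral_const_mul]
    refine integral_congr_ae (Filter.Eventually.of_forall fun w => ?_)
    simp only [amG]
    ring
  rw [h1, enorm_mul, ENNReal.mul_rpow_of_nonneg _ _ (by norm_num : (0:ℝ) ≤ 4)]
  congr 1
  rw [← ofReal_norm, Complex.norm_real, Real.norm_of_nonneg (Real.exp_nonneg _),
    ENNReal.ofReal_rpow_of_nonneg (Real.exp_nonneg _) (by norm_num), ← Real.exp_mul]
  congr 2
  ring

theorem hpwx_wd {α : Type*} [MeasurableSpace α] (μ : Measure α) (g f : α → ℝ≥0∞)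
    (hg : Measurable g) (hf : Measurable f) :
    (∫⁻ a, f a ∂(μ.withDensity g)) = ∫⁻ a, g a * f a ∂μ :=
  lintegral_withDensity_eq_lintegral_mul μ hg hf

/-- integrals with respect to `nu` and `mu` -/
theorem hpwx_int (m : ℕ) (θ T : ℝ) (Φ : ((Fin m → ℝ) × ℝ) × ℝ → ℝ≥0∞) (hΦ : Measurable Φ) :
    ∫⁻ p, ENNReal.ofReal (Real.exp (-(π / 2 * ((∑ i, p.1.1 i ^ 2) + p.1.2 ^ 2)))) * Φ p
        ∂(nu m θ T) =
      ∫⁻ l, (∫⁻ t : ℝ, ENNReal.ofReal (|t| ^ θ * Real.exp (-(π * t ^ 2 / T ^ 2))) *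
        Φ (l, t)) ∂(mu m) := by
  have hg1 : Measurable fun l : (Fin m → ℝ) × ℝ =>
      ENNReal.ofReal (Real.exp (-(π / 2 * ((∑ i, l.1 i ^ 2) + l.2 ^ 2)))) := by fun_prop
  have hg2 : Measurable fun t : ℝ =>
      ENNReal.ofReal (|t| ^ θ * Real.exp (-(π * t ^ 2 / T ^ 2))) := by fun_prop
  have hgw : Measurable fun l : (Fin m → ℝ) × ℝ => ENNReal.ofReal (gw l) := by
    unfold gw
    fun_prop
  have hm1 : Measurable fun p : ((Fin m → ℝ) × ℝ) × ℝ =>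
      ENNReal.ofReal (Real.exp (-(π / 2 * ((∑ i, p.1.1 i ^ 2) + p.1.2 ^ 2)))) * Φ p :=
    (hg1.comp measurable_fst).mul hΦ
  unfold nu mu
  rw [lintegral_prod _ hm1.aemeasurable]
  have hin : Measurable fun l : (Fin m → ℝ) × ℝ =>
      ∫⁻ t : ℝ, ENNReal.ofReal (|t| ^ θ * Real.exp (-(π * t ^ 2 / T ^ 2))) * Φ (l, t) :=
    Measurable.lintegral_prod_right' (f := fun q : ((Fin m → ℝ) × ℝ) × ℝ =>
      ENNReal.ofReal (|q.2| ^ θ * Real.exp (-(π * q.2 ^ 2 / T ^ 2))) * Φ q)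
      ((hg2.comp measurable_snd).mul hΦ)
  have h2 : ∀ l : (Fin m → ℝ) × ℝ,
      (∫⁻ t : ℝ, ENNReal.ofReal (Real.exp (-(π / 2 * ((∑ i, l.1 i ^ 2) + l.2 ^ 2)))) * Φ (l, t)
          ∂((volume : Measure ℝ).withDensity fun t =>
            ENNReal.ofReal (|t| ^ θ * Real.exp (-(π * t ^ 2 / T ^ 2))))) =
      ENNReal.ofReal (Real.exp (-(π / 2 * ((∑ i, l.1 i ^ 2) + l.2 ^ 2)))) *
      ∫⁻ t : ℝ, ENNReal.ofReal (|t| ^ θ * Real.exp (-(π * t ^ 2 / T ^ 2))) * Φ (l, t) := by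
    intro l
    rw [lintegral_const_mul' _ _ ENNReal.ofReal_ne_top]
    congr 1
    exact hpwx_wd volume _ (fun t => Φ (l, t)) hg2 (hΦ.comp measurable_prodMk_left)
  have h3 : (fun l : (Fin m → ℝ) × ℝ =>
      (∫⁻ t : ℝ, ENNReal.ofReal (Real.exp (-(π / 2 * ((∑ i, l.1 i ^ 2) + l.2 ^ 2)))) * Φ (l, t)
          ∂((volume : Measure ℝ).withDensity fun t =>
            ENNReal.ofReal (|t| ^ θ * Real.exp (-(π * t ^ 2 / T ^ 2)))))) =
      fun l => ENNReal.ofReal (Real.exp (-(π / 2 * ((∑ i, l.1 i ^ 2) + l.2 ^ 2)))) *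
      ∫⁻ t : ℝ, ENNReal.ofReal (|t| ^ θ * Real.exp (-(π * t ^ 2 / T ^ 2))) * Φ (l, t) :=
    funext h2
  rw [h3]
  refine (hpwx_wd volume _ _ hg1 (hg1.mul hin)).trans (Eq.trans ?_ (hpwx_wd volume _ _ hgw hin).symm)
  refine lintegral_congr fun l => ?_
  show ENNReal.ofReal (Real.exp (-(π / 2 * ((∑ i, l.1 i ^ 2) + l.2 ^ 2)))) *
      (ENNReal.ofReal (Real.exp (-(π / 2 * ((∑ i, l.1 i ^ 2) + l.2 ^ 2)))) *
        ∫⁻ t : ℝ, ENNReal.ofReal (|t| ^ θ * Real.exp (-(π * t ^ 2 / T ^ 2))) * Φ (l, t)) =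
    ENNReal.ofReal (gw l) *
      ∫⁻ t : ℝ, ENNReal.ofReal (|t| ^ θ * Real.exp (-(π * t ^ 2 / T ^ 2))) * Φ (l, t)
  rw [← mul_assoc, ← ENNReal.ofReal_mul (Real.exp_nonneg _), ← Real.exp_add]
  congr 2
  unfold gw
  congr 1
  ring

/-- removing the cutoff -/
theorem hpwx_sup (m : ℕ) (θ R : ℝ) (hR : 1 ≤ R) (Φ : ((Fin m → ℝ) × ℝ) × ℝ → ℝ≥0∞)
    (hΦ : Measurable Φ) (B : ℝ≥0∞)
    (h : ∀ n : ℕ, ∫⁻ l, (∫⁻ t : ℝ, ENNReal.ofReal (|t| ^ θ *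
      Real.exp (-(π * t ^ 2 / (R + n) ^ 2))) * Φ (l, t)) ∂(mu m) ≤ B) :
    ∫⁻ l, (∫⁻ t : ℝ, ENNReal.ofReal (|t| ^ θ) * Φ (l, t)) ∂(mu m) ≤ B := by
  have hg2 : ∀ T : ℝ, Measurable fun t : ℝ =>
      ENNReal.ofReal (|t| ^ θ * Real.exp (-(π * t ^ 2 / T ^ 2))) := fun T => by fun_prop
  have hmono : ∀ t : ℝ, Monotone fun n : ℕ =>
      ENNReal.ofReal (|t| ^ θ * Real.exp (-(π * t ^ 2 / (R + n) ^ 2))) := by
    intro t n n' hn
    apply ENNReal.ofReal_le_ofReal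
    have hn' : (n : ℝ) ≤ n' := by exact_mod_cast hn
    have hn0 : (0 : ℝ) ≤ n := Nat.cast_nonneg n
    gcongr
  have hsup : ∀ t : ℝ, ⨆ n : ℕ, ENNReal.ofReal (|t| ^ θ * Real.exp (-(π * t ^ 2 / (R + n) ^ 2))) =
      ENNReal.ofReal (|t| ^ θ) := by
    intro t
    refine iSup_eq_of_tendsto (hmono t) ?_
    refine ENNReal.tendsto_ofReal ?_
    have e1 : Filter.Tendsto (fun n : ℕ => (R + (n : ℝ))) Filter.atTop Filter.atTop :=
      Filter.tendsto_atTop_add_const_left _ _ tendsto_natCast_atTop_atTop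
    have e2 : Filter.Tendsto (fun n : ℕ => (R + (n : ℝ)) ^ 2) Filter.atTop Filter.atTop :=
      (Filter.tendsto_pow_atTop two_ne_zero).comp e1
    have e3 : Filter.Tendsto (fun n : ℕ => -(π * t ^ 2 / (R + n) ^ 2)) Filter.atTop (nhds (-0)) :=
      (e2.const_div_atTop (π * t ^ 2)).neg
    have e4 := ((Real.continuous_exp.tendsto (-0)).comp e3).const_mul (|t| ^ θ)
    simpa using e4
  have hL4 : ∀ l : (Fin m → ℝ) × ℝ, ∫⁻ t : ℝ, ENNReal.ofReal (|t| ^ θ) * Φ (l, t) =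
      ⨆ n : ℕ, ∫⁻ t : ℝ, ENNReal.ofReal (|t| ^ θ * Real.exp (-(π * t ^ 2 / (R + n) ^ 2))) *
        Φ (l, t) := by
    intro l
    rw [← lintegral_iSup]
    · refine lintegral_congr fun t => ?_
      rw [← ENNReal.iSup_mul, hsup]
    · intro n
      exact (hg2 (R + n)).mul (hΦ.comp measurable_prodMk_left)
    · intro n n' hn t
      exact mul_le_mul_left (hmono t hn) _
  rw [lintegral_congr hL4, lintegral_iSup]
  · exact iSup_le h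
  · intro n
    exact Measurable.lintegral_prod_right' (f := fun q : ((Fin m → ℝ) × ℝ) × ℝ =>
      ENNReal.ofReal (|q.2| ^ θ * Real.exp (-(π * q.2 ^ 2 / (R + n) ^ 2))) * Φ q)
        (((hg2 (R + n)).comp measurable_snd).mul hΦ)
  · intro n n' hn l
    refine lintegral_mono fun t => ?_
    exact mul_le_mul_left (hmono t hn) _

theorem hpwx_Phi {m : ℕ} (ρ : ℝ) (A : ℝ → ℂ) (hA : Continuous A) (a b : ℝ) (G : E m → ℂ)
    (hG : Measurable G) : Measurable fun q : ((Fin m → ℝ) × ℝ) × ℝ =>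
      ∫⁻ y : E m, ‖op ρ A a b q.1 q.2 G y‖ₑ ^ (4:ℝ) := by
  have hop := measurable_op ρ A hA a b G hG
  exact Measurable.lintegral_prod_right' (hop.enorm.pow_const _)

theorem hpwx_box (R : ℝ) : MeasurableSet (Box R) := by
  have h : Box R = ⋂ i, {t : Fin 4 → ℝ | R ≤ t i ∧ t i ≤ 2 * R} := by
    ext t
    simp [Box]
  rw [h]
  refine MeasurableSet.iInter fun i => ?_
  exact (measurableSet_le measurable_const (measurable_pi_apply i)).inter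
    (measurableSet_le (measurable_pi_apply i) measurable_const)

/-- Tonelli -/
theorem hpwx_ton (m : ℕ) (ρ R c : ℝ) (hc : 0 ≤ c) (K : ℝ≥0∞) (hK : K ≠ ∞)
    (h : ∀ τ ∈ Box R, ∫⁻ x : ℝ × ℝ × ℝ, fc ρ τ x ≤ K) :
    ∫⁻ q : E m × E m × E m, (∫⁻ τ in Box R, ENNReal.ofReal (c * kw R τ) *
        ∏ i, fc ρ τ (q.1 i, q.2.1 i, q.2.2 i)) ≤
      (ENNReal.ofReal c * K ^ m) * ∫⁻ τ in Box R, ENNReal.ofReal (kw R τ) := by
  have e1 : Measurable fun τ : Fin 4 → ℝ => ENNReal.ofReal (c * kw R τ) :=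
    ((measurable_kw R).const_mul _).ennreal_ofReal
  have e3 : Measurable fun x : (E m × E m × E m) × (Fin 4 → ℝ) =>
      ∏ i, fc ρ x.2 (x.1.1 i, x.1.2.1 i, x.1.2.2 i) := by
    refine Finset.measurable_prod _ fun i _ => ?_
    have e2 : Measurable fun x : (E m × E m × E m) × (Fin 4 → ℝ) =>
        (x.2, (x.1.1 i, x.1.2.1 i, x.1.2.2 i)) := by fun_prop
    have e4 := (measurable_fc ρ).comp e2
    exact e4
  have hmeas : Measurable (Function.uncurry fun (q : E m × E m × E m) (τ : Fin 4 → ℝ) =>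
      ENNReal.ofReal (c * kw R τ) * ∏ i, fc ρ τ (q.1 i, q.2.1 i, q.2.2 i)) :=
    Measurable.mul (f := fun x : (E m × E m × E m) × (Fin 4 → ℝ) =>
      ENNReal.ofReal (c * kw R x.2)) (e1.comp measurable_snd) e3
  rw [lintegral_lintegral_swap hmeas.aemeasurable]
  have h4 : ∀ τ ∈ Box R, ∫⁻ q : E m × E m × E m, ENNReal.ofReal (c * kw R τ) *
        ∏ i, fc ρ τ (q.1 i, q.2.1 i, q.2.2 i) ≤
      (ENNReal.ofReal c * K ^ m) * ENNReal.ofReal (kw R τ) := by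
    intro τ hτ
    have e5 : Measurable fun x : ℝ × ℝ × ℝ => (τ, x) := measurable_prodMk_left
    have e6 := (measurable_fc ρ).comp e5
    have hf : Measurable (fc ρ τ) := e6
    rw [lintegral_const_mul' _ _ ENNReal.ofReal_ne_top, space m (fc ρ τ) hf,
      ENNReal.ofReal_mul hc]
    calc ENNReal.ofReal c * ENNReal.ofReal (kw R τ) * (∫⁻ x, fc ρ τ x) ^ m ≤
        ENNReal.ofReal c * ENNReal.ofReal (kw R τ) * K ^ m := by
          gcongr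
          exact h τ hτ
      _ = _ := by ring
  refine (setLIntegral_mono' (hpwx_box R) h4).trans ?_
  rw [lintegral_const_mul' _ _ (ENNReal.mul_ne_top ENNReal.ofReal_ne_top (ENNReal.pow_ne_top hK))]

theorem hpwx_num (m : ℕ) (θ C1 C2 C3 R : ℝ) (h1 : 0 < C1) (h2 : 0 < C2) (hR : 1 ≤ R) :
    (ENNReal.ofReal (C1 * R ^ (-((1 - θ) / 2))) *
        ENNReal.ofReal (C2 * (1 + Real.log R) / R) ^ m) *
      ENNReal.ofReal (C3 * R ^ 2 * (1 + Real.log R) ^ 2) =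
    ENNReal.ofReal (C1 * C2 ^ m * C3 * (1 + Real.log R) ^ (m + 2) *
      R ^ (2 - (m:ℝ) - (1 - θ) / 2)) := by
  have hR0 : 0 < R := by linarith
  have hlog : 0 ≤ Real.log R := Real.log_nonneg hR
  rw [← ENNReal.ofReal_pow (by positivity), ← ENNReal.ofReal_mul (by positivity),
    ← ENNReal.ofReal_mul (by positivity)]
  congr 1
  have e3 : R ^ (2 - (m:ℝ) - (1 - θ) / 2) = R ^ (-((1 - θ) / 2)) * (R ^ 2 / R ^ m) := by
    rw [show 2 - (m:ℝ) - (1 - θ) / 2 = -((1 - θ) / 2) + (2 - (m:ℝ)) by ring,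
      Real.rpow_add hR0, Real.rpow_sub hR0, Real.rpow_natCast]
    congr 2
    exact_mod_cast Real.rpow_natCast R 2
  rw [e3, div_pow, mul_pow]
  field_simp
  ring

/-- the bound for a fixed cutoff -/
theorem hpwx_bound (m : ℕ) (ρ θ : ℝ) (hρ : 1 ≤ ρ) (h0 : 0 ≤ θ) (h1 : θ ≤ 1) : ∃ C : ℝ, 0 < C ∧
    ∀ R T : ℝ, 1 ≤ R → R ≤ T → ∀ A : ℝ → ℂ, Continuous A → (∀ τ ∈ Icc R (2 * R), ‖A τ‖ ≤ 1) →
    ∀ G : E m → ℂ, Measurable G → (∀ w, ‖G w‖ ≤ 1) →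
    ∫⁻ p, (∫⁻ y : E m, ‖∫ w : E m, G w * amG ρ A R (2 * R) p w * ex (inner ℝ w y)‖ₑ ^ (4:ℝ))
        ∂(nu m θ T) ≤
      ENNReal.ofReal (C * (1 + Real.log R) ^ (m + 2) * R ^ (2 - (m:ℝ) - (1 - θ) / 2)) := by
  obtain ⟨C1, hC1, hk⟩ := kern (m := m) ρ θ hρ h0 h1
  obtain ⟨C2, hC2, hc⟩ := coord ρ hρ
  obtain ⟨C3, hC3, ht⟩ := tau_int
  refine ⟨C1 * C2 ^ m * C3, by positivity, ?_⟩
  intro R T hR hRT A hA h1A G hG hb
  have hR0 : 0 < R := by linarith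
  have hT0 : 0 < T := by linarith
  have hfin : IsFiniteMeasure (nu m θ T) := finite_nu m θ T h0 hT0
  obtain ⟨B, hB⟩ := amG_bound (m := m) ρ A R (2 * R) (by linarith) h1A
  have hz : ∀ (p : ((Fin m → ℝ) × ℝ) × ℝ) (w : E m), ρ * √m + 1 < ‖w‖ →
      amG ρ A R (2 * R) p w = 0 := by
    intro p w hw
    have h3 : ¬ ∀ i, |w i| ≤ ρ := fun h4 =>
      absurd (hpwx_norm ρ (by linarith) w h4) (not_le.2 hw)
    unfold amG
    rw [am_zero ρ A R (2 * R) p.1 p.2 w h3, mul_zero]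
  refine (four_linear_param (nu m θ T) (fun p w => amG ρ A R (2 * R) p w)
    (measurable_amG ρ A hA R (2 * R)) B (ρ * √m + 1) hB hz G hG hb).trans ?_
  refine (lintegral_mono fun q => hk R T hR hRT A hA h1A q).trans ?_
  refine (hpwx_ton m ρ R (C1 * R ^ (-((1 - θ) / 2))) (by positivity)
    (ENNReal.ofReal (C2 * (1 + Real.log R) / R)) ENNReal.ofReal_ne_top (hc R hR)).trans ?_
  refine (mul_le_mul_right (ht R hR) _).trans (le_of_eq ?_)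
  exact hpwx_num m θ C1 C2 C3 R hC1 hC2 hR

theorem L4_bound (m : ℕ) (ρ θ : ℝ) (hρ : 1 ≤ ρ) (h0 : 0 ≤ θ) (h1 : θ ≤ 1) : ∃ C : ℝ, 0 < C ∧
    ∀ R : ℝ, 1 ≤ R → ∀ A : ℝ → ℂ, Continuous A → (∀ τ ∈ Icc R (2 * R), ‖A τ‖ ≤ 1) →
    ∀ G : E m → ℂ, Measurable G → (∀ w, ‖G w‖ ≤ 1) →
    ∫⁻ l, L4 ρ θ A R (2 * R) G l ∂(mu m) ≤
      ENNReal.ofReal (C * (1 + Real.log R) ^ (m + 2) * R ^ (2 - (m:ℝ) - (1 - θ) / 2)) := by
  obtain ⟨C, hC, hbd⟩ := hpwx_bound m ρ θ hρ h0 h1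
  refine ⟨C, hC, ?_⟩
  intro R hR A hA h1A G hG hb
  have hPhi := hpwx_Phi ρ A hA R (2 * R) G hG
  refine hpwx_sup m θ R hR _ hPhi _ fun n => ?_
  have hn0 : (0 : ℝ) ≤ n := Nat.cast_nonneg n
  refine le_trans (le_of_eq ?_) (hbd R (R + n) hR (by linarith) A hA h1A G hG hb)
  rw [← hpwx_int m θ (R + n) _ hPhi]
  refine lintegral_congr fun p => ?_
  rw [← lintegral_const_mul' _ _ ENNReal.ofReal_ne_top]
  exact lintegral_congr fun y => (hpwx_op ρ A R (2 * R) G p y).symm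

end Pool.Agent.AXD
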